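import Pool.Agent.H30.ZO.Ca

/-!
ROW Cb (project MP_78d38b_ZO, about 150 lines): points with the same class differ by a double. Use only the STATEMENT of Ca.

PROOF. Notation `Lb_P A B d P` of Pool/Agent/H73/P2/Lb.lean (`P = (x, y)`, `y ≠ 0`, `d (x - T)` is a square). `P := (x, y)`, `P' := (x', y')`. `Lb_P A B ![x, -1, 0] P` (with the square root `![x, -1, 0]`), `Lb_P A B ![x', -1, 0] P'`. Copy the proof of `LC_mul` (same file): with `Lb_avoid`, `Lb_dbl`, `Lb_add` there is `Q` with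
`Lb_P A B (m3 A B ![x, -1, 0] ![x', -1, 0]) (P + (Q + Q) + P')`. So `P + (Q + Q) + P' = (x'', y'')` and `m3 (m3 z z) ![x'', -1, 0] = m3 u u` for some `u` (use `hz`). `z` is invertible: the norm form `Te_nf` (Pool/Agent/H76/PP/Te.lean) is multiplicative (`Te_nf_mul`) and `Te_nf A B ![x, -1, 0] = x^3 + A x + B = y^2 ≠ 0`, similarly for `x'`, so
`Te_nf z ^ 2 = y^2 y'^2 ≠ 0`; the inverse is `z' := fun j => Te_C A B z j / Te_nf A B z` (`Te_m3_adj`: `m3 z (Te_C z) = ![Te_nf z, 0, 0]`). So `m3 (m3 u z') (m3 u z') = ![x'', -1, 0]` (`m3` is commutative and associative with unit `![1, 0, 0]`: polynomial identities by `funext j; fin_cases j; simp [m3]; ring`). halve: `P + (Q + Q) + P' = U + U`.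
Hence `P - P' = (U - Q - P') + (U - Q - P')` (`abel`).
-/

set_option autoImplicit false
set_option linter.unusedSectionVars false
open scoped Classical

open WithZero WeierstrassCurve H76PP

namespace H30ZO

theorem Cb_comm {F : Type} [Field F] (A B : F) (u v : Fin 3 → F) : m3 A B u v = m3 A B v u := by
  funext j
  fin_cases j <;> simp [m3] <;> ring

theorem Cb_assoc {F : Type} [Field F] (A B : F) (u v w : Fin 3 → F) :
    m3 A B (m3 A B u v) w = m3 A B u (m3 A B v w) := by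
  funext j
  fin_cases j <;> simp [m3] <;> ring

theorem Cb_inv {F : Type} [Field F] {A B : F} {z : Fin 3 → F} (h : Te_nf A B z ≠ 0) :
    m3 A B z (fun j => Te_C A B z j / Te_nf A B z) = ![1, 0, 0] := by
  have h1 := Te_m3_adj A B z
  have h2 : m3 A B z (fun j => Te_C A B z j / Te_nf A B z) =
      fun j => m3 A B z (Te_C A B z) j / Te_nf A B z := by
    funext j
    fin_cases j <;> simp [m3] <;> ring
  rw [h2, h1]
  funext j
  fin_cases j <;> simp [h]

theorem Cb_root {F : Type} [Field F] {A B : F} {z u X : Fin 3 → F} (h : Te_nf A B z ≠ 0)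
    (hu : m3 A B (m3 A B z z) X = m3 A B u u) : ∃ w : Fin 3 → F, m3 A B w w = X := by
  set z' : Fin 3 → F := fun j => Te_C A B z j / Te_nf A B z with hz'
  have hz : m3 A B z z' = ![1, 0, 0] := Cb_inv h
  refine ⟨m3 A B u z', ?_⟩
  have h1 : m3 A B (m3 A B u z') (m3 A B u z') = m3 A B (m3 A B u u) (m3 A B z' z') := by
    rw [Cb_assoc, Cb_comm A B z', Cb_assoc A B u z', ← Cb_assoc A B u u]
  have h2 : m3 A B (m3 A B (m3 A B z z) X) (m3 A B z' z') =
      m3 A B X (m3 A B (m3 A B z z') (m3 A B z z')) := by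
    have h3 : m3 A B (m3 A B z z') (m3 A B z z') = m3 A B (m3 A B z z) (m3 A B z' z') := by
      rw [Cb_assoc, Cb_comm A B z', Cb_assoc A B z z', ← Cb_assoc A B z z]
    rw [h3, Cb_comm A B (m3 A B z z) X, Cb_assoc]
  rw [h1, ← hu, h2, hz, H73P2.Lb_one, H73P2.Lb_one]

theorem diff_D2 {F : Type} [Field F] [CharZero F] {A B : F} (hD : 4 * A ^ 3 + 27 * B ^ 2 ≠ 0)
    (hinf : Infinite (Pc A B)) {x y x' y' : F}
    (h : (⟨0, 0, 0, A, B⟩ : WeierstrassCurve F).toAffine.Nonsingular x y)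
    (h' : (⟨0, 0, 0, A, B⟩ : WeierstrassCurve F).toAffine.Nonsingular x' y')
    (hy : y ≠ 0) (hy' : y' ≠ 0) {z : Fin 3 → F}
    (hz : m3 A B z z = m3 A B ![x, -1, 0] ![x', -1, 0]) :
    ∃ Q : Pc A B, Q + Q = Affine.Point.some x y h - Affine.Point.some x' y' h' := by
  have h2 : (2 : F) ≠ 0 := two_ne_zero
  have hnx : ∀ {s t : F} (hst : (⟨0, 0, 0, A, B⟩ : WeierstrassCurve F).toAffine.Nonsingular s t),
      t ≠ 0 → Te_nf A B ![s, -1, 0] ≠ 0 := by
    intro s t hst ht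
    have h3 : Te_nf A B ![s, -1, 0] = t ^ 2 := by
      rw [H73P2.Lb_eqn hst]
      simp [Te_nf]
      ring
    rw [h3]
    exact pow_ne_zero 2 ht
  have hnz : Te_nf A B z ≠ 0 := by
    intro h0
    have h3 := congrArg (Te_nf A B) hz
    rw [Te_nf_mul, Te_nf_mul, h0, zero_mul] at h3
    exact mul_ne_zero (hnx h hy) (hnx h' hy') h3.symm
  set P₁ : (⟨0, 0, 0, A, B⟩ : WeierstrassCurve F).toAffine.Point := Affine.Point.some x y h with hP₁
  set P₂ : (⟨0, 0, 0, A, B⟩ : WeierstrassCurve F).toAffine.Point := Affine.Point.some x' y' h'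
    with hP₂
  have L₁ : H73P2.Lb_P A B ![x, -1, 0] P₁ := ⟨x, y, h, ![x, -1, 0], hP₁, hy, rfl⟩
  have L₂ : H73P2.Lb_P A B ![x', -1, 0] P₂ := ⟨x', y', h', ![x', -1, 0], hP₂, hy', rfl⟩
  obtain ⟨Q, hQ⟩ := H73P2.Lb_avoid hD hinf
    {0, P₁ + P₁, -(P₁ + P₁), (P₂ - P₁) + (P₂ - P₁), -((P₁ + P₂) + (P₁ + P₂))} (by simp)
  have q0 : 4 • Q ≠ 0 := hQ _ (by simp)
  have q1 : 4 • Q ≠ P₁ + P₁ := hQ _ (by simp)
  have q2 : 4 • Q ≠ -(P₁ + P₁) := hQ _ (by simp)
  have q3 : 4 • Q ≠ (P₂ - P₁) + (P₂ - P₁) := hQ _ (by simp)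
  have q4 : 4 • Q ≠ -((P₁ + P₂) + (P₁ + P₂)) := hQ _ (by simp)
  have h4 : 4 • Q = (Q + Q) + (Q + Q) := by abel
  have hT : H73P2.Lb_P A B ![1, 0, 0] (Q + Q) := by
    refine H73P2.Lb_dbl h2 Q ?_ ?_
    · intro h
      apply q0
      rw [h4, h, add_zero]
    · rw [← h4]
      exact q0
  have hA : H73P2.Lb_P A B ![x, -1, 0] (P₁ + (Q + Q)) := by
    have := H73P2.Lb_add L₁ hT ?_ ?_ ?_
    · rwa [H73P2.Lb_one] at this
    · intro h
      apply q1
      rw [h4, ← h]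
    · intro h
      apply q2
      rw [h4, h]
      abel
    · intro h
      apply q2
      rw [h4, eq_neg_iff_add_eq_zero, ← h]
      abel
  have hB := H73P2.Lb_add hA L₂ ?_ ?_ ?_
  · obtain ⟨x'', y'', n'', u, hP'', hy'', hu⟩ := hB
    rw [← hz] at hu
    obtain ⟨w, hw⟩ := Cb_root hnz hu
    obtain ⟨U, hU⟩ := halve hD n'' hw
    refine ⟨U - Q - P₂, ?_⟩
    have h5 : U + U = P₁ + (Q + Q) + P₂ := by rw [hU, hP'']
    have h6 : U - Q - P₂ + (U - Q - P₂) = (U + U) - (Q + Q) - P₂ - P₂ := by abel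
    rw [h6, h5]
    abel
  · intro h
    apply q3
    rw [h4, ← h]
    abel
  · intro h
    apply q4
    rw [h4]
    have : P₂ = -(P₁ + (Q + Q)) := by rw [h, neg_neg]
    rw [this]
    abel
  · intro h
    apply q4
    rw [h4, eq_neg_iff_add_eq_zero, ← h]
    abel

end H30ZO
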