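import Pool.Agent.H30.ZO.Df

/-!
ROW Na (project MP_78d38b_ZO, about 60 lines): the local condition depends only on the class.

PROOF. (⇐) by definition. (⇒) `Wc`: `d'` with `ev θ d' ≠ 0`, `sc (ev θ d') = sc (ev θ d)`, `LC i a b d'`. The quotient of the two elements is a square: there is `u ∈ L`, `u ≠ 0`, with `ev θ d = ev θ d' * u^2` (`sc_mul`, `H38T1.sc_eq_zero`, `2 c = 0`: `sc (ev θ d * ev θ d') = 0` so `ev θ d * ev θ d' = t^2`, `u = t / ev θ d'`).
With the coordinates `e` of `u` (`Cub.eq_co`): `ev θ d = ev θ (m3 a b d' (m3 a b e e))` (`Te_ev_mul`), so `d = m3 a b d' (m3 a b e e)` by the uniqueness of coordinates (`Cub.co_mk`), and `H73P2.LC_sq` (Pool/Agent/H73/P2/Lb.lean) gives `LC i a b d`.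
-/

set_option autoImplicit false
set_option linter.unusedSectionVars false
open scoped Classical

open WithZero NumberField IsDedekindDomain H38RT
open H38T1 (SC sc scu rep eo la si Pri OddP tp unif)
open H76PP

namespace H30ZO

theorem Na_ev_mul {k L : Type} [Field k] [Field L] [Algebra k L] {a b : k} {θ : L}
    (h : Cub k L a b θ) (u v : Fin 3 → k) : ev θ u * ev θ v = ev θ (m3 a b u v) := by
  have hr := h.root
  simp only [ev, m3, Matrix.cons_val_zero, Matrix.cons_val_one, Matrix.cons_val_two,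
    Matrix.head_cons, Matrix.tail_cons, Matrix.cons_val, map_add, map_sub, map_mul]
  generalize algebraMap k L (u 0) = a0
  generalize algebraMap k L (u 1) = a1
  generalize algebraMap k L (u 2) = a2
  generalize algebraMap k L (v 0) = b0
  generalize algebraMap k L (v 1) = b1
  generalize algebraMap k L (v 2) = b2
  linear_combination (a1 * b2 + a2 * b1 + a2 * b2 * θ) * hr

theorem Na_inj {k L : Type} [Field k] [Field L] [Algebra k L] {a b : k} {θ : L}
    (h : Cub k L a b θ) {d e : Fin 3 → k} (he : ev θ d = ev θ e) : d = e := by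
  unfold ev at he
  obtain ⟨h0, h1, h2⟩ := h.li (d 0 - e 0) (d 1 - e 1) (d 2 - e 2) (by
    rw [map_sub, map_sub, map_sub]
    linear_combination he)
  funext j
  fin_cases j
  · exact sub_eq_zero.1 h0
  · exact sub_eq_zero.1 h1
  · exact sub_eq_zero.1 h2

theorem Wc_iff {k L F : Type} [Field k] [Field L] [Algebra k L] [Field F] (i : k →+* F) {a b : k}
    {θ : L} (h : Cub k L a b θ) {d : Fin 3 → k} (hd : ev θ d ≠ 0) :
    Wc i a b θ (sc (ev θ d)) ↔ LC i a b d := by
  constructor
  · rintro ⟨d', hd', hc, hL⟩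
    have h2 : sc (ev θ d * ev θ d') = 0 := by
      rw [H38T1.sc_mul hd hd', hc, ← two_nsmul, H38T1.SC.two_smul]
    obtain ⟨t, ht⟩ := (H38T1.sc_eq_zero (mul_ne_zero hd hd')).1 h2
    obtain ⟨e0, e1, e2, hu⟩ := h.sp (t / ev θ d')
    obtain ⟨e, he⟩ : ∃ e : Fin 3 → k, ev θ e = t / ev θ d' := ⟨![e0, e1, e2], by
      rw [hu]
      simp [ev]⟩
    have h3 : ev θ d = ev θ (m3 a b d' (m3 a b e e)) := by
      rw [← Na_ev_mul h, ← Na_ev_mul h, he]
      have h4 : ev θ d' * (t / ev θ d' * (t / ev θ d')) = t * t / ev θ d' := by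
        field_simp
      rw [h4, ← ht, mul_div_cancel_right₀ _ hd']
    rw [Na_inj h h3]
    exact H73P2.LC_sq i e hL
  · intro hL
    exact ⟨d, hd, rfl, hL⟩

end H30ZO
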