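import Pool.Agent.H30.ZO.Ah

/-!
ROW Ai (project MP_78d38b_ZO, about 60 lines): the norm of a class which is a square at all places above `v`. Use only the STATEMENT of Ah.

PROOF. `c = sc x`, `x ≠ 0` (`H38T1.sc_surj`), `x = ev θ d` (`Cub.eq_co`, `d j := h.co j x`). sq_alg: `z` with `z^2 = d` in the algebra over `F`. The norm form `Te_nf` (Pool/Agent/H76/PP/Te.lean: `Te_nf_mul`, `Te_nf_map`, `Te_norm`) gives `Te_nf z ^ 2 = Te_nf d = image of N_{L/k} x`, so
`N x` is a square in `F = v.adicCompletion k`. `scm_sc`, `mem_Sq` (for the field `k`). `N x ≠ 0`: `Algebra.norm_ne_zero_iff`.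
-/

set_option autoImplicit false
set_option linter.unusedSectionVars false
open scoped Classical

open WithZero NumberField IsDedekindDomain H38RT
open H38T1 (SC sc scu rep eo la si Pri OddP tp unif)
open H76PP

namespace H30ZO

variable {k L : Type} [Field k] [NumberField k] [Field L] [NumberField L] [Algebra k L]

theorem norm_Sqv {a b : k} {θ : L} (h : Cub k L a b θ) (v : HeightOneSpectrum (𝓞 k))
    (ha : v.valuation k a ≤ 1) (hb : v.valuation k b ≤ 1) {c : SC L} (hc : c ∈ Sqv k L v) :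
    scm (Algebra.norm k : L →* k) c ∈ Sq v := by
  have _ : FiniteDimensional k L := Module.Finite.of_restrictScalars_finite ℚ k L
  obtain ⟨x, hx, rfl⟩ := H38T1.sc_surj c
  obtain ⟨c₀, c₁, c₂, hx2⟩ := h.sp x
  obtain ⟨d, hd⟩ : ∃ d : Fin 3 → k, d = ![c₀, c₁, c₂] := ⟨_, rfl⟩
  have hxd : x = ev θ d := by
    rw [hd, hx2]
    rfl
  rw [hxd] at hx hc
  rw [hxd]
  obtain ⟨z, hz⟩ := sq_alg h v ha hb hx hc
  have hn : Algebra.norm k (ev θ d) ≠ 0 := Algebra.norm_ne_zero_iff.2 hx
  rw [scm_sc _ hx, mem_Sq hn, Te_norm h d]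
  refine ⟨Te_nf (algebraMap k (v.adicCompletion k) a) (algebraMap k (v.adicCompletion k) b) z, ?_⟩
  rw [← Te_nf_mul, hz]
  exact (Te_nf_map (algebraMap k (v.adicCompletion k)) a b d).symm

end H30ZO
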