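import Pool.Agent.H30.ZO.Df2
import Pool.Agent.H76.PP.Tf

/-!
ROW Bf (project MP_78d38b_ZO, about 200 lines): the points of level at least `m` have finite index.

PROOF. `F := v.adicCompletion k`, `V := Valued.v`, `D := 4 A^3 + 27 B^2 ≠ 0`, `π ∈ k` a uniformizer. Choose `N` with `exp (-N) < V (4 D)` and `N ≥ 8 m + 8` or so (see below). The code of a point `P`: `none` if `P ∈ H`, and otherwise (`P = (x, y)`, `V x < exp (2 m)`, `V y ≤ exp (3 m)`) the pair of the classes of `π^(3 m) x`, `π^(3 m) y` modulo `π^N`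
(classes of integers of the completion modulo `π^N` form a finite set: every integer of the completion is congruent to an element of `𝓞 k` modulo `π^N` (density) and `𝓞 k ⧸ v.asIdeal ^ N` is finite; choose such an element of `𝓞 k ⧸ v.asIdeal ^ N` as the code). The set of codes is finite, so it suffices: two points `P, P'` with equal codes have `P - P' ∈ H`
(then the map `Pc A B ⧸ H → codes` can be chosen injective: choose a representative in every coset). Both in `H`: clear. Otherwise `P = (x, y)`, `P' = (x', y')` with `V (x - x') ≤ exp (-N')`, `V (y - y') ≤ exp (-N')`, `N' := N - 3 m`. If `P = P'` done. `g := x^2 + x x' + x'^2 + A`, `(y - y')(y + y') = (x - x') g`. `P - P' = P + (x', -y')`.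
(i) `x ≠ x'`: the slope is `ℓ = (y + y') / (x - x')` and the first coordinate of `P - P'` is `ℓ^2 - x - x'`; if `V ℓ ≥ exp m` then, since `V (x + x') < exp (2 m) ≤ V ℓ ^ 2`, it has valuation at least `exp (2 m)` (equal to `V ℓ ^ 2`). Otherwise `V (y + y') < exp m V (x - x')`, so `V (y + y') ≤ exp (m - N')` and `V g V (x - x') = V (y - y') V (y + y') ≤ exp (-N') exp m V (x - x')`:
`V g ≤ exp (m - N')`. Then `V (2 y) ≤ exp (m - N')` and `V (3 x^2 + A) ≤ max (V g) (V (x - x') exp (2 m)) ≤ exp (2 m - N')`, `V (4 y^2) ≤ exp (m - N' + 3 m)`... (`V (4 (x^3 + A x + B)) = V (2 y)^2`). The identity `(6 A x^2 - 9 B x + 4 A^2)(3 x^2 + A) - (18 A x - 27 B)(x^3 + A x + B) = D` multiplied by `4` gives `V (4 D) ≤ exp (8 m - N')` (crude: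
the factors in brackets have valuation at most `exp (4 m)`), contradiction for `N` with `exp (8 m - (N - 3 m)) < V (4 D)`.
(ii) `x = x'`: `y' = -y ≠ y`, `P - P' = 2 P`, `ℓ = (3 x^2 + A) / (2 y)`, `V (2 y) = V (y - y') ≤ exp (-N')`. If `V ℓ ≥ exp m` the first coordinate `ℓ^2 - 2 x` has valuation at least `exp (2 m)`; otherwise `V (3 x^2 + A) ≤ exp (m - N')` and the same identity gives a contradiction.
(`Affine.Point.add_some`, `Affine.slope_of_X_ne`, `slope_of_Y_ne`, `Affine.addX`; `Lb_add`, `Lb_dbl` in Pool/Agent/H73/P2/Lb.lean. `y` bounded: `V y ^ 2 = V (x^3 + A x + B) ≤ exp (6 m)`.)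
-/

set_option autoImplicit false
set_option linter.unusedSectionVars false
open scoped Classical

open WithZero WeierstrassCurve NumberField IsDedekindDomain

namespace H30ZO


private theorem Bf_num {F : Type} [Field F] (V : Valuation F (WithZero (Multiplicative ℤ)))
    (n : ℕ) : V (n : F) ≤ exp 0 := by
  rw [exp_zero]
  induction n with
  | zero => rw [Nat.cast_zero, map_zero]; exact zero_le
  | succ n ih =>
    rw [Nat.cast_succ]
    exact V.map_add_le ih (le_of_eq (map_one V))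

private theorem Bf_mul {F : Type} [Field F] (V : Valuation F (WithZero (Multiplicative ℤ)))
    {a b : F} {i j : ℤ} (ha : V a ≤ exp i) (hb : V b ≤ exp j) : V (a * b) ≤ exp (i + j) := by
  rw [map_mul, exp_add]
  exact mul_le_mul' ha hb

private theorem Bf_mono {F : Type} [Field F] (V : Valuation F (WithZero (Multiplicative ℤ)))
    {a : F} {i j : ℤ} (ha : V a ≤ exp i) (h : i ≤ j) : V a ≤ exp j :=
  ha.trans (exp_le_exp.2 h)

/-- The main estimate. -/
private theorem Bf_key {F : Type} [Field F] (V : Valuation F (WithZero (Multiplicative ℤ)))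
    {A B x y : F} (hA : V A ≤ 1) (hB : V B ≤ 1) {m : ℕ} {e : ℤ} (he : e ≤ 0)
    (hx : V x ≤ exp (2 * (m : ℤ))) (hc : y ^ 2 = x ^ 3 + A * x + B)
    (h1 : V (3 * x ^ 2 + A) ≤ exp e) (h2 : V (2 * y) ≤ exp e) :
    V (4 * (4 * A ^ 3 + 27 * B ^ 2)) ≤ exp (4 * (m : ℤ) + e) := by
  have hm0 : (0 : ℤ) ≤ (m : ℤ) := Int.natCast_nonneg m
  have n6 : V (6 : F) ≤ exp 0 := by
    have := Bf_num V 6
    rwa [Nat.cast_ofNat] at this
  have n9 : V (9 : F) ≤ exp 0 := by
    have := Bf_num V 9
    rwa [Nat.cast_ofNat] at this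
  have n4 : V (4 : F) ≤ exp 0 := by
    have := Bf_num V 4
    rwa [Nat.cast_ofNat] at this
  have n18 : V (18 : F) ≤ exp 0 := by
    have := Bf_num V 18
    rwa [Nat.cast_ofNat] at this
  have n27 : V (27 : F) ≤ exp 0 := by
    have := Bf_num V 27
    rwa [Nat.cast_ofNat] at this
  have hA' : V A ≤ exp 0 := by rwa [exp_zero]
  have hB' : V B ≤ exp 0 := by rwa [exp_zero]
  have id1 : 4 * (4 * A ^ 3 + 27 * B ^ 2) =
      4 * ((6 * A * (x * x) - 9 * B * x + 4 * A * A) * (3 * x ^ 2 + A)) -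
        (18 * A * x - 27 * B) * ((2 * y) * (2 * y)) := by
    linear_combination (4 * (18 * A * x - 27 * B)) * hc
  have b1 : V (6 * A * (x * x)) ≤ exp (4 * (m : ℤ)) :=
    Bf_mono V (Bf_mul V (Bf_mul V n6 hA') (Bf_mul V hx hx)) (by omega)
  have b2 : V (9 * B * x) ≤ exp (4 * (m : ℤ)) :=
    Bf_mono V (Bf_mul V (Bf_mul V n9 hB') hx) (by omega)
  have b3 : V (4 * A * A) ≤ exp (4 * (m : ℤ)) :=
    Bf_mono V (Bf_mul V (Bf_mul V n4 hA') hA') (by omega)
  have b4 : V (18 * A * x) ≤ exp (4 * (m : ℤ)) :=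
    Bf_mono V (Bf_mul V (Bf_mul V n18 hA') hx) (by omega)
  have b5 : V (27 * B) ≤ exp (4 * (m : ℤ)) :=
    Bf_mono V (Bf_mul V n27 hB') (by omega)
  have c1 : V (6 * A * (x * x) - 9 * B * x + 4 * A * A) ≤ exp (4 * (m : ℤ)) :=
    V.map_add_le (V.map_sub_le b1 b2) b3
  have c2 : V (18 * A * x - 27 * B) ≤ exp (4 * (m : ℤ)) := V.map_sub_le b4 b5
  rw [id1]
  refine V.map_sub_le ?_ ?_
  · exact Bf_mono V (Bf_mul V n4 (Bf_mul V c1 h1)) (by omega)
  · exact Bf_mono V (Bf_mul V c2 (Bf_mul V h2 h2)) (by omega)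

/-- The bound for the second coordinate. -/
private theorem Bf_y {F : Type} [Field F] (V : Valuation F (WithZero (Multiplicative ℤ)))
    {A B x y : F} (hA : V A ≤ 1) (hB : V B ≤ 1) {m : ℕ}
    (hx : V x ≤ exp (2 * (m : ℤ))) (hc : y ^ 2 = x ^ 3 + A * x + B) :
    V y ≤ exp (3 * (m : ℤ)) := by
  have hm0 : (0 : ℤ) ≤ (m : ℤ) := Int.natCast_nonneg m
  have hA' : V A ≤ exp 0 := by rwa [exp_zero]
  have hB' : V B ≤ exp 0 := by rwa [exp_zero]
  have h1 : V (x * x * x) ≤ exp (6 * (m : ℤ)) :=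
    Bf_mono V (Bf_mul V (Bf_mul V hx hx) hx) (by omega)
  have h2 : V (A * x) ≤ exp (6 * (m : ℤ)) := Bf_mono V (Bf_mul V hA' hx) (by omega)
  have h3 : V B ≤ exp (6 * (m : ℤ)) := Bf_mono V hB' (by omega)
  have h4 : V (y ^ 2) ≤ exp (6 * (m : ℤ)) := by
    have e1 : y ^ 2 = x * x * x + A * x + B := by rw [hc]; ring
    rw [e1]
    exact V.map_add_le (V.map_add_le h1 h2) h3
  by_contra h5
  rw [not_le] at h5
  have h6 : exp (6 * (m : ℤ)) < V (y ^ 2) := by
    rw [map_pow, pow_two]
    have e2 : (6 * (m : ℤ)) = 3 * (m : ℤ) + 3 * (m : ℤ) := by ring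
    rw [e2, exp_add]
    exact mul_lt_mul'' h5 h5 zero_le zero_le
  exact absurd h4 (not_le.2 h6)

/-- The first coordinate of a sum is large when the slope is large. -/
private theorem Bf_big {F : Type} [Field F] (V : Valuation F (WithZero (Multiplicative ℤ)))
    {l s : F} {m : ℕ} (hl : exp (m : ℤ) ≤ V l) (hs : V s < exp (2 * (m : ℤ))) :
    exp (2 * (m : ℤ)) ≤ V (l ^ 2 - s) := by
  have h1 : exp (2 * (m : ℤ)) ≤ V (l ^ 2) := by
    rw [map_pow, pow_two, two_mul, exp_add]
    exact mul_le_mul' hl hl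
  rw [V.map_sub_eq_of_lt_left (hs.trans_le h1)]
  exact h1

/-- Two close points which are not of level `m` differ by a point of level `m`. -/
private theorem Bf_close {F : Type} [Field F] (V : Valuation F (WithZero (Multiplicative ℤ)))
    {A B : F} (hA : V A ≤ 1) (hB : V B ≤ 1) (h2 : (2 : F) ≠ 0) {m N : ℕ} (hmN : 2 * m ≤ N)
    (hN : exp (6 * (m : ℤ) - (N : ℤ)) < V (4 * (4 * A ^ 3 + 27 * B ^ 2)))
    {x y x' y' : F} (n : (⟨0, 0, 0, A, B⟩ : WeierstrassCurve F).toAffine.Nonsingular x y)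
    (n' : (⟨0, 0, 0, A, B⟩ : WeierstrassCurve F).toAffine.Nonsingular x' y')
    (hx : V x < exp (2 * (m : ℤ))) (hx' : V x' < exp (2 * (m : ℤ)))
    (hxx : V (x - x') ≤ exp (-(N : ℤ))) (hyy : V (y - y') ≤ exp (-(N : ℤ))) :
    Lv V m (Affine.Point.some x y n - Affine.Point.some x' y' n' : Pc A B) := by
  have hm0 : (0 : ℤ) ≤ (m : ℤ) := Int.natCast_nonneg m
  have hmN' : 2 * (m : ℤ) ≤ (N : ℤ) := by exact_mod_cast hmN
  have e := H73P2.Lb_eqn n
  have e' := H73P2.Lb_eqn n'
  rw [sub_eq_add_neg, Affine.Point.neg_some]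
  by_cases hxe : x = x'
  · subst hxe
    have h3 : (y - y') * (y + y') = 0 := by linear_combination e - e'
    rcases mul_eq_zero.1 h3 with h4 | h4
    · left
      have h5 : y = y' := sub_eq_zero.1 h4
      subst h5
      rw [← Affine.Point.neg_some]
      exact add_neg_cancel _
    · have h5 : y' = -y := by linear_combination h4
      subst h5
      have hneg : (⟨0, 0, 0, A, B⟩ : WeierstrassCurve F).toAffine.negY x (-y) = y := by
        rw [H73P2.Lb_negY, neg_neg]
      by_cases hy0 : y = 0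
      · left
        subst hy0
        apply Affine.Point.add_of_Y_eq rfl
        rw [hneg, H73P2.Lb_negY, neg_zero]
      · have hny : y ≠ (⟨0, 0, 0, A, B⟩ : WeierstrassCurve F).toAffine.negY x y := by
          rw [H73P2.Lb_negY]
          intro h6
          apply mul_ne_zero h2 hy0
          linear_combination h6
        have h2y : V (2 * y) ≤ exp (-(N : ℤ)) := by
          have e1 : 2 * y = y - -y := by ring
          rw [e1]
          exact hyy
        have hl : exp (m : ℤ) ≤ V ((3 * x ^ 2 + A) / (2 * y)) := by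
          by_contra h7
          rw [not_le] at h7
          have hy2 : 2 * y ≠ 0 := mul_ne_zero h2 hy0
          have h8 : V (3 * x ^ 2 + A) ≤ exp ((m : ℤ) - (N : ℤ)) := by
            have e1 : 3 * x ^ 2 + A = ((3 * x ^ 2 + A) / (2 * y)) * (2 * y) := by
              rw [div_mul_cancel₀ _ hy2]
            rw [e1]
            exact Bf_mono V (Bf_mul V h7.le h2y) (by omega)
          have h9 := Bf_key V hA hB (m := m) (e := (m : ℤ) - (N : ℤ)) (by omega) hx.le e h8
            (Bf_mono V h2y (by omega))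
          exact absurd (h9.trans (exp_le_exp.2 (by omega))) (not_le.2 hN)
        right
        have hadd : (Affine.Point.some x y n + Affine.Point.some x
            ((⟨0, 0, 0, A, B⟩ : WeierstrassCurve F).toAffine.negY x (-y))
            ((Affine.nonsingular_neg ..).2 n') : Pc A B) =
            Affine.Point.some x y n + Affine.Point.some x y n := by
          congr 1
          rw [Affine.Point.some.injEq]
          exact ⟨rfl, hneg⟩
        rw [hadd, Affine.Point.add_self_of_Y_ne (h₁ := n) hny]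
        refine ⟨_, _, _, rfl, ?_⟩
        have hX : (⟨0, 0, 0, A, B⟩ : WeierstrassCurve F).toAffine.addX x x
            ((⟨0, 0, 0, A, B⟩ : WeierstrassCurve F).toAffine.slope x x y y) =
            ((3 * x ^ 2 + A) / (2 * y)) ^ 2 - (x + x) := by
          rw [Affine.slope_of_Y_ne rfl hny, H73P2.Lb_negY]
          simp only [Affine.addX]
          have : (3 * x ^ 2 + 2 * 0 * x + A - 0 * y) / (y - -y) = (3 * x ^ 2 + A) / (2 * y) := by
            congr 1 <;> ring
          rw [this]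
          ring
        rw [hX]
        exact Bf_big V hl (V.map_add_lt hx hx)
  · right
    have hd0 : x - x' ≠ 0 := sub_ne_zero.2 hxe
    have hVd : V (x - x') ≠ 0 := (Valuation.ne_zero_iff _).2 hd0
    have hVdp : 0 < V (x - x') := zero_lt_iff.2 hVd
    have hadd := Affine.Point.add_some (h₁ := n) (h₂ := (Affine.nonsingular_neg ..).2 n')
      (fun hxy => hxe hxy.1)
    rw [hadd]
    refine ⟨_, _, _, rfl, ?_⟩
    have hX : (⟨0, 0, 0, A, B⟩ : WeierstrassCurve F).toAffine.addX x x'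
        ((⟨0, 0, 0, A, B⟩ : WeierstrassCurve F).toAffine.slope x x' y
          ((⟨0, 0, 0, A, B⟩ : WeierstrassCurve F).toAffine.negY x' y')) =
        ((y + y') / (x - x')) ^ 2 - (x + x') := by
      rw [Affine.slope_of_X_ne hxe, H73P2.Lb_negY]
      simp only [Affine.addX]
      rw [sub_neg_eq_add]
      ring
    rw [hX]
    apply Bf_big V ?_ (V.map_add_lt hx hx')
    by_contra h7
    rw [not_le] at h7
    have hs : V (y + y') ≤ exp (m : ℤ) * V (x - x') := by
      have e1 : y + y' = ((y + y') / (x - x')) * (x - x') := by rw [div_mul_cancel₀ _ hd0]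
      rw [e1, map_mul]
      exact mul_le_mul' h7.le le_rfl
    have hexp : exp ((m : ℤ) - (N : ℤ)) = exp (m : ℤ) * exp (-(N : ℤ)) := by
      rw [← exp_add, sub_eq_add_neg]
    have hs1 : V (y + y') ≤ exp ((m : ℤ) - (N : ℤ)) := by
      refine hs.trans ?_
      rw [hexp]
      exact mul_le_mul' le_rfl hxx
    have hg : V (x ^ 2 + x * x' + x' ^ 2 + A) ≤ exp ((m : ℤ) - (N : ℤ)) := by
      have e1 : (y - y') * (y + y') = (x - x') * (x ^ 2 + x * x' + x' ^ 2 + A) := by
        linear_combination e - e'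
      have e2 : V (x - x') * V (x ^ 2 + x * x' + x' ^ 2 + A) = V (y - y') * V (y + y') := by
        rw [← map_mul, ← map_mul, e1]
      have e3 : V (x - x') * V (x ^ 2 + x * x' + x' ^ 2 + A) ≤
          V (x - x') * exp ((m : ℤ) - (N : ℤ)) := by
        rw [e2]
        calc V (y - y') * V (y + y') ≤ exp (-(N : ℤ)) * (exp (m : ℤ) * V (x - x')) :=
              mul_le_mul' hyy hs
          _ = V (x - x') * exp ((m : ℤ) - (N : ℤ)) := by
              rw [hexp, mul_comm, mul_comm (exp (m : ℤ)) (V (x - x')), mul_assoc]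
      exact le_of_mul_le_mul_left e3 hVdp
    have h2y : V (2 * y) ≤ exp (2 * (m : ℤ) - (N : ℤ)) := by
      have e1 : 2 * y = (y + y') + (y - y') := by ring
      rw [e1]
      exact V.map_add_le (Bf_mono V hs1 (by omega)) (Bf_mono V hyy (by omega))
    have h3x : V (3 * x ^ 2 + A) ≤ exp (2 * (m : ℤ) - (N : ℤ)) := by
      have e1 : 3 * x ^ 2 + A = (x ^ 2 + x * x' + x' ^ 2 + A) + (x - x') * (x + x + x') := by ring
      rw [e1]
      refine V.map_add_le (Bf_mono V hg (by omega)) ?_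
      exact Bf_mono V (Bf_mul V hxx (V.map_add_le (V.map_add_le hx.le hx.le) hx'.le)) (by omega)
    have h9 := Bf_key V hA hB (m := m) (e := 2 * (m : ℤ) - (N : ℤ)) (by omega) hx.le e h3x h2y
    exact absurd (h9.trans (exp_le_exp.2 (by omega))) (not_le.2 hN)

section Net

variable {k : Type} [Field k] [NumberField k] (v : HeightOneSpectrum (𝓞 k))

private theorem Bf_dense (x : v.adicCompletion k) :
    ∃ c : k, Valued.v (algebraMap k (v.adicCompletion k) c - x) < 1 := by
  have hd := HeightOneSpectrum.denseRange_algebraMap (K := k) v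
  have hopen : IsOpen {y : v.adicCompletion k | Valued.v (y - x) < 1} := by
    have h1 : IsOpen {y : v.adicCompletion k | Valued.v y < 1} := by
      obtain ⟨t, ht⟩ := v.valuedAdicCompletion_surjective k (1 : WithZero (Multiplicative ℤ))
      have := Valued.isOpen_ball (v.adicCompletion k) (Valued.v.restrict t)
      simp_rw [Valuation.restrict_lt_iff] at this
      rwa [ht] at this
    exact h1.preimage (continuous_sub_right x)
  obtain ⟨c, hc⟩ := hd.exists_mem_open hopen ⟨x, by simp⟩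
  exact ⟨c, hc⟩

private theorem Bf_val (x : k) :
    Valued.v (algebraMap k (v.adicCompletion k) x) = v.valuation k x :=
  v.valuedAdicCompletion_eq_valuation' (K := k) x

private theorem Bf_res : ∃ R : Set (v.adicCompletion k), R.Finite ∧
    ∀ t : v.adicCompletion k, Valued.v t ≤ 1 → ∃ r ∈ R, Valued.v (t - r) < 1 := by
  have hfin : Finite (𝓞 k ⧸ v.asIdeal) := Ideal.finiteQuotientOfFreeOfNeBot v.asIdeal v.ne_bot
  refine ⟨Set.range fun q : 𝓞 k ⧸ v.asIdeal =>
    algebraMap k (v.adicCompletion k) ((Quotient.out q : 𝓞 k) : k), Set.finite_range _, ?_⟩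
  intro t ht
  obtain ⟨c, hc⟩ := Bf_dense v t
  have h1 : v.valuation k c ≤ 1 := by
    rw [← Bf_val v c]
    have e1 : algebraMap k (v.adicCompletion k) c =
        (algebraMap k (v.adicCompletion k) c - t) + t := by ring
    rw [e1]
    exact Valuation.map_add_le _ hc.le ht
  obtain ⟨a, ha⟩ := H76PP.Tf_approx v h1
  refine ⟨_, ⟨Ideal.Quotient.mk v.asIdeal a, rfl⟩, ?_⟩
  have h3 : a - (Quotient.out (Ideal.Quotient.mk v.asIdeal a) : 𝓞 k) ∈ v.asIdeal := by
    rw [← Ideal.Quotient.eq]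
    exact (Quotient.out_eq (Ideal.Quotient.mk v.asIdeal a)).symm
  have h4 : v.valuation k (((a - (Quotient.out (Ideal.Quotient.mk v.asIdeal a) : 𝓞 k) : 𝓞 k)) : k)
      < 1 := (v.valuation_lt_one_iff_mem _).2 h3
  set o : 𝓞 k := (Quotient.out (Ideal.Quotient.mk v.asIdeal a) : 𝓞 k) with ho
  have e1 : t - algebraMap k (v.adicCompletion k) (o : k) =
      -(algebraMap k (v.adicCompletion k) c - t) +
        (algebraMap k (v.adicCompletion k) (c - (a : k)) +
          algebraMap k (v.adicCompletion k) ((a - o : 𝓞 k) : k)) := by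
    have e0 : ((a - o : 𝓞 k) : k) = (a : k) - (o : k) := map_sub (algebraMap (𝓞 k) k) a o
    rw [e0, map_sub, map_sub]
    ring
  rw [e1]
  refine Valuation.map_add_lt _ ?_ (Valuation.map_add_lt _ ?_ ?_)
  · rw [Valuation.map_neg]
    exact hc
  · rw [Bf_val]
    exact ha
  · rw [Bf_val]
    exact h4

private theorem Bf_net (N : ℕ) : ∃ R : Set (v.adicCompletion k), R.Finite ∧
    ∀ t : v.adicCompletion k, Valued.v t ≤ 1 → ∃ r ∈ R, Valued.v (t - r) ≤ exp (-(N : ℤ)) := by
  obtain ⟨π, hπ⟩ := v.valuedAdicCompletion_surjective k (exp (-1 : ℤ))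
  have hπ0 : π ≠ 0 := by
    rintro rfl
    rw [map_zero] at hπ
    exact exp_ne_zero hπ.symm
  have hpow : ∀ n : ℕ, Valued.v (π ^ n) = exp (-(n : ℤ)) := by
    intro n
    rw [map_pow, hπ, ← exp_nsmul]
    congr 1
    simp
  obtain ⟨R₀, hR₀, hR⟩ := Bf_res v
  induction N with
  | zero =>
    refine ⟨{0}, Set.finite_singleton 0, fun t ht => ⟨0, rfl, ?_⟩⟩
    simpa using ht
  | succ N ih =>
    obtain ⟨S, hS, hS'⟩ := ih
    refine ⟨Set.image2 (fun s r => s + π ^ N * r) S R₀, hS.image2 _ hR₀, fun t ht => ?_⟩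
    obtain ⟨s, hs, hst⟩ := hS' t ht
    have h1 : Valued.v ((t - s) / π ^ N) ≤ 1 := by
      rw [map_div₀, hpow]
      exact div_le_one_of_le₀ hst zero_le
    obtain ⟨r, hr, hrt⟩ := hR _ h1
    refine ⟨s + π ^ N * r, ⟨s, hs, r, hr, rfl⟩, ?_⟩
    have e1 : t - (s + π ^ N * r) = π ^ N * ((t - s) / π ^ N - r) := by
      field_simp
      ring
    have h2 : Valued.v ((t - s) / π ^ N - r) ≤ exp (-1 : ℤ) := by
      by_cases h0 : Valued.v ((t - s) / π ^ N - r) = 0
      · rw [h0]
        exact zero_le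
      · rw [← log_le_iff_le_exp h0]
        have h3 := (log_lt_log h0 one_ne_zero).2 hrt
        rw [log_one] at h3
        omega
    rw [e1, map_mul, hpow]
    have e2 : (-((N + 1 : ℕ) : ℤ)) = -(N : ℤ) + -1 := by push_cast; ring
    rw [e2, exp_add]
    exact mul_le_mul' le_rfl h2

private theorem Bf_net2 (j N : ℕ) : ∃ R : Set (v.adicCompletion k), R.Finite ∧
    ∀ t : v.adicCompletion k, Valued.v t ≤ exp (j : ℤ) →
      ∃ r ∈ R, Valued.v (t - r) ≤ exp (-(N : ℤ)) := by
  obtain ⟨c, hc⟩ := v.valuedAdicCompletion_surjective k (exp (j : ℤ))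
  have hc0 : c ≠ 0 := by
    rintro rfl
    rw [map_zero] at hc
    exact exp_ne_zero hc.symm
  obtain ⟨R, hR, hR'⟩ := Bf_net v (N + j)
  refine ⟨(fun r => c * r) '' R, hR.image _, fun t ht => ?_⟩
  have h1 : Valued.v (t / c) ≤ 1 := by
    rw [map_div₀, hc]
    exact div_le_one_of_le₀ ht zero_le
  obtain ⟨r, hr, hrt⟩ := hR' _ h1
  refine ⟨c * r, ⟨r, hr, rfl⟩, ?_⟩
  have e1 : t - c * r = c * (t / c - r) := by
    field_simp
  rw [e1, map_mul, hc]
  have e2 : (-(N : ℤ)) = (j : ℤ) + (-((N + j : ℕ) : ℤ)) := by push_cast; ring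
  rw [e2, exp_add]
  exact mul_le_mul' le_rfl hrt

end Net

theorem EE_fin {k : Type} [Field k] [NumberField k] (v : HeightOneSpectrum (𝓞 k))
    {A B : v.adicCompletion k} (hA : Valued.v A ≤ 1) (hB : Valued.v B ≤ 1)
    (hD : 4 * A ^ 3 + 27 * B ^ 2 ≠ 0) {m : ℕ} (hm : 1 ≤ m) {H : AddSubgroup (Pc A B)}
    (h1 : ∀ P, P ∈ H ↔ Lv Valued.v m P) : H.index ≠ 0 := by
  have hch : CharZero (v.adicCompletion k) :=
    charZero_of_injective_algebraMap (algebraMap k (v.adicCompletion k)).injective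
  have h2 : (2 : v.adicCompletion k) ≠ 0 := two_ne_zero
  have h4 : (4 : v.adicCompletion k) ≠ 0 := by
    have e4 : (4 : v.adicCompletion k) = 2 * 2 := by norm_num
    rw [e4]
    exact mul_ne_zero h2 h2
  have h4D : Valued.v (4 * (4 * A ^ 3 + 27 * B ^ 2)) ≠ 0 :=
    (Valuation.ne_zero_iff _).2 (mul_ne_zero h4 hD)
  obtain ⟨j, hj⟩ := exists_exp_neg_natCast_lt h4D
  have hN : exp (6 * (m : ℤ) - ((6 * m + j : ℕ) : ℤ)) <
      Valued.v (4 * (4 * A ^ 3 + 27 * B ^ 2)) := by
    have e1 : 6 * (m : ℤ) - ((6 * m + j : ℕ) : ℤ) = -(j : ℤ) := by push_cast; ring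
    rw [e1]
    exact hj
  obtain ⟨R, hR, hR'⟩ := Bf_net2 v (3 * m) (6 * m + j)
  have hsmall : ∀ P : Pc A B, P ∉ H → ∃ (x y : v.adicCompletion k)
      (h : (⟨0, 0, 0, A, B⟩ : WeierstrassCurve (v.adicCompletion k)).toAffine.Nonsingular x y),
      P = Affine.Point.some x y h ∧ Valued.v x < exp (2 * (m : ℤ)) := by
    intro P hP
    rw [h1] at hP
    rcases P with _ | ⟨x, y, h⟩
    · exact absurd (Or.inl rfl) hP
    · refine ⟨x, y, h, rfl, ?_⟩
      by_contra h5
      rw [not_lt] at h5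
      exact hP (Or.inr ⟨x, y, h, rfl, h5⟩)
  have hcode : ∀ P : Pc A B, ∃ c : Option (R × R), (c = none → P ∈ H) ∧
      ∀ r : R × R, c = some r → ∃ (x y : v.adicCompletion k)
      (h : (⟨0, 0, 0, A, B⟩ : WeierstrassCurve (v.adicCompletion k)).toAffine.Nonsingular x y),
      P = Affine.Point.some x y h ∧ Valued.v x < exp (2 * (m : ℤ)) ∧
      Valued.v (x - r.1.1) ≤ exp (-((6 * m + j : ℕ) : ℤ)) ∧
      Valued.v (y - r.2.1) ≤ exp (-((6 * m + j : ℕ) : ℤ)) := by
    intro P
    by_cases hP : P ∈ H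
    · exact ⟨none, fun _ => hP, fun r hr => absurd hr (by simp)⟩
    · obtain ⟨x, y, h, rfl, hx⟩ := hsmall P hP
      have hx3 : Valued.v x ≤ exp ((3 * m : ℕ) : ℤ) := by
        refine hx.le.trans (exp_le_exp.2 ?_)
        push_cast
        omega
      have hy3 : Valued.v y ≤ exp ((3 * m : ℕ) : ℤ) := by
        have := Bf_y Valued.v hA hB hx.le (H73P2.Lb_eqn h)
        refine this.trans (exp_le_exp.2 ?_)
        push_cast
        omega
      obtain ⟨r, hr, hrx⟩ := hR' x hx3
      obtain ⟨s, hs, hsy⟩ := hR' y hy3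
      refine ⟨some (⟨r, hr⟩, ⟨s, hs⟩), fun h0 => absurd h0 (by simp), ?_⟩
      intro q hq
      rw [Option.some.injEq] at hq
      subst hq
      exact ⟨x, y, h, rfl, hx, hrx, hsy⟩
  choose c hc1 hc2 using hcode
  have hfinR : Finite R := hR
  have hfin : Finite (Pc A B ⧸ H) := by
    refine Finite.of_injective (fun q : Pc A B ⧸ H => c q.out) ?_
    intro q q' hqq
    have hqq' : c q.out = c q'.out := hqq
    have hdiff : q'.out - q.out ∈ H := by
      rcases hcq : c q.out with _ | r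
      · have h6 := hc1 _ hcq
        have h7 := hc1 _ (hqq'.symm.trans hcq)
        exact H.sub_mem h7 h6
      · obtain ⟨x, y, h, hP, hx, hxr, hyr⟩ := hc2 _ r hcq
        obtain ⟨x', y', h', hP', hx', hxr', hyr'⟩ := hc2 _ r (hqq'.symm.trans hcq)
        rw [hP, hP', h1]
        refine Bf_close Valued.v hA hB h2 (by omega) hN h' h hx' hx ?_ ?_
        · have e1 : x' - x = (x' - r.1.1) - (x - r.1.1) := by ring
          rw [e1]
          exact Valuation.map_sub_le _ hxr' hxr
        · have e1 : y' - y = (y' - r.2.1) - (y - r.2.1) := by ring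
          rw [e1]
          exact Valuation.map_sub_le _ hyr' hyr
    rw [← QuotientAddGroup.out_eq' q, ← QuotientAddGroup.out_eq' q']
    rw [QuotientAddGroup.eq]
    rw [neg_add_eq_sub]
    exact hdiff
  exact AddSubgroup.index_ne_zero_of_finite

end H30ZO
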