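import Mathlib

/-!
ROW Bg (project MP_78d38b_ZO, about 100 lines): the number of classes modulo two and a subgroup of finite index.

PROOF. `f := zsmulAddGroupHom 2 : G → G`, `T := f.ker`, `2 G := f.range`, `2 H := H.map f`. `2 H ≤ H` and `2 H ≤ 2 G`. `(2H).index = (2H).relIndex H * H.index` and `(2H).index = (2H).relIndex (2G) * (2G).index` (`AddSubgroup.relIndex_mul_index`). `f` induces a surjection `G → 2G / 2H` with kernel `{g | 2 g ∈ 2 H} = H ⊔ T`, so
`(2H).relIndex (2G) = (H ⊔ T).index` (`AddSubgroup.index_comap`/`relIndex_comap`, `AddSubgroup.index_ker`, or: `AddSubgroup.relIndex_map_map`-like lemmas: `((H ⊔ T).map f) = 2H`, `(⊤).map f = 2G`). `H ⊓ T = ⊥` (hypothesis `ht`), so `H.relIndex (H ⊔ T) = H.relIndex T = Nat.card T` (`AddSubgroup.relIndex_sup_right`, `relIndex_eq_card`-like: `(⊥ : AddSubgroup T).index = Nat.card T`)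
and `H.index = H.relIndex (H ⊔ T) * (H ⊔ T).index = Nat.card T * (2H).relIndex (2G)`. So `(2H).relIndex H * Nat.card T * (2H).relIndex (2G) = (2H).relIndex (2G) * (2G).index` and `(2H).relIndex (2G) ≠ 0` because `H.index ≠ 0`. Cancel.
-/

set_option autoImplicit false

namespace H30ZO

theorem herbrand {G : Type} [AddCommGroup G] (H : AddSubgroup G) (hH : H.index ≠ 0)
    (ht : ∀ x ∈ H, (2 : ℤ) • x = 0 → x = 0) :
    (zsmulAddGroupHom (α := G) (2 : ℤ)).range.index =
      Nat.card (zsmulAddGroupHom (α := G) (2 : ℤ)).ker *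
        (H.map (zsmulAddGroupHom (α := G) (2 : ℤ))).relIndex H := by
  obtain ⟨f, hf⟩ : ∃ f, f = zsmulAddGroupHom (α := G) (2 : ℤ) := ⟨_, rfl⟩
  rw [← hf]
  have hfx : ∀ x, f x = (2 : ℤ) • x := by
    intro x
    rw [hf]
    rfl
  have h1 : H.map f ≤ H := by
    rintro _ ⟨x, hx, rfl⟩
    rw [hfx]
    exact H.zsmul_mem hx 2
  have h2 : (H.map f).relIndex H * H.index = (H.map f).index := AddSubgroup.relIndex_mul_index h1
  have h3 : (H.map f).index = (H ⊔ f.ker).index * f.range.index := AddSubgroup.index_map H f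
  have h4 : H.relIndex (H ⊔ f.ker) * (H ⊔ f.ker).index = H.index :=
    AddSubgroup.relIndex_mul_index le_sup_left
  have h5 : H ⊓ f.ker = ⊥ := by
    rw [eq_bot_iff]
    rintro x ⟨hx, hk⟩
    have hk' : f x = 0 := hk
    rw [hfx] at hk'
    exact (AddSubgroup.mem_bot).2 (ht x hx hk')
  have h6 : H.relIndex (H ⊔ f.ker) = Nat.card f.ker := by
    rw [AddSubgroup.relIndex_sup_left, ← AddSubgroup.inf_relIndex_right, h5,
      AddSubgroup.relIndex_bot_left]
  have h7 : (H ⊔ f.ker).index ≠ 0 := by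
    intro h0
    rw [h0, mul_zero] at h4
    exact hH h4.symm
  have h8 : (H ⊔ f.ker).index * f.range.index =
      (H ⊔ f.ker).index * (Nat.card f.ker * (H.map f).relIndex H) := by
    rw [← h3, ← h2, ← h4, h6]
    ring
  exact Nat.eq_of_mul_eq_mul_left (Nat.pos_of_ne_zero h7) h8

end H30ZO
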