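import Pool.Agent.H30.ZO.Be
import Pool.Agent.H30.ZO.Bf
import Pool.Agent.H30.ZO.Bg

/-!
ROW Bh (project MP_78d38b_ZO, about 70 lines): the number of points modulo two over the completion. Use only the STATEMENTS of Bc, Be, Bf, Bg.

PROOF. `m := e2 v + 1`. `A := algebraMap a`, `B := algebraMap b` are integral (`HeightOneSpectrum.valuedAdicCompletion_eq_valuation'` or `H36CY.val_coe`), `4 A^3 + 27 B^2 ≠ 0` (image of a nonzero element), `2 ≠ 0` in the completion (characteristic zero). exists_EE for `V = Valued.v`: `H`. EE_fin: `H.index ≠ 0`. herbrand: `(D2 v a b).index = Nat.card (T2 v a b) * (H.map two).relIndex H`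
(`D2`, `T2` are `range` and `ker` by definition). EE_index: the last factor is zero or at least `qq v`.
-/

set_option autoImplicit false
set_option linter.unusedSectionVars false
open scoped Classical

open WithZero WeierstrassCurve NumberField IsDedekindDomain

namespace H30ZO

theorem idx_D2 {k : Type} [Field k] [NumberField k] (v : HeightOneSpectrum (𝓞 k)) {a b : k}
    (ha : v.valuation k a ≤ 1) (hb : v.valuation k b ≤ 1) (hD : 4 * a ^ 3 + 27 * b ^ 2 ≠ 0) :
    (D2 v a b).index = 0 ∨ qq v * Nat.card (T2 v a b) ≤ (D2 v a b).index := by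
  have hval : ∀ x : k, Valued.v (algebraMap k (v.adicCompletion k) x) = v.valuation k x := fun x =>
    HeightOneSpectrum.valuedAdicCompletion_eq_valuation' v x
  have hA : Valued.v (algebraMap k (v.adicCompletion k) a) ≤ 1 := by
    rw [hval]
    exact ha
  have hB : Valued.v (algebraMap k (v.adicCompletion k) b) ≤ 1 := by
    rw [hval]
    exact hb
  have h2 : (2 : v.adicCompletion k) ≠ 0 := by
    have e : (2 : v.adicCompletion k) = algebraMap k (v.adicCompletion k) 2 := by rw [map_ofNat]
    rw [e]
    exact (map_ne_zero _).2 two_ne_zero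
  have hD' : 4 * (algebraMap k (v.adicCompletion k) a) ^ 3 + 27 * (algebraMap k (v.adicCompletion k) b) ^ 2 ≠ 0 := by
    have e : 4 * (algebraMap k (v.adicCompletion k) a) ^ 3 + 27 * (algebraMap k (v.adicCompletion k) b) ^ 2 =
        algebraMap k (v.adicCompletion k) (4 * a ^ 3 + 27 * b ^ 2) := by
      rw [map_add, map_mul, map_mul, map_pow, map_pow, map_ofNat, map_ofNat]
    rw [e]
    exact (map_ne_zero _).2 hD
  obtain ⟨H, h1, h3, h4, h5⟩ := exists_EE h2 hA hB (m := e2 v + 1) (by omega)
  have hfin := EE_fin v hA hB hD' (by omega) h1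
  have hh := herbrand H hfin h5
  have hi := EE_index v hA hB (by omega) (by omega) h1 h3 h4
  have hh' : (D2 v a b).index = Nat.card (T2 v a b) *
      (H.map (zsmulAddGroupHom (α := Pt v a b) (2 : ℤ))).relIndex H := hh
  rw [hh']
  rcases hi with hi | hi
  · left
    have hi' : (H.map (zsmulAddGroupHom (α := Pt v a b) (2 : ℤ))).relIndex H = 0 := hi
    rw [hi', mul_zero]
  · right
    rw [mul_comm]
    exact Nat.mul_le_mul_left _ hi

end H30ZO
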