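import Pool.Agent.H30.ZO.Ae
import Pool.Agent.H30.ZO.Cb

/-!
ROW Cc (project MP_78d38b_ZO, about 150 lines): every point over the completion is congruent modulo doubles to one whose first coordinate is in `k`.
Use only the STATEMENTS of Ae, Cb.

PROOF. `F := v.adicCompletion k` (characteristic zero: `H36CY.char_zero`), `A, B` the images of `a, b` (integral), `Pt v a b` is infinite (`H24PD.inf_fin`, Pool/Agent/H24/PD/Lf.lean). (1) By `H73P2.Lb_avoid` there is `R` with `4 • R ≠ -(P + P)`; then `P₀ := P + (R + R)` has `P₀ + P₀ ≠ 0`, so `P₀ = (x₀, y₀)` with `y₀ ≠ 0`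
(`H73P2.Lb_y_ne`). It suffices to treat `P₀` (`P - S = P₀ - S - 2 R`). (2) By density there is `x ∈ k` (image also `x`) with `x - x₀` so small that: `Valued.v (f(x) - f(x₀)) < Valued.v (4 f(x₀))`, where `f(x₀) = y₀^2 ≠ 0` (continuity of polynomials, or `f(x) - f(x₀) = (x - x₀)(x^2 + x x₀ + x₀^2 + A)`), so `f(x) = y^2` with `y ≠ 0` in `F`
(`H36CY.sq_near`, Pool/Agent/H36/CY/Vl.lean; `near_coe` in Pool/Agent/H36/CY/Ld.lean), the point `(x, y)` is nonsingular (`H73P2.Lb_ns`), and also (3) `l j := (x - x₀) / 4 * (Te_C A B ![x₀, -1, 0] j / y₀^2)` has `Valued.v (l j) ≤ exp (-1)`, `j = 0, 1, 2`. `Te_nf A B ![x₀, -1, 0] = x₀^3 + A x₀ + B = y₀^2`, so `Te_C .. / y₀^2` is the inverse of `x₀ - T`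
(`Te_m3_adj`). sqrt_alg: `s` with `s^2 = 1 + 4 l`. Then `(x₀ - T)^2 s^2 = (x₀ - T)^2 + (x - x₀)(x₀ - T) = (x₀ - T)(x - T)`: with `z := m3 ![x₀, -1, 0] s`: `m3 z z = m3 ![x₀, -1, 0] ![x, -1, 0]`. diff_D2: `Q` with `Q + Q = P₀ - (x, y)`.
-/

set_option autoImplicit false
set_option linter.unusedSectionVars false
open scoped Classical

open WithZero WeierstrassCurve NumberField IsDedekindDomain H76PP

namespace H30ZO

private lemma Cc_m3 {F : Type} [Field F] (A B : F) (e s : Fin 3 → F) :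
    m3 A B (m3 A B e s) (m3 A B e s) = m3 A B (m3 A B e e) (m3 A B s s) := by
  funext j
  fin_cases j <;> simp [m3] <;> ring

private lemma Cc_alg {F : Type} [Field F] {A B x₀ y₀ X : F} (hy : y₀ ≠ 0) (h4 : (4 : F) ≠ 0)
    (e : y₀ ^ 2 = x₀ ^ 3 + A * x₀ + B) :
    m3 A B (m3 A B ![x₀, -1, 0] ![x₀, -1, 0]) (fun j => (![1, 0, 0] : Fin 3 → F) j +
      4 * ((X - x₀) / 4 * ((![x₀ ^ 2 + A, x₀, 1] : Fin 3 → F) j / y₀ ^ 2))) =
      m3 A B ![x₀, -1, 0] ![X, -1, 0] := by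
  have hy2 : y₀ ^ 2 ≠ 0 := pow_ne_zero _ hy
  have e1 : ∀ w : F, 4 * ((X - x₀) / 4 * (w / y₀ ^ 2)) = ((X - x₀) / y₀ ^ 2) * w := by
    intro w
    field_simp
  obtain ⟨u, hu⟩ : ∃ u, u = (X - x₀) / y₀ ^ 2 := ⟨_, rfl⟩
  have hu' : u * (x₀ ^ 3 + A * x₀ + B) = X - x₀ := by
    rw [← e, hu]
    field_simp
  funext j
  simp only [e1]
  rw [← hu]
  fin_cases j
  · simp [m3]
    linear_combination x₀ * hu'
  · simp [m3]
    linear_combination (-1 : F) * hu'
  · simp [m3]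
    ring

private lemma Cc_nat {F : Type} [Field F] [Valued F (WithZero (Multiplicative ℤ))] (n : ℕ) :
    Valued.v (n : F) ≤ 1 := by
  induction n with
  | zero => rw [Nat.cast_zero, map_zero]; exact zero_le
  | succ n ih =>
    rw [Nat.cast_succ]
    exact (Valuation.map_add _ _ _).trans (max_le ih (by rw [map_one]))

private lemma Cc_add {F : Type} [Field F] [Valued F (WithZero (Multiplicative ℤ))] {u w : F}
    {γ : WithZero (Multiplicative ℤ)} (hu : Valued.v u ≤ γ) (hw : Valued.v w ≤ γ) :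
    Valued.v (u + w) ≤ γ := (Valuation.map_add _ _ _).trans (max_le hu hw)

private lemma Cc_near {F : Type} [Field F] [CharZero F] [Valued F (WithZero (Multiplicative ℤ))]
    [CompleteSpace F] {A B x₀ y₀ g X : F} (hA : Valued.v A ≤ 1) (hg1 : 1 ≤ Valued.v g)
    (hgx : Valued.v x₀ ≤ Valued.v g) (hB : Valued.v B ≤ 1) (hy : y₀ ≠ 0)
    (e : y₀ ^ 2 = x₀ ^ 3 + A * x₀ + B)
    (hX : Valued.v (X - x₀) < Valued.v (4 * y₀ ^ 2 / g ^ 2)) :
    (∃ y : F, y ≠ 0 ∧ y ^ 2 = X ^ 3 + A * X + B) ∧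
      ∀ j, Valued.v ((X - x₀) / 4 * ((![x₀ ^ 2 + A, x₀, 1] : Fin 3 → F) j / y₀ ^ 2)) ≤
        exp (-1 : ℤ) := by
  have h4 : (4 : F) ≠ 0 := by norm_num
  have v4 : Valued.v (4 : F) ≤ 1 := by exact_mod_cast Cc_nat (F := F) 4
  have hg0 : g ≠ 0 := by
    rintro rfl
    rw [map_zero] at hg1
    exact absurd hg1 (not_le.2 zero_lt_one)
  have hg2 : 1 ≤ Valued.v g ^ 2 := one_le_pow₀ hg1
  have hgg : Valued.v g ≤ Valued.v g ^ 2 := le_self_pow₀ hg1 (by norm_num)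
  have hg3 : Valued.v g ^ 2 ≤ Valued.v g ^ 3 := pow_le_pow_right₀ hg1 (by norm_num)
  have hx2 : Valued.v (x₀ ^ 2) ≤ Valued.v g ^ 2 := by
    rw [map_pow]
    exact pow_le_pow_left₀ zero_le hgx 2
  have hvg : 0 < Valued.v g ^ 2 := lt_of_lt_of_le zero_lt_one hg2
  have hvy : Valued.v (y₀ ^ 2) ≠ 0 := (Valuation.ne_zero_iff _).2 (pow_ne_zero _ hy)
  have hv4 : Valued.v (4 : F) ≠ 0 := (Valuation.ne_zero_iff _).2 h4
  have hX' : Valued.v (X - x₀) * Valued.v g ^ 2 < Valued.v (4 : F) * Valued.v (y₀ ^ 2) := by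
    rw [map_div₀, map_mul, map_pow _ g 2, lt_div_iff₀ hvg] at hX
    exact hX
  have hy3 : Valued.v (y₀ ^ 2) ≤ Valued.v g ^ 3 := by
    rw [e]
    refine Cc_add (Cc_add ?_ ?_) ?_
    · rw [map_pow]
      exact pow_le_pow_left₀ zero_le hgx 3
    · rw [map_mul]
      calc Valued.v A * Valued.v x₀ ≤ 1 * Valued.v g := mul_le_mul' hA hgx
        _ = Valued.v g := one_mul _
        _ ≤ _ := hgg.trans hg3
    · exact hB.trans (hg2.trans hg3)
  have hXg : Valued.v (X - x₀) ≤ Valued.v g := by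
    have h5 : Valued.v (X - x₀) * Valued.v g ^ 2 ≤ Valued.v g * Valued.v g ^ 2 := by
      calc Valued.v (X - x₀) * Valued.v g ^ 2 ≤ Valued.v (4 : F) * Valued.v (y₀ ^ 2) := hX'.le
        _ ≤ 1 * Valued.v g ^ 3 := mul_le_mul' v4 hy3
        _ = Valued.v g * Valued.v g ^ 2 := by rw [one_mul, pow_succ, mul_comm]
    exact le_of_mul_le_mul_right h5 hvg
  have hXg' : Valued.v X ≤ Valued.v g := by
    have h6 : X = (X - x₀) + x₀ := by ring
    rw [h6]
    exact Cc_add hXg hgx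
  have hq : Valued.v (X ^ 2 + X * x₀ + x₀ ^ 2 + A) ≤ Valued.v g ^ 2 := by
    refine Cc_add (Cc_add (Cc_add ?_ ?_) hx2) (hA.trans hg2)
    · rw [map_pow]
      exact pow_le_pow_left₀ zero_le hXg' 2
    · rw [map_mul, pow_two]
      exact mul_le_mul' hXg' hgx
  refine ⟨?_, ?_⟩
  · have h5 : Valued.v ((X ^ 3 + A * X + B - y₀ ^ 2) / y₀ ^ 2) < Valued.v (4 : F) := by
      rw [map_div₀, div_lt_iff₀ (zero_lt_iff.2 hvy)]
      refine lt_of_le_of_lt ?_ hX'
      have h7 : X ^ 3 + A * X + B - y₀ ^ 2 = (X - x₀) * (X ^ 2 + X * x₀ + x₀ ^ 2 + A) := by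
        rw [e]
        ring
      rw [h7, map_mul]
      exact mul_le_mul' le_rfl hq
    obtain ⟨t, ht⟩ := Pool.Agent.H10.isSquare_one_add (two_ne_zero : (2 : F) ≠ 0) h5
    have ht0 : t ≠ 0 := by
      rintro rfl
      rw [mul_zero] at ht
      have h8 : (X ^ 3 + A * X + B - y₀ ^ 2) / y₀ ^ 2 = -1 := by linear_combination ht
      rw [h8, Valuation.map_neg, map_one] at h5
      exact absurd (lt_of_lt_of_le h5 v4) (lt_irrefl _)
    refine ⟨y₀ * t, mul_ne_zero hy ht0, ?_⟩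
    have h9 : (y₀ * t) ^ 2 = y₀ ^ 2 * (t * t) := by ring
    rw [h9, ← ht]
    field_simp
    ring
  · intro j
    refine Pool.Agent.H10.lt_one_le_exp ?_
    have h10 : Valued.v ((![x₀ ^ 2 + A, x₀, 1] : Fin 3 → F) j) ≤ Valued.v g ^ 2 := by
      fin_cases j
      · exact Cc_add hx2 (hA.trans hg2)
      · exact hgx.trans hgg
      · change Valued.v (1 : F) ≤ _
        rw [map_one]
        exact hg2
    rw [map_mul, map_div₀, map_div₀, div_mul_div_comm,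
      div_lt_one₀ (zero_lt_iff.2 (mul_ne_zero hv4 hvy))]
    exact lt_of_le_of_lt (mul_le_mul' le_rfl h10) hX'

private lemma Cc_core {F k : Type} [Field F] [CharZero F] [Valued F (WithZero (Multiplicative ℤ))]
    [CompleteSpace F] {A B : F} (hA : Valued.v A ≤ 1) (hB : Valued.v B ≤ 1)
    (hD : 4 * A ^ 3 + 27 * B ^ 2 ≠ 0) (hinf : Infinite (Pc A B)) (i : k → F)
    (hi : ∀ (x : F) {c : F}, c ≠ 0 → ∃ y : k, Valued.v (i y - x) < Valued.v c)
    (hs : ∀ l : Fin 3 → F, (∀ j, Valued.v (l j) ≤ exp (-1 : ℤ)) →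
      ∃ s : Fin 3 → F, m3 A B s s = fun j => (![1, 0, 0] : Fin 3 → _) j + 4 * l j)
    (P : Pc A B) :
    ∃ (x : k) (y : F)
      (h : (⟨0, 0, 0, A, B⟩ : WeierstrassCurve F).toAffine.Nonsingular (i x) y), y ≠ 0 ∧
      ∃ Q : Pc A B, Q + Q = P - Affine.Point.some _ y h := by
  have h4 : (4 : F) ≠ 0 := by norm_num
  have h2 : (2 : F) ≠ 0 := by norm_num
  obtain ⟨R, hR⟩ := H73P2.Lb_avoid hD hinf {-(P + P)} (Set.finite_singleton _)
  have hR1 : 4 • R ≠ -(P + P) := hR _ (Set.mem_singleton _)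
  have hP0 : (P + (R + R)) + (P + (R + R)) ≠ 0 := by
    intro h0
    apply hR1
    rw [eq_neg_iff_add_eq_zero, ← h0]
    abel
  obtain ⟨P₀, hP₀⟩ : ∃ P₀, P₀ = P + (R + R) := ⟨_, rfl⟩
  rw [← hP₀] at hP0
  rcases P₀ with _ | ⟨x₀, y₀, h₀⟩
  · exact absurd (by rfl) hP0
  have hy₀ := H73P2.Lb_y_ne h₀ hP0
  have e := H73P2.Lb_eqn h₀
  obtain ⟨g, hg1, hgx⟩ : ∃ g : F, 1 ≤ Valued.v g ∧ Valued.v x₀ ≤ Valued.v g := by
    rcases le_total (Valued.v x₀) 1 with h | h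
    · exact ⟨1, by rw [map_one], by rw [map_one]; exact h⟩
    · exact ⟨x₀, h, le_rfl⟩
  have hg0 : g ≠ 0 := by
    rintro rfl
    rw [map_zero] at hg1
    exact absurd hg1 (not_le.2 zero_lt_one)
  obtain ⟨x, hx⟩ := hi x₀ (c := 4 * y₀ ^ 2 / g ^ 2)
    (div_ne_zero (mul_ne_zero h4 (pow_ne_zero _ hy₀)) (pow_ne_zero _ hg0))
  obtain ⟨⟨y, hy, hyx⟩, hl⟩ := Cc_near hA hg1 hgx hB hy₀ e hx
  obtain ⟨s, hss⟩ := hs _ hl
  refine ⟨x, y, H73P2.Lb_ns h2 hy hyx, hy, ?_⟩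
  obtain ⟨Q, hQ⟩ := diff_D2 hD hinf h₀ (H73P2.Lb_ns h2 hy hyx) hy₀ hy
    (z := m3 A B ![x₀, -1, 0] s) (by rw [Cc_m3, hss, Cc_alg hy₀ h4 e])
  refine ⟨Q - R, ?_⟩
  rw [hP₀] at hQ
  have h11 : (Q - R) + (Q - R) = (Q + Q) - (R + R) := by abel
  rw [h11, hQ]
  abel

theorem rep_k {k : Type} [Field k] [NumberField k] (v : HeightOneSpectrum (𝓞 k)) {a b : k}
    (ha : v.valuation k a ≤ 1) (hb : v.valuation k b ≤ 1) (hD : 4 * a ^ 3 + 27 * b ^ 2 ≠ 0)
    (P : Pt v a b) :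
    ∃ (x : k) (y : v.adicCompletion k)
      (h : (⟨0, 0, 0, algebraMap k (v.adicCompletion k) a, algebraMap k (v.adicCompletion k) b⟩ :
        WeierstrassCurve (v.adicCompletion k)).toAffine.Nonsingular
          (algebraMap k (v.adicCompletion k) x) y), y ≠ 0 ∧
      ∃ Q : Pt v a b, Q + Q = P - Affine.Point.some _ y h := by
  have _ : CharZero (v.adicCompletion k) :=
    charZero_of_injective_algebraMap (algebraMap k (v.adicCompletion k)).injective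
  have hva : ∀ c : k, v.valuation k c ≤ 1 →
      Valued.v (algebraMap k (v.adicCompletion k) c) ≤ 1 := by
    intro c hc
    have h5 := v.valuedAdicCompletion_eq_valuation' (K := k) c
    change Valued.v (algebraMap k (v.adicCompletion k) c) = _ at h5
    rw [h5]
    exact hc
  have hD' : 4 * algebraMap k (v.adicCompletion k) a ^ 3 +
      27 * algebraMap k (v.adicCompletion k) b ^ 2 ≠ 0 := by
    intro h0
    apply hD
    apply (algebraMap k (v.adicCompletion k)).injective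
    rw [map_zero, ← h0]
    simp only [map_add, map_mul, map_pow, map_ofNat]
  exact Cc_core (hva a ha) (hva b hb) hD' (H24PD.inf_fin v _ _) (algebraMap k (v.adicCompletion k))
    (fun x c hc => by
      obtain ⟨y, hy⟩ := (HeightOneSpectrum.denseRange_algebraMap (K := k) v).mem_nhds
        (Te_nhd x hc)
      exact ⟨y, hy⟩)
    (fun l hl => sqrt_alg v (hva a ha) (hva b hb) hl) P

end H30ZO
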