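import Pool.Agent.H30.ZO.Ah
import Pool.Agent.H30.ZO.Cc

/-!
ROW Cd (project MP_78d38b_ZO, about 180 lines): the points modulo two inject into the local classes. Use only the STATEMENTS of Ah, Cb, Cc.

PROOF. `F := v.adicCompletion k`, `f(x) := x^3 + a x + b`. For every coset of `D2 v a b` choose a point `P` in it and `x_P ∈ k`, `y_P ≠ 0` from rep_k, so that `P - (x_P, y_P)` is a double; `y_P^2 = f(x_P)` in `F`, so `f(x_P) ≠ 0`. `c_P := sc ((x_P - θ) f(x_P))` (`ev θ ![f(x) x, - f(x), 0] = f(x) (x - θ)`, not zero because its norm is `f(x)^4`: `Cub.norm_sub` (Pool/Agent/H76/PP/E0.lean): `N (x - θ) = f(x)`).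
`c_P ∈ HH k L` (`mem_HH`: the norm is `f(x)^3 f(x) = (f(x)^2)^2`). `Wc`: with `d = ![f(x) x, -f(x), 0]` and the point `(x_P, y_P)`: `m3 d (x, -1, 0) = f(x) (x - T)^2 = (y_P (x - T))^2`, i.e. the square of `![y x, -y, 0]` (`m3` computed with `simp [m3]; ring` after `y^2 = f(x)`). So `c_P ∈ W`.
Injectivity of (coset) ↦ class of `c_P` in `W / (Sqv k L v ⊓ HH k L)`: let `c_P - c_P' ∈ Sqv k L v`; since `2 c = 0` also `c_P + c_P' = sc ((x - θ)(x' - θ) f(x) f(x')) ∈ Sqv k L v` (`sc_mul`). sq_alg (the coordinates `d''` of this element: `m3 a b` of the coordinates, `Te_ev_mul`): `z` with `m3 z z = f(x) f(x') (x - T)(x' - T)`; divide `z` by `y y'`: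
`m3 z' z' = m3 ![x, -1, 0] ![x', -1, 0]` (`f(x) = y^2`, `f(x') = y'^2` in `F`). diff_D2 (`Infinite`: `H24PD.inf_fin`): `(x, y) - (x', y')` is a double, so `P - P'` is a double: `P - P' ∈ D2` (`D2` is the range of `P ↦ 2 • P`, `two_zsmul`).
So `Nat.card (Pt / D2) ≤ Nat.card (W / (..))` and the first is finite because the second is (`hfin`): `AddSubgroup.index` and `relIndex` (index of `addSubgroupOf`).
-/

set_option autoImplicit false
set_option linter.unusedSectionVars false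
open scoped Classical

open WithZero WeierstrassCurve NumberField IsDedekindDomain H38RT
open H38T1 (SC sc scu rep eo la si Pri OddP tp unif)
open H76PP

namespace H30ZO

variable {k L : Type} [Field k] [NumberField k] [Field L] [NumberField L] [Algebra k L]

private def Cd_d {F : Type*} [CommRing F] (a b x : F) : Fin 3 → F :=
  ![(x ^ 3 + a * x + b) * x, -(x ^ 3 + a * x + b), 0]

private lemma Cd_nf {F : Type*} [CommRing F] (a b x : F) :
    Te_nf a b (Cd_d a b x) = (x ^ 3 + a * x + b) ^ 2 * (x ^ 3 + a * x + b) ^ 2 := by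
  simp only [Te_nf, Cd_d, Matrix.cons_val_zero, Matrix.cons_val_one, Matrix.cons_val_two,
    Matrix.head_cons, Matrix.tail_cons]
  ring

private lemma Cd_map {F F' : Type*} [CommRing F] [CommRing F'] (i : F →+* F') (a b x : F) :
    (fun j => i (Cd_d a b x j)) = Cd_d (i a) (i b) (i x) := by
  funext j
  fin_cases j <;> simp [Cd_d]

private lemma Cd_sq {F : Type*} [CommRing F] (a b x y : F) (h : y ^ 2 = x ^ 3 + a * x + b) :
    m3 a b (Cd_d a b x) ![x, -1, 0] = m3 a b ![y * x, -y, 0] ![y * x, -y, 0] := by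
  unfold Cd_d
  rw [← h]
  funext j
  fin_cases j <;> simp [m3] <;> ring

private lemma Cd_prod {F : Type*} [Field F] (a b x x' y y' : F) (h : y ^ 2 = x ^ 3 + a * x + b)
    (h' : y' ^ 2 = x' ^ 3 + a * x' + b) (hy : y ≠ 0) (hy' : y' ≠ 0) (z : Fin 3 → F)
    (hz : m3 a b z z = m3 a b (Cd_d a b x) (Cd_d a b x')) :
    m3 a b (fun j => (y * y')⁻¹ * z j) (fun j => (y * y')⁻¹ * z j) =
      m3 a b ![x, -1, 0] ![x', -1, 0] := by
  have h1 : m3 a b (fun j => (y * y')⁻¹ * z j) (fun j => (y * y')⁻¹ * z j) =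
      fun j => ((y * y')⁻¹) ^ 2 * m3 a b z z j := by
    funext j
    fin_cases j <;> simp [m3] <;> ring
  have h2 : m3 a b (Cd_d a b x) (Cd_d a b x') =
      fun j => (y * y') ^ 2 * m3 a b ![x, -1, 0] ![x', -1, 0] j := by
    unfold Cd_d
    rw [← h, ← h']
    funext j
    fin_cases j <;> simp [m3] <;> ring
  rw [h1, hz, h2]
  funext j
  dsimp only
  have hyy : y * y' ≠ 0 := mul_ne_zero hy hy'
  rw [← mul_assoc, ← mul_pow, inv_mul_cancel₀ hyy, one_pow, one_mul]

private lemma Cd_two (c : SC L) : c + c = 0 := by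
  obtain ⟨x, hx, rfl⟩ := H38T1.sc_surj c
  rw [← H38T1.sc_mul hx hx]
  exact (H38T1.sc_eq_zero (mul_ne_zero hx hx)).2 ⟨x, rfl⟩

theorem idx_W {a b : k} {θ : L} (h : Cub k L a b θ) (v : HeightOneSpectrum (𝓞 k))
    (ha : v.valuation k a ≤ 1) (hb : v.valuation k b ≤ 1) (hD : 4 * a ^ 3 + 27 * b ^ 2 ≠ 0)
    {W : AddSubgroup (SC L)}
    (hW : ∀ c, c ∈ W ↔ c ∈ HH k L ∧ Wc (algebraMap k (v.adicCompletion k)) a b θ c)
    (hfin : (Sqv k L v ⊓ HH k L).relIndex W ≠ 0) :
    (D2 v a b).index ≠ 0 ∧ (D2 v a b).index ≤ (Sqv k L v ⊓ HH k L).relIndex W := by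
  have _ : CharZero (v.adicCompletion k) :=
    charZero_of_injective_algebraMap (algebraMap k (v.adicCompletion k)).injective
  have _ : FiniteDimensional k L := Module.Finite.of_restrictScalars_finite ℚ k L
  set i : k →+* v.adicCompletion k := algebraMap k (v.adicCompletion k) with hi
  have hi0 : ∀ x : k, i x = 0 → x = 0 := fun x hx => (map_eq_zero i).1 hx
  have hD' : 4 * (i a) ^ 3 + 27 * (i b) ^ 2 ≠ 0 := by
    intro e
    apply hD
    apply hi0
    simpa only [map_add, map_mul, map_pow, map_ofNat] using e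
  choose X Y hns hY Qf hQ using (rep_k v ha hb hD)
  have heq : ∀ P, Y P ^ 2 = (i (X P)) ^ 3 + i a * i (X P) + i b := by
    intro P
    exact (H73P2.Lb_eqn (hns P))
  have hf : ∀ P, X P ^ 3 + a * X P + b ≠ 0 := by
    intro P e
    have h1 := heq P
    have h2 : (i (X P)) ^ 3 + i a * i (X P) + i b = i (X P ^ 3 + a * X P + b) := by
      simp only [map_add, map_mul, map_pow]
    rw [h2, e, map_zero] at h1
    exact hY P (pow_eq_zero_iff (two_ne_zero) |>.1 h1)
  have hne : ∀ P, ev θ (Cd_d a b (X P)) ≠ 0 := by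
    intro P
    refine (Algebra.norm_ne_zero_iff (R := k) (S := L)).1 ?_
    rw [Te_norm h, Cd_nf]
    exact mul_ne_zero (pow_ne_zero _ (hf P)) (pow_ne_zero _ (hf P))
  have hmem : ∀ P, sc (ev θ (Cd_d a b (X P))) ∈ W := by
    intro P
    rw [hW]
    refine ⟨(mem_HH (hne P)).2 ⟨(X P ^ 3 + a * X P + b) ^ 2, ?_⟩, Cd_d a b (X P), hne P, rfl,
      i (X P), Y P, ![Y P * i (X P), -(Y P), 0], hY P, heq P, ?_⟩
    · rw [Te_norm h, Cd_nf]
    · rw [Cd_map]
      exact Cd_sq _ _ _ _ (heq P)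
  have key : ∀ P P' : Pt v a b, -sc (ev θ (Cd_d a b (X P))) + sc (ev θ (Cd_d a b (X P'))) ∈
      Sqv k L v → -P + P' ∈ D2 v a b := by
    intro P P' hs
    have h1 : -sc (ev θ (Cd_d a b (X P))) = sc (ev θ (Cd_d a b (X P))) :=
      neg_eq_of_add_eq_zero_left (Cd_two _)
    rw [h1, ← H38T1.sc_mul (hne P) (hne P'), Te_ev_mul h] at hs
    have hne2 : ev θ (m3 a b (Cd_d a b (X P)) (Cd_d a b (X P'))) ≠ 0 := by
      rw [← Te_ev_mul h]
      exact mul_ne_zero (hne P) (hne P')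
    obtain ⟨z, hz⟩ := sq_alg h v ha hb hne2 hs
    have hz2 : m3 (i a) (i b) z z = m3 (i a) (i b) (Cd_d (i a) (i b) (i (X P)))
        (Cd_d (i a) (i b) (i (X P'))) := by
      rw [hz, ← Cd_map, ← Cd_map]
      funext j
      exact (Te_m3_map i a b _ _ j).symm
    have hz3 := Cd_prod (i a) (i b) (i (X P)) (i (X P')) (Y P) (Y P') (heq P) (heq P') (hY P)
      (hY P') z hz2
    obtain ⟨Q, hQQ⟩ := diff_D2 hD' (H24PD.inf_fin v (i a) (i b)) (hns P) (hns P') (hY P) (hY P')
      hz3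
    have e1 := hQ P
    have e2 := hQ P'
    refine ⟨Qf P' - Q - Qf P, ?_⟩
    show (2 : ℤ) • (Qf P' - Q - Qf P) = -P + P'
    have e3 : P = Qf P + Qf P + Affine.Point.some _ (Y P) (hns P) := by
      rw [e1]
      abel
    have e4 : P' = Qf P' + Qf P' + Affine.Point.some _ (Y P') (hns P') := by
      rw [e2]
      abel
    have e5 : (Affine.Point.some _ (Y P) (hns P) : Pt v a b) =
        Q + Q + Affine.Point.some _ (Y P') (hns P') := by
      rw [hQQ]
      abel
    have e6 : -P + P' = -(Qf P + Qf P + Affine.Point.some _ (Y P) (hns P)) +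
        (Qf P' + Qf P' + Affine.Point.some _ (Y P') (hns P')) := by
      rw [← e3, ← e4]
    rw [e6, e5, two_zsmul]
    abel
  -- the injection
  let φ : (Pt v a b ⧸ D2 v a b) → (W ⧸ (Sqv k L v ⊓ HH k L).addSubgroupOf W) :=
    fun q => QuotientAddGroup.mk ⟨sc (ev θ (Cd_d a b (X q.out))), hmem q.out⟩
  have hφ : Function.Injective φ := by
    intro q q' hqq
    have h1 := (QuotientAddGroup.eq).1 hqq
    rw [AddSubgroup.mem_addSubgroupOf] at h1
    have h2 := key q.out q'.out h1.1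
    have h3 : (QuotientAddGroup.mk q.out : Pt v a b ⧸ D2 v a b) = QuotientAddGroup.mk q'.out :=
      (QuotientAddGroup.eq).2 h2
    rwa [QuotientAddGroup.out_eq', QuotientAddGroup.out_eq'] at h3
  have hfin' : Finite (W ⧸ (Sqv k L v ⊓ HH k L).addSubgroupOf W) :=
    Nat.finite_of_card_ne_zero hfin
  have hfin2 : Finite (Pt v a b ⧸ D2 v a b) := Finite.of_injective φ hφ
  refine ⟨?_, Nat.card_le_card_of_injective φ hφ⟩
  exact Nat.card_pos.ne'

end H30ZO
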