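import Pool.Agent.H30.ZO.Df
import Pool.Agent.H76.PP.Tb

/-!
ROW Cf (project MP_78d38b_ZO, about 120 lines): different places of degree one give different roots.

PROOF. Suppose `r = r'`. `F := v.adicCompletion k`, `f(x) = x^3 + a x + b`, `f(x) = (x - r)(x^2 + r x + r^2 + a)` in `F` (`hr0`), `δ := 3 r^2 + a ≠ 0` (`4 a^3 + 27 b^2 ≠ 0` and the identity `(6 a r^2 - 9 b r + 4 a^2)(3 r^2 + a) - (18 a r - 27 b) f(r) = 4 a^3 + 27 b^2`). `r` is integral (`Valued.v r ≤ 1`: root of a monic integral polynomial).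
Take `t ∈ k` with `Valued.v (t - r) < Valued.v δ` and `Valued.v (t - r) < 1`, `t ≠ r` automatically (`f(t) ≠ 0` by `Cub.li`/`Cub.norm_sub`); density (`H36CY.near_coe` in Pool/Agent/H36/CY/Ld.lean). Then `v.valuation (f(t)) = Valued.v (t - r) Valued.v δ` (since `t^2 + r t + r^2 + a - δ = (t - r)(t + 2 r)`), so `ord_v (f(t)) = i + c` with `i := ord (t - r) > c := ord δ`. On the other hand
`f(t) = N (t - θ)` (`Cub.norm_sub`) and `ord_norm` (Pool/Agent/H76/PP/Tb.lean) gives `ord_v (N x) log (Nv v) = ∑_w ord_w x log (Nv w)` (or the form stated there) with `Nv w ≥ Nv v` for `w` above `v` (a power of `Nv v`), all terms nonnegative (`t - θ` integral at all `w` above `v`: `θ` is integral there) and the two terms for `w` and `w'` at least `i` each (`hr`, `hr'`): `i + c ≥ 2 i`, so `c ≥ i`, a contradiction.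
-/

set_option autoImplicit false
set_option linter.unusedSectionVars false
open scoped Classical

open WithZero NumberField IsDedekindDomain H38RT
open H38T1 (SC sc scu rep eo la si Pri OddP tp unif)
open H76PP

namespace H30ZO

variable {k L : Type} [Field k] [NumberField k] [Field L] [NumberField L] [Algebra k L]

private lemma Cf_int {F : Type*} [Field F] (V : Valuation F (WithZero (Multiplicative ℤ)))
    {A B r : F} (hA : V A ≤ 1) (hB : V B ≤ 1) (hr : r ^ 3 + A * r + B = 0) : V r ≤ 1 := by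
  by_contra hlt
  rw [not_le] at hlt
  have h1 : r ^ 3 = -(A * r + B) := by linear_combination hr
  have h2 : V r ^ 3 ≤ V r := by
    rw [← map_pow, h1, Valuation.map_neg]
    refine Valuation.map_add_le _ ?_ (hB.trans hlt.le)
    rw [map_mul]
    exact mul_le_of_le_one_left' hA
  have hpos : 0 < V r := lt_trans zero_lt_one hlt
  have h3 : V r ^ 2 ≤ 1 := by
    have h4 : V r ^ 2 * V r ≤ 1 * V r := by
      rw [one_mul, ← pow_succ]
      exact h2
    exact le_of_mul_le_mul_right h4 hpos
  have h5 : V r ≤ V r ^ 2 := by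
    rw [pow_two]
    exact le_mul_of_one_le_right' hlt.le
  exact absurd (h5.trans h3) (not_le.2 hlt)

theorem root_ne {a b : k} {θ : L} (h : Cub k L a b θ) (v : HeightOneSpectrum (𝓞 k))
    (ha : v.valuation k a ≤ 1) (hb : v.valuation k b ≤ 1) (hD : 4 * a ^ 3 + 27 * b ^ 2 ≠ 0)
    {w w' : HeightOneSpectrum (𝓞 L)} (hw : dn k w = v) (hw' : dn k w' = v) (hne : w ≠ w')
    {r r' : v.adicCompletion k}
    (hr0 : r ^ 3 + algebraMap k (v.adicCompletion k) a * r +
      algebraMap k (v.adicCompletion k) b = 0)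
    (hr : ∀ t : k, w.valuation L (algebraMap k L t - θ) =
      Valued.v (algebraMap k (v.adicCompletion k) t - r))
    (hr' : ∀ t : k, w'.valuation L (algebraMap k L t - θ) =
      Valued.v (algebraMap k (v.adicCompletion k) t - r')) : r ≠ r' := by
  intro hrr
  subst hrr
  set i : k →+* v.adicCompletion k := algebraMap k (v.adicCompletion k) with hi
  have hiv : ∀ x : k, Valued.v (i x) = v.valuation k x := fun x =>
    HeightOneSpectrum.valuedAdicCompletion_eq_valuation' v x
  have hAv : Valued.v (i a) ≤ 1 := by rw [hiv]; exact ha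
  have hBv : Valued.v (i b) ≤ 1 := by rw [hiv]; exact hb
  have hrv : Valued.v r ≤ 1 := Cf_int Valued.v hAv hBv hr0
  have hn3 : Valued.v (3 : v.adicCompletion k) ≤ 1 := by
    have h1 := val_nat (v.valuation k) 3
    rw [← hiv, map_natCast] at h1
    exact_mod_cast h1
  have hn2 : Valued.v (2 : v.adicCompletion k) ≤ 1 := by
    have h1 := val_nat (v.valuation k) 2
    rw [← hiv, map_natCast] at h1
    exact_mod_cast h1
  -- the derivative
  set δ : v.adicCompletion k := 3 * r ^ 2 + i a with hδ
  have hδ0 : δ ≠ 0 := by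
    intro h0
    have h1 : i (4 * a ^ 3 + 27 * b ^ 2) = 0 := by
      have e : i (4 * a ^ 3 + 27 * b ^ 2) = 4 * i a ^ 3 + 27 * i b ^ 2 := by
        have e4 : i 4 = 4 := map_ofNat i 4
        have e27 : i 27 = 27 := map_ofNat i 27
        rw [map_add, map_mul, map_mul, map_pow, map_pow, e4, e27]
      rw [e]
      linear_combination (6 * i a * r ^ 2 - 9 * i b * r + 4 * i a ^ 2) * h0 -
        (18 * i a * r - 27 * i b) * hr0
    exact hD ((map_eq_zero i).1 h1)
  have hδ1 : Valued.v δ ≤ 1 := by
    refine Valuation.map_add_le _ ?_ hAv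
    rw [map_mul, map_pow]
    exact mul_le_one' hn3 (pow_le_one' hrv 2)
  -- an element of the base field
  obtain ⟨t, ht⟩ := (HeightOneSpectrum.denseRange_algebraMap (K := k) v).mem_nhds (Te_nhd r hδ0)
  change Valued.v (i t - r) < Valued.v δ at ht
  have hu : algebraMap k L t - θ ≠ 0 := by
    intro h0
    obtain ⟨_, e1, _⟩ := h.li t (-1) 0 (by
      rw [map_neg, map_one, map_zero]
      linear_combination h0)
    exact absurd e1 (by norm_num)
  have hn := h.norm_sub t
  have hft : t ^ 3 + a * t + b ≠ 0 := by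
    rw [← hn]
    have _ : FiniteDimensional k L := Module.Finite.of_restrictScalars_finite ℚ k L
    exact Algebra.norm_ne_zero_iff.2 hu
  have hfac : i (t ^ 3 + a * t + b) = (i t - r) * (δ + (i t - r) * (i t + 2 * r)) := by
    rw [map_add, map_add, map_mul, map_pow, hδ]
    linear_combination hr0
  have htr1 : Valued.v (i t - r) < 1 := ht.trans_le hδ1
  have htv : Valued.v (i t) ≤ 1 := by
    have e : i t = (i t - r) + r := by ring
    rw [e]
    exact Valuation.map_add_le _ htr1.le hrv
  have hsm : Valued.v ((i t - r) * (i t + 2 * r)) < Valued.v δ := by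
    rw [map_mul]
    refine lt_of_le_of_lt (mul_le_of_le_one_right' ?_) ht
    refine Valuation.map_add_le _ htv ?_
    rw [map_mul]
    exact mul_le_one' hn2 hrv
  have hval : v.valuation k (t ^ 3 + a * t + b) = Valued.v (i t - r) * Valued.v δ := by
    rw [← hiv, hfac, map_mul, Valuation.map_add_eq_of_lt_left _ hsm]
  have htr0 : Valued.v (i t - r) ≠ 0 := by
    intro h0
    rw [h0, zero_mul] at hval
    exact hft ((Valuation.zero_iff _).1 hval)
  have hδv0 : Valued.v δ ≠ 0 := (Valuation.ne_zero_iff _).2 hδ0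
  have hordf : ord (v.valuation k) (t ^ 3 + a * t + b) =
      -log (Valued.v (i t - r)) + -log (Valued.v δ) := by
    unfold ord
    rw [hval, log_mul htr0 hδv0]
    ring
  have hlt : log (Valued.v (i t - r)) < log (Valued.v δ) := (log_lt_log htr0 hδv0).2 ht
  have hsum := ord_norm (K := k) v hu
  rw [hn, hordf] at hsum
  have htk : v.valuation k t ≤ 1 := by rw [← hiv]; exact htv
  have hnn : ∀ u : {w : HeightOneSpectrum (𝓞 L) // dn k w = v},
      0 ≤ (u.1.asIdeal.inertiaDeg (𝓞 k) : ℤ) * ord (u.1.valuation L) (algebraMap k L t - θ) := by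
    rintro ⟨u, hu1⟩
    refine mul_nonneg (Int.natCast_nonneg _) ?_
    have h1 : u.valuation L (algebraMap k L t) ≤ 1 := val_le (K := k) (by rw [hu1]; exact htk)
    have h2 : u.valuation L θ ≤ 1 :=
      Cf_int _ (val_le (K := k) (by rw [hu1]; exact ha)) (val_le (K := k) (by rw [hu1]; exact hb))
        h.root
    have h3 : u.valuation L (algebraMap k L t - θ) ≤ 1 := Valuation.map_sub_le _ h1 h2
    unfold ord
    have h4 := (log_le_log ((Valuation.ne_zero_iff _).2 hu) one_ne_zero).2 h3
    rw [log_one] at h4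
    change 0 ≤ -log (u.valuation L (algebraMap k L t - θ))
    omega
  have hfin : Finite {w : HeightOneSpectrum (𝓞 L) // dn k w = v} :=
    (fin_above (K := k) (L := L) v).to_subtype
  have hfty : Fintype {w : HeightOneSpectrum (𝓞 L) // dn k w = v} := Fintype.ofFinite _
  rw [finsum_eq_sum_of_fintype] at hsum
  have hpair : ∑ u ∈ ({⟨w, hw⟩, ⟨w', hw'⟩} :
      Finset {w : HeightOneSpectrum (𝓞 L) // dn k w = v}),
      (u.1.asIdeal.inertiaDeg (𝓞 k) : ℤ) * ord (u.1.valuation L) (algebraMap k L t - θ) ≤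
      ∑ u : {w : HeightOneSpectrum (𝓞 L) // dn k w = v},
      (u.1.asIdeal.inertiaDeg (𝓞 k) : ℤ) * ord (u.1.valuation L) (algebraMap k L t - θ) :=
    Finset.sum_le_sum_of_subset_of_nonneg (Finset.subset_univ _) (fun u _ _ => hnn u)
  rw [Finset.sum_pair (fun h0 => hne (congrArg Subtype.val h0))] at hpair
  have hdeg : ∀ u : HeightOneSpectrum (𝓞 L), (1 : ℤ) ≤ (u.asIdeal.inertiaDeg (𝓞 k) : ℤ) := by
    intro u
    have _ : u.asIdeal.IsPrime := u.isPrime
    have h1 := Ideal.inertiaDeg_pos u.asIdeal (𝓞 k)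
    omega
  have hpos : 0 < -log (Valued.v (i t - r)) := by
    have h1 := (log_lt_log htr0 one_ne_zero).2 htr1
    rw [log_one] at h1
    omega
  have ho1 : ord (w.valuation L) (algebraMap k L t - θ) = -log (Valued.v (i t - r)) := by
    unfold ord
    rw [hr t]
  have ho2 : ord (w'.valuation L) (algebraMap k L t - θ) = -log (Valued.v (i t - r)) := by
    unfold ord
    rw [hr' t]
  change (w.asIdeal.inertiaDeg (𝓞 k) : ℤ) * ord (w.valuation L) (algebraMap k L t - θ) +
    (w'.asIdeal.inertiaDeg (𝓞 k) : ℤ) * ord (w'.valuation L) (algebraMap k L t - θ) ≤ _ at hpair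
  rw [ho1, ho2] at hpair
  have g1 : -log (Valued.v (i t - r)) ≤
      (w.asIdeal.inertiaDeg (𝓞 k) : ℤ) * -log (Valued.v (i t - r)) :=
    le_mul_of_one_le_left hpos.le (hdeg w)
  have g2 : -log (Valued.v (i t - r)) ≤
      (w'.asIdeal.inertiaDeg (𝓞 k) : ℤ) * -log (Valued.v (i t - r)) :=
    le_mul_of_one_le_left hpos.le (hdeg w')
  omega

end H30ZO
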