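import Pool.Agent.H30.ZO.Ce
import Pool.Agent.H30.ZO.Cf
import Pool.Agent.H76.PP.Tb

/-!
ROW Cg (project MP_78d38b_ZO, about 150 lines): the number of places above `v` and the number of points of order two. Use only the STATEMENTS of Ce, Cf.

PROOF. `Σ_{w above v} e_w f_w = 3` (`Ideal.sum_ramification_inertia`, `Cub.finrank`; or `ord_norm` in Pool/Agent/H76/PP/Tb.lean applied to a uniformizer `π` of `v`: `3 log (Nv v) = Σ_w e_w log (Nv w)`, `Nv w = Nv v ^ f_w`, `f_w ≥ 1`, `e_w` from `ord_dn` (Pool/Agent/H76/PP/Ta.lean)). So `nb k L v ≤ 3`; if `nb = 2` one of the two places has `e_w f_w = 1`,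
if `nb = 3` all three have. For such `w` the hypotheses `he`, `hf` of root_w hold (`ord_dn` with `e = 1`). A root `r` gives the point `(r, 0)` of `Pt v a b` (nonsingular because `3 r^2 + a ≠ 0`, as `4 a^3 + 27 b^2 ≠ 0`), which is in `T2 v a b` (`T2` is the kernel of `P ↦ 2 • P`; `(r, 0) = -(r, 0)`: `Affine.Point.neg_some`, `H73P2.Lb_negY`).
`T2` is finite: its nonzero elements are `(r, 0)` with `r` a root of a nonzero polynomial (`2 P = 0`, `P = (x, y)`: `P = -P`, `y = -y`, `y = 0` in characteristic zero, `x` is a root of `T^3 + a T + b`). `nb = 1`: `2 ≤ 2 * 1`. `nb = 2`: `4 ≤ 2 * 2` (`0` and one root). `nb = 3`: `8 ≤ 2 * 4` (`0` and three different roots, root_ne). `nb = 0` is impossible (`exists_above`) but also harmless: `1 ≤ 2`.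
-/

set_option autoImplicit false
set_option linter.unusedSectionVars false
open scoped Classical

open WithZero NumberField IsDedekindDomain H38RT
open H38T1 (SC sc scu rep eo la si Pri OddP tp unif)
open H76PP

namespace H30ZO

variable {k L : Type} [Field k] [NumberField k] [Field L] [NumberField L] [Algebra k L]

private theorem Cg_Nv (w : HeightOneSpectrum (𝓞 L)) :
    Nv w = Nv (dn k w) ^ (w.asIdeal.inertiaDeg (𝓞 k)) := by
  have h1 : w.asIdeal.IsMaximal := w.isMaximal
  have h2 : (dn k w).asIdeal.IsMaximal := (dn k w).isMaximal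
  have h3 : w.asIdeal.LiesOver (dn k w).asIdeal := ⟨rfl⟩
  have h4 : Ideal.relNorm (𝓞 k) w.asIdeal = (dn k w).asIdeal ^ (w.asIdeal.inertiaDeg (𝓞 k)) :=
    Ideal.relNorm_eq_pow_of_isMaximal w.asIdeal (dn k w).asIdeal
  have h5 := Ideal.absNorm_relNorm (R := 𝓞 k) (S := 𝓞 L) w.asIdeal
  rw [h4, map_pow] at h5
  exact h5.symm

private theorem Cg_f (w : HeightOneSpectrum (𝓞 L)) : 1 ≤ w.asIdeal.inertiaDeg (𝓞 k) := by
  rw [Nat.one_le_iff_ne_zero]
  intro h
  have h1 := Cg_Nv (k := k) w
  rw [h, pow_zero, Nv, Ideal.absNorm_eq_one_iff] at h1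
  exact w.isPrime.ne_top h1

/-- a place of degree one -/
private def CgD (k : Type) {L : Type} [Field k] [NumberField k] [Field L] [NumberField L]
    [Algebra k L] (v : HeightOneSpectrum (𝓞 k)) (w : HeightOneSpectrum (𝓞 L)) : Prop :=
  dn k w = v ∧ (∀ x : k, w.valuation L (algebraMap k L x) = v.valuation k x) ∧ Nv w = Nv v

/-- many places of degree one -/
private theorem Cg_cnt {a b : k} {θ : L} (h : Cub k L a b θ) (v : HeightOneSpectrum (𝓞 k)) :
    nb k L v ≤ 3 ∧ ∃ W : Finset (HeightOneSpectrum (𝓞 L)), (∀ w ∈ W, CgD k v w) ∧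
      2 * nb k L v ≤ W.card + 3 := by
  obtain ⟨ϖ, hϖ⟩ := v.valuation_exists_uniformizer k
  have hϖ0 : ϖ ≠ 0 := by
    rintro rfl
    rw [map_zero] at hϖ
    exact absurd hϖ.symm exp_ne_zero
  have hord : ord (v.valuation k) ϖ = 1 := by
    rw [ord, hϖ, log_exp]
    rfl
  have hL0 : algebraMap k L ϖ ≠ 0 := fun h0 =>
    hϖ0 ((algebraMap k L).injective (by rw [h0, map_zero]))
  have hfr : Module.finrank k L = 3 := h.finrank
  have hn : Algebra.norm k (algebraMap k L ϖ) = ϖ ^ 3 := by
    rw [Algebra.norm_algebraMap, hfr]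
  have h1 := ord_norm (K := k) (L := L) v hL0
  have h0 : ∑ᶠ w : {w : HeightOneSpectrum (𝓞 L) // dn k w = v},
        (w.1.asIdeal.inertiaDeg (𝓞 k) : ℤ) * ord (w.1.valuation L) (algebraMap k L ϖ) =
      ∑ w ∈ (fin_above (L := L) v).toFinset,
        (w.asIdeal.inertiaDeg (𝓞 k) : ℤ) * ord (w.valuation L) (algebraMap k L ϖ) := by
    rw [← finsum_mem_eq_finite_toFinset_sum (fun w : HeightOneSpectrum (𝓞 L) =>
      (w.asIdeal.inertiaDeg (𝓞 k) : ℤ) * ord (w.valuation L) (algebraMap k L ϖ))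
      (fin_above (L := L) v)]
    exact finsum_set_coe_eq_finsum_mem {w : HeightOneSpectrum (𝓞 L) | dn k w = v}
      (f := fun w => (w.asIdeal.inertiaDeg (𝓞 k) : ℤ) * ord (w.valuation L) (algebraMap k L ϖ))
  have h3 : ord (v.valuation k) (ϖ ^ 3) = 3 := by
    have e1 : ϖ ^ 3 = ϖ * (ϖ * ϖ) := by ring
    rw [e1, ord_mul hϖ0 (mul_ne_zero hϖ0 hϖ0), ord_mul hϖ0 hϖ0, hord]
    norm_num
  rw [h0, hn, h3] at h1
  obtain ⟨S, hS⟩ : ∃ S, S = (fin_above (L := L) v).toFinset := ⟨_, rfl⟩
  rw [← hS] at h1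
  have hnb : nb k L v = S.card := by
    rw [nb, hS, Set.ncard_eq_toFinset_card _ (fin_above (L := L) v)]
  have hmem : ∀ w ∈ S, dn k w = v := by
    intro w hw
    rw [hS] at hw
    have hw' := (Set.Finite.mem_toFinset _).1 hw
    exact hw'
  have hE : ∀ w ∈ S, 1 ≤ ord (w.valuation L) (algebraMap k L ϖ) ∧
      (ord (w.valuation L) (algebraMap k L ϖ) = 1 →
        ∀ x : k, w.valuation L (algebraMap k L x) = v.valuation k x) := by
    intro w hw
    obtain ⟨e, he, h4⟩ := ord_dn (K := k) w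
    rw [hmem w hw] at h4
    have h5 := h4 ϖ hϖ0
    rw [hord, mul_one] at h5
    refine ⟨by rw [h5]; exact_mod_cast he, ?_⟩
    intro h6 x
    rw [h5] at h6
    by_cases hx : x = 0
    · rw [hx, map_zero, map_zero, map_zero]
    have hx' : algebraMap k L x ≠ 0 := fun h0 =>
      hx ((algebraMap k L).injective (by rw [h0, map_zero]))
    have h7 := h4 x hx
    rw [h6, one_mul, ord, ord, neg_inj] at h7
    rw [← exp_log ((Valuation.ne_zero_iff (w.valuation L)).2 hx'), h7,
      exp_log ((Valuation.ne_zero_iff (v.valuation k)).2 hx)]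
  have hfe : ∀ w ∈ S, (1 : ℤ) ≤ (w.asIdeal.inertiaDeg (𝓞 k) : ℤ) *
      ord (w.valuation L) (algebraMap k L ϖ) := by
    intro w hw
    have e1 : (1 : ℤ) ≤ (w.asIdeal.inertiaDeg (𝓞 k) : ℤ) := by exact_mod_cast Cg_f (k := k) w
    have e2 := (hE w hw).1
    nlinarith
  rw [hnb]
  constructor
  · have h4 : ∑ w ∈ S, (1 : ℤ) ≤ ∑ w ∈ S, (w.asIdeal.inertiaDeg (𝓞 k) : ℤ) *
        ord (w.valuation L) (algebraMap k L ϖ) := Finset.sum_le_sum hfe
    rw [← h1, Finset.sum_const, nsmul_eq_mul, mul_one] at h4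
    exact_mod_cast h4
  · refine ⟨S.filter fun w => (w.asIdeal.inertiaDeg (𝓞 k) : ℤ) *
      ord (w.valuation L) (algebraMap k L ϖ) = 1, ?_, ?_⟩
    · intro w hw
      rw [Finset.mem_filter] at hw
      obtain ⟨hwS, hw1⟩ := hw
      have e1 : (1 : ℤ) ≤ (w.asIdeal.inertiaDeg (𝓞 k) : ℤ) := by exact_mod_cast Cg_f (k := k) w
      have e2 := (hE w hwS).1
      have e3 : ord (w.valuation L) (algebraMap k L ϖ) = 1 := by nlinarith
      have e4 : (w.asIdeal.inertiaDeg (𝓞 k) : ℤ) = 1 := by
        rw [e3, mul_one] at hw1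
        exact hw1
      have e5 : w.asIdeal.inertiaDeg (𝓞 k) = 1 := by exact_mod_cast e4
      refine ⟨hmem w hwS, (hE w hwS).2 e3, ?_⟩
      rw [Cg_Nv (k := k) w, e5, pow_one, hmem w hwS]
    · have h4 : ∑ w ∈ S, ((2 : ℤ) - if (w.asIdeal.inertiaDeg (𝓞 k) : ℤ) *
          ord (w.valuation L) (algebraMap k L ϖ) = 1 then 1 else 0) ≤
          ∑ w ∈ S, (w.asIdeal.inertiaDeg (𝓞 k) : ℤ) *
            ord (w.valuation L) (algebraMap k L ϖ) := by
        refine Finset.sum_le_sum fun w hw => ?_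
        have e1 := hfe w hw
        split_ifs with e2
        · omega
        · omega
      rw [← h1, Finset.sum_sub_distrib, Finset.sum_const, nsmul_eq_mul, Finset.sum_boole] at h4
      omega

section Points

variable {F : Type} [Field F] {A B : F}

private theorem Cg_negY (x y : F) :
    (⟨0, 0, 0, A, B⟩ : WeierstrassCurve F).toAffine.negY x y = -y := by
  simp [WeierstrassCurve.Affine.negY]

private theorem Cg_eqn {x y : F}
    (h : (⟨0, 0, 0, A, B⟩ : WeierstrassCurve F).toAffine.Nonsingular x y) :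
    y ^ 2 = x ^ 3 + A * x + B := by
  have h1 := (WeierstrassCurve.Affine.equation_iff _ _).1 h.1
  linear_combination h1

private theorem Cg_ns {r : F} (hD : 4 * A ^ 3 + 27 * B ^ 2 ≠ 0) (hr : r ^ 3 + A * r + B = 0) :
    (⟨0, 0, 0, A, B⟩ : WeierstrassCurve F).toAffine.Nonsingular r 0 := by
  rw [WeierstrassCurve.Affine.nonsingular_iff, WeierstrassCurve.Affine.equation_iff]
  refine ⟨by linear_combination -hr, Or.inl ?_⟩
  intro h0
  apply hD
  linear_combination (27 * B - 18 * A * r) * hr - (6 * A * r ^ 2 - 9 * B * r + 4 * A ^ 2) * h0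

private theorem Cg_y {x y : F} (h2 : (2 : F) ≠ 0)
    (h : (⟨0, 0, 0, A, B⟩ : WeierstrassCurve F).toAffine.Nonsingular x y)
    (h0 : (2 : ℤ) • (WeierstrassCurve.Affine.Point.some x y h) = 0) :
    y = 0 ∧ x ^ 3 + A * x + B = 0 := by
  rw [two_zsmul, add_eq_zero_iff_eq_neg, WeierstrassCurve.Affine.Point.neg_some,
    WeierstrassCurve.Affine.Point.some.injEq, Cg_negY] at h0
  have hy : y = 0 := by
    have h3 : 2 * y = 0 := by linear_combination h0.2
    exact (mul_eq_zero.1 h3).resolve_left h2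
  refine ⟨hy, ?_⟩
  have h1 := Cg_eqn h
  rw [hy] at h1
  linear_combination -h1

private theorem Cg_fin : {r : F | r ^ 3 + A * r + B = 0}.Finite := by
  have hp : (Polynomial.X ^ 3 + Polynomial.C A * Polynomial.X + Polynomial.C B :
      Polynomial F) ≠ 0 := by
    intro h0
    have h1 := congrArg (fun p => Polynomial.coeff p 3) h0
    simp at h1
  refine (Polynomial.X ^ 3 + Polynomial.C A * Polynomial.X + Polynomial.C B :
    Polynomial F).roots.toFinset.finite_toSet.subset fun r hr => ?_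
  have hr' : r ^ 3 + A * r + B = 0 := hr
  rw [Finset.mem_coe, Multiset.mem_toFinset, Polynomial.mem_roots hp, Polynomial.IsRoot.def]
  simp [hr']

end Points

theorem nb_T2 {a b : k} {θ : L} (h : Cub k L a b θ) (v : HeightOneSpectrum (𝓞 k))
    (ha : v.valuation k a ≤ 1) (hb : v.valuation k b ≤ 1) (hD : 4 * a ^ 3 + 27 * b ^ 2 ≠ 0) :
    Finite (T2 v a b) ∧ 2 ^ nb k L v ≤ 2 * Nat.card (T2 v a b) := by
  have hmap0 : ∀ x : k, x ≠ 0 → algebraMap k (v.adicCompletion k) x ≠ 0 := fun x hx =>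
    (map_ne_zero (algebraMap k (v.adicCompletion k))).2 hx
  have h2 : (2 : v.adicCompletion k) ≠ 0 := by
    have := hmap0 2 two_ne_zero
    rwa [map_ofNat] at this
  have hD' : 4 * algebraMap k (v.adicCompletion k) a ^ 3 +
      27 * algebraMap k (v.adicCompletion k) b ^ 2 ≠ 0 := by
    have := hmap0 _ hD
    rw [map_add, map_mul, map_mul, map_pow, map_pow, map_ofNat, map_ofNat] at this
    exact this
  have hmemT : ∀ P : Pt v a b, P ∈ T2 v a b ↔ (2 : ℤ) • P = 0 := fun P => Iff.rfl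
  have hfin : Finite (T2 v a b) := by
    have hR : Finite {r : v.adicCompletion k | r ^ 3 + algebraMap k (v.adicCompletion k) a * r +
        algebraMap k (v.adicCompletion k) b = 0} := (Cg_fin).to_subtype
    have hcl : ∀ P : T2 v a b, P.1 = 0 ∨ ∃ (r : v.adicCompletion k) (hn : _),
        r ^ 3 + algebraMap k (v.adicCompletion k) a * r +
          algebraMap k (v.adicCompletion k) b = 0 ∧
        P.1 = WeierstrassCurve.Affine.Point.some r 0 hn := by
      rintro ⟨P, hP⟩
      rcases P with _ | ⟨x, y, hn⟩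
      · exact Or.inl rfl
      · obtain ⟨hy, hx⟩ := Cg_y h2 hn ((hmemT _).1 hP)
        subst hy
        exact Or.inr ⟨x, hn, hx, rfl⟩
    let φ : Option {r : v.adicCompletion k | r ^ 3 + algebraMap k (v.adicCompletion k) a * r +
        algebraMap k (v.adicCompletion k) b = 0} → Pt v a b := fun o =>
      match o with
      | none => 0
      | some r => WeierstrassCurve.Affine.Point.some r.1 0 (Cg_ns hD' r.2)
    have hsub : ((T2 v a b : AddSubgroup (Pt v a b)) : Set (Pt v a b)) ⊆ Set.range φ := by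
      intro P hP
      rcases hcl ⟨P, hP⟩ with h0 | ⟨r, hn, hr, h0⟩
      · exact ⟨none, h0.symm⟩
      · exact ⟨some ⟨r, hr⟩, h0.symm⟩
    exact ((Set.finite_range φ).subset hsub).to_subtype
  refine ⟨hfin, ?_⟩
  obtain ⟨h3, W, hW, hWc⟩ := Cg_cnt h v
  have hroot : ∀ w : W, ∃ r : v.adicCompletion k, r ^ 3 +
        algebraMap k (v.adicCompletion k) a * r + algebraMap k (v.adicCompletion k) b = 0 ∧
      ∀ t : k, w.1.valuation L (algebraMap k L t - θ) =
        Valued.v (algebraMap k (v.adicCompletion k) t - r) := fun w =>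
    root_w h v ha hb w.1 (hW w.1 w.2).2.1 (hW w.1 w.2).2.2
  choose r hr1 hr2 using hroot
  have hcard : W.card + 1 ≤ Nat.card (T2 v a b) := by
    let ψ : Option W → T2 v a b := fun o =>
      match o with
      | none => 0
      | some w => ⟨WeierstrassCurve.Affine.Point.some (r w) 0 (Cg_ns hD' (hr1 w)), by
          rw [hmemT, two_zsmul]
          apply WeierstrassCurve.Affine.Point.add_self_of_Y_eq
          rw [Cg_negY, neg_zero]⟩
    have hψ : Function.Injective ψ := by
      rintro (_ | w) (_ | w') hww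
      · rfl
      · exact absurd (congrArg Subtype.val hww).symm (by
          exact WeierstrassCurve.Affine.Point.some_ne_zero _)
      · exact absurd (congrArg Subtype.val hww) (by
          exact WeierstrassCurve.Affine.Point.some_ne_zero _)
      · have e1 : (WeierstrassCurve.Affine.Point.some (r w) 0 (Cg_ns hD' (hr1 w)) : Pt v a b) =
            WeierstrassCurve.Affine.Point.some (r w') 0 (Cg_ns hD' (hr1 w')) :=
          congrArg Subtype.val hww
        rw [WeierstrassCurve.Affine.Point.some.injEq] at e1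
        by_contra hne
        have hne' : w.1 ≠ w'.1 := fun h0 => hne (congrArg some (Subtype.ext h0))
        exact root_ne h v ha hb hD (hW w.1 w.2).1 (hW w'.1 w'.2).1 hne' (hr1 w) (hr2 w) (hr2 w') e1.1
    have h4 := Nat.card_le_card_of_injective ψ hψ
    have h5 : Nat.card (Option W) = W.card + 1 := by
      rw [Nat.card_eq_fintype_card, Fintype.card_option, Fintype.card_coe]
    rw [h5] at h4
    exact h4
  have h6 : nb k L v = 0 ∨ nb k L v = 1 ∨ nb k L v = 2 ∨ nb k L v = 3 := by omega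
  rcases h6 with h6 | h6 | h6 | h6
  · rw [h6] at hWc ⊢
    omega
  · rw [h6] at hWc ⊢
    omega
  · rw [h6] at hWc ⊢
    omega
  · rw [h6] at hWc ⊢
    omega

end H30ZO
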