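import Pool.Agent.H30.ZO.Ah

/-!
ROW Ch (project MP_78d38b_ZO, about 130 lines): the classes satisfying a local condition form a subgroup. Use only the STATEMENT of Ah (for Sqv_le).

PROOF of exists_WW. Carrier `{c | c ∈ HH k L ∧ Wc i a b θ c}`. zero: by `H73P2.Lb_avoid` and `H73P2.Lb_dbl` (Pool/Agent/H73/P2/Lb.lean) there is `Q` with `Q + Q ≠ 0`, `4 Q ≠ 0` and `Lb_P (i a) (i b) ![1, 0, 0] (Q + Q)`, i.e. `LC i a b ![1, 0, 0]` (`i 1 = 1`, `i 0 = 0`, `Lb_eqn` for the equation), `ev θ ![1, 0, 0] = 1`, `sc 1 = 0`. Sum: `LC_mul` (same file) for `d₁, d₂`;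
`ev θ (m3 a b d₁ d₂) = ev θ d₁ * ev θ d₂` (`Te_ev_mul`), `sc_mul`. Negative: `-c = c` (`H38T1.SC.two_smul`: `c + c = 0`).
PROOF of Sqv_le. `i` the map to the completion. Let `c ∈ Sqv k L v ⊓ HH k L`, `c = sc x`, `x = ev θ d` (`H38T1.sc_surj`, `Cub.eq_co`). sq_alg: `z` with `m3 z z = d` over the completion. As above there is a point `(x₁, y₁)`, `y₁ ≠ 0`, with `m3 ![1, 0, 0] ![x₁, -1, 0] = m3 u u`; then `m3 d ![x₁, -1, 0] = m3 (m3 z u) (m3 z u)` (`m3` commutative and associative: `funext j; fin_cases j; simp [m3]; ring`). So `Wc` holds.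
(`Infinite`: `H24PD.inf_fin`, Pool/Agent/H24/PD/Lf.lean; the completion has characteristic zero: `H36CY.char_zero` in Pool/Agent/H36/CY/Ld.lean.)
-/

set_option autoImplicit false
set_option linter.unusedSectionVars false
open scoped Classical

open WithZero WeierstrassCurve NumberField IsDedekindDomain H38RT
open H38T1 (SC sc scu rep eo la si Pri OddP tp unif)
open H76PP

namespace H30ZO

variable {k L : Type} [Field k] [NumberField k] [Field L] [NumberField L] [Algebra k L]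

private lemma Ch_pt {F : Type} [Field F] [CharZero F] {A B : F}
    (hD : 4 * A ^ 3 + 27 * B ^ 2 ≠ 0)
    (hinf : Infinite (⟨0, 0, 0, A, B⟩ : WeierstrassCurve F).toAffine.Point) :
    ∃ (x y : F) (z : Fin 3 → F), y ≠ 0 ∧ y ^ 2 = x ^ 3 + A * x + B ∧
      m3 A B ![1, 0, 0] ![x, -1, 0] = m3 A B z z := by
  obtain ⟨Q, hQ⟩ := H73P2.Lb_avoid hD hinf {0} (Set.finite_singleton 0)
  have h4 : 4 • Q ≠ 0 := hQ 0 rfl
  have e4 : 4 • Q = Q + Q + (Q + Q) := by abel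
  have h0 : Q + Q ≠ 0 := by
    intro h
    apply h4
    rw [e4, h, add_zero]
  have h1 : Q + Q + (Q + Q) ≠ 0 := by
    rw [← e4]
    exact h4
  obtain ⟨x, y, hns, z, -, hy, hz⟩ := H73P2.Lb_dbl two_ne_zero Q h0 h1
  exact ⟨x, y, z, hy, H73P2.Lb_eqn hns, hz⟩

private lemma Ch_neg (c : SC L) : -c = c := by
  have h := H38T1.SC.two_smul c
  rw [two_nsmul] at h
  exact neg_eq_of_add_eq_zero_left h

private lemma Ch_ev1 (θ : L) : ev (K := k) θ ![1, 0, 0] = 1 := by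
  unfold ev
  simp

private lemma Ch_sc1 : sc (1 : L) = 0 := by
  have h := H38T1.sc_mul (K := L) (x := 1) (y := 1) one_ne_zero one_ne_zero
  rw [one_mul] at h
  exact (add_eq_left.1 h.symm)

theorem exists_WW {a b : k} {θ : L} (h : Cub k L a b θ) {F : Type} [Field F] [CharZero F]
    (i : k →+* F) (hD : 4 * i a ^ 3 + 27 * i b ^ 2 ≠ 0)
    (hinf : Infinite (⟨0, 0, 0, i a, i b⟩ : WeierstrassCurve F).toAffine.Point) :
    ∃ W : AddSubgroup (SC L), ∀ c, c ∈ W ↔ c ∈ HH k L ∧ Wc i a b θ c := by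
  refine ⟨{ carrier := {c | c ∈ HH k L ∧ Wc i a b θ c}, add_mem' := ?_, zero_mem' := ?_,
            neg_mem' := ?_ }, fun c => Iff.rfl⟩
  · rintro c₁ c₂ ⟨h1, d₁, n₁, e₁, l₁⟩ ⟨h2, d₂, n₂, e₂, l₂⟩
    refine ⟨(HH k L).add_mem h1 h2, m3 a b d₁ d₂, ?_, ?_, H73P2.LC_mul i hD hinf l₁ l₂⟩
    · rw [← Te_ev_mul h]
      exact mul_ne_zero n₁ n₂
    · rw [← Te_ev_mul h, H38T1.sc_mul n₁ n₂, e₁, e₂]
  · refine ⟨(HH k L).zero_mem, ![1, 0, 0], ?_, ?_, ?_⟩
    · rw [Ch_ev1]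
      exact one_ne_zero
    · rw [Ch_ev1]
      exact Ch_sc1
    · obtain ⟨x, y, z, hy, he, hz⟩ := Ch_pt hD hinf
      refine ⟨x, y, z, hy, he, ?_⟩
      have e1 : (fun j => i ((![1, 0, 0] : Fin 3 → k) j)) = (![1, 0, 0] : Fin 3 → F) := by
        funext j
        fin_cases j
        · exact map_one i
        · exact map_zero i
        · exact map_zero i
      rw [e1]
      exact hz
  · rintro c ⟨h1, h2⟩
    show -c ∈ HH k L ∧ Wc i a b θ (-c)
    rw [Ch_neg c]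
    exact ⟨h1, h2⟩

theorem Sqv_le {a b : k} {θ : L} (h : Cub k L a b θ) (v : HeightOneSpectrum (𝓞 k))
    (ha : v.valuation k a ≤ 1) (hb : v.valuation k b ≤ 1) (hD : 4 * a ^ 3 + 27 * b ^ 2 ≠ 0)
    {c : SC L} (hc : c ∈ Sqv k L v) :
    Wc (algebraMap k (v.adicCompletion k)) a b θ c := by
  have _ : CharZero (v.adicCompletion k) := H36CY.char_zero v
  obtain ⟨x, hx, rfl⟩ := H38T1.sc_surj c
  have hev : ev θ (fun j => h.co j x) = x := (h.eq_co x).symm
  have hne : ev θ (fun j => h.co j x) ≠ 0 := by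
    rw [hev]
    exact hx
  obtain ⟨z, hz⟩ := sq_alg h v ha hb hne (by rw [hev]; exact hc)
  set i : k →+* v.adicCompletion k := algebraMap k (v.adicCompletion k) with hi
  have hD' : 4 * i a ^ 3 + 27 * i b ^ 2 ≠ 0 := by
    have e : 4 * i a ^ 3 + 27 * i b ^ 2 = i (4 * a ^ 3 + 27 * b ^ 2) := by
      simp only [map_add, map_mul, map_pow, map_ofNat]
    rw [e, Ne, map_eq_zero]
    exact hD
  obtain ⟨x₁, y₁, u, hy, he, hu⟩ := Ch_pt hD' (H24PD.inf_fin v (i a) (i b))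
  refine ⟨fun j => h.co j x, hne, by rw [hev], x₁, y₁, m3 (i a) (i b) z u, hy, he, ?_⟩
  have e1 : m3 (i a) (i b) (![1, 0, 0] : Fin 3 → v.adicCompletion k) ![x₁, -1, 0] = ![x₁, -1, 0] := by
    funext j
    fin_cases j <;> simp [m3]
  rw [e1] at hu
  rw [hu, ← hz]
  funext j
  fin_cases j <;> simp only [m3, Matrix.cons_val_zero, Matrix.cons_val_one, Matrix.cons_val_two,
    Matrix.head_cons, Matrix.tail_cons, Matrix.cons_val, Fin.zero_eta, Fin.mk_one,
    Fin.reduceFinMk] <;> ring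

end H30ZO
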