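import Pool.Agent.H30.ZO.Ac
import Pool.Agent.H30.ZO.Ai
import Pool.Agent.H30.ZO.Bh
import Pool.Agent.H30.ZO.Cd
import Pool.Agent.H30.ZO.Cg
import Pool.Agent.H30.ZO.Ch

/-!
ROW Cj (project MP_78d38b_ZO, about 200 lines): at an odd place of good reduction the local condition is satisfied by all classes of even order. Use only
the STATEMENTS of Ac, Ai, Bh, Cd, Cg, Ch.

PROOF. `S := Sqv k L v ⊓ HH k L`. `E := {c ∈ HH k L | eo w c = 0 for all w above v}` (subgroup; `eo w` is additive: `H38T1.eo_add`). (1) `S ≤ W ≤ E`: the first as in row Ci (Sqv_le, hW), the second by `H73P2.even_nice` (Pool/Agent/H73/P2/Ev.lean; `NiceAt v a b` with `c = 1`, the valuation of the discriminant is `1 ≥ exp (-1)`; the hypothesis `hos`).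
(2) `Sqv k L v ≤ E' := {c : SC L | eo w c = 0 for all w above v}` and `(Sqv k L v).relIndex E' ≤ 2 ^ nb k L v` and not zero: `E' / Sqv` injects into the product over the `w` above `v` of `U_w / Sq w`, `U_w := {c | eo w c = 0}`, and `(Sq w).relIndex U_w = 2`, because `(Sq w).index = 4 * qq w = 4` (index_Sq; `qq w = 1`: `qq_odd`, `w.valuation 2 = 1` as `w` is above `v`:
`H76PP.oddP_dn` or `val_one` in Pool/Agent/H76/PP/Ta.lean) and `U_w.index = 2` (`eo w : SC L → ZMod 2` is surjective: `eo w (sc (unif w)) = 1`, `H38T1.eo_sc`, `unif_spec`), `Sq w ≤ U_w`.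
(3) `2 * S.relIndex E ≤ 2 ^ nb`: the map `(c, e) ↦ c + ι e` (`ι := scm (algebraMap k L)`) from `E × U_v` (`U_v := {e : SC k | eo v e = 0}`) to `E' / Sqv` has kernel contained in `S × Sq v` exactly as in row Aj: if `c + ι e ∈ Sqv` then `e = N (ι e) = N (c + ι e) ∈ Sq v` (norm_Sqv; `N (ι e) = 3 e = e`), hence `ι e ∈ Sqv` and `c ∈ Sqv`. It maps into `E'`: `eo w (ι e) = e_w eo v e = 0` (`ord_dn`).
`(Sq v).relIndex U_v = 2` as in (2) (`qq v = 1`). So `S.relIndex E * 2 ≤ (Sqv k L v).relIndex E' ≤ 2 ^ nb`, and `S.relIndex E ≠ 0`.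
(4) `S.relIndex W * W.relIndex E = S.relIndex E`, `S.relIndex W ≥ (D2 v a b).index ≥ qq v * Nat.card (T2 v a b) = Nat.card (T2 v a b)` (idx_W, idx_D2) and `2 ^ nb ≤ 2 * Nat.card (T2 v a b)` (nb_T2). So `2 ^ nb * W.relIndex E ≤ 2 ^ nb`, `W.relIndex E = 1` (it is not zero), `E ≤ W` (`AddSubgroup.relIndex_eq_one`).
-/

set_option autoImplicit false
set_option linter.unusedSectionVars false
open scoped Classical

open WithZero WeierstrassCurve NumberField IsDedekindDomain H38RT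
open H38T1 (SC sc scu rep eo la si Pri OddP tp unif)
open H76PP

namespace H30ZO

variable {k L : Type} [Field k] [NumberField k] [Field L] [NumberField L] [Algebra k L]

private noncomputable def Cj_eo {K : Type} [Field K] [NumberField K]
    (w : HeightOneSpectrum (𝓞 K)) : SC K →+ ZMod 2 :=
  AddMonoidHom.mk' (eo w) (H38T1.eo_add w)

private theorem Cj_ap {K : Type} [Field K] [NumberField K] (w : HeightOneSpectrum (𝓞 K))
    (c : SC K) : Cj_eo w c = eo w c := rfl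

private theorem Cj_surj {K : Type} [Field K] [NumberField K] (w : HeightOneSpectrum (𝓞 K)) :
    Function.Surjective (Cj_eo w) := by
  have hu := H38T1.unif_spec w
  have hu0 : unif w ≠ 0 := by
    intro h
    rw [h, map_zero] at hu
    exact exp_ne_zero hu.symm
  have h1 : Cj_eo w (sc (unif w)) = 1 := by
    rw [Cj_ap, H38T1.eo_sc hu0]
    unfold ord
    rw [hu, log_exp]
    decide
  intro z
  have hz : z = 0 ∨ z = 1 := by
    revert z
    decide
  rcases hz with rfl | rfl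
  · exact ⟨0, map_zero _⟩
  · exact ⟨_, h1⟩

private theorem Cj_two {K : Type} [Field K] [NumberField K] (w : HeightOneSpectrum (𝓞 K)) :
    (Cj_eo w).ker.index = 2 := by
  rw [AddSubgroup.index_ker, AddMonoidHom.range_eq_top.2 (Cj_surj w),
    Nat.card_congr AddSubgroup.topEquiv.toEquiv, Nat.card_zmod]

private theorem Cj_Sq {K : Type} [Field K] [NumberField K] (w : HeightOneSpectrum (𝓞 K)) :
    Sq w ≤ (Cj_eo w).ker := by
  intro c hc
  obtain ⟨x, hx, rfl⟩ := H38T1.sc_surj c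
  rw [mem_Sq hx] at hc
  obtain ⟨y, hy⟩ := hc
  rw [AddMonoidHom.mem_ker, Cj_ap, H38T1.eo_sc hx]
  have h1 : w.valuation K x = Valued.v y * Valued.v y := by
    rw [← H36CY.val_coe, hy, map_mul]
  have hy0 : (Valued.v y : WithZero (Multiplicative ℤ)) ≠ 0 := by
    intro h
    rw [h, mul_zero] at h1
    exact hx ((Valuation.zero_iff _).1 h1)
  unfold ord
  rw [h1, log_mul hy0 hy0, neg_add, Int.cast_add, CharTwo.add_self_eq_zero]

private theorem Cj_rel {K : Type} [Field K] [NumberField K] (w : HeightOneSpectrum (𝓞 K))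
    (h2 : w.valuation K 2 = 1) : (Sq w).relIndex (Cj_eo w).ker = 2 := by
  have h := AddSubgroup.relIndex_mul_index (Cj_Sq w)
  rw [index_Sq, Cj_two, qq_odd h2] at h
  omega

private theorem Cj_ab {G G' : Type*} [AddCommGroup G] [AddCommGroup G'] (ι : G' →+ G)
    (N : G →+ G') (S E : AddSubgroup G) (Q U : AddSubgroup G') (h1 : ∀ e, N (ι e) = e)
    (h2 : ∀ c ∈ S, N c ∈ Q) (h3 : ∀ e ∈ Q, ι e ∈ S) (h4 : ∀ e ∈ U, ι e ∈ E)
    (h5 : S.relIndex E ≠ 0) :
    (S ⊓ N.ker).relIndex (E ⊓ N.ker) * Q.relIndex U ≠ 0 ∧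
      (S ⊓ N.ker).relIndex (E ⊓ N.ker) * Q.relIndex U ≤ S.relIndex E := by
  obtain ⟨f, hf⟩ : ∃ f : (↥(E ⊓ N.ker) × ↥U) →+ G,
      f = (E ⊓ N.ker).subtype.coprod (ι.comp U.subtype) := ⟨_, rfl⟩
  have hfe : ∀ (c : ↥(E ⊓ N.ker)) (e : ↥U), f (c, e) = (c : G) + ι (e : G') := by
    intro c e
    rw [hf, AddMonoidHom.coprod_apply]
    rfl
  have hr : f.range ≤ E := by
    rintro _ ⟨⟨c, e⟩, rfl⟩
    rw [hfe]
    exact E.add_mem (AddSubgroup.mem_inf.1 c.2).1 (h4 _ e.2)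
  have hc : S.comap f = ((S ⊓ N.ker).addSubgroupOf (E ⊓ N.ker)).prod (Q.addSubgroupOf U) := by
    ext ⟨c, e⟩
    have hcN : N (c : G) = 0 := AddMonoidHom.mem_ker.1 (AddSubgroup.mem_inf.1 c.2).2
    rw [AddSubgroup.mem_comap, hfe, AddSubgroup.mem_prod, AddSubgroup.mem_addSubgroupOf,
      AddSubgroup.mem_addSubgroupOf, AddSubgroup.mem_inf]
    have hN : N ((c : G) + ι e) = e := by
      rw [map_add, h1, hcN, zero_add]
    constructor
    · intro h
      have he : (e : G') ∈ Q := by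
        have := h2 _ h
        rwa [hN] at this
      refine ⟨⟨?_, AddMonoidHom.mem_ker.2 hcN⟩, he⟩
      have := S.sub_mem h (h3 e he)
      rwa [add_sub_cancel_right] at this
    · rintro ⟨hc, he⟩
      exact S.add_mem hc.1 (h3 e he)
  have hi : (S.comap f).index = S.relIndex f.range := AddSubgroup.index_comap S f
  rw [hc, AddSubgroup.index_prod] at hi
  change (S ⊓ N.ker).relIndex (E ⊓ N.ker) * Q.relIndex U = S.relIndex f.range at hi
  rw [hi]
  exact ⟨fun h => h5 (AddSubgroup.relIndex_eq_zero_of_le_right hr h),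
    AddSubgroup.relIndex_le_of_le_right hr h5⟩

private theorem Cj_N {a b : k} {θ : L} (h : Cub k L a b θ) (e : SC k) :
    scm (Algebra.norm k : L →* k) (scm (algebraMap k L : k →* L) e) = e := by
  obtain ⟨x, hx, rfl⟩ := H38T1.sc_surj e
  have hx' : (algebraMap k L) x ≠ 0 := (map_ne_zero (algebraMap k L)).2 hx
  rw [scm_sc _ hx]
  have h1 : ((algebraMap k L : k →* L) x : L) = algebraMap k L x := rfl
  rw [h1, scm_sc _ hx']
  have h2 : ((Algebra.norm k : L →* k) (algebraMap k L x) : k) = x * (x * x) := by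
    rw [Algebra.norm_algebraMap, h.finrank]
    ring
  rw [h2, H38T1.sc_mul hx (mul_ne_zero hx hx), (H38T1.sc_eq_zero (mul_ne_zero hx hx)).2 ⟨x, rfl⟩,
    add_zero]

private theorem Cj_up (v : HeightOneSpectrum (𝓞 k)) {e : SC k} (he : e ∈ Sq v) :
    scm (algebraMap k L : k →* L) e ∈ Sqv k L v := by
  obtain ⟨x, hx, rfl⟩ := H38T1.sc_surj e
  have hx' : (algebraMap k L) x ≠ 0 := (map_ne_zero (algebraMap k L)).2 hx
  rw [mem_Sqv]
  rintro w rfl
  rw [scm_sc _ hx]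
  have h1 : ((algebraMap k L : k →* L) x : L) = algebraMap k L x := rfl
  rw [h1, mem_Sq hx']
  rw [mem_Sq hx] at he
  obtain ⟨y, hy⟩ := he
  refine ⟨(H36CY.over_dn (K := k) w).map y, ?_⟩
  rw [← Pool.Agent.H10.Over.map_algebraMap (H36CY.over_dn (K := k) w) x, hy, map_mul]

private theorem Cj_dn (w : HeightOneSpectrum (𝓞 L)) {e : SC k} (he : eo (dn k w) e = 0) :
    eo w (scm (algebraMap k L : k →* L) e) = 0 := by
  obtain ⟨x, hx, rfl⟩ := H38T1.sc_surj e
  have hx' : (algebraMap k L) x ≠ 0 := (map_ne_zero (algebraMap k L)).2 hx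
  rw [scm_sc _ hx]
  have h1 : ((algebraMap k L : k →* L) x : L) = algebraMap k L x := rfl
  obtain ⟨n, _, hn⟩ := ord_dn (K := k) w
  rw [h1, H38T1.eo_sc hx', hn x hx, Int.cast_mul]
  rw [H38T1.eo_sc hx] at he
  rw [he, mul_zero]

variable (k L) in
private noncomputable def Cj_E (v : HeightOneSpectrum (𝓞 k)) : AddSubgroup (SC L) :=
  ⨅ w : {w : HeightOneSpectrum (𝓞 L) // dn k w = v}, (Cj_eo w.1).ker

private theorem Cj_mE {v : HeightOneSpectrum (𝓞 k)} {c : SC L} :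
    c ∈ Cj_E k L v ↔ ∀ w : HeightOneSpectrum (𝓞 L), dn k w = v → eo w c = 0 := by
  unfold Cj_E
  rw [AddSubgroup.mem_iInf]
  constructor
  · intro h w hw
    exact AddMonoidHom.mem_ker.1 (h ⟨w, hw⟩)
  · rintro h ⟨w, hw⟩
    exact AddMonoidHom.mem_ker.2 (h w hw)

private theorem Cj_idx (v : HeightOneSpectrum (𝓞 k)) (h2 : v.valuation k 2 = 1) :
    (Sqv k L v).relIndex (Cj_E k L v) ≠ 0 ∧
      (Sqv k L v).relIndex (Cj_E k L v) ≤ 2 ^ nb k L v := by
  have hfin : {w : HeightOneSpectrum (𝓞 L) | dn k w = v}.Finite := fin_above v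
  let _ : Fintype {w : HeightOneSpectrum (𝓞 L) // dn k w = v} := hfin.fintype
  have hS : Sqv k L v = ⨅ w : {w : HeightOneSpectrum (𝓞 L) // dn k w = v}, Sq w.1 := by
    unfold Sqv
    rw [iInf_subtype]
  have hle : ∀ w : {w : HeightOneSpectrum (𝓞 L) // dn k w = v},
      Cj_E k L v ≤ (Cj_eo w.1).ker := fun w => iInf_le _ w
  have h2' : ∀ w : {w : HeightOneSpectrum (𝓞 L) // dn k w = v}, w.1.valuation L 2 = 1 := by
    rintro ⟨w, rfl⟩
    have h3 := val_one (L := L) h2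
    rwa [map_ofNat] at h3
  have h0 : ∀ w : {w : HeightOneSpectrum (𝓞 L) // dn k w = v},
      (Sq w.1).relIndex (Cj_E k L v) ≠ 0 := by
    intro w h
    have h3 := Cj_rel w.1 (h2' w)
    have h4 : (Sq w.1).relIndex (Cj_eo w.1).ker = 0 :=
      AddSubgroup.relIndex_eq_zero_of_le_right (hle w) h
    omega
  have h1 : ∀ w : {w : HeightOneSpectrum (𝓞 L) // dn k w = v},
      (Sq w.1).relIndex (Cj_E k L v) ≤ 2 := by
    intro w
    rw [← Cj_rel w.1 (h2' w)]
    refine AddSubgroup.relIndex_le_of_le_right (hle w) ?_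
    rw [Cj_rel w.1 (h2' w)]
    norm_num
  have h3 : Fintype.card {w : HeightOneSpectrum (𝓞 L) // dn k w = v} = nb k L v := by
    unfold nb
    rw [← Nat.card_eq_fintype_card]
    exact Nat.card_coe_set_eq _
  rw [hS]
  refine ⟨AddSubgroup.relIndex_iInf_ne_zero h0, ?_⟩
  calc (⨅ w : {w : HeightOneSpectrum (𝓞 L) // dn k w = v}, Sq w.1).relIndex (Cj_E k L v)
      ≤ ∏ w : {w : HeightOneSpectrum (𝓞 L) // dn k w = v}, (Sq w.1).relIndex (Cj_E k L v) :=
        AddSubgroup.relIndex_iInf_le _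
    _ ≤ ∏ w : {w : HeightOneSpectrum (𝓞 L) // dn k w = v}, 2 :=
        Finset.prod_le_prod' fun w _ => h1 w
    _ = 2 ^ nb k L v := by
        rw [Finset.prod_const, Finset.card_univ, h3]

theorem good_W (hos : H73P2.OrdSub) {a b : k} {θ : L} (h : Cub k L a b θ)
    (v : HeightOneSpectrum (𝓞 k)) (ha : v.valuation k a ≤ 1) (hb : v.valuation k b ≤ 1)
    (h2 : v.valuation k 2 = 1) (hD : v.valuation k (4 * a ^ 3 + 27 * b ^ 2) = 1)
    {W : AddSubgroup (SC L)}
    (hW : ∀ c, c ∈ W ↔ c ∈ HH k L ∧ Wc (algebraMap k (v.adicCompletion k)) a b θ c)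
    {c : SC L} (hc : c ∈ HH k L) (he : ∀ w : HeightOneSpectrum (𝓞 L), dn k w = v → eo w c = 0) :
    c ∈ W := by
  have hD0 : 4 * a ^ 3 + 27 * b ^ 2 ≠ 0 := by
    intro h0
    rw [h0, map_zero] at hD
    exact zero_ne_one hD
  have hq : qq v = 1 := qq_odd h2
  have hSW : Sqv k L v ⊓ HH k L ≤ W := by
    intro d hd
    rw [AddSubgroup.mem_inf] at hd
    exact (hW d).2 ⟨hd.2, Sqv_le h v ha hb hD0 hd.1⟩
  have hWE : W ≤ Cj_E k L v ⊓ HH k L := by
    intro d hd
    have hd2 := (hW d).1 hd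
    refine AddSubgroup.mem_inf.2 ⟨Cj_mE.2 ?_, hd2.1⟩
    rintro w rfl
    obtain ⟨d', hd1, rfl, hLC⟩ := hd2.2
    refine H73P2.even_nice hos h w ⟨1, a, b, one_ne_zero, ?_, ?_, ha, hb, ?_⟩ hd1 hLC
    · rw [one_pow, one_mul]
    · rw [one_pow, one_mul]
    · rw [hD, ← exp_zero, exp_le_exp]
      norm_num
  have hE := Cj_idx (L := L) v h2
  have hab := Cj_ab (scm (algebraMap k L : k →* L)) (scm (Algebra.norm k : L →* k)) (Sqv k L v)
    (Cj_E k L v) (Sq v) (Cj_eo v).ker (Cj_N h) (fun c hc => norm_Sqv h v ha hb hc)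
    (fun e he => Cj_up v he)
    (fun e he => Cj_mE.2 fun w hw => by
      subst hw
      exact Cj_dn w (AddMonoidHom.mem_ker.1 he)) hE.1
  rw [Cj_rel v h2] at hab
  change (Sqv k L v ⊓ HH k L).relIndex (Cj_E k L v ⊓ HH k L) * 2 ≠ 0 ∧
    (Sqv k L v ⊓ HH k L).relIndex (Cj_E k L v ⊓ HH k L) * 2 ≤ _ at hab
  have hm := AddSubgroup.relIndex_mul_relIndex _ _ _ hSW hWE
  rw [← hm] at hab
  obtain ⟨X, hX⟩ : ∃ X, X = (Sqv k L v ⊓ HH k L).relIndex W := ⟨_, rfl⟩
  obtain ⟨Y, hY⟩ : ∃ Y, Y = W.relIndex (Cj_E k L v ⊓ HH k L) := ⟨_, rfl⟩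
  rw [← hX, ← hY] at hab
  have hX0 : X ≠ 0 := by
    intro h0
    rw [h0, zero_mul, zero_mul] at hab
    exact hab.1 rfl
  have hY0 : Y ≠ 0 := by
    intro h0
    rw [h0, mul_zero, zero_mul] at hab
    exact hab.1 rfl
  have hiW := idx_W h v ha hb hD0 hW (by rw [← hX]; exact hX0)
  rw [← hX] at hiW
  have hiD := (idx_D2 v ha hb hD0).resolve_left hiW.1
  rw [hq, one_mul] at hiD
  have hnb := (nb_T2 h v ha hb hD0).2
  have hfin : X * Y * 2 ≤ 2 * X := by
    calc X * Y * 2 ≤ 2 ^ nb k L v := hab.2.trans hE.2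
      _ ≤ 2 * Nat.card (T2 v a b) := hnb
      _ ≤ 2 * X := Nat.mul_le_mul_left _ (hiD.trans hiW.2)
  have hY1 : Y = 1 := by
    by_contra hne
    have hY2 : 2 ≤ Y := by omega
    have hX1 : 1 ≤ X := Nat.one_le_iff_ne_zero.2 hX0
    have := Nat.mul_le_mul_left X hY2
    omega
  have hEW : Cj_E k L v ⊓ HH k L ≤ W := AddSubgroup.relIndex_eq_one.1 (by rw [← hY]; exact hY1)
  exact hEW (AddSubgroup.mem_inf.2 ⟨Cj_mE.2 he, hc⟩)

end H30ZO
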