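import Mathlib

/-!
ROW Ea (project MP_78d38b_ZO, about 130 lines): real cubic polynomials `x^3 + A x + B` without double roots.

PROOF. The polynomial is odd of degree three: there is a real root `r` (intermediate value theorem: it is negative for `x = -(1 + |A| + |B|)` and positive for `x = 1 + |A| + |B|`). `x^3 + A x + B = (x - r)(x^2 + r x + r^2 + A)` (`B = -r^3 - A r`). Put `p := r`, `q := r^2 + A`, `δ := p^2 - 4 q`.
`δ < 0`: the first case. `δ ≥ 0`: the quadratic factor has the roots `u ≤ v`, `u = (-p - √δ) / 2`, `v = (-p + √δ) / 2`. The discriminant `-(4 A^3 + 27 B^2)` is `δ (3 r^2 + A)^2` (`A = q - r^2`, `B = - r q`: `ring`), so `δ ≠ 0` and `3 r^2 + A ≠ 0`, i.e. `u < v` and `r ≠ u`, `r ≠ v` (`(r - u)(r - v) = r^2 + p r + q = 3 r^2 + A`).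
Sort `r, u, v`: three cases.
-/

/-!
ROW Ea (project MP_78d38b_ZO, about 130 lines): real cubic polynomials `x^3 + A x + B` without double roots.

PROOF. The polynomial is odd of degree three: there is a real root `r` (intermediate value theorem: it is negative for `x = -(1 + |A| + |B|)` and positive for `x = 1 + |A| + |B|`). `x^3 + A x + B = (x - r)(x^2 + r x + r^2 + A)` (`B = -r^3 - A r`). Put `p := r`, `q := r^2 + A`, `δ := p^2 - 4 q`.
`δ < 0`: the first case. `δ ≥ 0`: the quadratic factor has the roots `u ≤ v`, `u = (-p - √δ) / 2`, `v = (-p + √δ) / 2`. The discriminant `-(4 A^3 + 27 B^2)` is `δ (3 r^2 + A)^2` (`A = q - r^2`, `B = - r q`: `ring`), so `δ ≠ 0` and `3 r^2 + A ≠ 0`, i.e. `u < v` and `r ≠ u`, `r ≠ v` (`(r - u)(r - v) = r^2 + p r + q = 3 r^2 + A`).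
Sort `r, u, v`: three cases.
-/

set_option autoImplicit false

namespace H30ZO

private theorem Ea_root (A B : ℝ) : ∃ r : ℝ, r ^ 3 + A * r + B = 0 := by
  have hcont : Continuous fun x : ℝ => x ^ 3 + A * x + B := by fun_prop
  have hA := neg_abs_le A
  have hA' := le_abs_self A
  have hB := neg_abs_le B
  have hB' := le_abs_self B
  have hA0 := abs_nonneg A
  have hB0 := abs_nonneg B
  obtain ⟨M, hM⟩ : ∃ M, M = 1 + |A| + |B| := ⟨_, rfl⟩
  have hM1 : 1 ≤ M := by linarith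
  have h1 : 0 ≤ M * (M ^ 2 - |A| - |B|) := by
    apply mul_nonneg (by linarith)
    nlinarith
  have h2 : |A| * M + |B| ≤ M ^ 3 := by nlinarith
  have h3 : A * M ≤ |A| * M := mul_le_mul_of_nonneg_right hA' (by linarith)
  have h4 : -|A| * M ≤ A * M := mul_le_mul_of_nonneg_right hA (by linarith)
  have h5 := mem_range_of_exists_le_of_exists_ge (c := (0 : ℝ)) hcont
    ⟨-M, (by nlinarith : (-M) ^ 3 + A * (-M) + B ≤ 0)⟩
    ⟨M, (by nlinarith : 0 ≤ M ^ 3 + A * M + B)⟩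
  obtain ⟨r, hr⟩ := h5
  exact ⟨r, hr⟩

theorem real_cases {A B : ℝ} (hD : 4 * A ^ 3 + 27 * B ^ 2 ≠ 0) :
    (∃ r p q : ℝ, (∀ x : ℝ, x ^ 3 + A * x + B = (x - r) * (x ^ 2 + p * x + q)) ∧ p ^ 2 < 4 * q) ∨
      ∃ r₁ r₂ r₃ : ℝ, r₁ < r₂ ∧ r₂ < r₃ ∧
        ∀ x : ℝ, x ^ 3 + A * x + B = (x - r₁) * (x - r₂) * (x - r₃) := by
  obtain ⟨r, hr⟩ := Ea_root A B
  have hB : B = -r ^ 3 - A * r := by linear_combination hr
  have hfac : ∀ x : ℝ, x ^ 3 + A * x + B = (x - r) * (x ^ 2 + r * x + (r ^ 2 + A)) := by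
    intro x
    rw [hB]
    ring
  by_cases hδ : r ^ 2 < 4 * (r ^ 2 + A)
  · exact Or.inl ⟨r, r, r ^ 2 + A, hfac, hδ⟩
  right
  have hδ' : 0 ≤ r ^ 2 - 4 * (r ^ 2 + A) := by linarith
  obtain ⟨s, hs, hs0⟩ : ∃ s : ℝ, s ^ 2 = r ^ 2 - 4 * (r ^ 2 + A) ∧ 0 ≤ s :=
    ⟨_, Real.sq_sqrt hδ', Real.sqrt_nonneg _⟩
  have hA : A = (r ^ 2 - s ^ 2) / 4 - r ^ 2 := by linear_combination (1 / 4) * hs
  have hdisc : 4 * A ^ 3 + 27 * B ^ 2 = -(s ^ 2 * (3 * r ^ 2 + A) ^ 2) := by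
    rw [hB, hs]
    ring
  have hs1 : s ≠ 0 := by
    rintro rfl
    apply hD
    rw [hdisc]
    ring
  have hs2 : 3 * r ^ 2 + A ≠ 0 := by
    intro h
    apply hD
    rw [hdisc, h]
    ring
  have hspos : 0 < s := lt_of_le_of_ne hs0 (Ne.symm hs1)
  obtain ⟨u, hu⟩ : ∃ u : ℝ, u = (-r - s) / 2 := ⟨_, rfl⟩
  obtain ⟨v, hv⟩ : ∃ v : ℝ, v = (-r + s) / 2 := ⟨_, rfl⟩
  have huv : u < v := by rw [hu, hv]; linarith
  have hfac2 : ∀ x : ℝ, x ^ 3 + A * x + B = (x - r) * ((x - u) * (x - v)) := by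
    intro x
    rw [hfac, hu, hv, hA]
    ring
  have hprod : (r - u) * (r - v) = 3 * r ^ 2 + A := by
    rw [hu, hv, hA]
    ring
  have hru : r ≠ u := by
    rintro rfl
    rw [sub_self, zero_mul] at hprod
    exact hs2 hprod.symm
  have hrv : r ≠ v := by
    rintro rfl
    rw [sub_self, mul_zero] at hprod
    exact hs2 hprod.symm
  rcases lt_or_gt_of_ne hru with h1 | h1
  · exact ⟨r, u, v, h1, huv, fun x => by rw [hfac2]; ring⟩
  rcases lt_or_gt_of_ne hrv with h2 | h2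
  · exact ⟨u, r, v, h1, h2, fun x => by rw [hfac2]; ring⟩
  · exact ⟨u, v, r, huv, h2, fun x => by rw [hfac2]; ring⟩

end H30ZO
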