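import Pool.Agent.H30.ZO.Df
import Pool.Agent.H30.ZO.Ea

/-!
ROW Ec (project MP_78d38b_ZO, about 130 lines): the real embeddings of the cubic field above a real embedding of `k`. Use only the STATEMENT of Ea.

PROOF of emb_real. Define `t x := s (h.co 0 x) + s (h.co 1 x) * r + s (h.co 2 x) * r^2`. It is additive, `t 1 = 1` (`Cub.co_one`), multiplicative (`Cub.co_mul` and `hr`: linear_combination), `t (algebraMap y) = s y`, `t θ = r` (`Cub.co_theta`). (`Cub.co_mk'` for the coordinates of an element of `k`.)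
PROOF of nr_cases. The map `t ↦ t θ` from `{t // t.comp (algebraMap k L) = s}` to `{r | r^3 + s a r + s b = 0}` is a bijection: injective because `t x` is determined by `t θ` (`Cub.eq_co`), well defined by `h.root`, surjective by emb_real. By real_cases (for `A = s a`, `B = s b`; the discriminant is not zero by `hD`, `s` injective)
the set of roots is `{r}` (the quadratic factor is positive) or `{r₁, r₂, r₃}` with three different elements.
-/

set_option autoImplicit false
set_option linter.unusedSectionVars false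
open scoped Classical

open WithZero NumberField IsDedekindDomain H38RT
open H38T1 (SC sc scu rep eo la si Pri OddP tp unif)
open H76PP

namespace H30ZO

variable {k L : Type} [Field k] [NumberField k] [Field L] [NumberField L] [Algebra k L]

theorem emb_real {a b : k} {θ : L} (h : Cub k L a b θ) (s : k →+* ℝ) {r : ℝ}
    (hr : r ^ 3 + s a * r + s b = 0) :
    ∃ t : L →+* ℝ, t.comp (algebraMap k L) = s ∧ t θ = r := by
  have key : ∀ x y : L, s (h.co 0 (x * y)) + s (h.co 1 (x * y)) * r + s (h.co 2 (x * y)) * r ^ 2 =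
      (s (h.co 0 x) + s (h.co 1 x) * r + s (h.co 2 x) * r ^ 2) *
      (s (h.co 0 y) + s (h.co 1 y) * r + s (h.co 2 y) * r ^ 2) := by
    intro x y
    obtain ⟨c0, c1, c2⟩ := h.co_mul x y
    rw [c0, c1, c2]
    simp only [map_add, map_sub, map_mul]
    generalize s (h.co 0 x) = a0
    generalize s (h.co 1 x) = a1
    generalize s (h.co 2 x) = a2
    generalize s (h.co 0 y) = b0
    generalize s (h.co 1 y) = b1
    generalize s (h.co 2 y) = b2
    linear_combination (-(a1 * b2 + a2 * b1 + a2 * b2 * r)) * hr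
  refine ⟨{ toFun := fun x => s (h.co 0 x) + s (h.co 1 x) * r + s (h.co 2 x) * r ^ 2
            map_one' := ?_
            map_mul' := key
            map_zero' := ?_
            map_add' := ?_ }, ?_, ?_⟩
  · obtain ⟨e0, e1, e2⟩ := h.co_one
    show s (h.co 0 1) + s (h.co 1 1) * r + s (h.co 2 1) * r ^ 2 = 1
    rw [e0, e1, e2]
    simp
  · show s (h.co 0 0) + s (h.co 1 0) * r + s (h.co 2 0) * r ^ 2 = 0
    simp
  · intro x y
    show s (h.co 0 (x + y)) + s (h.co 1 (x + y)) * r + s (h.co 2 (x + y)) * r ^ 2 =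
      (s (h.co 0 x) + s (h.co 1 x) * r + s (h.co 2 x) * r ^ 2) +
      (s (h.co 0 y) + s (h.co 1 y) * r + s (h.co 2 y) * r ^ 2)
    simp only [map_add]
    ring
  · ext y
    show s (h.co 0 (algebraMap k L y)) + s (h.co 1 (algebraMap k L y)) * r +
      s (h.co 2 (algebraMap k L y)) * r ^ 2 = s y
    have h1 := h.co_mk' y 0 0
    simp only [map_zero, zero_mul, add_zero] at h1
    rw [h1.1, h1.2.1, h1.2.2]
    simp
  · obtain ⟨e0, e1, e2⟩ := h.co_theta
    show s (h.co 0 θ) + s (h.co 1 θ) * r + s (h.co 2 θ) * r ^ 2 = r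
    rw [e0, e1, e2]
    simp

/-- The number of real embeddings above `s` is the number of the real roots. -/
theorem ec_card {a b : k} {θ : L} (h : Cub k L a b θ) (s : k →+* ℝ) :
    nr k L s = Nat.card {r : ℝ // r ^ 3 + s a * r + s b = 0} := by
  unfold nr
  have hroot : ∀ t : L →+* ℝ, t.comp (algebraMap k L) = s → (t θ) ^ 3 + s a * t θ + s b = 0 := by
    intro t ht
    have h1 := congrArg t h.root
    simp only [map_add, map_mul, map_pow, map_zero] at h1
    have h2 : ∀ y : k, t (algebraMap k L y) = s y := fun y => by rw [← ht]; rfl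
    rw [h2, h2] at h1
    exact h1
  refine Nat.card_congr (Equiv.ofBijective (fun t => ⟨t.1 θ, hroot t.1 t.2⟩) ⟨?_, ?_⟩)
  · rintro ⟨t, ht⟩ ⟨u, hu⟩ e
    have e1 : t θ = u θ := congrArg Subtype.val e
    refine Subtype.ext ?_
    refine RingHom.ext fun x => ?_
    have h2 : ∀ y : k, t (algebraMap k L y) = u (algebraMap k L y) := fun y => by
      have := congrArg (fun f : k →+* ℝ => f y) (ht.trans hu.symm)
      exact this
    show t x = u x
    rw [h.eq_co x]
    simp only [map_add, map_mul, map_pow, e1, h2]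
  · rintro ⟨r, hr⟩
    obtain ⟨t, ht, h1⟩ := emb_real h s hr
    exact ⟨⟨t, ht⟩, Subtype.ext h1⟩

theorem nr_cases {a b : k} {θ : L} (h : Cub k L a b θ) (hD : 4 * a ^ 3 + 27 * b ^ 2 ≠ 0)
    (s : k →+* ℝ) : nr k L s = 1 ∨ nr k L s = 3 := by
  rw [ec_card h s]
  have hD' : 4 * (s a) ^ 3 + 27 * (s b) ^ 2 ≠ 0 := by
    intro h0
    apply hD
    have h1 : s (4 * a ^ 3 + 27 * b ^ 2) = 0 := by
      simp only [map_add, map_mul, map_pow, map_ofNat]
      exact h0
    exact (map_eq_zero s).1 h1
  rcases real_cases hD' with ⟨r, p, q, hf, hq⟩ | ⟨r₁, r₂, r₃, h12, h23, hf⟩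
  · left
    have e : {x : ℝ | x ^ 3 + s a * x + s b = 0} = {r} := by
      ext x
      simp only [Set.mem_ofPred_eq, Set.mem_singleton_iff]
      rw [hf x]
      constructor
      · intro h0
        rcases mul_eq_zero.1 h0 with h1 | h1
        · linarith
        · exfalso
          nlinarith [sq_nonneg (2 * x + p)]
      · intro h0
        rw [h0, sub_self, zero_mul]
    have : Nat.card {x : ℝ | x ^ 3 + s a * x + s b = 0} = 1 := by
      rw [e]
      simp
    exact this
  · right
    have e : {x : ℝ | x ^ 3 + s a * x + s b = 0} = {r₁, r₂, r₃} := by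
      ext x
      simp only [Set.mem_ofPred_eq, Set.mem_insert_iff, Set.mem_singleton_iff]
      rw [hf x]
      rw [mul_eq_zero, mul_eq_zero, sub_eq_zero, sub_eq_zero, sub_eq_zero, or_assoc]
    have h3 : Set.ncard {x : ℝ | x ^ 3 + s a * x + s b = 0} = 3 := by
      rw [e]
      exact Set.ncard_eq_three.2 ⟨r₁, r₂, r₃, h12.ne, (h12.trans h23).ne, h23.ne, rfl⟩
    exact h3

end H30ZO
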