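import Pool.Agent.H30.ZO.Eb
import Pool.Agent.H30.ZO.Ec

/-!
ROW Ed (project MP_78d38b_ZO, about 220 lines): the index of the local condition at a real place. Use only the STATEMENTS of Ea, Eb, Ec.

PROOF. `A := s a`, `B := s b`, `4 A^3 + 27 B^2 ≠ 0`. For `c = sc x ∈ HH k L`, `x = ev θ d`, `N x = n^2`, `n ≠ 0`: `s (N x) = s n ^ 2 > 0`. Put `D j := s (d j)`, `D(r) := D 0 + D 1 r + D 2 r^2` for a root `r` (this is `t x` for the embedding `t` with `t θ = r`). The norm form: `s (N x) = Te_nf A B D` (`Te_norm`, `Te_nf_map` in Pool/Agent/H76/PP/Te.lean).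
(1) If `D(r) > 0` for all real roots then `Wc s a b θ c`: sq_real gives `z` with `m3 A B z z = D`. By `H73P2.Lb_avoid`, `H73P2.Lb_dbl` (`Infinite`: `H24PD.inf_real`, Pool/Agent/H24/PD/Lf.lean) there is a point `(x₁, y₁)`, `y₁ ≠ 0`, with `m3 ![1, 0, 0] ![x₁, -1, 0] = m3 u u`, and `m3 D ![x₁, -1, 0] = m3 (m3 z u) (m3 z u)` (`m3` commutative and associative).
CASE ONE REAL ROOT `r`, `x^3 + A x + B = (x - r)(x^2 + p x + q)`, `p^2 < 4 q`: `Te_nf A B D = D(r) * Q` with `Q ≥ 0` (`Q = |D(ρ)|^2 = ` the norm of `D 0 + D 1 ρ + D 2 ρ^2`, explicitly with `u := D 0 - q D 2`, `v := D 1 - p D 2`: `Q = u^2 - p u v + q v^2`, `A = q - r^2`, `p = r`, `B = -r q`: a `ring` identity), so `D(r) > 0` and by (1) `HH k L ≤ W`,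
`W.relIndex (HH k L) = 1`, `nr = 1` or `3`: `2 ≤ nr + 1`.
CASE THREE REAL ROOTS `r₁ < r₂ < r₃`: `Te_nf A B D = D(r₁) D(r₂) D(r₃)` (identity using `r₁ + r₂ + r₃ = 0`, `A = r₁ r₂ + r₁ r₃ + r₂ r₃`, `B = - r₁ r₂ r₃`) `> 0`. Let `H₁ := {c ∈ HH k L | D(r₁) > 0}`. (2) `H₁ ≤ W`: either all three are positive, (1), or `D(r₂), D(r₃) < 0`: take `x₁ := (r₁ + r₂) / 2`, `f(x₁) = (x₁ - r₁)(x₁ - r₂)(x₁ - r₃) > 0`, `y₁ := √f(x₁)`,
`D' := m3 D ![x₁, -1, 0]`: `D'(rᵢ) = D(rᵢ)(x₁ - rᵢ) > 0` for all `i` (`H24PD.E3_m3`), so `D' = m3 z z` by sq_real, and `LC` holds with `(x₁, y₁, z)`. (3) Two elements `c, c'` of `HH k L` outside `H₁` have `c + c' ∈ H₁` (signs multiply; `sc (x x')`, `Te_ev_mul`), so `H₁` (a subgroup; sign of `t₁ x` with `t₁ θ = r₁`, `emb_real`) has relative index at most two in `HH k L`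
(it is the kernel of the restriction to `HH k L` of a homomorphism to a group with two elements, e.g. `si t₁ : SC L → ZMod 2`, see Pool/Agent/H38/T1/Ea.lean for `si`: `si_sc`, additivity), so `W.relIndex (HH k L) ≤ 2` and not zero. `nr = 3`: the three roots give three different embeddings (emb_real), and `nr ∈ {1, 3}` (nr_cases). `2 * 2 ≤ 3 + 1`.
-/

set_option autoImplicit false
set_option linter.unusedSectionVars false
open scoped Classical

open WithZero NumberField IsDedekindDomain H38RT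
open H38T1 (SC sc scu rep eo la si Pri OddP tp unif)
open H76PP

namespace H30ZO

variable {k L : Type} [Field k] [NumberField k] [Field L] [NumberField L] [Algebra k L]

private lemma Ed_m3 {a b e : ℝ} (he : e ^ 3 + a * e + b = 0)
    (u v : Fin 3 → ℝ) : H24PD.E3 e (m3 a b u v) = H24PD.E3 e u * H24PD.E3 e v := by
  have h0 : m3 a b u v 0 = u 0 * v 0 - b * (u 1 * v 2 + u 2 * v 1) := rfl
  have h1 : m3 a b u v 1 = u 0 * v 1 + u 1 * v 0 - a * (u 1 * v 2 + u 2 * v 1) - b * (u 2 * v 2) := rfl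
  have h2 : m3 a b u v 2 = u 0 * v 2 + u 1 * v 1 + u 2 * v 0 - a * (u 2 * v 2) := rfl
  unfold H24PD.E3
  rw [h0, h1, h2]
  linear_combination (-(u 1 * v 2 + u 2 * v 1) - u 2 * v 2 * e) * he

private lemma Ed_big {A B x : ℝ} (hx : 1 + |A| + |B| ≤ x) : 0 < x ^ 3 + A * x + B := by
  have hA := neg_abs_le A
  have hB := neg_abs_le B
  have hA0 := abs_nonneg A
  have hB0 := abs_nonneg B
  have hx1 : 1 ≤ x := by linarith
  have h1 : 0 ≤ (A + |A|) * x := mul_nonneg (by linarith) (by linarith)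
  have h2 : 0 ≤ (x - (1 + |A| + |B|)) * x := mul_nonneg (by linarith) (by linarith)
  have h3 : 0 ≤ (x ^ 2) * (x - 1) := mul_nonneg (by positivity) (by linarith)
  have h4 : 0 ≤ |B| * (x - 1) := mul_nonneg hB0 (by linarith)
  nlinarith

private lemma Ed_LC {k : Type} [Field k] {a b : k} (s : k →+* ℝ) (hD : 4 * (s a) ^ 3 + 27 * (s b) ^ 2 ≠ 0)
    {d : Fin 3 → k} {x : ℝ} (hx : 0 < x ^ 3 + s a * x + s b)
    (hd : ∀ r : ℝ, r ^ 3 + s a * r + s b = 0 → 0 < H24PD.E3 r (fun j => s (d j)) * (x - r)) : LC s a b d := by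
  obtain ⟨z, hz⟩ := sq_real hD (d := m3 (s a) (s b) (fun j => s (d j)) ![x, -1, 0]) (by
    intro r hr
    have h1 := Ed_m3 hr (fun j => s (d j)) ![x, -1, 0]
    have h2 : H24PD.E3 r ![x, -1, 0] = x - r := by
      unfold H24PD.E3
      simp
      ring
    rw [h2] at h1
    have h3 : m3 (s a) (s b) (fun j => s (d j)) ![x, -1, 0] 0 + m3 (s a) (s b) (fun j => s (d j)) ![x, -1, 0] 1 * r +
        m3 (s a) (s b) (fun j => s (d j)) ![x, -1, 0] 2 * r ^ 2 =
        H24PD.E3 r (m3 (s a) (s b) (fun j => s (d j)) ![x, -1, 0]) := rfl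
    rw [h3, h1]
    exact hd r hr)
  refine ⟨x, √(x ^ 3 + s a * x + s b), z, (Real.sqrt_pos.2 hx).ne', Real.sq_sqrt hx.le, hz.symm⟩

private lemma Ed_pos {a b : k} {θ : L} (h : Cub k L a b θ) (s : k →+* ℝ) {d : Fin 3 → k} (hd0 : ev θ d ≠ 0)
    (hc : sc (ev θ d) ∈ HH k L) : 0 < Te_nf (s a) (s b) (fun j => s (d j)) := by
  have _ : FiniteDimensional k L := Module.Finite.of_restrictScalars_finite ℚ k L
  rw [mem_HH hd0, Te_norm h] at hc
  obtain ⟨n, hn⟩ := hc
  rw [Te_nf_map, hn, map_mul]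
  have h1 : Te_nf a b d ≠ 0 := by
    rw [← Te_norm h]
    exact Algebra.norm_ne_zero_iff.2 hd0
  have h2 : s n ≠ 0 := by
    intro h0
    apply h1
    rw [hn, (map_eq_zero s).1 h0, mul_zero]
  exact mul_self_pos.2 h2

private lemma Ed_ev {a b : k} {θ : L} (h : Cub k L a b θ) (c : SC L) :
    ∃ d : Fin 3 → k, ev θ d ≠ 0 ∧ sc (ev θ d) = c := by
  obtain ⟨d0, d1, d2, hd⟩ := h.sp (rep c)
  refine ⟨![d0, d1, d2], ?_, ?_⟩
  · have : ev θ ![d0, d1, d2] = rep c := by
      rw [hd]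
      rfl
    rw [this]
    exact H38T1.rep_ne c
  · have : ev θ ![d0, d1, d2] = rep c := by
      rw [hd]
      rfl
    rw [this]
    exact H38T1.sc_rep c

private lemma Ed_tev {θ : L} (s : k →+* ℝ) (t : L →+* ℝ) (ht : t.comp (algebraMap k L) = s) {r : ℝ} (hr : t θ = r)
    (d : Fin 3 → k) : t (ev θ d) = H24PD.E3 r (fun j => s (d j)) := by
  unfold ev H24PD.E3
  rw [← ht, ← hr]
  simp only [map_add, map_mul, map_pow, RingHom.comp_apply]

theorem real_idx {a b : k} {θ : L} (h : Cub k L a b θ) (hD : 4 * a ^ 3 + 27 * b ^ 2 ≠ 0)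
    (s : k →+* ℝ) {W : AddSubgroup (SC L)}
    (hW : ∀ c, c ∈ W ↔ c ∈ HH k L ∧ Wc s a b θ c) :
    W.relIndex (HH k L) ≠ 0 ∧ 2 * W.relIndex (HH k L) ≤ nr k L s + 1 := by
  have hD' : 4 * (s a) ^ 3 + 27 * (s b) ^ 2 ≠ 0 := by
    have e : 4 * (s a) ^ 3 + 27 * (s b) ^ 2 = s (4 * a ^ 3 + 27 * b ^ 2) := by
      rw [map_add, map_mul, map_mul, map_pow, map_pow, map_ofNat, map_ofNat]
    rw [e]
    exact (map_ne_zero s).2 hD
  have hnr := nr_cases h hD s
  rcases real_cases hD' with ⟨r, p, q, hf, hpq⟩ | ⟨r₁, r₂, r₃, h12, h23, hf⟩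
  · -- one real root
    have e0 := hf 0
    have e1 := hf 1
    have e2 := hf (-1)
    have hp : p = r := by linarith
    have hA : s a = q - r ^ 2 := by
      rw [hp] at e1 e0
      linarith
    have hB : s b = -(r * q) := by linarith
    have hle : HH k L ≤ W := by
      intro c hc
      rw [hW]
      refine ⟨hc, ?_⟩
      obtain ⟨d, hd0, rfl⟩ := Ed_ev h c
      refine ⟨d, hd0, rfl, Ed_LC s hD' (x := 1 + |s a| + |s b|) (Ed_big le_rfl) fun r' hr' => ?_⟩
      have h1 : r' = r := by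
        rw [hf] at hr'
        rcases mul_eq_zero.1 hr' with h2 | h2
        · linarith
        · nlinarith [sq_nonneg (2 * r' + p)]
      have h2 : r' < 1 + |s a| + |s b| := by
        by_contra hc'
        push Not at hc'
        have := Ed_big hc'
        linarith
      refine mul_pos ?_ (by linarith)
      rw [h1]
      have h3 := Ed_pos h s hd0 hc
      obtain ⟨D, hDD⟩ : ∃ D : Fin 3 → ℝ, D = fun j => s (d j) := ⟨_, rfl⟩
      rw [← hDD] at h3 ⊢
      have h4 : Te_nf (s a) (s b) D = H24PD.E3 r D *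
          ((D 0 - q * D 2) ^ 2 - r * (D 0 - q * D 2) * (D 1 - r * D 2) + q * (D 1 - r * D 2) ^ 2) := by
        rw [hA, hB]
        unfold Te_nf H24PD.E3
        ring
      have h5 : 0 ≤ (D 0 - q * D 2) ^ 2 - r * (D 0 - q * D 2) * (D 1 - r * D 2) + q * (D 1 - r * D 2) ^ 2 := by
        rw [hp] at hpq
        nlinarith [sq_nonneg (2 * (D 0 - q * D 2) - r * (D 1 - r * D 2)),
          mul_nonneg (by linarith : 0 ≤ 4 * q - r ^ 2) (sq_nonneg (D 1 - r * D 2))]
      rw [h4] at h3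
      by_contra hcc
      push Not at hcc
      exact absurd (mul_nonpos_of_nonpos_of_nonneg hcc h5) (not_le.2 h3)
    have h1 : W.relIndex (HH k L) = 1 := AddSubgroup.relIndex_eq_one.2 hle
    rw [h1]
    refine ⟨one_ne_zero, ?_⟩
    rcases hnr with h2 | h2 <;> omega
  · -- three real roots
    have e0 := hf 0
    have e1 := hf 1
    have e2 := hf (-1)
    have hs : r₁ + r₂ + r₃ = 0 := by linarith
    have hB : s b = -(r₁ * r₂ * r₃) := by linarith
    have hA : s a = r₁ * r₂ + r₁ * r₃ + r₂ * r₃ := by linarith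
    have z1 : r₁ ^ 3 + s a * r₁ + s b = 0 := by
      rw [hf]
      ring
    have z2 : r₂ ^ 3 + s a * r₂ + s b = 0 := by
      rw [hf]
      ring
    have z3 : r₃ ^ 3 + s a * r₃ + s b = 0 := by
      rw [hf]
      ring
    obtain ⟨t₁, ht₁, hr₁⟩ := emb_real h s z1
    obtain ⟨t₂, ht₂, hr₂⟩ := emb_real h s z2
    have hnf : ∀ D : Fin 3 → ℝ, Te_nf (s a) (s b) D = H24PD.E3 r₁ D * H24PD.E3 r₂ D * H24PD.E3 r₃ D := by
      intro D
      have h3 : r₃ = -(r₁ + r₂) := by linarith
      rw [hA, hB, h3]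
      unfold Te_nf H24PD.E3
      ring
    obtain ⟨φ, hφ⟩ : ∃ φ : SC L →+ ZMod 2, ∀ c, φ c = si t₁ c :=
      ⟨AddMonoidHom.mk' (si t₁) (H38T1.si_add t₁), fun _ => rfl⟩
    have hle : φ.ker ⊓ HH k L ≤ W := by
      intro c hc
      obtain ⟨hc1, hc2⟩ := AddSubgroup.mem_inf.1 hc
      rw [hW]
      refine ⟨hc2, ?_⟩
      obtain ⟨d, hd0, rfl⟩ := Ed_ev h c
      refine ⟨d, hd0, rfl, ?_⟩
      rw [AddMonoidHom.mem_ker, hφ, H38T1.si_sc t₁ hd0, H38RT.sw] at hc1
      have h1 : 0 ≤ t₁ (ev θ d) := by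
        by_contra hcc
        push Not at hcc
        rw [if_pos hcc] at hc1
        exact one_ne_zero hc1
      have h2 : 0 < t₁ (ev θ d) := lt_of_le_of_ne h1 (Ne.symm ((map_ne_zero t₁).2 hd0))
      rw [Ed_tev s t₁ ht₁ hr₁] at h2
      have h3 := Ed_pos h s hd0 hc2
      rw [hnf] at h3
      have hroot : ∀ r : ℝ, r ^ 3 + s a * r + s b = 0 → r = r₁ ∨ r = r₂ ∨ r = r₃ := by
        intro r hr
        rw [hf] at hr
        rcases mul_eq_zero.1 hr with h4 | h4
        · rcases mul_eq_zero.1 h4 with h5 | h5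
          · left; linarith
          · right; left; linarith
        · right; right; linarith
      rcases lt_trichotomy (H24PD.E3 r₂ fun j => s (d j)) 0 with h4 | h4 | h4
      · have h5 : H24PD.E3 r₃ (fun j => s (d j)) < 0 := by
          by_contra hcc
          push Not at hcc
          have h6 := mul_nonpos_of_nonpos_of_nonneg (mul_neg_of_pos_of_neg h2 h4).le hcc
          linarith
        refine Ed_LC s hD' (x := (r₁ + r₂) / 2) ?_ fun r hr => ?_
        · rw [hf]
          have h6 : 0 < ((r₁ + r₂) / 2 - r₁) := by linarith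
          have h7 : ((r₁ + r₂) / 2 - r₂) < 0 := by linarith
          have h8 : ((r₁ + r₂) / 2 - r₃) < 0 := by linarith
          exact mul_pos_of_neg_of_neg (mul_neg_of_pos_of_neg h6 h7) h8
        · rcases hroot r hr with rfl | rfl | rfl
          · exact mul_pos h2 (by linarith)
          · exact mul_pos_of_neg_of_neg h4 (by linarith)
          · exact mul_pos_of_neg_of_neg h5 (by linarith)
      · rw [h4, mul_zero, zero_mul] at h3
        exact absurd h3 (lt_irrefl 0)
      · have h5 : 0 < H24PD.E3 r₃ (fun j => s (d j)) := by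
          by_contra hcc
          push Not at hcc
          have h6 := mul_nonpos_of_nonneg_of_nonpos (mul_pos h2 h4).le hcc
          linarith
        refine Ed_LC s hD' (x := 1 + |s a| + |s b|) (Ed_big le_rfl) fun r hr => ?_
        have h6 : r < 1 + |s a| + |s b| := by
          by_contra hc'
          push Not at hc'
          have := Ed_big hc'
          linarith
        refine mul_pos ?_ (by linarith)
        rcases hroot r hr with rfl | rfl | rfl
        · exact h2
        · exact h4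
        · exact h5
    have hdvd : W.relIndex (HH k L) ∣ 2 := by
      have h1 : W.relIndex (HH k L) ∣ (φ.ker ⊓ HH k L).relIndex (HH k L) :=
        AddSubgroup.relIndex_dvd_of_le_left _ hle
      rw [AddSubgroup.inf_relIndex_right] at h1
      have h2 : φ.ker.relIndex (HH k L) ∣ φ.ker.index := AddSubgroup.relIndex_dvd_index_of_normal _ _
      rw [AddSubgroup.index_ker] at h2
      have h3 : Nat.card φ.range ∣ Nat.card (ZMod 2) := AddSubgroup.card_addSubgroup_dvd_card _
      rw [Nat.card_zmod] at h3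
      exact (h1.trans h2).trans h3
    have h3 : nr k L s = 3 := by
      rcases hnr with h1 | h1
      · exfalso
        unfold nr at h1
        rw [Nat.card_eq_one_iff_unique] at h1
        have h2 := h1.1.elim ⟨t₁, ht₁⟩ ⟨t₂, ht₂⟩
        have h4 : t₁ = t₂ := congrArg Subtype.val h2
        rw [h4, hr₂] at hr₁
        linarith
      · exact h1
    rw [h3]
    refine ⟨fun h0 => ?_, ?_⟩
    · rw [h0] at hdvd
      omega
    · have := Nat.le_of_dvd two_pos hdvd
      omega

end H30ZO
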