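import Pool.Agent.H30.ZO.Ab
import Pool.Agent.H24.TD.Yb
import Pool.Agent.H36.CY.Ld

/-!
ROW Ac (project MP_78d38b_ZO, about 200 lines): the number of square classes of the completion. Use only the STATEMENT of Ab.

PROOF. `e := e2 w`, `N := 2 * e + 1`, `G := (𝓞 L ⧸ w.asIdeal ^ N)ˣ` (finite). `G / G^2` has as many elements as the kernel of squaring (finite abelian group; `H24TD.RkU_fin` in Pool/Agent/H24/TD/RkU.lean for additive groups, or `Subgroup.card_mul_index` twice), i.e. `2 * qq w` by two_tors.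
(1) `U := {c | eo w c = 0}` (kernel of `eo w : SC L → ZMod 2`, additive: `H38T1.eo_add`, see Pool/Agent/H38/T1/Ea.lean) has index two in `SC L` (`eo w (sc (unif w)) = 1`), `Sq w ≤ U` (a square in the completion has even order: `Valued.v (algebraMap x) = w.valuation x`, `H36CY.val_coe` in Pool/Agent/H36/CY/Ld.lean or
`HeightOneSpectrum.valuedAdicCompletion_eq_valuation'`). So `(Sq w).index = 2 * (Sq w).relIndex U` (`AddSubgroup.relIndex_mul_index`).
(2) Every `c ∈ U` has a representative `x` with `w.valuation L x = 1` (divide by an even power of `unif w`) and then a representative in `𝓞 L` outside `w`: `x = a / b` with `a, b ∈ 𝓞 L \ w` (`H88T7`/`H24TD.Yb_frac` in Pool/Agent/H24/TD/Yb.lean is of this kind; or `exists b ∉ w, b x ∈ 𝓞 L`), `sc x = sc (a b)`.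
(3) For `x ∈ 𝓞 L \ w`: `sc x ∈ Sq w` iff `x` is a square in `G`: (⇒) `x = s^2` in the completion, `Valued.v s = 1`, choose `c ∈ 𝓞 L` with `Valued.v (s - c) ≤ exp (-N)` (density of `𝓞 L` in the integers of the completion: density of `L` and then multiplication by an element of `𝓞 L` congruent to one modulo `w ^ N`;
 `𝓞 L / w^N ≅` localisation: see Pool/Agent/H10 (`Resid.lean`, `GrPlace.lean`) or take `y ∈ L` close to `s`, `y = a / b` with `a, b ∈ 𝓞 L \ w`, `b c' ≡ 1 mod w^N`, `c = a c'`), then `x - c^2 ∈ w^N`. (⇐) `x - c^2 ∈ w^N`, `c ∉ w`: `w.valuation (x / c^2 - 1) ≤ exp (-(2 e + 1)) < w.valuation 4`, so `x / c^2` is a square in the completion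
 (`H36CY.sq_near` in Pool/Agent/H36/CY/Vl.lean; `H36CY.sq_near'`).
(4) The map `G → U / Sq w`, class of `x ∈ 𝓞 L \ w` ↦ class of `sc x`, is well defined by (3) (`x ≡ x' mod w^N`: `x x' ≡ x^2`), a surjective homomorphism with kernel `G^2`. So `(Sq w).relIndex U = 2 * qq w`. (Instead of a homomorphism of quotients one may compare numbers of cosets with `Nat.card_congr`.)
-/

set_option autoImplicit false
set_option linter.unusedSectionVars false
open scoped Classical

open WithZero NumberField IsDedekindDomain H38RT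
open H38T1 (SC sc scu rep eo la si Pri OddP tp unif)
open H76PP

namespace H30ZO

section AcAux

variable {L : Type} [Field L] [NumberField L] (w : HeightOneSpectrum (𝓞 L))

private theorem Ac_mem (x : 𝓞 L) (n : ℕ) :
    x ∈ w.asIdeal ^ n ↔ w.valuation L (x : L) ≤ exp (-(n : ℤ)) := by
  have h1 : w.valuation L (x : L) = w.intValuation x := w.valuation_of_algebraMap x
  rw [h1, w.intValuation_le_pow_iff_mem]

private theorem Ac_one {x : 𝓞 L} (hx : x ∉ w.asIdeal) : w.valuation L (x : L) = 1 :=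
  (w.valuation_eq_one_iff_notMem (K := L)).2 hx

private theorem Ac_ne {x : 𝓞 L} (hx : x ∉ w.asIdeal) : (x : L) ≠ 0 := by
  intro h
  have h1 := Ac_one w hx
  rw [h, map_zero] at h1
  exact zero_ne_one h1

/-- The class of an element outside the prime, as a unit. -/
private noncomputable def Ac_g (N : ℕ) (x : {x : 𝓞 L // x ∉ w.asIdeal}) : (𝓞 L ⧸ w.asIdeal ^ N)ˣ :=
  (Ideal.Quotient.isUnit_mk_pow_of_notMem w.asIdeal x.2).unit

private theorem Ac_g_val (N : ℕ) (x : {x : 𝓞 L // x ∉ w.asIdeal}) :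
    ((Ac_g w N x : (𝓞 L ⧸ w.asIdeal ^ N)ˣ) : 𝓞 L ⧸ w.asIdeal ^ N) =
      Ideal.Quotient.mk (w.asIdeal ^ N) x.1 := rfl

private theorem Ac_mul_notMem {x y : 𝓞 L} (hx : x ∉ w.asIdeal) (hy : y ∉ w.asIdeal) :
    x * y ∉ w.asIdeal := fun h => (w.isPrime.mem_or_mem h).elim hx hy

private theorem Ac_g_mul (N : ℕ) (x y : {x : 𝓞 L // x ∉ w.asIdeal}) :
    Ac_g w N x * Ac_g w N y = Ac_g w N ⟨x.1 * y.1, Ac_mul_notMem w x.2 y.2⟩ := by
  ext
  rw [Units.val_mul, Ac_g_val, Ac_g_val, Ac_g_val, map_mul]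

private theorem Ac_g_surj {N : ℕ} (hN : N ≠ 0) (u : (𝓞 L ⧸ w.asIdeal ^ N)ˣ) :
    ∃ x, Ac_g w N x = u := by
  obtain ⟨x, hx⟩ := Ideal.Quotient.mk_surjective (u : 𝓞 L ⧸ w.asIdeal ^ N)
  have h1 : IsUnit (Ideal.Quotient.mk (w.asIdeal ^ N) x) := by
    rw [hx]
    exact u.isUnit
  have h2 := (Ideal.Quotient.isUnit_mk_pow_iff_notMem w.asIdeal hN).1 h1
  exact ⟨⟨x, h2⟩, Units.ext hx⟩

/-- An integral element prime to `w` of the field is a fraction of such. -/
private theorem Ac_frac {y : L} (hy : w.valuation L y = 1) :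
    ∃ a b : 𝓞 L, a ∉ w.asIdeal ∧ b ∉ w.asIdeal ∧ (b : L) * y = a := by
  obtain ⟨b, a, hb, h⟩ := H24TD.Yb_den w hy.le
  refine ⟨a, b, ?_, hb, h⟩
  rw [← w.valuation_eq_one_iff_notMem (K := L)]
  change w.valuation L (a : L) = 1
  rw [← h, map_mul, hy, mul_one, Ac_one w hb]

private theorem Ac_key {z : 𝓞 L} (hz : z ∉ w.asIdeal) {N : ℕ} (hN : 2 * e2 w + 1 ≤ N) :
    sc (z : L) ∈ Sq w ↔ ∃ u : (𝓞 L ⧸ w.asIdeal ^ N)ˣ, u ^ 2 = Ac_g w N ⟨z, hz⟩ := by
  rw [mem_Sq (Ac_ne w hz)]
  have hNz : N ≠ 0 := by omega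
  constructor
  · rintro ⟨r, hr⟩
    -- the element is a square in the completion
    have hvr : Valued.v r = 1 := by
      have h1 := congrArg Valued.v hr
      rw [H36CY.val_coe, Ac_one w hz, map_mul] at h1
      have h2 : Valued.v r ≠ 0 := by
        intro h
        rw [h, zero_mul] at h1
        exact one_ne_zero h1
      have h3 := congrArg log h1
      rw [log_one, log_mul h2 h2] at h3
      rw [← exp_log h2, ← exp_zero]
      congr 1
      omega
    have hpi : (algebraMap L (w.adicCompletion L) (unif w ^ (N - 1 + 0))) ≠ 0 := by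
      refine (map_ne_zero _).2 (pow_ne_zero _ ?_)
      intro h
      have h1 := H38T1.unif_spec w
      rw [h, map_zero] at h1
      exact exp_ne_zero h1.symm
    obtain ⟨y, hy⟩ := H36CY.near_coe w r hpi
    rw [H36CY.val_coe, map_pow, H38T1.unif_spec, add_zero, ← exp_nsmul] at hy
    have hylt : Valued.v (algebraMap L (w.adicCompletion L) y - r) ≤ exp (-(N : ℤ)) := by
      have hN1 : ((N - 1 : ℕ) • (-1 : ℤ)) = -(N : ℤ) + 1 := by
        rw [nsmul_eq_mul]
        push_cast [Nat.one_le_iff_ne_zero.2 hNz]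
        ring
      rw [hN1] at hy
      by_cases h0 : Valued.v (algebraMap L (w.adicCompletion L) y - r) = 0
      · rw [h0]
        exact zero_le
      · rw [← exp_log h0] at hy ⊢
        rw [exp_lt_exp] at hy
        rw [exp_le_exp]
        omega
    have hNneg : exp (-(N : ℤ)) < (1 : ℤᵐ⁰) := by
      rw [← exp_zero, exp_lt_exp]
      omega
    have hy1 : w.valuation L y = 1 := by
      rw [← H36CY.val_coe]
      have h1 : algebraMap L (w.adicCompletion L) y =
          (algebraMap L (w.adicCompletion L) y - r) + r := by ring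
      rw [h1, Valuation.map_add_eq_of_lt_right _ (by rw [hvr]; exact lt_of_le_of_lt hylt hNneg), hvr]
    obtain ⟨a, b, ha, hb, hab⟩ := Ac_frac w hy1
    have hdiff : w.valuation L (y ^ 2 - z) ≤ exp (-(N : ℤ)) := by
      rw [← H36CY.val_coe, map_sub, map_pow, hr]
      have h1 : (algebraMap L (w.adicCompletion L) y) ^ 2 - r * r =
          (algebraMap L (w.adicCompletion L) y - r) * ((algebraMap L (w.adicCompletion L) y) + r) := by
        ring
      rw [h1, map_mul]
      have h2 : Valued.v (algebraMap L (w.adicCompletion L) y + r) ≤ 1 := by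
        refine (Valued.v.map_add _ _).trans (max_le ?_ hvr.le)
        rw [H36CY.val_coe, hy1]
      calc Valued.v (algebraMap L (w.adicCompletion L) y - r) *
            Valued.v (algebraMap L (w.adicCompletion L) y + r)
          ≤ exp (-(N : ℤ)) * 1 := mul_le_mul' hylt h2
        _ = _ := mul_one _
    have hmem : a ^ 2 - z * b ^ 2 ∈ w.asIdeal ^ N := by
      rw [Ac_mem]
      have h1 : ((a ^ 2 - z * b ^ 2 : 𝓞 L) : L) = (b : L) ^ 2 * (y ^ 2 - z) := by
        have h2 : ((a ^ 2 - z * b ^ 2 : 𝓞 L) : L) = (a : L) ^ 2 - z * (b : L) ^ 2 := by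
          simp only [map_sub, map_mul, map_pow]
        rw [h2, ← hab]
        ring
      rw [h1, map_mul, map_pow, Ac_one w hb, one_pow, one_mul]
      exact hdiff
    have h3 : (Ac_g w N ⟨a, ha⟩) ^ 2 = Ac_g w N ⟨z, hz⟩ * (Ac_g w N ⟨b, hb⟩) ^ 2 := by
      ext
      rw [Units.val_mul, Units.val_pow_eq_pow_val, Units.val_pow_eq_pow_val, Ac_g_val, Ac_g_val,
        Ac_g_val, ← map_pow, ← map_pow, ← map_mul, Ideal.Quotient.eq]
      exact hmem
    refine ⟨Ac_g w N ⟨a, ha⟩ * (Ac_g w N ⟨b, hb⟩)⁻¹, ?_⟩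
    rw [mul_pow, h3, inv_pow, mul_assoc, mul_inv_cancel, mul_one]
  · rintro ⟨u, hu⟩
    obtain ⟨⟨c, hc⟩, rfl⟩ := Ac_g_surj w hNz u
    have hmem : z - c ^ 2 ∈ w.asIdeal ^ N := by
      rw [← Ideal.Quotient.eq, map_pow]
      have h1 := congrArg (Units.val) hu
      rw [Units.val_pow_eq_pow_val, Ac_g_val, Ac_g_val] at h1
      exact h1.symm
    rw [Ac_mem] at hmem
    have h4 : w.valuation L (4 * (c : L) ^ 2) = exp (-(2 * e2 w : ℤ)) := by
      have h5 : (4 : L) = 2 * 2 := by norm_num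
      rw [map_mul, map_pow, Ac_one w hc, one_pow, mul_one, h5, map_mul, e2_spec, ← exp_add]
      congr 1
      ring
    have h6 : w.valuation L ((z : L) - (c : L) ^ 2) < w.valuation L (4 * (c : L) ^ 2) := by
      rw [h4]
      refine lt_of_le_of_lt ?_ (exp_lt_exp.2 (show -(N : ℤ) < -(2 * e2 w : ℤ) by omega))
      have h7 : ((z - c ^ 2 : 𝓞 L) : L) = (z : L) - (c : L) ^ 2 := by
        simp only [map_sub, map_pow]
      rw [← h7]
      exact hmem
    obtain ⟨r, -, hr⟩ := H36CY.sq_near' w h6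
    refine ⟨algebraMap L (w.adicCompletion L) c * r, ?_⟩
    rw [hr, map_pow]
    ring

private theorem Ac_card_range {α β γ : Type*} (f : α → β) (g : α → γ)
    (h : ∀ x y, f x = f y ↔ g x = g y) : Nat.card (Set.range f) = Nat.card (Set.range g) := by
  have hk : Setoid.ker f = Setoid.ker g := by
    ext x y
    exact h x y
  have e1 := Setoid.quotientKerEquivRange f
  have e2 := Setoid.quotientKerEquivRange g
  rw [hk] at e1
  exact Nat.card_congr (e1.symm.trans e2)

private theorem Ac_neg (c : SC L) : -c = c := by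
  rw [neg_eq_iff_add_eq_zero, ← two_nsmul]
  exact H38T1.SC.two_smul c

private theorem Ac_index_sq {G : Type*} [CommGroup G] [Finite G] :
    (powMonoidHom 2 : G →* G).range.index = Nat.card {x : G // x ^ 2 = 1} := by
  have h1 := (powMonoidHom 2 : G →* G).range.card_mul_index
  have h2 := (powMonoidHom 2 : G →* G).ker.card_mul_index
  rw [Subgroup.index_ker] at h2
  have h3 : 0 < Nat.card (powMonoidHom 2 : G →* G).range := Nat.card_pos
  have h4 : Nat.card (powMonoidHom 2 : G →* G).ker = Nat.card {x : G // x ^ 2 = 1} :=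
    Nat.card_congr (Equiv.subtypeEquivRight fun x => by
      rw [MonoidHom.mem_ker, powMonoidHom_apply])
  rw [← h4]
  refine Nat.eq_of_mul_eq_mul_left h3 ?_
  rw [h1, ← h2, mul_comm]

end AcAux

theorem index_Sq {L : Type} [Field L] [NumberField L] (w : HeightOneSpectrum (𝓞 L)) :
    (Sq w).index = 4 * qq w := by
  set N := 2 * e2 w + 1 with hN
  have hNz : N ≠ 0 := by omega
  -- the finite side
  have hfin : Finite (𝓞 L ⧸ w.asIdeal ^ N) := by
    have h1 : w.asIdeal ^ N ≠ ⊥ := pow_ne_zero _ w.ne_bot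
    exact Ideal.finiteQuotientOfFreeOfNeBot _ h1
  let T : Subgroup (𝓞 L ⧸ w.asIdeal ^ N)ˣ := (powMonoidHom 2 : (𝓞 L ⧸ w.asIdeal ^ N)ˣ →* _).range
  have hT : T.index = 2 * qq w := by
    rw [← two_tors w N le_rfl]
    exact Ac_index_sq
  let g : {x : 𝓞 L // x ∉ w.asIdeal} → (𝓞 L ⧸ w.asIdeal ^ N)ˣ ⧸ T := fun x =>
    QuotientGroup.mk (Ac_g w N x)
  let f : {x : 𝓞 L // x ∉ w.asIdeal} → SC L ⧸ Sq w := fun x =>
    QuotientAddGroup.mk (sc (x.1 : L))
  have hg : Nat.card (Set.range g) = 2 * qq w := by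
    have h1 : Set.range g = Set.univ := by
      rw [Set.range_eq_univ]
      intro u
      obtain ⟨u, rfl⟩ := QuotientGroup.mk_surjective u
      obtain ⟨x, hx⟩ := Ac_g_surj w hNz u
      exact ⟨x, congrArg _ hx⟩
    rw [h1, Nat.card_univ]
    exact hT
  have hfg : Nat.card (Set.range f) = Nat.card (Set.range g) := by
    refine Ac_card_range f g fun x y => ?_
    have h1 : f x = f y ↔ sc ((x.1 * y.1 : 𝓞 L) : L) ∈ Sq w := by
      change (QuotientAddGroup.mk _ : SC L ⧸ Sq w) = QuotientAddGroup.mk _ ↔ _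
      rw [QuotientAddGroup.eq, Ac_neg, ← H38T1.sc_mul (Ac_ne w x.2) (Ac_ne w y.2), ← map_mul]
    have h2 : g x = g y ↔ ∃ u : (𝓞 L ⧸ w.asIdeal ^ N)ˣ,
        u ^ 2 = Ac_g w N ⟨x.1 * y.1, Ac_mul_notMem w x.2 y.2⟩ := by
      change (QuotientGroup.mk _ : (𝓞 L ⧸ w.asIdeal ^ N)ˣ ⧸ T) = QuotientGroup.mk _ ↔ _
      rw [QuotientGroup.eq, ← Ac_g_mul]
      constructor
      · rintro ⟨u, hu⟩
        rw [powMonoidHom_apply] at hu
        refine ⟨Ac_g w N x * u, ?_⟩
        rw [mul_pow, hu, sq]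
        group
      · rintro ⟨u, hu⟩
        refine ⟨(Ac_g w N x)⁻¹ * u, ?_⟩
        rw [powMonoidHom_apply, mul_pow, hu, inv_pow, sq]
        group
    rw [h1, h2]
    exact Ac_key w (Ac_mul_notMem w x.2 y.2) le_rfl
  -- the parity of the order
  let ε : SC L →+ ZMod 2 := AddMonoidHom.mk' (eo w) (H38T1.eo_add w)
  have hε : ∀ c ∈ Sq w, ε c = 0 := by
    intro c hc
    obtain ⟨x, hx, rfl⟩ := H38T1.sc_surj c
    rw [mem_Sq hx] at hc
    obtain ⟨r, hr⟩ := hc
    change eo w (sc x) = 0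
    rw [H38T1.eo_sc hx]
    have h1 := congrArg Valued.v hr
    rw [H36CY.val_coe, map_mul] at h1
    have hr0 : Valued.v r ≠ 0 := by
      intro h
      rw [h, zero_mul] at h1
      exact (Valuation.ne_zero_iff _).2 hx h1
    rw [ord, h1, log_mul hr0 hr0]
    push_cast
    rw [CharTwo.add_self_eq_zero, neg_zero]
  let εb : SC L ⧸ Sq w →+ ZMod 2 := QuotientAddGroup.lift (Sq w) ε hε
  have hεb : ∀ x : L, εb (QuotientAddGroup.mk (sc x)) = eo w (sc x) := fun _ => rfl
  have hπ0 : unif w ≠ 0 := by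
    intro h
    have h1 := H38T1.unif_spec w
    rw [h, map_zero] at h1
    exact exp_ne_zero h1.symm
  have hsurj : Function.Surjective εb := by
    have h1 : εb (QuotientAddGroup.mk (sc (unif w))) = 1 := by
      rw [hεb, H38T1.eo_sc hπ0, ord, H38T1.unif_spec, log_exp]
      norm_num
    have h0 : εb 0 = 0 := map_zero _
    intro t
    fin_cases t
    · exact ⟨0, h0⟩
    · exact ⟨_, h1⟩
  have hker : Nat.card εb.ker = Nat.card (Set.range f) := by
    have h1 : (εb.ker : Set (SC L ⧸ Sq w)) = Set.range f := by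
      ext q
      constructor
      · intro hq
        obtain ⟨c, rfl⟩ := QuotientAddGroup.mk_surjective q
        obtain ⟨x, hx, rfl⟩ := H38T1.sc_surj c
        have h2 : eo w (sc x) = 0 := hq
        rw [H38T1.eo_sc hx] at h2
        have h3 := (ZMod.intCast_zmod_eq_zero_iff_dvd _ 2).1 h2
        obtain ⟨k, hk⟩ := h3
        set y := x * (unif w ^ (-k)) ^ 2 with hy
        have hu0 : unif w ^ (-k) ≠ 0 := zpow_ne_zero _ hπ0
        have hy0 : y ≠ 0 := mul_ne_zero hx (pow_ne_zero _ hu0)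
        have hscy : sc y = sc x := by
          rw [hy, H38T1.sc_mul hx (pow_ne_zero _ hu0)]
          have : sc ((unif w ^ (-k)) ^ 2) = 0 := by
            rw [H38T1.sc_eq_zero (pow_ne_zero _ hu0), sq]
            exact ⟨_, rfl⟩
          rw [this, add_zero]
        have hvx : w.valuation L x ≠ 0 := (Valuation.ne_zero_iff _).2 hx
        have hvy : w.valuation L y = 1 := by
          have h4 : w.valuation L x = exp (-(2 * k)) := by
            rw [← exp_log hvx]
            congr 1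
            rw [ord] at hk
            push_cast at hk
            omega
          rw [hy, map_mul, map_pow, map_zpow₀, H38T1.unif_spec, h4, ← exp_zsmul, ← exp_nsmul, ← exp_add,
            ← exp_zero]
          congr 1
          simp only [smul_eq_mul, nsmul_eq_mul]
          push_cast
          ring
        obtain ⟨a, b, ha, hb, hab⟩ := Ac_frac w hvy
        refine ⟨⟨a * b, Ac_mul_notMem w ha hb⟩, ?_⟩
        change (QuotientAddGroup.mk (sc ((a * b : 𝓞 L) : L)) : SC L ⧸ Sq w) = QuotientAddGroup.mk (sc x)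
        rw [← hscy]
        congr 1
        have h5 : ((a * b : 𝓞 L) : L) = y * (b : L) ^ 2 := by
          have h6 : ((a * b : 𝓞 L) : L) = (a : L) * (b : L) := map_mul (algebraMap (𝓞 L) L) a b
          rw [h6, ← hab]
          ring
        have hb0 := Ac_ne w hb
        rw [h5, H38T1.sc_mul hy0 (pow_ne_zero _ hb0)]
        have : sc ((b : L) ^ 2) = 0 := by
          rw [H38T1.sc_eq_zero (pow_ne_zero _ hb0), sq]
          exact ⟨_, rfl⟩
        rw [this, add_zero]
      · rintro ⟨x, rfl⟩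
        change eo w (sc (x.1 : L)) = 0
        rw [H38T1.eo_sc (Ac_ne w x.2), ord, Ac_one w x.2, log_one]
        norm_num
    rw [← h1]
    rfl
  have hidx : εb.ker.index = 2 := by
    rw [AddSubgroup.index_ker, AddMonoidHom.range_eq_top.2 hsurj]
    rw [Nat.card_congr AddSubgroup.topEquiv.toEquiv, Nat.card_zmod]
  have hfinal := εb.ker.card_mul_index
  rw [hker, hfg, hg, hidx] at hfinal
  have h9 : (Sq w).index = Nat.card (SC L ⧸ Sq w) := rfl
  rw [h9, ← hfinal]
  ring

end H30ZO
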