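import Pool.Agent.H30.ZO.Aj
import Pool.Agent.H30.ZO.Bh
import Pool.Agent.H30.ZO.Cd
import Pool.Agent.H30.ZO.Cg
import Pool.Agent.H30.ZO.Ch

/-!
ROW Ci (project MP_78d38b_ZO, about 80 lines): the index of the local condition at a finite place. Use only the STATEMENTS of Aj, Bh, Cd, Cg, Ch.

PROOF. `S := Sqv k L v ⊓ HH k L ≤ W ≤ HH k L` (Sqv_le, hW). `S.relIndex W * W.relIndex (HH k L) = S.relIndex (HH k L)` (`AddSubgroup.relIndex_mul_relIndex`). By idx_HH the right side `X` is not zero and `4 X ≤ 4 ^ n * q ^ 2`, `n := nb k L v`, `q := qq v > 0` (`Nv v > 0`). So both factors `Y := S.relIndex W`, `Z := W.relIndex (HH k L)` are not zero. idx_W: `(D2 v a b).index ≠ 0`, `(D2 v a b).index ≤ Y`;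
idx_D2: `q * t ≤ (D2 v a b).index` with `t := Nat.card (T2 v a b)`; nb_T2: `2 ^ n ≤ 2 t`. So `4 (q t) Z ≤ 4 Y Z ≤ 4 ^ n q ^ 2`, cancel `q`: `4 t Z ≤ 4 ^ n q`, `2 * 2 ^ n * Z ≤ 4 t Z ≤ 2 ^ n * 2 ^ n * q`, cancel `2 ^ n`: `2 Z ≤ 2 ^ n q`.
-/

set_option autoImplicit false
set_option linter.unusedSectionVars false
open scoped Classical

open WithZero WeierstrassCurve NumberField IsDedekindDomain H38RT
open H38T1 (SC sc scu rep eo la si Pri OddP tp unif)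
open H76PP

namespace H30ZO

variable {k L : Type} [Field k] [NumberField k] [Field L] [NumberField L] [Algebra k L]

theorem loc_idx {a b : k} {θ : L} (h : Cub k L a b θ) (v : HeightOneSpectrum (𝓞 k))
    (ha : v.valuation k a ≤ 1) (hb : v.valuation k b ≤ 1) (hD : 4 * a ^ 3 + 27 * b ^ 2 ≠ 0)
    {W : AddSubgroup (SC L)}
    (hW : ∀ c, c ∈ W ↔ c ∈ HH k L ∧ Wc (algebraMap k (v.adicCompletion k)) a b θ c) :
    W.relIndex (HH k L) ≠ 0 ∧ 2 * W.relIndex (HH k L) ≤ 2 ^ nb k L v * qq v := by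
  set S : AddSubgroup (SC L) := Sqv k L v ⊓ HH k L with hS
  have hSW : S ≤ W := by
    intro c hc
    exact (hW c).2 ⟨hc.2, Sqv_le h v ha hb hD hc.1⟩
  have hWH : W ≤ HH k L := fun c hc => ((hW c).1 hc).1
  have hmul : S.relIndex W * W.relIndex (HH k L) = S.relIndex (HH k L) :=
    AddSubgroup.relIndex_mul_relIndex S W (HH k L) hSW hWH
  obtain ⟨hX0, hX⟩ := idx_HH h v ha hb
  rw [← hS, ← hmul] at hX0 hX
  have hY0 : S.relIndex W ≠ 0 := left_ne_zero_of_mul hX0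
  have hZ0 : W.relIndex (HH k L) ≠ 0 := right_ne_zero_of_mul hX0
  refine ⟨hZ0, ?_⟩
  obtain ⟨hd0, hd⟩ := idx_W h v ha hb hD hW (by rw [← hS]; exact hY0)
  rw [← hS] at hd
  have hd2 : qq v * Nat.card (T2 v a b) ≤ (D2 v a b).index :=
    (idx_D2 v ha hb hD).resolve_left hd0
  obtain ⟨-, hnb⟩ := nb_T2 h v ha hb hD
  have hq : 0 < qq v := by
    unfold qq Nv
    refine pow_pos (Nat.pos_of_ne_zero ?_) _
    intro h0
    exact v.ne_bot (Ideal.absNorm_eq_zero_iff.1 h0)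
  set Z := W.relIndex (HH k L) with hZ
  set Y := S.relIndex W with hY
  set q := qq v with hqd
  set t := Nat.card (T2 v a b) with ht
  set n := nb k L v with hn
  have h1 : q * t ≤ Y := hd2.trans hd
  have h2 : 4 * (q * t * Z) ≤ 4 ^ n * q ^ 2 :=
    (Nat.mul_le_mul_left 4 (Nat.mul_le_mul_right Z h1)).trans hX
  have h3 : 4 * (t * Z) ≤ 4 ^ n * q := by
    refine Nat.le_of_mul_le_mul_right (a := 4 * (t * Z)) ?_ hq
    calc 4 * (t * Z) * q = 4 * (q * t * Z) := by ring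
      _ ≤ 4 ^ n * q ^ 2 := h2
      _ = 4 ^ n * q * q := by ring
  have h4 : 2 * (2 ^ n * Z) ≤ 4 ^ n * q := by
    calc 2 * (2 ^ n * Z) ≤ 2 * (2 * t * Z) :=
          Nat.mul_le_mul_left 2 (Nat.mul_le_mul_right Z hnb)
      _ = 4 * (t * Z) := by ring
      _ ≤ 4 ^ n * q := h3
  have h5 : (4 : ℕ) ^ n = 2 ^ n * 2 ^ n := by
    rw [← mul_pow]
    norm_num
  rw [h5] at h4
  refine Nat.le_of_mul_le_mul_right (a := 2 * Z) ?_ (Nat.two_pow_pos n)
  calc 2 * Z * 2 ^ n = 2 * (2 ^ n * Z) := by ring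
    _ ≤ 2 ^ n * 2 ^ n * q := h4
    _ = 2 ^ n * q * 2 ^ n := by ring

end H30ZO
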