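import Pool.Agent.H30.ZO.Us
import Pool.Agent.H36.MT.As3
import Pool.Agent.H36.O2.Df

/-!
The uniform local-global principle, second form: the auxiliary primes are harmless if their decomposition
groups have order at most two (project MP_78d38b_ZO, no row; assembly).
-/

set_option autoImplicit false
set_option linter.unusedSectionVars false
open scoped Classical

open WithZero NumberField IsDedekindDomain H38RT H76PP H36MT H36CY

namespace H30ZO

/-- The auxiliary prime `v` is harmless for `(a, b)`. -/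
def Harm (K : Type) [Field K] [NumberField K] (v : HeightOneSpectrum (𝓞 K)) (a b : K) : Prop :=
  ∀ (N : Type) [Field N] [NumberField N] [Algebra K N], IsGalois K N →
    (∃ r : ℕ, Module.finrank K N = 2 ^ r) →
    (∀ V : HeightOneSpectrum (𝓞 N), dn K V = v → ¬ H73P2.Ram K V) → H36O2.Dec2 N v →
    DescAt K N v a b

/-- The uniform local-global principle: `S` and `Q` contain the exceptional primes. -/
structure HasQ (K : Type) [Field K] [NumberField K] (S Q : Finset (HeightOneSpectrum (𝓞 K)))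
    (p : 𝓞 K × 𝓞 K) : Prop where
  ne : 4 * p.1 ^ 3 + 27 * p.2 ^ 2 ≠ 0
  irr : ∀ t : K, t ^ 3 + (p.1 : K) * t + (p.2 : K) ≠ 0
  base : Tv K (p.1 : K) (p.2 : K)
  main : ∀ (F : Type) [Field F] [Algebra K F], IsGalois K F →
    (∀ (N : IntermediateField K F) [NumberField N], IsGalois K N →
      ∃ r : ℕ, Module.finrank K N = 2 ^ r) →
    (∀ v : HeightOneSpectrum (𝓞 K), (v ∈ S ∨ v ∈ Q ∨ RamF K F v) →
      (¬ ∃ ι : F →+* v.adicCompletion K, ∀ x : K,
        ι (algebraMap K F x) = algebraMap K (v.adicCompletion K) x) →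
      (v ∉ S → v ∉ Q → ∃ t : 𝓞 K, t ^ 3 + p.1 * t + p.2 ∈ v.asIdeal) →
      ¬ (v ∈ Q ∧ ¬ RamF K F v ∧
        ∀ (N : IntermediateField K F) [NumberField N], IsGalois K N → H36O2.Dec2 N v) →
      LocF K F v (p.1 : K) (p.2 : K)) →
    RealN K F (p.1 : K) (p.2 : K) → PF K F p

/-- The uniform local-global principle for a curve with trivial relaxed Selmer groups. -/
theorem hasQ_of_rel {K : Type} [Field K] [NumberField K] {S Q P : Finset (HeightOneSpectrum (𝓞 K))}
    (hP : ∀ v ∈ P, v ∈ S ∨ v ∈ Q) (hQS : ∀ v ∈ Q, v ∉ S)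
    {p : 𝓞 K × 𝓞 K} (hrel : ∀ P' : Finset (HeightOneSpectrum (𝓞 K)), P ⊆ P' → RelG K P' p.1 p.2)
    (hharm : ∀ v ∈ P, v ∉ S → Harm K v (p.1 : K) (p.2 : K)) :
    HasQ K S Q p := by
  have hasP := hasP_of_rel hrel
  refine ⟨hasP.ne, hasP.irr, hasP.base, ?_⟩
  intro F _ _ hgal hdeg hloc hreal
  refine hasP.main F hgal hdeg ?_ hreal
  intro v hv hs hr
  by_cases hex : v ∈ Q ∧ ¬ RamF K F v ∧
        ∀ (N : IntermediateField K F) [NumberField N], IsGalois K N → H36O2.Dec2 N v
  · obtain ⟨h1, h2, h3⟩ := hex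
    rcases hv with h4 | h4
    · intro N _ hN
      exact hharm v h4 (hQS v h1) N hN (hdeg N hN) (fun V hV hR => h2 ⟨N, inferInstance, V, hV, hR⟩)
        (h3 N hN)
    · exact absurd h4 h2
  · refine hloc v ?_ hs ?_ hex
    · rcases hv with h4 | h4
      · rcases hP v h4 with h5 | h5
        · exact Or.inl h5
        · exact Or.inr (Or.inl h5)
      · exact Or.inr (Or.inr h4)
    · intro h5 h6
      refine hr fun h7 => ?_
      exact (hP v h7).elim h5 h6

end H30ZO
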