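import Pool.Agent.H73.P2.Ev
import Pool.Agent.H73.P2.Lb
import Pool.Agent.H73.P2.Ua
import Pool.Agent.H36.CY.Vl
import Pool.Agent.H24.TD.Dg
import Pool.Agent.H24.PD.Lf

/-!
Definitions for the project MP_78d38b_ZO (zero-one law; no row): the local conditions of the two-Selmer
group as subgroups of the square classes of the cubic field.
-/

set_option autoImplicit false
set_option linter.unusedSectionVars false
open scoped Classical

open WithZero NumberField IsDedekindDomain H38RT
open H38T1 (SC sc scu rep eo la si Pri OddP tp unif)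
open H76PP

namespace H30ZO

section Classes

variable (k L : Type) [Field k] [NumberField k] [Field L] [NumberField L] [Algebra k L]

/-- The square classes of square norm. -/
noncomputable def HH : AddSubgroup (SC L) := (scm (Algebra.norm k : L →* k)).ker

variable {L} in
/-- The square classes of the squares in the completion. -/
noncomputable def Sq (w : HeightOneSpectrum (𝓞 L)) : AddSubgroup (SC L) :=
  (scm (algebraMap L (w.adicCompletion L) : L →* w.adicCompletion L)).ker

/-- The square classes of the elements which are squares at all the places above `v`. -/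
noncomputable def Sqv (v : HeightOneSpectrum (𝓞 k)) : AddSubgroup (SC L) :=
  ⨅ (w : HeightOneSpectrum (𝓞 L)) (_ : dn k w = v), Sq w

variable {k} in
/-- The order of two. -/
noncomputable def e2 (v : HeightOneSpectrum (𝓞 k)) : ℕ := (ord (v.valuation k) 2).toNat

variable {k} in
/-- The number of elements of the integers of the completion modulo two. -/
noncomputable def qq (v : HeightOneSpectrum (𝓞 k)) : ℕ := Nv v ^ e2 v

/-- The number of places above `v`. -/
noncomputable def nb (v : HeightOneSpectrum (𝓞 k)) : ℕ :=
  {w : HeightOneSpectrum (𝓞 L) | dn k w = v}.ncard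

/-- The number of real embeddings above `s`. -/
noncomputable def nr (s : k →+* ℝ) : ℕ := Nat.card {t : L →+* ℝ // t.comp (algebraMap k L) = s}

end Classes

/-- The class `c` satisfies the local condition for `i`. -/
def Wc {k L F : Type} [Field k] [Field L] [Algebra k L] [Field F] (i : k →+* F) (a b : k) (θ : L)
    (c : SC L) : Prop :=
  ∃ d : Fin 3 → k, ev θ d ≠ 0 ∧ sc (ev θ d) = c ∧ LC i a b d

/-- The points over the completion. -/
abbrev Pt {k : Type} [Field k] [NumberField k] (v : HeightOneSpectrum (𝓞 k)) (a b : k) : Type :=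
  (⟨0, 0, 0, algebraMap k (v.adicCompletion k) a, algebraMap k (v.adicCompletion k) b⟩ :
    WeierstrassCurve (v.adicCompletion k)).toAffine.Point

/-- The points divisible by two. -/
noncomputable def D2 {k : Type} [Field k] [NumberField k] (v : HeightOneSpectrum (𝓞 k)) (a b : k) :
    AddSubgroup (Pt v a b) := (zsmulAddGroupHom (α := Pt v a b) (2 : ℤ)).range

/-- The points killed by two. -/
noncomputable def T2 {k : Type} [Field k] [NumberField k] (v : HeightOneSpectrum (𝓞 k)) (a b : k) :
    AddSubgroup (Pt v a b) := (zsmulAddGroupHom (α := Pt v a b) (2 : ℤ)).ker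

section Lemmas

variable {k L : Type} [Field k] [NumberField k] [Field L] [NumberField L] [Algebra k L]

theorem mem_HH {x : L} (hx : x ≠ 0) : sc x ∈ HH k L ↔ IsSquare (Algebra.norm k x) := by
  have _ : FiniteDimensional k L := Module.Finite.of_restrictScalars_finite ℚ k L
  rw [HH, AddMonoidHom.mem_ker, scm_sc _ hx, H38T1.sc_eq_zero]
  exact Algebra.norm_ne_zero_iff.2 hx

theorem mem_Sq {w : HeightOneSpectrum (𝓞 L)} {x : L} (hx : x ≠ 0) :
    sc x ∈ Sq w ↔ IsSquare (algebraMap L (w.adicCompletion L) x) := by
  rw [Sq, AddMonoidHom.mem_ker, scm_sc _ hx, H38T1.sc_eq_zero]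
  · rfl
  · exact (map_ne_zero (algebraMap L (w.adicCompletion L))).2 hx

theorem mem_Sqv {v : HeightOneSpectrum (𝓞 k)} {c : SC L} :
    c ∈ Sqv k L v ↔ ∀ w : HeightOneSpectrum (𝓞 L), dn k w = v → c ∈ Sq w := by
  simp only [Sqv, AddSubgroup.mem_iInf]

theorem val_nat (V : Valuation k (WithZero (Multiplicative ℤ))) (n : ℕ) : V (n : k) ≤ 1 := by
  induction n with
  | zero => rw [Nat.cast_zero, map_zero]; exact zero_le
  | succ n ih =>
    rw [Nat.cast_succ]
    exact V.map_add_le ih (le_of_eq (map_one V))

theorem e2_spec (v : HeightOneSpectrum (𝓞 k)) : v.valuation k 2 = exp (-(e2 v : ℤ)) := by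
  have h0 : v.valuation k 2 ≠ 0 := (Valuation.ne_zero_iff _).2 two_ne_zero
  have h1 : v.valuation k 2 ≤ 1 := by
    have := val_nat (v.valuation k) 2
    rwa [Nat.cast_ofNat] at this
  have h2 : 0 ≤ ord (v.valuation k) 2 := by
    unfold ord
    have h3 := (log_le_log h0 one_ne_zero).2 h1
    rw [log_one] at h3
    omega
  rw [e2, Int.toNat_of_nonneg h2, ord, neg_neg, exp_log h0]

theorem qq_odd {v : HeightOneSpectrum (𝓞 k)} (h : v.valuation k 2 = 1) : qq v = 1 := by
  have h1 := e2_spec v
  rw [h, ← exp_zero, exp_inj] at h1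
  have h2 : e2 v = 0 := by omega
  rw [qq, h2, pow_zero]

end Lemmas

end H30ZO
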