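import Pool.Agent.H88.T7.Un
import Pool.Agent.H76.PP.Tb
import Pool.Agent.H30.ZO.Df

/-!
ROW Ga (project MP_78d38b_ZO, about 130 lines): the number of classes of `S`-units of `L` of square norm.

PROOF. `SL := {w | dn k w ∈ S}` (finite: `fin_above`, a union over `S`; `SL.ncard = ∑ v ∈ S, nb k L v`, disjoint union of the fibres). `H88T7.card_US7` for `L, SL` and for `k, S`. Let `N := scm (Algebra.norm k : L →* k) : SC L →+ SC k`, `ι := scm (algebraMap k L)`. `N` maps `US L SL` to `US k S`: the norm of an element `x` with `w.valuation x = 1` for all `w ∉ SL` has `v.valuation (N x) = 1` for `v ∉ S`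
(`H76PP.ord_norm` in Pool/Agent/H76/PP/Tb.lean: all terms are zero). `ι` maps `US k S` to `US L SL` (`ord_dn`/`val_one` in Pool/Agent/H76/PP/Ta.lean). `N (ι e) = 3 e = e` (`finrank k L = 3` (`Cub.finrank`), `Algebra.norm_algebraMap`, `2 e = 0`). So `N : US L SL → US k S` is surjective and its kernel is `US L SL ⊓ HH k L` (`HH = N.ker`).
`Nat.card (US L SL) = Nat.card (kernel) * Nat.card (US k S)` (`AddSubgroup.card_eq_card_quotient_mul_card_addSubgroup`, `QuotientAddGroup.quotientKerEquivRange`, or relIndex lemmas).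
-/

set_option autoImplicit false
set_option linter.unusedSectionVars false
open scoped Classical

open WithZero NumberField IsDedekindDomain H38RT
open H38T1 (SC sc scu rep eo la si Pri OddP tp unif)
open H76PP

namespace H30ZO

variable {k L : Type} [Field k] [NumberField k] [Field L] [NumberField L] [Algebra k L]

private theorem Ga_norm {S : Finset (HeightOneSpectrum (𝓞 k))} {u : Additive Lˣ}
    (hu : u ∈ H24TD.SUa L {w : HeightOneSpectrum (𝓞 L) | dn k w ∈ S}) :
    (Additive.ofMul (Units.map (Algebra.norm k : L →* k) (Additive.toMul u)) : Additive kˣ) ∈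
      H24TD.SUa k (S : Set (HeightOneSpectrum (𝓞 k))) := by
  intro v hv
  have _ : FiniteDimensional k L := Module.Finite.of_restrictScalars_finite ℚ k L
  have hne : ((Additive.toMul u : Lˣ) : L) ≠ 0 := Units.ne_zero _
  have h1 := ord_norm (K := k) v hne
  have h2 : ∑ᶠ w : {w : HeightOneSpectrum (𝓞 L) // dn k w = v},
      (w.1.asIdeal.inertiaDeg (𝓞 k) : ℤ) * ord (w.1.valuation L) ((Additive.toMul u : Lˣ) : L) =
      0 := by
    rw [← finsum_zero (α := {w : HeightOneSpectrum (𝓞 L) // dn k w = v}) (M := ℤ)]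
    refine finsum_congr fun w => ?_
    have h3 : w.1.valuation L ((Additive.toMul u : Lˣ) : L) = 1 := by
      refine hu w.1 fun h4 => hv ?_
      have h5 : dn k w.1 ∈ S := h4
      rw [w.2] at h5
      exact h5
    rw [ord, h3, log_one, neg_zero, mul_zero]
  rw [h2] at h1
  change v.valuation k (Algebra.norm k ((Additive.toMul u : Lˣ) : L)) = 1
  have h6 : Algebra.norm k ((Additive.toMul u : Lˣ) : L) ≠ 0 := Algebra.norm_ne_zero_iff.2 hne
  have h7 : v.valuation k (Algebra.norm k ((Additive.toMul u : Lˣ) : L)) ≠ 0 :=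
    (Valuation.ne_zero_iff _).2 h6
  rw [ord] at h1
  rw [← exp_log h7, ← exp_zero, exp_inj]
  omega

private theorem Ga_alg {S : Finset (HeightOneSpectrum (𝓞 k))} {u : Additive kˣ}
    (hu : u ∈ H24TD.SUa k (S : Set (HeightOneSpectrum (𝓞 k)))) :
    (Additive.ofMul (Units.map (algebraMap k L : k →* L) (Additive.toMul u)) : Additive Lˣ) ∈
      H24TD.SUa L {w : HeightOneSpectrum (𝓞 L) | dn k w ∈ S} := by
  intro w hw
  change w.valuation L (algebraMap k L ((Additive.toMul u : kˣ) : k)) = 1
  exact val_one (hu (dn k w) fun h => hw h)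

private theorem Ga_map {a b : k} {θ : L} (h : Cub k L a b θ)
    (S : Finset (HeightOneSpectrum (𝓞 k))) :
    (H24TD.US L {w : HeightOneSpectrum (𝓞 L) | dn k w ∈ S}).map
      (scm (Algebra.norm k : L →* k)) = H24TD.US k (S : Set (HeightOneSpectrum (𝓞 k))) := by
  apply le_antisymm
  · rintro _ ⟨_, ⟨u, hu, rfl⟩, rfl⟩
    exact ⟨_, Ga_norm hu, (scm_scu _ u).symm⟩
  · rintro _ ⟨u, hu, rfl⟩
    refine ⟨_, ⟨_, Ga_alg hu, rfl⟩, ?_⟩
    have h1 : scm (Algebra.norm k : L →* k) (scu L (Additive.ofMul
        (Units.map (algebraMap k L : k →* L) (Additive.toMul u)))) =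
        scu k (Additive.ofMul (Units.map (Algebra.norm k : L →* k)
          (Units.map (algebraMap k L : k →* L) (Additive.toMul u)))) := scm_scu _ _
    refine h1.trans ?_
    have h2 : (Additive.ofMul (Units.map (Algebra.norm k : L →* k)
        (Units.map (algebraMap k L : k →* L) (Additive.toMul u))) : Additive kˣ) = 2 • u + u := by
      apply Additive.toMul.injective
      apply Units.ext
      change Algebra.norm k (algebraMap k L ((Additive.toMul u : kˣ) : k)) =
        (((Additive.toMul u) ^ 2 * Additive.toMul u : kˣ) : k)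
      rw [Algebra.norm_algebraMap, h.finrank, Units.val_mul, Units.val_pow_eq_pow_val]
      ring
    rw [h2, map_add, map_nsmul, H38T1.SC.two_smul, zero_add]

private theorem Ga_fin (S : Finset (HeightOneSpectrum (𝓞 k))) :
    {w : HeightOneSpectrum (𝓞 L) | dn k w ∈ S}.Finite := by
  have h1 : {w : HeightOneSpectrum (𝓞 L) | dn k w ∈ S} =
      ⋃ v ∈ S, {w : HeightOneSpectrum (𝓞 L) | dn k w = v} := by
    ext w
    rw [Set.mem_iUnion₂]
    constructor
    · intro hw
      exact ⟨dn k w, hw, rfl⟩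
    · rintro ⟨v, hv, hw⟩
      have hw' : dn k w = v := hw
      change dn k w ∈ S
      rw [hw']
      exact hv
  rw [h1]
  exact S.finite_toSet.biUnion fun v _ => fin_above v

private theorem Ga_card (S : Finset (HeightOneSpectrum (𝓞 k))) :
    {w : HeightOneSpectrum (𝓞 L) | dn k w ∈ S}.ncard = ∑ v ∈ S, nb k L v := by
  rw [Set.ncard_eq_toFinset_card _ (Ga_fin S),
    Finset.card_eq_sum_card_fiberwise (f := dn k) (t := S) (by
      intro w hw
      have h1 : w ∈ (Ga_fin (L := L) S).toFinset := hw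
      rw [Set.Finite.mem_toFinset] at h1
      exact h1)]
  refine Finset.sum_congr rfl fun v hv => ?_
  rw [nb, ← Set.ncard_coe_finset]
  congr 1
  ext w
  rw [Finset.mem_coe, Finset.mem_filter, Set.Finite.mem_toFinset]
  constructor
  · intro h
    exact h.2
  · intro h
    have h' : dn k w = v := h
    refine ⟨?_, h'⟩
    change dn k w ∈ S
    rw [h']
    exact hv

theorem card_X {a b : k} {θ : L} (h : Cub k L a b θ) (S : Finset (HeightOneSpectrum (𝓞 k))) :
    Nat.card ↥(H24TD.US L {w : HeightOneSpectrum (𝓞 L) | dn k w ∈ S} ⊓ HH k L) *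
        2 ^ (S.card + (InfinitePlace.nrRealPlaces k + InfinitePlace.nrComplexPlaces k)) =
      2 ^ ((∑ v ∈ S, nb k L v) +
        (InfinitePlace.nrRealPlaces L + InfinitePlace.nrComplexPlaces L)) := by
  obtain ⟨A, hA⟩ : ∃ A, A = H24TD.US L {w : HeightOneSpectrum (𝓞 L) | dn k w ∈ S} := ⟨_, rfl⟩
  have h1 : Nat.card A = 2 ^ ((∑ v ∈ S, nb k L v) +
      (InfinitePlace.nrRealPlaces L + InfinitePlace.nrComplexPlaces L)) := by
    rw [hA, H88T7.card_US7 (Ga_fin S), Ga_card]
  have h2 : Nat.card (H24TD.US k (S : Set (HeightOneSpectrum (𝓞 k)))) = 2 ^ (S.card +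
      (InfinitePlace.nrRealPlaces k + InfinitePlace.nrComplexPlaces k)) := by
    rw [H88T7.card_US7 S.finite_toSet, Set.ncard_coe_finset]
  have h3 : (HH k L).relIndex A = Nat.card (H24TD.US k (S : Set (HeightOneSpectrum (𝓞 k)))) := by
    rw [HH, AddSubgroup.relIndex_ker, hA, Ga_map h]
  have h4 : (⊥ : AddSubgroup (SC L)).relIndex (A ⊓ HH k L) * (A ⊓ HH k L).relIndex A =
      (⊥ : AddSubgroup (SC L)).relIndex A :=
    AddSubgroup.relIndex_mul_relIndex _ _ _ bot_le inf_le_left
  rw [AddSubgroup.relIndex_bot_left, AddSubgroup.relIndex_bot_left, AddSubgroup.inf_relIndex_left,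
    h3, h2, h1] at h4
  rw [← hA]
  exact h4

end H30ZO
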