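import Pool.Agent.H30.ZO.Ec

/-!
ROW Gb (project MP_78d38b_ZO, about 100 lines): the number of infinite places. Use only the STATEMENT of Ec.

PROOF. `n := finrank ℚ k`, `finrank ℚ L = 3 n` (`Cub.finrank`, tower). `InfinitePlace.card_add_two_mul_card_eq_rank`: `r₁ + 2 r₂ = n` for `k`, `R₁ + 2 R₂ = 3 n` for `L`. `r₁ = Nat.card (k →+* ℝ)` and `R₁ = Nat.card (L →+* ℝ)`: the real places correspond to the real embeddings (`InfinitePlace.mkReal`-like equivalence `{φ : K →+* ℂ // IsReal φ} ≃ real places`, and real embeddings into `ℂ` correspond to ring homomorphisms to `ℝ`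
(`ComplexEmbedding.IsReal.embedding`, composition with `Complex.ofRealHom`); grep `nrRealPlaces` in Pool/Agent/H88, Pool/Agent/H24, Pool/Agent/H38 for this step, e.g. the number of `s : K →+* ℝ`). `R₁ = ∑_s nr k L s` (fibres of `t ↦ t.comp (algebraMap k L)`) `= r₁ + 2 t₀` with `t₀ := #{s | nr k L s = 3}` by nr_cases.
So `2 (R₁ + R₂) = R₁ + 3 n = r₁ + 2 t₀ + 3 n` and `2 (r₁ + r₂) = r₁ + n`; hence `R₁ + R₂ = r₁ + r₂ + n + t₀`.
-/

set_option autoImplicit false
set_option linter.unusedSectionVars false
open scoped Classical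

open WithZero NumberField IsDedekindDomain H38RT
open H38T1 (SC sc scu rep eo la si Pri OddP tp unif)
open H76PP

namespace H30ZO

variable {k L : Type} [Field k] [NumberField k] [Field L] [NumberField L] [Algebra k L]

/-- Real embeddings and self-conjugate complex embeddings. -/
noncomputable def Gb_E (K : Type) [Field K] [NumberField K] :
    (K →+* ℝ) ≃ {φ : K →+* ℂ // ComplexEmbedding.IsReal φ} where
  toFun w := ⟨Complex.ofRealHom.comp w, by
    rw [ComplexEmbedding.isReal_iff]
    ext x
    simp⟩
  invFun φ := φ.2.embedding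
  left_inv w := by
    ext x
    rfl
  right_inv φ := by
    apply Subtype.ext
    ext x
    exact φ.2.coe_embedding_apply x

theorem Gb_fin (K : Type) [Field K] [NumberField K] : Finite (K →+* ℝ) :=
  Finite.of_equiv _ (Gb_E K).symm

theorem Gb_card (K : Type) [Field K] [NumberField K] :
    Nat.card (K →+* ℝ) = InfinitePlace.nrRealPlaces K := by
  rw [Nat.card_congr (Gb_E K), Nat.card_eq_fintype_card]
  exact InfinitePlace.card_real_embeddings K

theorem places_count {a b : k} {θ : L} (h : Cub k L a b θ) (hD : 4 * a ^ 3 + 27 * b ^ 2 ≠ 0) :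
    InfinitePlace.nrRealPlaces L + InfinitePlace.nrComplexPlaces L =
      InfinitePlace.nrRealPlaces k + InfinitePlace.nrComplexPlaces k + Module.finrank ℚ k +
        Nat.card {s : k →+* ℝ // nr k L s = 3} := by
  haveI := Gb_fin k
  haveI := Gb_fin L
  haveI : Fintype (k →+* ℝ) := Fintype.ofFinite _
  have h1 : Nat.card (L →+* ℝ) = ∑ s : k →+* ℝ, nr k L s := by
    rw [← Nat.card_congr (Equiv.sigmaFiberEquiv (fun t : L →+* ℝ => t.comp (algebraMap k L))),
      Nat.card_sigma]
    rfl
  have h2 : ∑ s : k →+* ℝ, nr k L s =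
      Nat.card (k →+* ℝ) + 2 * Nat.card {s : k →+* ℝ // nr k L s = 3} := by
    have h3 : ∀ s : k →+* ℝ, nr k L s = 1 + if nr k L s = 3 then 2 else 0 := by
      intro s
      rcases nr_cases h hD s with h4 | h4
      · rw [h4]
        simp
      · rw [h4]
        simp
    rw [Finset.sum_congr rfl (fun s _ => h3 s), Finset.sum_add_distrib, ← Finset.sum_filter,
      Finset.sum_const, Finset.sum_const, smul_eq_mul, smul_eq_mul, mul_one, Finset.card_univ,
      Nat.card_eq_fintype_card, Nat.card_eq_fintype_card, Fintype.card_subtype, mul_comm 2]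
  have h5 := InfinitePlace.card_add_two_mul_card_eq_rank k
  have h6 := InfinitePlace.card_add_two_mul_card_eq_rank L
  have h7 : Module.finrank ℚ L = Module.finrank ℚ k * 3 := by
    rw [← h.finrank]
    exact (Module.finrank_mul_finrank ℚ k L).symm
  rw [h2, Gb_card, Gb_card] at h1
  omega

end H30ZO
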