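import Pool.Agent.H30.ZO.Df

/-!
ROW Gc (project MP_78d38b_ZO, about 90 lines): the product of the local numbers at two.

PROOF. `qq v = Nv v ^ e2 v`, `e2 v` is the order of two at `v` (`e2_spec`), `qq v = 1` for the `v` with `v.valuation 2 = 1` (`qq_odd`). The ideal `(2)` of `𝓞 k` is the product of the `v.asIdeal ^ e2 v` (`Ideal.finprod_heightOneSpectrum_factorization` or `FractionalIdeal.finprod_heightOneSpectrum_factorization`; `intValuation`, `Associates.count`), its absolute norm is
`|N(2)| = 2 ^ finrank ℚ k` (`Ideal.absNorm_span_singleton`, `Algebra.norm_algebraMap` over `ℤ`, `RingOfIntegers.rank`). Multiplicativity of `Ideal.absNorm` over the finite product over `S` (the factors outside `S` are one by `h2`). The pool has this kind of product: grep `finprod_heightOneSpectrum` in Pool/Agent/H76, Pool/Agent/H24, Pool/Agent/H88.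
ALTERNATIVE: induction-free: `ord_norm` over `ℚ` is not needed.
-/

set_option autoImplicit false
set_option linter.unusedSectionVars false
open scoped Classical

open WithZero NumberField IsDedekindDomain H38RT
open H38T1 (SC sc scu rep eo la si Pri OddP tp unif)
open H76PP

namespace H30ZO

theorem prod_two {k : Type} [Field k] [NumberField k] (S : Finset (HeightOneSpectrum (𝓞 k)))
    (h2 : ∀ v : HeightOneSpectrum (𝓞 k), v.valuation k 2 < 1 → v ∈ S) :
    ∏ v ∈ S, qq v = 2 ^ Module.finrank ℚ k := by
  have h20 : (2 : 𝓞 k) ≠ 0 := two_ne_zero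
  have hI : (Ideal.span {(2 : 𝓞 k)}) ≠ 0 := by
    rw [Ideal.zero_eq_bot, Ne, Ideal.span_singleton_eq_bot]
    exact h20
  -- the exponents
  have hexp : ∀ v : HeightOneSpectrum (𝓞 k),
      (Associates.mk v.asIdeal).count (Associates.mk (Ideal.span {(2 : 𝓞 k)})).factors = e2 v := by
    intro v
    have h3 := v.intValuation_if_neg h20
    have h33 : algebraMap (𝓞 k) k 2 = 2 := map_ofNat _ 2
    rw [← v.valuation_of_algebraMap (K := k)] at h3
    change v.valuation k (algebraMap (𝓞 k) k 2) = _ at h3
    rw [h33, e2_spec v, exp_inj] at h3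
    omega
  have hone : ∀ v : HeightOneSpectrum (𝓞 k), v ∉ S → e2 v = 0 := by
    intro v hv
    have h1 : v.valuation k 2 ≤ 1 := by
      have := val_nat (v.valuation k) 2
      rwa [Nat.cast_ofNat] at this
    have h3 : v.valuation k 2 = 1 := le_antisymm h1 (not_lt.1 fun h => hv (h2 v h))
    have h4 := e2_spec v
    rw [h3, ← exp_zero, exp_inj] at h4
    omega
  have hfac := Ideal.finprod_heightOneSpectrum_factorization hI
  have hfac2 : ∏ v ∈ S, v.asIdeal ^ e2 v = Ideal.span {(2 : 𝓞 k)} := by
    rw [← hfac]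
    rw [finprod_eq_prod_of_mulSupport_subset (s := S)]
    · refine Finset.prod_congr rfl fun v _ => ?_
      rw [HeightOneSpectrum.maxPowDividing, hexp v]
    · intro v hv
      rw [Function.mem_mulSupport] at hv
      by_contra hvS
      apply hv
      rw [HeightOneSpectrum.maxPowDividing, hexp v, hone v hvS, pow_zero]
  have hN : ∏ v ∈ S, qq v = Ideal.absNorm (∏ v ∈ S, v.asIdeal ^ e2 v) := by
    rw [map_prod]
    refine Finset.prod_congr rfl fun v _ => ?_
    rw [map_pow]
    rfl
  rw [hN, hfac2, Ideal.absNorm_span_singleton]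
  have h5 : Algebra.norm ℤ (2 : 𝓞 k) = 2 ^ Module.finrank ℚ k := by
    have h6 := Algebra.norm_algebraMap (R := ℤ) (S := 𝓞 k) 2
    rw [map_ofNat, RingOfIntegers.rank] at h6
    exact h6
  rw [h5, Int.natAbs_pow]
  rfl

end H30ZO
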