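import Pool.Agent.H30.ZO.Aa
import Pool.Agent.H30.ZO.Ci
import Pool.Agent.H30.ZO.Cj
import Pool.Agent.H30.ZO.Ed
import Pool.Agent.H30.ZO.Ga
import Pool.Agent.H30.ZO.Gb
import Pool.Agent.H30.ZO.Gc
import Pool.Agent.H30.ZO.Na

/-!
ROW Nb (project MP_78d38b_ZO, about 200 lines): global classes with given local behaviour, if the two-Selmer group is trivial. Use only the
STATEMENTS of the imported rows.

PROOF. `S := T ∪ {v | v.valuation 2 < 1} ∪ {v | v.valuation (4 a^3 + 27 b^2) ≠ 1}` (finite: the set of `v` with `v.valuation x ≠ 1` is finite for `x ≠ 0`: `H38RT.fin_bad` or similar, used in Pool/Agent/H88/T7/Un.lean). For `v ∈ S` let `W_v` be the subgroup from exists_WW for `i = algebraMap k (v.adicCompletion k)` (`CharZero`: `H36CY.char_zero` in Pool/Agent/H36/CY/Ld.lean; `Infinite`: `H24PD.inf_fin`; discriminant not zero),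
for a real `s` let `W_s` be the one for `i = s` (`H24PD.inf_real`). `H := HH k L`, `X := US L {w | dn k w ∈ S} ⊓ H`. Index set `J := S ⊕ (k →+* ℝ)` (finite). Apply exists_lift (row Aa) with these `W`:
`hfin`: loc_idx, real_idx. `hXf`: `Nat.card X ≠ 0` by card_X (the right side is not zero), so `X` is finite (`Nat.finite_of_card_ne_zero`). `hprod`: let `Z_j := (W j).relIndex H`. `2 ^ S.card * ∏_{v ∈ S} Z_v = ∏ 2 Z_v ≤ ∏ 2 ^ nb v * qq v = 2 ^ (∑ nb v) * 2 ^ n` (loc_idx, prod_two; `n := finrank ℚ k`), and `Z_s ≤ 1` if `nr k L s = 1`, `Z_s ≤ 2` if `nr k L s = 3` (real_idx, nr_cases),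
so `∏_s Z_s ≤ 2 ^ t₀`, `t₀ := Nat.card {s // nr k L s = 3}`. card_X and places_count: `Nat.card X * 2 ^ (S.card + r) = 2 ^ (∑ nb v + r + n + t₀)`, `r := nrRealPlaces k + nrComplexPlaces k`; so `Nat.card X * 2 ^ S.card = 2 ^ (∑ nb v + n + t₀) ≥ 2 ^ S.card * ∏_j Z_j`. Cancel.
`htriv`: let `c ∈ X` be in all `W_j`; `c = sc x`, `x = ev θ d` (`H38T1.sc_surj`, `Cub.eq_co`). For `v ∉ S`: `c` has even order at all `w` above `v` (`c` is the class of an element with `w.valuation = 1`, `w ∉ SL`; `H38T1.eo_sc`), so `c` is in the local condition at `v` by good_W. So `LC` holds for `d` at all finite places and real embeddings (`Wc_iff`), `N x` is a square (`mem_HH`), and `hsel` gives that `x` is a square: `c = 0` (`H38T1.sc_eq_zero`).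
Take `h j := c₀` for the `v ∈ T` and `h j := 0` for all other `j`: `c ∈ X` with `c - c₀ ∈ W_v` for `v ∈ T`, `c ∈ W_j` for the others, and for `v ∉ S` again good_W. `c ∈ H`.
-/

set_option autoImplicit false
set_option linter.unusedSectionVars false
open scoped Classical

open WithZero NumberField IsDedekindDomain H38RT
open H38T1 (SC sc scu rep eo la si Pri OddP tp unif)
open H76PP

namespace H30ZO

variable {k L : Type} [Field k] [NumberField k] [Field L] [NumberField L] [Algebra k L]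

theorem exists_class (hos : H73P2.OrdSub) {a b : k} {θ : L} (h : Cub k L a b θ)
    (ha : ∀ v : HeightOneSpectrum (𝓞 k), v.valuation k a ≤ 1)
    (hb : ∀ v : HeightOneSpectrum (𝓞 k), v.valuation k b ≤ 1)
    (hD : 4 * a ^ 3 + 27 * b ^ 2 ≠ 0) (hsel : SelTriv k L a b θ)
    (T : Finset (HeightOneSpectrum (𝓞 k))) {c₀ : SC L} (hc₀ : c₀ ∈ HH k L) :
    ∃ c ∈ HH k L,
      (∀ v ∈ T, Wc (algebraMap k (v.adicCompletion k)) a b θ (c - c₀)) ∧
      (∀ v ∉ T, Wc (algebraMap k (v.adicCompletion k)) a b θ c) ∧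
      ∀ s : k →+* ℝ, Wc s a b θ c := by
  have h20 : (2 : k) ≠ 0 := two_ne_zero
  obtain ⟨S, hS⟩ : ∃ S : Finset (HeightOneSpectrum (𝓞 k)),
      S = T ∪ ((fin_bad h20).toFinset ∪ (fin_bad hD).toFinset) := ⟨_, rfl⟩
  have hTS : ∀ v ∈ T, v ∈ S := by
    intro v hv
    rw [hS]
    exact Finset.mem_union_left _ hv
  have hS2 : ∀ v, v ∉ S → v.valuation k 2 = 1 := by
    intro v hv
    by_contra h1
    apply hv
    rw [hS]
    exact Finset.mem_union_right _ (Finset.mem_union_left _ ((fin_bad h20).mem_toFinset.2 h1))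
  have hSD : ∀ v, v ∉ S → v.valuation k (4 * a ^ 3 + 27 * b ^ 2) = 1 := by
    intro v hv
    by_contra h1
    apply hv
    rw [hS]
    exact Finset.mem_union_right _ (Finset.mem_union_right _ ((fin_bad hD).mem_toFinset.2 h1))
  have hWv : ∀ v : HeightOneSpectrum (𝓞 k), ∃ W : AddSubgroup (SC L), ∀ c, c ∈ W ↔
      c ∈ HH k L ∧ Wc (algebraMap k (v.adicCompletion k)) a b θ c := by
    intro v
    have _ := H36CY.char_zero v
    refine exists_WW h _ ?_ (H24PD.inf_fin v _ _)
    intro e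
    apply hD
    apply (algebraMap k (v.adicCompletion k)).injective
    rw [map_zero, map_add, map_mul, map_mul, map_pow, map_pow, map_ofNat, map_ofNat]
    exact e
  choose Wf hWf using hWv
  have hWs : ∀ s : k →+* ℝ, ∃ W : AddSubgroup (SC L), ∀ c, c ∈ W ↔
      c ∈ HH k L ∧ Wc s a b θ c := by
    intro s
    refine exists_WW h s ?_ (H24PD.inf_real _ _)
    intro e
    apply hD
    apply s.injective
    rw [map_zero, map_add, map_mul, map_mul, map_pow, map_pow, map_ofNat, map_ofNat]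
    exact e
  choose Wr hWr using hWs
  -- the `S`-units of square norm
  obtain ⟨X, hX⟩ : ∃ X : AddSubgroup (SC L),
      X = H24TD.US L {w : HeightOneSpectrum (𝓞 L) | dn k w ∈ S} ⊓ HH k L := ⟨_, rfl⟩
  have hXH : X ≤ HH k L := by
    rw [hX]
    exact inf_le_right
  have hcX := card_X h S
  rw [← hX] at hcX
  have hX0 : Nat.card X ≠ 0 := by
    intro h0
    rw [h0, zero_mul] at hcX
    exact (pow_ne_zero _ two_ne_zero) hcX.symm
  have hXf : Finite X := Nat.finite_of_card_ne_zero hX0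
  -- even valuations outside `S`
  have hev : ∀ c ∈ X, ∀ v, v ∉ S → c ∈ Wf v := by
    intro c hc v hv
    have hcH := hXH hc
    refine good_W hos h v (ha v) (hb v) (hS2 v hv) (hSD v hv) (hWf v) hcH ?_
    intro w hw
    rw [hX] at hc
    obtain ⟨u, hu, rfl⟩ := (AddSubgroup.mem_inf.1 hc).1
    rw [H24TD.cls_eq, H38T1.eo_sc (Units.ne_zero _)]
    have h1 : w.valuation L ((Additive.toMul u : Lˣ) : L) = 1 := by
      refine hu w ?_
      intro h2
      apply hv
      rw [← hw]
      exact h2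
    rw [ord, h1, log_one, neg_zero, Int.cast_zero]
  -- the product of the indices
  obtain ⟨n, hn⟩ : ∃ n, n = Module.finrank ℚ k := ⟨_, rfl⟩
  obtain ⟨t, ht⟩ : ∃ t, t = Nat.card {s : k →+* ℝ // nr k L s = 3} := ⟨_, rfl⟩
  have hplc := places_count h hD
  rw [← hn, ← ht] at hplc
  have hfinI : ∀ v : HeightOneSpectrum (𝓞 k), (Wf v).relIndex (HH k L) ≠ 0 ∧
      2 * (Wf v).relIndex (HH k L) ≤ 2 ^ nb k L v * qq v :=
    fun v => loc_idx h v (ha v) (hb v) hD (hWf v)
  have hreI : ∀ s : k →+* ℝ, (Wr s).relIndex (HH k L) ≠ 0 ∧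
      2 * (Wr s).relIndex (HH k L) ≤ nr k L s + 1 :=
    fun s => real_idx h hD s (hWr s)
  have hP1 : 2 ^ S.card * ∏ v ∈ S, (Wf v).relIndex (HH k L) ≤ 2 ^ (∑ v ∈ S, nb k L v) * 2 ^ n := by
    have h1 : ∏ v ∈ S, (2 * (Wf v).relIndex (HH k L)) ≤ ∏ v ∈ S, (2 ^ nb k L v * qq v) :=
      Finset.prod_le_prod (fun v _ => Nat.zero_le _) (fun v _ => (hfinI v).2)
    rw [Finset.prod_mul_distrib, Finset.prod_mul_distrib, Finset.prod_const,
      Finset.prod_pow_eq_pow_sum, prod_two S (fun v hv => by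
        by_contra h2
        rw [hS2 v h2] at hv
        exact lt_irrefl _ hv), ← hn] at h1
    exact h1
  have hP2 : ∏ s : k →+* ℝ, (Wr s).relIndex (HH k L) ≤ 2 ^ t := by
    have h1 : ∏ s : k →+* ℝ, (Wr s).relIndex (HH k L) ≤
        ∏ s : k →+* ℝ, (if nr k L s = 3 then 2 else 1) := by
      refine Finset.prod_le_prod (fun s _ => Nat.zero_le _) (fun s _ => ?_)
      have h2 := (hreI s).2
      rcases nr_cases h hD s with h3 | h3
      · rw [h3] at h2
        rw [h3]
        simp only [OfNat.one_ne_ofNat, if_false]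
        omega
      · rw [h3] at h2
        rw [h3, if_pos rfl]
        omega
    refine h1.trans (le_of_eq ?_)
    rw [Finset.prod_ite, Finset.prod_const_one, mul_one, Finset.prod_const, ht,
      Nat.card_eq_fintype_card, Fintype.card_subtype]
  have hprod : (∏ v ∈ S, (Wf v).relIndex (HH k L)) * (∏ s : k →+* ℝ, (Wr s).relIndex (HH k L)) ≤
      Nat.card X := by
    have h1 : Nat.card X * 2 ^ S.card = 2 ^ (∑ v ∈ S, nb k L v) * 2 ^ n * 2 ^ t := by
      have h2 : Nat.card X * 2 ^ S.card *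
          2 ^ (InfinitePlace.nrRealPlaces k + InfinitePlace.nrComplexPlaces k) =
          2 ^ (∑ v ∈ S, nb k L v) * 2 ^ n * 2 ^ t *
          2 ^ (InfinitePlace.nrRealPlaces k + InfinitePlace.nrComplexPlaces k) := by
        rw [mul_assoc, ← pow_add, hcX, hplc, ← pow_add, ← pow_add, ← pow_add]
        congr 1
        omega
      exact Nat.eq_of_mul_eq_mul_right (pow_pos two_pos _) h2
    refine Nat.le_of_mul_le_mul_right (c := 2 ^ S.card) ?_ (pow_pos two_pos _)
    rw [h1]
    calc (∏ v ∈ S, (Wf v).relIndex (HH k L)) * (∏ s : k →+* ℝ, (Wr s).relIndex (HH k L)) *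
          2 ^ S.card
        = (2 ^ S.card * ∏ v ∈ S, (Wf v).relIndex (HH k L)) *
          ∏ s : k →+* ℝ, (Wr s).relIndex (HH k L) := by ring
      _ ≤ 2 ^ (∑ v ∈ S, nb k L v) * 2 ^ n * 2 ^ t := Nat.mul_le_mul hP1 hP2
  -- the classes satisfying all conditions are trivial
  have htriv : ∀ c ∈ X, (∀ v ∈ S, c ∈ Wf v) → (∀ s, c ∈ Wr s) → c = 0 := by
    intro c hc h1 h2
    have hall : ∀ v, c ∈ Wf v := by
      intro v
      by_cases hv : v ∈ S
      · exact h1 v hv
      · exact hev c hc v hv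
    obtain ⟨x, hx, rfl⟩ := H38T1.sc_surj c
    obtain ⟨d, hd⟩ : ∃ d : Fin 3 → k, d = fun j => h.co j x := ⟨_, rfl⟩
    have hdx : ev θ d = x := by
      rw [hd]
      exact (h.eq_co x).symm
    have hd0 : ev θ d ≠ 0 := by
      rw [hdx]
      exact hx
    rw [← hdx] at hall h2 ⊢
    rw [H38T1.sc_eq_zero hd0]
    refine hsel d hd0 ?_ ?_ ?_
    · rw [← mem_HH hd0, hdx]
      exact hXH hc
    · intro v
      exact (Wc_iff _ h hd0).1 ((hWf v _).1 (hall v)).2
    · intro s
      exact (Wc_iff _ h hd0).1 ((hWr s _).1 (h2 s)).2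
  -- the lifting
  obtain ⟨c, hc, hcj⟩ := exists_lift (G := SC L) (J := {v // v ∈ S} ⊕ (k →+* ℝ)) (HH k L) X hXH
    (Sum.elim (fun v => Wf v.1) Wr)
    (by
      rintro (v | s)
      · exact (hfinI v.1).1
      · exact (hreI s).1) hXf
    (by
      rw [Fintype.prod_sum_type]
      simp only [Sum.elim_inl, Sum.elim_inr]
      rw [Finset.prod_coe_sort S (fun v => (Wf v).relIndex (HH k L))]
      exact hprod)
    (fun c hc hj => htriv c hc (fun v hv => hj (Sum.inl ⟨v, hv⟩)) (fun s => hj (Sum.inr s)))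
    (Sum.elim (fun v => if v.1 ∈ T then c₀ else 0) (fun _ => 0))
    (by
      rintro (v | s)
      · show (if v.1 ∈ T then c₀ else 0) ∈ HH k L
        split_ifs
        · exact hc₀
        · exact (HH k L).zero_mem
      · exact (HH k L).zero_mem)
  refine ⟨c, hXH hc, ?_, ?_, ?_⟩
  · intro v hv
    have h1 : c - (if v ∈ T then c₀ else 0) ∈ Wf v := hcj (Sum.inl ⟨v, hTS v hv⟩)
    rw [if_pos hv] at h1
    exact ((hWf v _).1 h1).2
  · intro v hv
    by_cases hvS : v ∈ S
    · have h1 : c - (if v ∈ T then c₀ else 0) ∈ Wf v := hcj (Sum.inl ⟨v, hvS⟩)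
      rw [if_neg hv, sub_zero] at h1
      exact ((hWf v _).1 h1).2
    · exact ((hWf v _).1 (hev c hc v hvS)).2
  · intro s
    have h1 : c - 0 ∈ Wr s := hcj (Sum.inr s)
    rw [sub_zero] at h1
    exact ((hWr s _).1 h1).2

end H30ZO
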