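import Pool.Agent.H73.CY.Rc
import Pool.Agent.H30.ZO.Nb

/-!
ROW Nc (project MP_78d38b_ZO, about 180 lines): local descent in a quadratic extension from the triviality of the two Selmer groups. Use only the
STATEMENTS of Na, Nb.

PROOF. `c₀ := sc (ev θ d) ∈ HH k L` (`mem_HH`). exists_class for `T`: `c ∈ HH k L`, `c = sc (ev θ e)` (`H38T1.sc_surj`, `Cub.eq_co`, `e : Fin 3 → k`). For `v ∈ T`: `Wc (c - c₀)`, `c - c₀ = sc (ev θ (m3 a b e d))` (`2 c₀ = 0`, `sc_mul`, `Te_ev_mul`), so `LC` holds for `m3 a b e d` over `k_v` (`Wc_iff`).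
Claim: `ev θ e` is a square in `L`. Let `e' j := algebraMap k k' (e j)`. `ev θ' e' = algebraMap L L' (ev θ e) ≠ 0` (`QS.th`). It satisfies the hypotheses of `SelTriv k' L'`: the norm is a square: `N_{L'/k'} (ev θ' e') = Te_nf e' = algebraMap k k' (Te_nf e)` (`Te_norm`, `Te_nf_map`). Let `u'` be a place of `k'`, `u := dn k u'`, `ψ := (over_dn u').map : k_u → k'_{u'}` (`H73P2.over_dn`,
Pool/Agent/H73/P2/Ua.lean; `Pool.Agent.H10.Over.map_algebraMap`). `u ∉ T`: `LC` for `e` over `k_u` (`Wc_iff`) gives `LC` for `e'` over `k'_{u'}` (`H73CY.LC_map`, Pool/Agent/H73/CY/Lo.lean). `u ∈ T`: `LC` for `m3 a b e d` over `k_u`, so for its image over `k'_{u'}`; `hloc` gives `LC` for the image of `d`; `H73P2.LC_mul` (Pool/Agent/H73/P2/Lb.lean; `Infinite`: `H24PD.inf_fin`) gives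
`LC` for the image of `m3 (m3 e d) d = m3 e (d^2)`, and by `Wc_iff` over `k'` (same class: the element is `ev θ' e'` times the square of `ev θ' d'`) `LC` for `e'`. Real `s' : k' →+* ℝ`: `s := s'.comp (algebraMap k k')`, `LC s` for `e` gives `LC s'` for `e'` (`LC_map` with `φ = RingHom.id`). So `ev θ' e' = algebraMap L L' (ev θ e)` is a square in `L'` by `hsel'`. The square norm and
`[k' : k] = 2` give that `ev θ e` is a square in `L`: `H73P2` has this step (file Pool/Agent/H73/P2/Qs.lean or Rl.lean; `k' = k(ρ)`, `ρ^2 = D`: `ev θ e = t^2` or `D t^2` with `t ∈ L`; in the second case the norm is `D^3 N(t)^2`, so `D` would be a square in `k`). So `c = 0` and for `v ∈ T`: `Wc (0 - c₀)`, `-c₀ = c₀`, `LC` for `d` (`Wc_iff`).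
-/

set_option autoImplicit false
set_option linter.unusedSectionVars false
open scoped Classical

open WithZero NumberField IsDedekindDomain H38RT
open H38T1 (SC sc scu rep eo la si Pri OddP tp unif)
open H76PP H73P2

namespace H30ZO

theorem Nc_two {L : Type} [Field L] (c : SC L) : c + c = 0 :=
  (two_nsmul c).symm.trans (H38T1.SC.two_smul c)

theorem Nc_comp {k k' F : Type} [Field k] [Field k'] [Field F] [Algebra k k'] (j : k' →+* F)
    {a b : k} {d : Fin 3 → k} (h : LC (j.comp (algebraMap k k')) a b d) :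
    LC j (algebraMap k k' a) (algebraMap k k' b) (fun i => algebraMap k k' (d i)) := by
  unfold LC at h ⊢
  simp only [RingHom.comp_apply] at h
  exact h

theorem Nc_square {k L k' L' : Type} [Field k] [NumberField k] [Field L]
    [NumberField L] [Field k'] [NumberField k'] [Field L'] [NumberField L'] [Algebra k L]
    [Algebra k k'] [Algebra L L'] [Algebra k' L'] [Algebra k L'] [IsScalarTower k L L']
    [IsScalarTower k k' L'] {a b : k} {θ : L} {θ' : L'} (hQ : QS k L k' L' a b θ θ')
    {y : L} (hy : y ≠ 0) (hn : IsSquare (Algebra.norm k y)) (h : IsSquare (algebraMap L L' y)) :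
    IsSquare y := by
  obtain ⟨D, δ, hδ, hδk⟩ := exists_gen0 hQ.two
  have hodd : Odd (Module.finrank k L) := by
    rw [hQ.cub.finrank]
    exact ⟨1, rfl⟩
  have hfin : FiniteDimensional k L :=
    Module.finite_of_finrank_pos (by rw [hQ.cub.finrank]; norm_num)
  have hδL := Pool.Agent.H10.Q.notMem_up (L := L) (L2 := L') hodd hδ hδk
  have hD2 : (algebraMap k' L' δ) ^ 2 = algebraMap L L' (algebraMap k L D) := by
    rw [← map_pow, hδ, ← IsScalarTower.algebraMap_apply k L L',
      ← IsScalarTower.algebraMap_apply k k' L']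
  rcases Pool.Agent.H10.Q.sq_of_sq hQ.fin2 hD2 hδL two_ne_zero h with h1 | h1
  · exact h1
  · exfalso
    obtain ⟨c, hc⟩ := h1
    obtain ⟨m, hm⟩ := hn
    have hny : Algebra.norm k y ≠ 0 := Algebra.norm_ne_zero_iff.2 hy
    have hm0 : m ≠ 0 := by
      rintro rfl
      rw [mul_zero] at hm
      exact hny hm
    have hD0 : D ≠ 0 := by
      rintro rfl
      rw [map_zero] at hδ
      exact hδk 0 (by rw [map_zero]; exact (pow_eq_zero_iff two_ne_zero |>.mp hδ).symm)
    have h2 := congrArg (Algebra.norm k) hc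
    rw [map_mul, map_mul, Algebra.norm_algebraMap, hQ.cub.finrank, hm] at h2
    have h3 : (Algebra.norm k c / (m * D)) ^ 2 = D := by
      rw [div_pow, div_eq_iff (pow_ne_zero 2 (mul_ne_zero hm0 hD0))]
      linear_combination -h2
    have h4 : (algebraMap k k' (Algebra.norm k c / (m * D))) ^ 2 = δ ^ 2 := by
      rw [← map_pow, h3, hδ]
    rcases sq_eq_sq_iff_eq_or_eq_neg.mp h4 with h5 | h5
    · exact hδk _ h5
    · exact hδk (-(Algebra.norm k c / (m * D))) (by rw [map_neg, h5, neg_neg])

theorem desc_quad (hos : H73P2.OrdSub) {k L k' L' : Type} [Field k] [NumberField k] [Field L]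
    [NumberField L] [Field k'] [NumberField k'] [Field L'] [NumberField L'] [Algebra k L]
    [Algebra k k'] [Algebra L L'] [Algebra k' L'] [Algebra k L'] [IsScalarTower k L L']
    [IsScalarTower k k' L'] {a b : k} {θ : L} {θ' : L'} (hQ : QS k L k' L' a b θ θ')
    (ha : ∀ v : HeightOneSpectrum (𝓞 k), v.valuation k a ≤ 1)
    (hb : ∀ v : HeightOneSpectrum (𝓞 k), v.valuation k b ≤ 1)
    (hD : 4 * a ^ 3 + 27 * b ^ 2 ≠ 0) (hsel : SelTriv k L a b θ)
    (hsel' : SelTriv k' L' (algebraMap k k' a) (algebraMap k k' b) θ')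
    (T : Finset (HeightOneSpectrum (𝓞 k))) {d : Fin 3 → k} (hd : ev θ d ≠ 0)
    (hn : IsSquare (Algebra.norm k (ev θ d)))
    (hloc : ∀ u' : HeightOneSpectrum (𝓞 k'), dn k u' ∈ T →
      LC (algebraMap k' (u'.adicCompletion k')) (algebraMap k k' a) (algebraMap k k' b)
        (fun i => algebraMap k k' (d i))) :
    ∀ v ∈ T, LC (algebraMap k (v.adicCompletion k)) a b d := by
  have hc₀ : sc (ev θ d) ∈ HH k L := (mem_HH hd).2 hn
  obtain ⟨c, hcH, hT, hnT, hre⟩ := exists_class hos hQ.cub ha hb hD hsel T hc₀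
  obtain ⟨x, hx0, hxc⟩ := H38T1.sc_surj c
  obtain ⟨e, hex⟩ : ∃ e : Fin 3 → k, ev θ e = x :=
    ⟨fun i => hQ.cub.co i x, (hQ.cub.eq_co x).symm⟩
  have he0 : ev θ e ≠ 0 := by
    rw [hex]
    exact hx0
  have hec : sc (ev θ e) = c := by
    rw [hex]
    exact hxc
  have hne : IsSquare (Algebra.norm k (ev θ e)) := (mem_HH he0).1 (by rw [hec]; exact hcH)
  have hed0 : ev θ (m3 a b e d) ≠ 0 := by
    rw [← Te_ev_mul hQ.cub]
    exact mul_ne_zero he0 hd
  have hprod : ∀ v ∈ T, LC (algebraMap k (v.adicCompletion k)) a b (m3 a b e d) := by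
    intro v hv
    have h1 := hT v hv
    have h2 : c - sc (ev θ d) = sc (ev θ (m3 a b e d)) := by
      rw [← Te_ev_mul hQ.cub, H38T1.sc_mul he0 hd, hec, sub_eq_iff_eq_add, add_assoc, Nc_two,
        add_zero]
    rw [h2] at h1
    exact (Wc_iff _ hQ.cub hed0).1 h1
  have hco : algebraMap L L' (ev θ e) = ev θ' (fun i => algebraMap k k' (e i)) := hQ.coord e
  have hcd : algebraMap L L' (ev θ d) = ev θ' (fun i => algebraMap k k' (d i)) := hQ.coord d
  have hced : algebraMap L L' (ev θ (m3 a b e d)) =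
      ev θ' (fun i => algebraMap k k' (m3 a b e d i)) := hQ.coord _
  have he'0 : ev θ' (fun i => algebraMap k k' (e i)) ≠ 0 := by
    rw [← hco]
    exact (map_ne_zero _).2 he0
  have hd'0 : ev θ' (fun i => algebraMap k k' (d i)) ≠ 0 := by
    rw [← hcd]
    exact (map_ne_zero _).2 hd
  have hed'0 : ev θ' (fun i => algebraMap k k' (m3 a b e d i)) ≠ 0 := by
    rw [← hced]
    exact (map_ne_zero _).2 hed0
  have hsq : IsSquare (ev θ' (fun i => algebraMap k k' (e i))) := by
    refine hsel' _ he'0 ?_ ?_ ?_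
    · rw [Te_norm hQ.cub', Te_nf_map, ← Te_norm hQ.cub]
      exact hne.map _
    · intro u'
      have hov := H36CY.over_dn (K := k) u'
      by_cases hu : dn k u' ∈ T
      · have h1 : LC (algebraMap k' (u'.adicCompletion k')) (algebraMap k k' a)
            (algebraMap k k' b) (fun i => algebraMap k k' (m3 a b e d i)) :=
          Nc_comp _ (H73CY.LC_map hov.map (fun x => hov.map_algebraMap x) (hprod _ hu))
        have h2 := hloc u' hu
        have hc : CharZero (u'.adicCompletion k') :=
          charZero_of_injective_algebraMap (algebraMap k' (u'.adicCompletion k')).injective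
        have hdisc : 4 * algebraMap k' (u'.adicCompletion k') (algebraMap k k' a) ^ 3 +
            27 * algebraMap k' (u'.adicCompletion k') (algebraMap k k' b) ^ 2 ≠ 0 := by
          have h3 := (map_ne_zero ((algebraMap k' (u'.adicCompletion k')).comp
            (algebraMap k k'))).2 hD
          simpa only [map_add, map_mul, map_pow, map_ofNat, RingHom.comp_apply] using h3
        have h3 := LC_mul (algebraMap k' (u'.adicCompletion k')) hdisc
          (H24PD.inf_fin u' _ _) h1 h2
        have hm : ev θ' (m3 (algebraMap k k' a) (algebraMap k k' b)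
            (fun i => algebraMap k k' (m3 a b e d i)) (fun i => algebraMap k k' (d i))) =
            ev θ' (fun i => algebraMap k k' (e i)) * ev θ' (fun i => algebraMap k k' (d i)) *
              ev θ' (fun i => algebraMap k k' (d i)) := by
          rw [← Te_ev_mul hQ.cub', ← hced, ← Te_ev_mul hQ.cub, map_mul, hco, hcd]
        have h4 := (Wc_iff (algebraMap k' (u'.adicCompletion k')) hQ.cub' (by
          rw [hm]
          exact mul_ne_zero (mul_ne_zero he'0 hd'0) hd'0)).2 h3
        rw [hm, H38T1.sc_mul (mul_ne_zero he'0 hd'0) hd'0, H38T1.sc_mul he'0 hd'0, add_assoc,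
          Nc_two, add_zero] at h4
        exact (Wc_iff _ hQ.cub' he'0).1 h4
      · have h1 := hnT _ hu
        rw [← hec] at h1
        exact Nc_comp _ (H73CY.LC_map hov.map (fun x => hov.map_algebraMap x)
          ((Wc_iff _ hQ.cub he0).1 h1))
    · intro s'
      have h1 := hre (s'.comp (algebraMap k k'))
      rw [← hec] at h1
      exact Nc_comp _ ((Wc_iff _ hQ.cub he0).1 h1)
  have hsqe : IsSquare (ev θ e) := Nc_square hQ he0 hne (by rw [hco]; exact hsq)
  have hc0 : c = 0 := by
    rw [← hec]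
    exact (H38T1.sc_eq_zero he0).2 hsqe
  intro v hv
  have h1 := hT v hv
  rw [hc0, zero_sub, neg_eq_of_add_eq_zero_left (Nc_two (sc (ev θ d)))] at h1
  exact (Wc_iff _ hQ.cub hd).1 h1

end H30ZO
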