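import Pool.Agent.H10.Sha

/-!
The property of the curve over a number field (project MP_78d38b_ZO, no row).
-/

set_option autoImplicit false
set_option linter.unusedSectionVars false
open scoped Classical

open NumberField WeierstrassCurve

namespace H30ZO

/-- A root of the polynomial gives a point of order two. -/
theorem noroot_of_tors {M : Type} [Field M] {a b : M} (h2 : (2 : M) ≠ 0)
    (hD : 4 * a ^ 3 + 27 * b ^ 2 ≠ 0)
    (ht : ∀ P : (⟨0, 0, 0, a, b⟩ : WeierstrassCurve M).toAffine.Point, P + P = 0 → P = 0) (t : M) :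
    t ^ 3 + a * t + b ≠ 0 := by
  intro h0
  have h1 : (3 * t ^ 2 + a) ≠ 0 := by
    intro h3
    apply hD
    have e1 : a = -(3 * t ^ 2) := by linear_combination h3
    have e2 : b = 2 * t ^ 3 := by
      rw [e1] at h0
      linear_combination h0
    rw [e1, e2]
    ring
  have hns : (⟨0, 0, 0, a, b⟩ : WeierstrassCurve M).toAffine.Nonsingular t 0 := by
    rw [Affine.nonsingular_iff']
    refine ⟨?_, Or.inl ?_⟩
    · rw [Affine.equation_iff']
      simp
      linear_combination -h0
    · simp
      intro h3
      exact h1 (by linear_combination -h3)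
  have h4 := ht (Affine.Point.some t 0 hns) (by
    refine Affine.Point.add_self_of_Y_eq ?_
    simp [Affine.negY])
  exact absurd h4 (by simp)

/-- Finitely many points, no point of order two, trivial two-primary part of the Tate-Shafarevich
group. -/
def Tv (M : Type) [Field M] [NumberField M] (a b : M) : Prop :=
  Finite (⟨0, 0, 0, a, b⟩ : WeierstrassCurve M).toAffine.Point ∧
  (∀ P : (⟨0, 0, 0, a, b⟩ : WeierstrassCurve M).toAffine.Point, P + P = 0 → P = 0) ∧
  Pool.Agent.H10.Sha2Trivial M (⟨0, 0, 0, a, b⟩ : WeierstrassCurve M)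

theorem Tv.noroot {M : Type} [Field M] [NumberField M] {a b : M} (h : Tv M a b)
    (hD : 4 * a ^ 3 + 27 * b ^ 2 ≠ 0) (t : M) : t ^ 3 + a * t + b ≠ 0 :=
  noroot_of_tors two_ne_zero hD h.2.1 t

/-- Without root there is no point of order two. -/
theorem tors_of_noroot {M : Type} [Field M] [CharZero M] {a b : M}
    (h : ∀ t : M, t ^ 3 + a * t + b ≠ 0)
    (P : (⟨0, 0, 0, a, b⟩ : WeierstrassCurve M).toAffine.Point) (hP : P + P = 0) : P = 0 := by
  rcases P with _ | ⟨x, y, hxy⟩
  · rfl
  · exfalso
    have h1 := add_eq_zero_iff_eq_neg.1 hP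
    rw [Affine.Point.neg_some] at h1
    have h2 : y = -y := by
      simpa [Affine.negY] using h1
    have hy : y = 0 := by
      have h3 : (2 : M) * y = 0 := by linear_combination h2
      exact (mul_eq_zero.1 h3).resolve_left two_ne_zero
    have h4 := (Affine.equation_iff' _ _).1 hxy.1
    rw [hy] at h4
    apply h x
    simp at h4
    linear_combination -h4

end H30ZO
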