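import Pool.Agent.H30.ZO.Je
import Pool.Agent.H30.ZO.Nc
import Pool.Agent.H30.ZO.Tv
import Pool.Agent.H36.CY.Df
import Pool.Agent.H73.P2.Sb
import Pool.Agent.H73.P2.Cm
import Pool.Agent.H36.MT.As1

/-!
The local conditions descend at every place if the curve has trivial two-Selmer group over all number
fields between `K` and `F` (project MP_78d38b_ZO, no row; assembly).
-/

set_option autoImplicit false
set_option linter.unusedSectionVars false
open scoped Classical

open WithZero NumberField IsDedekindDomain H38RT WeierstrassCurve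
open H38T1 (SC sc scu rep eo la si Pri OddP tp unif)
open H76PP H73P2 H36CY

namespace H30ZO

/-- Transport of the triviality of the Selmer group along an isomorphism. -/
theorem selTriv_base {K k : Type} [Field K] [NumberField K] [Field k] [NumberField k] [Algebra K k]
    (hs : Function.Surjective (algebraMap K k)) {a b : K}
    (hT : ∀ (L : Type) [Field L] [NumberField L] [Algebra K L] (θ : L), Cub K L a b θ →
      SelTriv K L a b θ)
    (L : Type) [Field L] [NumberField L] [Algebra k L] (θ : L)
    (h : Cub k L (algebraMap K k a) (algebraMap K k b) θ) :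
    SelTriv k L (algebraMap K k a) (algebraMap K k b) θ := by
  have hi : Function.Injective (algebraMap K k) := (algebraMap K k).injective
  letI : Algebra K L := ((algebraMap k L).comp (algebraMap K k)).toAlgebra
  have hal : ∀ x : K, algebraMap K L x = algebraMap k L (algebraMap K k x) := fun _ => rfl
  have hcub : Cub K L a b θ := by
    refine ⟨?_, ?_, ?_⟩
    · rw [hal, hal]
      exact h.root
    · intro c₀ c₁ c₂ hc
      rw [hal, hal, hal] at hc
      obtain ⟨e0, e1, e2⟩ := h.li _ _ _ hc
      exact ⟨(map_eq_zero _).1 e0, (map_eq_zero _).1 e1, (map_eq_zero _).1 e2⟩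
    · intro x
      obtain ⟨c₀, c₁, c₂, hx⟩ := h.sp x
      obtain ⟨d₀, rfl⟩ := hs c₀
      obtain ⟨d₁, rfl⟩ := hs c₁
      obtain ⟨d₂, rfl⟩ := hs c₂
      exact ⟨d₀, d₁, d₂, hx⟩
  intro d hd hn hfin hre
  choose d₀ hd₀ using fun i => hs (d i)
  obtain rfl : d = fun i => algebraMap K k (d₀ i) := funext fun i => (hd₀ i).symm
  have hev : ev θ d₀ = ev θ (fun i => algebraMap K k (d₀ i)) := rfl
  let e : K ≃+* k := RingEquiv.ofBijective (algebraMap K k) ⟨hi, hs⟩
  have bsLC : ∀ {F : Type} [Field F] (j : K →+* F) (j' : k →+* F)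
      (_ : ∀ x : K, j' (algebraMap K k x) = j x)
      (_ : LC j' (algebraMap K k a) (algebraMap K k b) (fun i => algebraMap K k (d₀ i))),
      LC j a b d₀ := by
    intro F _ j j' hj h
    obtain ⟨x, y, z, hy, h1, h2⟩ := h
    simp only [hj] at h1 h2
    exact ⟨x, y, z, hy, h1, h2⟩
  rw [← hev]
  refine hT L θ hcub d₀ ?_ ?_ ?_ ?_
  · rw [hev]
    exact hd
  · rw [Te_norm hcub]
    rw [Te_norm h, Te_nf_map] at hn
    obtain ⟨r, hr⟩ := hn
    obtain ⟨r₀, rfl⟩ := hs r
    refine ⟨r₀, hi ?_⟩
    rw [hr, map_mul]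
  · intro v
    let j' : k →+* v.adicCompletion K :=
      (algebraMap K (v.adicCompletion K)).comp (e.symm : k →+* K)
    have hj' : ∀ x : K, j' (algebraMap K k x) = algebraMap K (v.adicCompletion K) x := by
      intro x
      change algebraMap K (v.adicCompletion K) (e.symm (e x)) = algebraMap K (v.adicCompletion K) x
      rw [RingEquiv.symm_apply_apply]
    obtain ⟨u, φ, hφ⟩ := exists_map v j' hj'
    exact bsLC _ j' hj' (H73CY.LC_map φ hφ (hfin u))
  · intro s
    let s' : k →+* ℝ := s.comp (e.symm : k →+* K)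
    have hs' : ∀ x : K, s' (algebraMap K k x) = s x := by
      intro x
      change s (e.symm (e x)) = s x
      rw [RingEquiv.symm_apply_apply]
    exact bsLC s s' hs' (hre s')

/-- Triviality of the Selmer group from the finite group of points without point of order two and the
Tate-Shafarevich group, over an isomorphic field. -/
theorem selTriv_iso {M k : Type} [Field M] [NumberField M] [Field k] [NumberField k] (e : M ≃+* k)
    {a b : M}
    (hfin : Finite (⟨0, 0, 0, a, b⟩ : WeierstrassCurve M).toAffine.Point)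
    (ht : ∀ P : (⟨0, 0, 0, a, b⟩ : WeierstrassCurve M).toAffine.Point, P + P = 0 → P = 0)
    (hS : Pool.Agent.H10.Sha2Trivial M (⟨0, 0, 0, a, b⟩ : WeierstrassCurve M)) {a' b' : k}
    (ha : e a = a') (hb : e b = b')
    (L : Type) [Field L] [NumberField L] [Algebra k L] (θ : L) (h : Cub k L a' b' θ) :
    SelTriv k L a' b' θ := by
  subst ha hb
  letI : Algebra M k := (e : M →+* k).toAlgebra
  exact selTriv_base (K := M) (k := k) e.surjective
    (fun L _ _ _ θ hL => selTriv_of_sha hL hfin ht hS) L θ h

/-- The quadratic descent at finitely many places. -/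
theorem desc_of_sel (hos : OrdSub) {k k' : Type} [Field k] [NumberField k] [Field k']
    [NumberField k'] [Algebra k k'] (two : Module.finrank k k' = 2) {a b : k}
    (ha : ∀ v : HeightOneSpectrum (𝓞 k), v.valuation k a ≤ 1)
    (hb : ∀ v : HeightOneSpectrum (𝓞 k), v.valuation k b ≤ 1)
    (hD : 4 * a ^ 3 + 27 * b ^ 2 ≠ 0)
    (hir : ∀ t : k', t ^ 3 + algebraMap k k' a * t + algebraMap k k' b ≠ 0)
    (hT : ∀ (L : Type) [Field L] [NumberField L] [Algebra k L] (θ : L), Cub k L a b θ →
      SelTriv k L a b θ)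
    (hT' : ∀ (L : Type) [Field L] [NumberField L] [Algebra k' L] (θ : L),
      Cub k' L (algebraMap k k' a) (algebraMap k k' b) θ →
      SelTriv k' L (algebraMap k k' a) (algebraMap k k' b) θ)
    (T : Finset (HeightOneSpectrum (𝓞 k))) {d : Fin 3 → k} (hd : Te_nf a b d ≠ 0)
    (hn : IsSquare (Te_nf a b d))
    (hloc : ∀ u' : HeightOneSpectrum (𝓞 k'), dn k u' ∈ T →
      LC (algebraMap k' (u'.adicCompletion k')) (algebraMap k k' a) (algebraMap k k' b)
        (fun i => algebraMap k k' (d i))) :
    ∀ v ∈ T, LC (algebraMap k (v.adicCompletion k)) a b d := by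
  obtain ⟨L', _, _, _, θ', h'⟩ := H24PD.exists_cub (K := k') hir
  let _ : Algebra k L' := ((algebraMap k' L').comp (algebraMap k k')).toAlgebra
  have _ : IsScalarTower k k' L' := IsScalarTower.of_algebraMap_eq fun _ => rfl
  obtain ⟨L, _, _, _, _, _, θ, hc, hθ⟩ := exists_sub h'
  have Q : QS k L k' L' a b θ θ' := ⟨two, hc, h', hθ⟩
  refine desc_quad hos Q ha hb hD (hT L θ hc) (hT' L' θ' h') T ?_ ?_ hloc
  · rw [← Te_norm hc d, Ne, Algebra.norm_eq_zero_iff] at hd
    exact hd
  · rw [Te_norm hc d]
    exact hn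

theorem Tv.sel {M k : Type} [Field M] [NumberField M] [Field k] [NumberField k] (e : M ≃+* k)
    {a b : M} (h : Tv M a b) {a' b' : k} (ha : e a = a') (hb : e b = b')
    (L : Type) [Field L] [NumberField L] [Algebra k L] (θ : L) (hL : Cub k L a' b' θ) :
    SelTriv k L a' b' θ :=
  selTriv_iso e h.1 h.2.1 h.2.2 ha hb L θ hL

/-- The trivial two-Selmer group over the subfields gives the descent of the local conditions at
every place. -/
theorem zo_loc {K F : Type} [Field K] [NumberField K] [Field F] [Algebra K F] {a b : 𝓞 K}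
    (hD : 4 * a ^ 3 + 27 * b ^ 2 ≠ 0)
    (h : ∀ (M : IntermediateField K F) [NumberField M], Tv M (algebraMap K M a) (algebraMap K M b))
    (N : IntermediateField K F) [NumberField N] (v : HeightOneSpectrum (𝓞 K)) :
    DescAt K N v (a : K) (b : K) := by
  intro k k' _ _ _ _ _ _ _ _ _ _ _ _ _ two d hd hn hloc u hu
  have hint : ∀ (x : 𝓞 K) (m : Type) [Field m] [NumberField m] [Algebra K m]
      (w : HeightOneSpectrum (𝓞 m)), w.valuation m (algebraMap K m x) ≤ 1 := by
    intro x m _ _ _ w
    have e1 : algebraMap K m x = algebraMap (𝓞 m) m (algebraMap (𝓞 K) (𝓞 m) x) := rfl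
    rw [e1]
    exact w.valuation_le_one _
  have hDK : (4 * (a : K) ^ 3 + 27 * (b : K) ^ 2) ≠ 0 := by
    intro h1
    apply hD
    apply FaithfulSMul.algebraMap_injective (𝓞 K) K
    rw [map_add, map_mul, map_mul, map_pow, map_pow, map_ofNat, map_ofNat, map_zero]
    exact h1
  have hab : ∀ x : K, algebraMap K k' x = algebraMap k k' (algebraMap K k x) :=
    IsScalarTower.algebraMap_apply K k k'
  have hDk : ∀ (m : Type) [Field m] [Algebra K m],
      4 * (algebraMap K m a) ^ 3 + 27 * (algebraMap K m b) ^ 2 ≠ 0 := by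
    intro m _ _
    have h1 := (map_ne_zero (algebraMap K m)).2 hDK
    simpa only [map_add, map_mul, map_pow, map_ofNat] using h1
  have key : ∀ (m : Type) [Field m] [NumberField m] [Algebra K m] (f : m →ₐ[K] F),
      (∀ t : m, t ^ 3 + algebraMap K m a * t + algebraMap K m b ≠ 0) ∧
      ∀ (L : Type) [Field L] [NumberField L] [Algebra m L] (θ : L),
        Cub m L (algebraMap K m a) (algebraMap K m b) θ →
        SelTriv m L (algebraMap K m a) (algebraMap K m b) θ := by
    intro m _ _ _ f
    let M : IntermediateField K F := f.fieldRange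
    let e : m ≃ₐ[K] M := AlgEquiv.ofInjectiveField f
    have _ : NumberField M := NumberField.of_ringEquiv _ _ e.toRingEquiv
    have hM := h M
    refine ⟨fun t ht => ?_, fun L _ _ _ θ hL => ?_⟩
    · refine hM.noroot (hDk M) (e t) ?_
      have h4 := congrArg e ht
      rw [map_add, map_add, map_mul, map_pow, e.commutes, e.commutes, map_zero] at h4
      exact h4
    · exact hM.sel (M := M) (k := m) e.symm.toRingEquiv (e.symm.commutes _)
        (e.symm.commutes _) L θ hL
  let fN : N →ₐ[K] F := N.val
  obtain ⟨-, hT⟩ := key k (fN.comp (IsScalarTower.toAlgHom K k N))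
  obtain ⟨hir, hT'⟩ := key k' (fN.comp (IsScalarTower.toAlgHom K k' N))
  simp only [hab] at hir hT' hloc
  set T : Finset (HeightOneSpectrum (𝓞 k)) := (fin_above (K := K) (L := k) v).toFinset with hTd
  have hmT : ∀ w : HeightOneSpectrum (𝓞 k), w ∈ T ↔ dn K w = v := by
    intro w
    rw [hTd, Set.Finite.mem_toFinset]
    exact Iff.rfl
  refine desc_of_sel H36MT.ordSub two (hint a k) (hint b k) (hDk k) hir hT hT' T hd hn ?_ u
    ((hmT u).2 hu)
  intro u' hu'
  refine hloc u' ?_
  rw [← dn_dn (k := k) u']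
  exact (hmT _).1 hu'

end H30ZO
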