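import Pool.Agent.H30.ZO.Is
import Pool.Agent.H30.ZO.Zl
import Pool.Agent.H30.CY.Fin
import Pool.Agent.H36.LG.Fn

/-!
The zero-one law: final assembly (project MP_78d38b_ZO, no row).
-/

set_option autoImplicit false
set_option linter.unusedSectionVars false
open scoped Classical

open WithZero NumberField IsDedekindDomain H38RT H76PP H36MT H36CY
open H30CY (two_fin)

namespace H30ZO

/-- The conclusion: a positive proportion of the pairs in the residue class of `(A₀, B₀)` modulo `m`. -/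
def PosProp (K F : Type) [Field K] [NumberField K] [Field F] [Algebra K F] (m : Ideal (𝓞 K))
    (A₀ B₀ : 𝓞 K) : Prop :=
  ∃ (c X₀ : ℝ), 0 < c ∧ ∀ X : ℝ, X₀ ≤ X → ∃ G : Finset (𝓞 K × 𝓞 K),
      (∀ p ∈ G, p ∈ Bx K X ∧ 4 * p.1 ^ 3 + 27 * p.2 ^ 2 ≠ 0 ∧
        (p.1 - A₀ ∈ m ∧ p.2 - B₀ ∈ m) ∧
        Finite (⟨0, 0, 0, algebraMap K F p.1, algebraMap K F p.2⟩ :
          WeierstrassCurve F).toAffine.Point ∧ PF K F p) ∧
      (∀ p ∈ G, ∀ q ∈ G, p.1 ^ 3 * q.2 ^ 2 = q.1 ^ 3 * p.2 ^ 2 → p = q) ∧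
      c * ((Bx K X).ncard : ℝ) ≤ (G.card : ℝ)

/-- The local condition at the prime `v` of `K` for the extension `F / K`. -/
def LocOK (K F : Type) [Field K] [NumberField K] [Field F] [Algebra K F]
    (v : HeightOneSpectrum (𝓞 K)) : Prop :=
  ∃ a b : 𝓞 K, dsc a b ≠ 0 ∧ ∀ (N : IntermediateField K F) [NumberField N], IsGalois K N →
    DescAt K N v (a : K) (b : K)

/-- The admissible extensions. -/
structure AdmF (K F : Type) [Field K] [NumberField K] [Field F] [Algebra K F] : Prop where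
  gal : IsGalois K F
  deg : ∀ (N : IntermediateField K F) [NumberField N], IsGalois K N →
      ∃ r : ℕ, Module.finrank K N = 2 ^ r
  ram : {v : HeightOneSpectrum (𝓞 K) | ∃ (N : IntermediateField K F) (_ : NumberField N)
      (V : HeightOneSpectrum (𝓞 N)), dn K V = v ∧ H73P2.Ram K V}.Finite
  spl : FiniteDimensional K F ∨
      {v : HeightOneSpectrum (𝓞 K) | ∃ ι : F →+* v.adicCompletion K, ∀ x : K,
      ι (algebraMap K F x) = algebraMap K (v.adicCompletion K) x}.Infinite

theorem AdmF.spl_inf {K F : Type} [Field K] [NumberField K] [Field F] [Algebra K F]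
    (h : AdmF K F) :
    {v : HeightOneSpectrum (𝓞 K) | ∃ ι : F →+* v.adicCompletion K, ∀ x : K,
      ι (algebraMap K F x) = algebraMap K (v.adicCompletion K) x}.Infinite := by
  have _ := h.gal
  rcases h.spl with h | h
  · have _ : NumberField F := NumberField.of_module_finite K F
    exact H30PN.split_inf K F
  · exact h

/-- The zero-one law: one curve in the residue class gives a positive proportion. -/
theorem pos_of_one {K F : Type} [Field K] [NumberField K] [Field F] [Algebra K F] (h : AdmF K F)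
    {m : Ideal (𝓞 K)} (hm : m ≠ ⊥) {A₀ B₀ : 𝓞 K} (hD : 4 * A₀ ^ 3 + 27 * B₀ ^ 2 ≠ 0)
    (hP : PF K F (A₀, B₀)) : PosProp K F m A₀ B₀ := by
  have _ := h.gal
  exact zero_one K F h.deg h.ram h.spl_inf hm hD fun v N _ _ => zo_loc hD hP N v

/-- A curve with the required property gives the local conditions. -/
theorem loc_of_one {K F : Type} [Field K] [NumberField K] [Field F] [Algebra K F]
    {A₀ B₀ : 𝓞 K} (hD : 4 * A₀ ^ 3 + 27 * B₀ ^ 2 ≠ 0)
    (hP : PF K F (A₀, B₀)) (v : HeightOneSpectrum (𝓞 K)) : LocOK K F v :=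
  ⟨A₀, B₀, hD, fun N _ _ => zo_loc hD hP N v⟩

/-- The local conditions above two give a positive proportion. -/
theorem pos_of_loc {K F : Type} [Field K] [NumberField K] [Field F] [Algebra K F] (h : AdmF K F)
    (hl : ∀ v : HeightOneSpectrum (𝓞 K), (2 : 𝓞 K) ∈ v.asIdeal → LocOK K F v) :
    PosProp K F ⊤ 0 0 := by
  have _ := h.gal
  obtain ⟨S, hS⟩ := two_fin K
  have hl' : ∀ v : HeightOneSpectrum (𝓞 K), ∃ (e : ℕ) (A₀ B₀ : 𝓞 K), v ∈ S →
      dsc A₀ B₀ ∉ v.asIdeal ^ e ∧ ∀ A B : 𝓞 K, A - A₀ ∈ v.asIdeal ^ e →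
        B - B₀ ∈ v.asIdeal ^ e → ∀ (N : IntermediateField K F) [NumberField N], IsGalois K N →
          DescAt K N v (A : K) (B : K) := by
    intro v
    by_cases hv : (2 : 𝓞 K) ∈ v.asIdeal
    · obtain ⟨a, b, hd, hab⟩ := hl v hv
      obtain ⟨e, he, h1⟩ := H36LG.descAt_open v hd
      exact ⟨e, a, b, fun _ => ⟨he, fun A B hA hB N _ hN => h1 A B hA hB N (hab N hN)⟩⟩
    · exact ⟨0, 0, 0, fun h => absurd ((hS v).1 h) hv⟩
  choose e A₀ B₀ hcl using hl'
  obtain ⟨c, X₀, hc, h1⟩ := main_inf K F h.deg h.ram h.spl_inf (fun v hv => (hS v).2 hv) e A₀ B₀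
    (fun v hv => (hcl v hv).1) (fun v hv => (hcl v hv).2)
  refine ⟨c, X₀, hc, fun X hX => ?_⟩
  obtain ⟨G, h2, h3, h4⟩ := h1 X hX
  exact ⟨G, fun p hp => ⟨(h2 p hp).1, (h2 p hp).2.1, ⟨trivial, trivial⟩, (h2 p hp).2.2.2.1,
    (h2 p hp).2.2.2.2⟩, h3, h4⟩

/-- Descent for a smaller field. -/
theorem descAt_mono {K N N' : Type} [Field K] [NumberField K] [Field N] [NumberField N] [Field N']
    [NumberField N'] [Algebra K N] [Algebra K N'] (f : N →ₐ[K] N')
    {v : HeightOneSpectrum (𝓞 K)} {a b : K} (h : DescAt K N' v a b) : DescAt K N v a b := by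
  intro k k' _ _ _ _ _ _ _ _ _ _ _ _ _ two d hd hn hloc u hu
  let _ : Algebra k N' := ((f : N →+* N').comp (algebraMap k N)).toAlgebra
  let _ : Algebra k' N' := ((f : N →+* N').comp (algebraMap k' N)).toAlgebra
  have _ : IsScalarTower K k N' := IsScalarTower.of_algebraMap_eq fun x => by
    change algebraMap K N' x = f (algebraMap k N (algebraMap K k x))
    rw [← IsScalarTower.algebraMap_apply, f.commutes]
  have _ : IsScalarTower K k' N' := IsScalarTower.of_algebraMap_eq fun x => by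
    change algebraMap K N' x = f (algebraMap k' N (algebraMap K k' x))
    rw [← IsScalarTower.algebraMap_apply, f.commutes]
  have _ : IsScalarTower k k' N' := IsScalarTower.of_algebraMap_eq fun x => by
    change f (algebraMap k N x) = f (algebraMap k' N (algebraMap k k' x))
    rw [← IsScalarTower.algebraMap_apply]
  exact h k k' two d hd hn hloc u hu

/-- Cyclic decomposition groups give the local condition. -/
theorem loc_of_cyclic {K F : Type} [Field K] [NumberField K] [Field F] [Algebra K F] [IsGalois K F]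
    (hdeg : ∀ (N : IntermediateField K F) [NumberField N], IsGalois K N →
      ∃ r : ℕ, Module.finrank K N = 2 ^ r) {v : HeightOneSpectrum (𝓞 K)}
    (hv : (2 : 𝓞 K) ∈ v.asIdeal)
    (hdec : ∀ (N : IntermediateField K F) [NumberField N], IsGalois K N →
      ∀ W : HeightOneSpectrum (𝓞 N), dn K W = v → ∃ τ : N ≃ₐ[K] N, ∀ g : N ≃ₐ[K] N,
        Stb K W g ↔ g ∈ Subgroup.zpowers τ) : LocOK K F v := by
  obtain ⟨e, A₀, B₀, N₀, h1, h2, h3⟩ := H30CY.loc_data hdeg hv hdec
  refine ⟨A₀, B₀, fun h0 => h2 (by rw [h0]; exact Ideal.zero_mem _), fun N _ hN => ?_⟩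
  have hz : ∀ x : 𝓞 K, x - x ∈ v.asIdeal ^ e := fun x => by
    rw [sub_self]
    exact Ideal.zero_mem _
  obtain ⟨N', hnf, hg, hle, hle'⟩ := H30CY.exists_big N ({0} : Finset ℕ) (fun _ => N₀)
    fun _ _ => h1
  exact descAt_mono (IntermediateField.inclusion hle)
    (h3 A₀ B₀ (hz _) (hz _) N' hg (hle' 0 (Finset.mem_singleton_self 0)))

end H30ZO
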