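import Pool.Agent.H24.PD.Lr
import Pool.Agent.H24.PD.Ip

/-!
ROW Jb (project MP_78d38b_ZO, about 200 lines): the local condition gives local triviality of the cocycle (converse of `H24PD.lo`).

PROOF. Notation and first steps exactly as in the proof of `lo` (Pool/Agent/H24/PD/Lo.lean): `Ω`, `M := AlgebraicClosure F`, `V`, `E := V.baseChange M`, embeddings `q : Fin 3 → (L →ₐ[K] Ω)` (emb3), `e i := ι (q i θ)`, `s i := ι (r (q i)) ≠ 0`, `IsCub E (e 0) (e 1) (e 2)`, `s i ^ 2 = E3 (e i) (image of d)`.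
`LC` gives `x, y ∈ F`, `z : Fin 3 → F` with `y ≠ 0`, `y^2 = x^3 + a x + b`, `m3 d (x, -1, 0) = m3 z z`. Evaluate at `e i` (`H24PD.E3_m3` in Pool/Agent/H24/PD/Ip.lean): `s i ^ 2 (x - e i) = ζ i ^ 2`, `ζ i := E3 (e i) (image of z)`. Put `t i := ζ i / s i`: `t i ^ 2 = x - e i`. `P := h.half x (t 0) (t 1) (t 2)` (Pool/Agent/H10/Cub.lean; it is the point
`(x + t₀ t₁ + t₀ t₂ + t₁ t₂, (t₀ + t₁)(t₀ + t₂)(t₁ + t₂))`). Claim: for `τ`, `σ` with `τ (ι x) = ι (σ x)` for all `x`: `pm ι (f σ) = act τ P - P`. Let `mv σ (q i) = q (π i)` (a permutation `π` of `Fin 3`). `τ (e i) = e (π i)`, `τ (ζ i) = ζ (π i)` (coefficients of `z` in `F`), `τ (s i) = ι (σ (r (q i))) = w (π i) s (π i)`, `w j := wp (q j θ) (f σ) = wp (e j) S`, `S := pm ι (f σ)` (`wp_pm`, `S + S = 0`).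
So `τ (t i) = w (π i) t (π i)` (a sign is its own inverse; `units_cast_sq`). `act τ P` is the point with coordinates `(x + ∑_{i<j} τ t_i τ t_j, ∏_{i<j} (τ t_i + τ t_j))` (`pm_some`), symmetric in the three numbers, i.e. `h.half x (w 0 t 0) (w 1 t 1) (w 2 t 2)` (the six permutations `π`, or: `Finset`-sums over `Fin 3`). By `half_add_tau` (Pool/Agent/H10/Bridge.lean; `exists_tau`: `S = h.tau a`, `Wp_tau`: `w 0 = a.1 a.2`, `w 1 = a.1`, `w 2 = a.2`)
it is `P + S`.
-/

set_option autoImplicit false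
open scoped Classical

open WeierstrassCurve NumberField IsDedekindDomain Pool.Agent.H10 H76PP H24PD

namespace H30ZO

private lemma Jb_sq {R : Type*} [CommRing R] (u : ℤˣ) : ((u : ℤ) : R) ^ 2 = 1 := by
  rcases Int.units_eq_one_or u with rfl | rfl <;> simp

private lemma Jb_perm {M : Type*} [CommRing M] (T : Fin 3 → M) (π : Fin 3 → Fin 3)
    (hπ : Function.Injective π) :
    T (π 0) * T (π 1) + T (π 0) * T (π 2) + T (π 1) * T (π 2) =
      T 0 * T 1 + T 0 * T 2 + T 1 * T 2 ∧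
    (T (π 0) + T (π 1)) * (T (π 0) + T (π 2)) * (T (π 1) + T (π 2)) =
      (T 0 + T 1) * (T 0 + T 2) * (T 1 + T 2) := by
  have h01 : π 0 ≠ π 1 := fun h => absurd (hπ h) (by decide)
  have h02 : π 0 ≠ π 2 := fun h => absurd (hπ h) (by decide)
  have h12 : π 1 ≠ π 2 := fun h => absurd (hπ h) (by decide)
  have key : ∀ i : Fin 3, i = 0 ∨ i = 1 ∨ i = 2 := by decide
  obtain ⟨i, hi⟩ : ∃ i, i = π 0 := ⟨_, rfl⟩
  obtain ⟨j, hj⟩ : ∃ j, j = π 1 := ⟨_, rfl⟩
  obtain ⟨l, hl⟩ : ∃ l, l = π 2 := ⟨_, rfl⟩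
  rw [← hi, ← hj] at h01
  rw [← hi, ← hl] at h02
  rw [← hj, ← hl] at h12
  rw [← hi, ← hj, ← hl]
  clear hi hj hl
  rcases key i with rfl | rfl | rfl <;> rcases key j with rfl | rfl | rfl <;>
    rcases key l with rfl | rfl | rfl <;>
    first
    | exact absurd rfl h01
    | exact absurd rfl h02
    | exact absurd rfl h12
    | exact ⟨by ring, by ring⟩

private lemma Jb_m3 {F M : Type*} [CommRing F] [CommRing M] (φ : F →+* M) (a b : F)
    (u v : Fin 3 → F) : m3 (φ a) (φ b) (fun j => φ (u j)) (fun j => φ (v j)) =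
      fun j => φ (m3 a b u v j) := by
  funext j
  fin_cases j <;> simp [m3]

private lemma Jb_half {M : Type*} [Field M] {W : WeierstrassCurve M} {e₁ e₂ e₃ : M}
    (h : IsCub W e₁ e₂ e₃) {x s₁ s₂ s₃ : M} (h1 : s₁ ^ 2 = x - e₁) (h2 : s₂ ^ 2 = x - e₂)
    (h3 : s₃ ^ 2 = x - e₃) {X Y : M} (hns : W.toAffine.Nonsingular X Y)
    (hX : X = x + s₁ * s₂ + s₁ * s₃ + s₂ * s₃) (hY : Y = (s₁ + s₂) * (s₁ + s₃) * (s₂ + s₃)) :
    Affine.Point.some X Y hns = h.half x s₁ s₂ s₃ h1 h2 h3 := by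
  subst hX hY
  rfl

theorem triv_of_LC {K L : Type} [Field K] [NumberField K] [Field L] [Algebra K L] {a b : K} {θ : L}
    (hL : Cub K L a b θ) {F : Type} [Field F] [Algebra K F]
    {f : Coch K (⟨0, 0, 0, a, b⟩ : WeierstrassCurve K)} (h2 : ∀ σ, f σ + f σ = 0)
    {r : (L →ₐ[K] AlgebraicClosure K) → AlgebraicClosure K} (hr : ∀ φ, r φ ≠ 0)
    (he : ∀ σ φ, σ (r φ) = ((wp (mv σ φ θ) (f σ) : ℤ) : AlgebraicClosure K) * r (mv σ φ))
    {d : Fin 3 → K} (hd : ∀ φ, r φ ^ 2 = φ (ev θ d)) (hLC : LC (algebraMap K F) a b d)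
    (ι : AlgebraicClosure K →ₐ[K] AlgebraicClosure F) :
    TrivAt (F := F) (inv_bc' (⟨0, 0, 0, a, b⟩ : WeierstrassCurve K))
      (ι : AlgebraicClosure K →+* AlgebraicClosure F) (map_bc _ ι) f := by
  have : CharZero F := charZero_of_alg (K := K)
  obtain ⟨φ₁, φ₂, φ₃, n12, n13, n23, hall⟩ := emb3 (Ω := AlgebraicClosure K) hL
  obtain ⟨q, q0, q1, q2⟩ : ∃ q : Fin 3 → (L →ₐ[K] AlgebraicClosure K),
      q 0 = φ₁ ∧ q 1 = φ₂ ∧ q 2 = φ₃ := ⟨![φ₁, φ₂, φ₃], rfl, rfl, rfl⟩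
  have hq : ∀ φ : L →ₐ[K] AlgebraicClosure K, ∃ i, φ = q i := by
    intro φ
    rcases hall φ with h | h | h
    · exact ⟨0, by rw [h, q0]⟩
    · exact ⟨1, by rw [h, q1]⟩
    · exact ⟨2, by rw [h, q2]⟩
  have hal : ∀ c : K, ι (algebraMap K (AlgebraicClosure K) c) =
      algebraMap F (AlgebraicClosure F) (algebraMap K F c) := by
    intro c
    rw [ι.commutes, IsScalarTower.algebraMap_apply K F (AlgebraicClosure F)]
  have hroot : ∀ i, ι (q i θ) ^ 3 + algebraMap F (AlgebraicClosure F) (algebraMap K F a) *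
      ι (q i θ) + algebraMap F (AlgebraicClosure F) (algebraMap K F b) = 0 := by
    intro i
    have h := congrArg ι (emb_root hL (q i))
    rw [map_add, map_add, map_mul, map_pow, map_zero, hal, hal] at h
    exact h
  have hne : ∀ {φ ψ : L →ₐ[K] AlgebraicClosure K}, φ ≠ ψ → ι (φ θ) ≠ ι (ψ θ) := by
    intro φ ψ h h'
    exact h (emb_ext hL (ι.toRingHom.injective h'))
  have c1 : ((⟨0, 0, 0, a, b⟩ : WeierstrassCurve K).baseChange (AlgebraicClosure F)).a₁ = 0 :=
    map_zero (algebraMap K (AlgebraicClosure F))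
  have c2 : ((⟨0, 0, 0, a, b⟩ : WeierstrassCurve K).baseChange (AlgebraicClosure F)).a₂ = 0 :=
    map_zero (algebraMap K (AlgebraicClosure F))
  have c3 : ((⟨0, 0, 0, a, b⟩ : WeierstrassCurve K).baseChange (AlgebraicClosure F)).a₃ = 0 :=
    map_zero (algebraMap K (AlgebraicClosure F))
  have c4 : ((⟨0, 0, 0, a, b⟩ : WeierstrassCurve K).baseChange (AlgebraicClosure F)).a₄ =
      algebraMap F (AlgebraicClosure F) (algebraMap K F a) :=
    IsScalarTower.algebraMap_apply K F (AlgebraicClosure F) a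
  have c6 : ((⟨0, 0, 0, a, b⟩ : WeierstrassCurve K).baseChange (AlgebraicClosure F)).a₆ =
      algebraMap F (AlgebraicClosure F) (algebraMap K F b) :=
    IsScalarTower.algebraMap_apply K F (AlgebraicClosure F) b
  have e01 : ι (q 0 θ) ≠ ι (q 1 θ) := hne (by rw [q0, q1]; exact n12)
  have e02 : ι (q 0 θ) ≠ ι (q 2 θ) := hne (by rw [q0, q2]; exact n13)
  have e12 : ι (q 1 θ) ≠ ι (q 2 θ) := hne (by rw [q1, q2]; exact n23)
  have hcub : IsCub ((⟨0, 0, 0, a, b⟩ : WeierstrassCurve K).baseChange (AlgebraicClosure F))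
      (ι (q 0 θ)) (ι (q 1 θ)) (ι (q 2 θ)) :=
    isCub_of c1 c2 c3 c4 c6 two_ne_zero (hroot 0) (hroot 1) (hroot 2) e01 e02 e12
  have hs0 : ∀ i, ι (r (q i)) ≠ 0 := by
    intro i h
    exact hr (q i) (ι.toRingHom.injective (h.trans (map_zero ι).symm))
  have hs : ∀ i, ι (r (q i)) ^ 2 = E3 (ι (q i θ)) (fun j =>
      algebraMap F (AlgebraicClosure F) (algebraMap K F (d j))) := by
    intro i
    rw [← map_pow, hd]
    unfold ev E3
    rw [map_add, map_add, map_mul, map_mul, map_pow, map_add, map_add, map_mul, map_mul, map_pow,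
      (q i).commutes, (q i).commutes, (q i).commutes, hal, hal, hal]
  obtain ⟨x, y, z, -, -, hm⟩ := hLC
  have hζ : ∀ i, ι (r (q i)) ^ 2 * (algebraMap F (AlgebraicClosure F) x - ι (q i θ)) =
      E3 (ι (q i θ)) (fun j => algebraMap F (AlgebraicClosure F) (z j)) ^ 2 := by
    intro i
    have g1 := congrArg (fun u : Fin 3 → F => E3 (ι (q i θ))
      (fun j => algebraMap F (AlgebraicClosure F) (u j))) hm
    change E3 (ι (q i θ)) (fun j => algebraMap F (AlgebraicClosure F)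
      (m3 (algebraMap K F a) (algebraMap K F b) (fun j => algebraMap K F (d j)) ![x, -1, 0] j)) =
      E3 (ι (q i θ)) (fun j => algebraMap F (AlgebraicClosure F)
      (m3 (algebraMap K F a) (algebraMap K F b) z z j)) at g1
    rw [← Jb_m3, ← Jb_m3, E3_m3 (hroot i), E3_m3 (hroot i), ← hs i] at g1
    have g2 : E3 (ι (q i θ)) (fun j => algebraMap F (AlgebraicClosure F)
        ((![x, -1, 0] : Fin 3 → F) j)) = algebraMap F (AlgebraicClosure F) x - ι (q i θ) := by
      unfold E3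
      change algebraMap F (AlgebraicClosure F) x + algebraMap F (AlgebraicClosure F) (-1) *
        ι (q i θ) + algebraMap F (AlgebraicClosure F) 0 * ι (q i θ) ^ 2 = _
      rw [map_neg, map_one, map_zero]
      ring
    rw [g2] at g1
    rw [g1, pow_two]
  -- the square roots
  obtain ⟨t, ht⟩ : ∃ t : Fin 3 → AlgebraicClosure F, ∀ i,
      t i = E3 (ι (q i θ)) (fun j => algebraMap F (AlgebraicClosure F) (z j)) / ι (r (q i)) :=
    ⟨_, fun i => rfl⟩
  have ht2 : ∀ i, t i ^ 2 = algebraMap F (AlgebraicClosure F) x - ι (q i θ) := by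
    intro i
    rw [ht, div_pow, ← hζ i, mul_div_cancel_left₀ _ (pow_ne_zero 2 (hs0 i))]
  refine ⟨hcub.half (algebraMap F (AlgebraicClosure F) x) (t 0) (t 1) (t 2) (ht2 0) (ht2 1)
    (ht2 2), ?_⟩
  intro τ σ hx
  set S := pm (ι : AlgebraicClosure K →+* AlgebraicClosure F) (map_bc _ ι) (f σ) with hSdef
  have hS2 : S + S = 0 := by rw [hSdef, ← map_add, h2, map_zero]
  choose π hπ using fun i => hq (mv σ (q i))
  have hτe : ∀ i, τ (ι (q i θ)) = ι (q (π i) θ) := by
    intro i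
    have h1 := hx (q i θ)
    change τ (ι (q i θ)) = ι (σ (q i θ)) at h1
    rw [h1, ← hπ i]
    rfl
  have hπi : Function.Injective π := by
    have hei : Function.Injective (fun i => ι (q i θ)) := by
      intro i j hij
      fin_cases i <;> fin_cases j
      · rfl
      · exact absurd hij e01
      · exact absurd hij e02
      · exact absurd hij.symm e01
      · rfl
      · exact absurd hij e12
      · exact absurd hij.symm e02
      · exact absurd hij.symm e12
      · rfl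
    intro i j hij
    apply hei
    apply τ.injective
    change τ (ι (q i θ)) = τ (ι (q j θ))
    rw [hτe, hτe, hij]
  have hτs : ∀ i, τ (ι (r (q i))) = ((wp (ι (q (π i) θ)) S : ℤ) : AlgebraicClosure F) *
      ι (r (q (π i))) := by
    intro i
    have h1 := hx (r (q i))
    change τ (ι (r (q i))) = ι (σ (r (q i))) at h1
    rw [h1, he, map_mul, map_intCast, hπ i]
    congr 3
    exact (wp_pm (ι : AlgebraicClosure K →+* AlgebraicClosure F)
      (map_bc _ ι) (q (π i) θ) (f σ)).symm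
  have hτt : ∀ i, τ (t i) = ((wp (ι (q (π i) θ)) S : ℤ) : AlgebraicClosure F) * t (π i) := by
    intro i
    have hz1 : τ (E3 (ι (q i θ)) (fun j => algebraMap F (AlgebraicClosure F) (z j))) =
        E3 (ι (q (π i) θ)) (fun j => algebraMap F (AlgebraicClosure F) (z j)) := by
      unfold E3
      rw [map_add, map_add, map_mul, map_mul, map_pow, hτe, τ.commutes, τ.commutes, τ.commutes]
    have hw2 : (((wp (ι (q (π i) θ)) S : ℤˣ) : ℤ) : AlgebraicClosure F) ^ 2 = 1 :=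
      Jb_sq _
    have hw0 : (((wp (ι (q (π i) θ)) S : ℤˣ) : ℤ) : AlgebraicClosure F) ≠ 0 := by
      intro h0
      rw [h0] at hw2
      norm_num at hw2
    rw [ht i, ht (π i), map_div₀, hz1, hτs, div_eq_iff (mul_ne_zero hw0 (hs0 _))]
    have hs1 := hs0 (π i)
    field_simp
    rw [hw2, mul_one]
  obtain ⟨c, hc⟩ := hcub.exists_tau S hS2
  obtain ⟨w0, w1, w2⟩ := Wp_tau hcub c
  rw [← hc] at w0 w1 w2
  obtain ⟨T, hT⟩ : ∃ T : Fin 3 → AlgebraicClosure F, ∀ j,
      T j = ((wp (ι (q j θ)) S : ℤ) : AlgebraicClosure F) * t j := ⟨_, fun j => rfl⟩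
  have hT2 : ∀ j, T j ^ 2 = algebraMap F (AlgebraicClosure F) x - ι (q j θ) := by
    intro j
    rw [hT, mul_pow, Jb_sq, one_mul, ht2]
  have hτT : ∀ i, τ (t i) = T (π i) := fun i => by rw [hτt, hT]
  obtain ⟨p1, p2⟩ := Jb_perm T π hπi
  have hact : act (inv_bc' (⟨0, 0, 0, a, b⟩ : WeierstrassCurve K)) τ
      (hcub.half (algebraMap F (AlgebraicClosure F) x) (t 0) (t 1) (t 2) (ht2 0) (ht2 1) (ht2 2)) =
      hcub.half (algebraMap F (AlgebraicClosure F) x) (T 0) (T 1) (T 2) (hT2 0) (hT2 1)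
        (hT2 2) := by
    unfold act
    rw [show hcub.half (algebraMap F (AlgebraicClosure F) x) (t 0) (t 1) (t 2) (ht2 0) (ht2 1)
      (ht2 2) = Affine.Point.some _ _ (hcub.nonsingular (IsCub.half_eq (ht2 0) (ht2 1) (ht2 2)))
      from rfl, pm_some]
    refine Jb_half hcub (hT2 0) (hT2 1) (hT2 2) _ ?_ ?_
    · change τ (algebraMap F (AlgebraicClosure F) x + t 0 * t 1 + t 0 * t 2 + t 1 * t 2) = _
      rw [map_add, map_add, map_add, map_mul, map_mul, map_mul, τ.commutes, hτT, hτT, hτT]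
      linear_combination p1
    · change τ ((t 0 + t 1) * (t 0 + t 2) * (t 1 + t 2)) = _
      rw [map_mul, map_mul, map_add, map_add, map_add, hτT, hτT, hτT]
      exact p2
  have hadd := hcub.half_add_tau (ht2 0) (ht2 1) (ht2 2) c (hT2 0) (hT2 1) (hT2 2)
    (by rw [hT, w0]) (by rw [hT, w1]) (by rw [hT, w2])
  rw [hact, ← hadd, ← hc, add_sub_cancel_left]

end H30ZO
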