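import Pool.Agent.H30.ZO.Ng
import Pool.Agent.H30.ZO.Uu
import Pool.Agent.H30.ZO.Zo
import Pool.Agent.H36.ZO.Coh

/-!
The uniform local-global principle over all fields contained in a Galois extension with layers of
two-power degree (project MP_78d38b_ZO, no row; assembly).
-/

set_option autoImplicit false
set_option linter.unusedSectionVars false
open scoped Classical

open WithZero NumberField IsDedekindDomain WeierstrassCurve H38RT H76PP H36MT H36CY H36ZO
open Pool.Agent.H10

namespace H30ZO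

/-- The local condition at the real places. -/
def RealF (K F : Type) [Field K] [NumberField K] [Field F] [Algebra K F] (a b : K) : Prop :=
  ∀ (k k' : Type) [Field k] [NumberField k] [Field k'] [NumberField k'] [Algebra K k] [Algebra K k']
    [Algebra k k'] [IsScalarTower K k k'] [Algebra k' F] [IsScalarTower K k' F],
    Module.finrank k k' = 2 → ∀ s : k →+* ℝ,
    0 < s (algebraMap K k (4 * a ^ 3 + 27 * b ^ 2)) ∨
      ∃ s' : k' →+* ℝ, ∀ x : k, s' (algebraMap k k' x) = s x

theorem realAt_of {K F : Type} [Field K] [NumberField K] [Field F] [Algebra K F] {a b : K}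
    (h : RealF K F a b) {M : Type} [Field M] [NumberField M] [Algebra K M] (f : M →ₐ[K] F) :
    RealAt K M a b := by
  intro k k' _ _ _ _ _ _ _ _ _ _ _ _ _ two s
  let _ : Algebra k' F := ((f : M →+* F).comp (algebraMap k' M)).toAlgebra
  have _ : IsScalarTower K k' F := IsScalarTower.of_algebraMap_eq fun x => by
    change algebraMap K F x = f (algebraMap k' M (algebraMap K k' x))
    rw [← IsScalarTower.algebraMap_apply, f.commutes]
  exact h k k' two s

/-- The condition at the real places is necessary. -/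
theorem zo_realF {K F : Type} [Field K] [NumberField K] [Field F] [Algebra K F]
    {a b : 𝓞 K} (hD : 4 * a ^ 3 + 27 * b ^ 2 ≠ 0) (h : PF K F (a, b)) :
    RealF K F (a : K) (b : K) := by
  intro k k' _ _ _ _ _ _ _ _ _ _ two s
  have hDK : (4 * (a : K) ^ 3 + 27 * (b : K) ^ 2) ≠ 0 := by
    intro h1
    apply hD
    apply FaithfulSMul.algebraMap_injective (𝓞 K) K
    rw [map_add, map_mul, map_mul, map_pow, map_pow, map_ofNat, map_ofNat, map_zero]
    exact h1
  have hDk : ∀ (m : Type) [Field m] [Algebra K m],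
      4 * (algebraMap K m a) ^ 3 + 27 * (algebraMap K m b) ^ 2 ≠ 0 := by
    intro m _ _
    have h1 := (map_ne_zero (algebraMap K m)).2 hDK
    simpa only [map_add, map_mul, map_pow, map_ofNat] using h1
  have hab : ∀ x : K, algebraMap K k' x = algebraMap k k' (algebraMap K k x) :=
    IsScalarTower.algebraMap_apply K k k'
  have hint : ∀ (x : 𝓞 K) (w : HeightOneSpectrum (𝓞 k)), w.valuation k (algebraMap K k x) ≤ 1 := by
    intro x w
    have e1 : algebraMap K k x = algebraMap (𝓞 k) k (algebraMap (𝓞 K) (𝓞 k) x) := rfl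
    rw [e1]
    exact w.valuation_le_one _
  by_contra hcon
  rw [not_or] at hcon
  obtain ⟨hneg, hno⟩ := hcon
  have hs : ∀ s' : k' →+* ℝ, s'.comp (algebraMap k k') ≠ s := by
    intro s' hs'
    exact hno ⟨s', fun x => by rw [← hs']; rfl⟩
  have e0 : algebraMap K k (4 * (a : K) ^ 3 + 27 * (b : K) ^ 2) =
      4 * algebraMap K k a ^ 3 + 27 * algebraMap K k b ^ 2 := by
    rw [map_add, map_mul, map_mul, map_pow, map_pow, map_ofNat, map_ofNat]
  rw [e0] at hneg
  have hneg' : s (4 * algebraMap K k a ^ 3 + 27 * algebraMap K k b ^ 2) < 0 :=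
    lt_of_le_of_ne (not_lt.1 hneg) ((map_ne_zero s).2 (hDk k))
  let f' : k' →ₐ[K] F := IsScalarTower.toAlgHom K k' F
  let f : k →ₐ[K] F := f'.comp (IsScalarTower.toAlgHom K k k')
  obtain ⟨-, hT⟩ := pf_sel hDk h k f
  obtain ⟨hir, hT'⟩ := pf_sel hDk h k' f'
  simp only [hab] at hir hT'
  obtain ⟨L', _, _, _, θ', h'⟩ := H24PD.exists_cub (K := k') hir
  let _ : Algebra k L' := ((algebraMap k' L').comp (algebraMap k k')).toAlgebra
  have _ : IsScalarTower k k' L' := IsScalarTower.of_algebraMap_eq fun _ => rfl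
  obtain ⟨L, _, _, _, _, _, θ, hc, hθ⟩ := H73P2.exists_sub h'
  have Q : H73P2.QS k L k' L' (algebraMap K k a) (algebraMap K k b) θ θ' := ⟨two, hc, h', hθ⟩
  obtain ⟨d, hd1, hd2, hd3⟩ := real_wit (a := algebraMap K k a) (b := algebraMap K k b) s hneg'
  apply hd3
  refine desc_real H36MT.ordSub Q (hint a) (hint b) (hDk k) (hT L θ hc) (hT' L' θ' h') s hs ?_ ?_
  · rw [← Te_norm hc d, Ne, Algebra.norm_eq_zero_iff] at hd1
    exact hd1
  · rw [Te_norm hc d]
    exact hd2

/-- Ramification goes up. -/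
theorem ram_up {K M N : Type} [Field K] [NumberField K] [Field M] [NumberField M] [Field N]
    [NumberField N] [Algebra K M] [Algebra K N] [Algebra M N] [IsScalarTower K M N]
    {W : HeightOneSpectrum (𝓞 N)} (h : H73P2.Ram K (dn M W)) : H73P2.Ram K W := by
  unfold H73P2.Ram at h ⊢
  rw [H73P2.dn_dn] at h
  have e1 : algebraMap (𝓞 K) (𝓞 N) = (algebraMap (𝓞 M) (𝓞 N)).comp (algebraMap (𝓞 K) (𝓞 M)) := by
    ext x
    change algebraMap K N (x : K) = algebraMap M N (algebraMap K M (x : K))
    exact IsScalarTower.algebraMap_apply K M N _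
  rw [e1, ← Ideal.map_map]
  refine (Ideal.map_mono h).trans ?_
  rw [Ideal.map_pow]
  exact Ideal.pow_right_mono Ideal.map_comap_le 2

/-- The uniform local-global principle over all fields `F` contained in a Galois extension `L` of `K` with
layers of two-power degree. -/
structure HasU (K : Type) [Field K] [NumberField K] (S Q : Finset (HeightOneSpectrum (𝓞 K)))
    (p : 𝓞 K × 𝓞 K) : Prop where
  ne : 4 * p.1 ^ 3 + 27 * p.2 ^ 2 ≠ 0
  irr : ∀ t : K, t ^ 3 + (p.1 : K) * t + (p.2 : K) ≠ 0
  base : Tv K (p.1 : K) (p.2 : K)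
  main : ∀ (F L : Type) [Field F] [Field L] [Algebra K F] [Algebra K L] [Algebra F L]
    [IsScalarTower K F L], IsGalois K L →
    (∀ (N : IntermediateField K L) [NumberField N], IsGalois K N →
      ∃ r : ℕ, Module.finrank K N = 2 ^ r) →
    (∀ v : HeightOneSpectrum (𝓞 K), (v ∈ S ∨ v ∈ Q ∨ RamF K F v) →
      (¬ ∃ ι : L →+* v.adicCompletion K, ∀ x : K,
        ι (algebraMap K L x) = algebraMap K (v.adicCompletion K) x) →
      (v ∉ S → v ∉ Q → ∃ t : 𝓞 K, t ^ 3 + p.1 * t + p.2 ∈ v.asIdeal) →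
      ¬ (v ∈ Q ∧ ¬ RamF K L v ∧
        ∀ (N : IntermediateField K L) [NumberField N], IsGalois K N → H36O2.Dec2 N v) →
      ∀ (M : IntermediateField K F) [NumberField M], DescAt K M v (p.1 : K) (p.2 : K)) →
    RealF K F (p.1 : K) (p.2 : K) → PF K F p

/-- The uniform local-global principle for a curve with trivial relaxed Selmer groups. -/
theorem hasU_of_rel {K : Type} [Field K] [NumberField K] {S Q P : Finset (HeightOneSpectrum (𝓞 K))}
    (hP : ∀ v ∈ P, v ∈ S ∨ v ∈ Q) (hQS : ∀ v ∈ Q, v ∉ S)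
    {p : 𝓞 K × 𝓞 K} (hrel : ∀ P' : Finset (HeightOneSpectrum (𝓞 K)), P ⊆ P' → RelG K P' p.1 p.2)
    (hharm : ∀ v ∈ P, v ∉ S → Harm K v (p.1 : K) (p.2 : K)) :
    HasU K S Q p := by
  have hasP := hasP_of_rel hrel
  refine ⟨hasP.ne, hasP.irr, hasP.base, ?_⟩
  intro F L _ _ _ _ _ _ hgal hdeg hloc hreal M _
  -- a Galois extension that contains the image of `M`
  let fM : M →ₐ[K] L := (IsScalarTower.toAlgHom K F L).comp M.val
  let M' : IntermediateField K L := fM.fieldRange
  let e : M ≃ₐ[K] M' := AlgEquiv.ofInjectiveField fM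
  have _ : NumberField M' := NumberField.of_ringEquiv _ _ e.toRingEquiv
  obtain ⟨N, _, hNg, hMN, -⟩ := H30CY.exists_big M' (∅ : Finset ℕ) (fun _ => ⊥)
    fun v hv => absurd hv (Finset.notMem_empty v)
  let g : M →ₐ[K] N := (IntermediateField.inclusion hMN).comp e.toAlgHom
  let _ : Algebra M N := (g : M →+* N).toAlgebra
  have _ : IsScalarTower K M N := IsScalarTower.of_algebraMap_eq fun x => (g.commutes x).symm
  obtain ⟨r, hr⟩ := hdeg N hNg
  have hd : 4 * (p.1 : K) ^ 3 + 27 * (p.2 : K) ^ 2 ≠ 0 := by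
    rw [← dsc_coe]
    intro h1
    apply hasP.ne
    apply RingOfIntegers.coe_injective
    rw [map_zero]
    exact h1
  have _ : FiniteDimensional K N := Module.Finite.of_restrictScalars_finite ℚ K N
  obtain ⟨R, hR⟩ : ∃ R : Finset (HeightOneSpectrum (𝓞 K)), R =
    (H30PN.ram_fin K M).toFinset.image (dn K) := ⟨_, rfl⟩
  obtain ⟨Sg, hSg⟩ : ∃ Sg : Finset (HeightOneSpectrum (𝓞 K)), Sg =
    P ∪ R.filter (fun v => ∃ t : 𝓞 K, t ^ 3 + p.1 * t + p.2 ∈ v.asIdeal) := ⟨_, rfl⟩
  have hPS : P ⊆ Sg := by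
    rw [hSg]
    exact Finset.subset_union_left
  have h1 := hrel Sg hPS
  have hnr := H73P2.noroot (K := K) (N := N) (k := M) hr h1.irr
  obtain ⟨L₁, _, _, _, θ, hL⟩ := H24PD.exists_cub (K := M) hnr
  have hdes := H24PD.descent hL (selN_mid (K := K) (N := M) (Nt := N) ordSub hr (Sg := Sg)
    h1.two hd h1.nice (realAt_of hreal M.val) ?_ ?_ ?_ M L₁ θ hL)
  · exact ⟨hdes.1, tors_of_noroot hnr, hdes.2⟩
  · intro V hV hr'
    have h2 : dn K V ∈ R := by
      rw [hR, Finset.mem_image]
      exact ⟨V, (H30PN.ram_fin K M).mem_toFinset.2 hr', rfl⟩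
    refine H73P2.noRootAt_of fun t ht => hV ?_
    rw [hSg]
    exact Finset.mem_union_right _ (Finset.mem_filter.2 ⟨h2, t, ht⟩)
  · intro v hv
    by_cases hs : ∃ ι : L →+* v.adicCompletion K, ∀ x : K,
        ι (algebraMap K L x) = algebraMap K (v.adicCompletion K) x
    · obtain ⟨ι, hι⟩ := hs
      exact descAt_mono g (descAt_split ⟨ι.comp N.val.toRingHom, fun x => hι x⟩ _ _)
    · rw [hSg, Finset.mem_union, Finset.mem_filter] at hv
      have hram : v ∉ P → RamF K F v := by
        intro hvP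
        obtain ⟨h2, -⟩ := hv.resolve_left hvP
        rw [hR, Finset.mem_image] at h2
        obtain ⟨V, h3, h4⟩ := h2
        exact ⟨M, inferInstance, V, h4, (H30PN.ram_fin K M).mem_toFinset.1 h3⟩
      by_cases hex : v ∈ P ∧ v ∈ Q ∧ ¬ RamF K L v ∧
        ∀ (N : IntermediateField K L) [NumberField N], IsGalois K N → H36O2.Dec2 N v
      · obtain ⟨h2, h3, h4, h5⟩ := hex
        exact descAt_mono g (hharm v h2 (hQS v h3) N hNg ⟨r, hr⟩
          (fun V hV hR => h4 ⟨N, inferInstance, V, hV, hR⟩) (h5 N hNg))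
      · refine hloc v ?_ hs ?_ ?_ M
        · by_cases hvP : v ∈ P
          · rcases hP v hvP with h5 | h5
            · exact Or.inl h5
            · exact Or.inr (Or.inl h5)
          · exact Or.inr (Or.inr (hram hvP))
        · intro h5 h6
          have hvP : v ∉ P := fun h7 => (hP v h7).elim h5 h6
          exact (hv.resolve_left hvP).2
        · rintro ⟨h2, h3, h4⟩
          by_cases hvP : v ∈ P
          · exact hex ⟨hvP, h2, h3, h4⟩
          · -- ramified in `F`, so ramified in `L`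
            obtain ⟨h5, -⟩ := hv.resolve_left hvP
            rw [hR, Finset.mem_image] at h5
            obtain ⟨V, h6, h7⟩ := h5
            have h8 := (H30PN.ram_fin K M).mem_toFinset.1 h6
            obtain ⟨W, rfl⟩ := exists_above (L := N) V
            refine h3 ⟨N, inferInstance, W, ?_, ram_up h8⟩
            rw [← h7]
            exact (H73P2.dn_dn W).symm
  · intro L₂ _ _ _ θ₂ hL₂
    refine H73ZO.relST_of ?_
    rw [Finset.union_empty]
    exact h1.rel L₂ θ₂ hL₂

end H30ZO
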