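import Pool.Agent.H30.ZO.Nh
import Pool.Agent.H36.O2.Oh
import Pool.Agent.H36.O2.Oi

/-!
The uniform local-global principle (third form) for almost all curves up to a twist in a finite set,
and for a positive proportion of the curves in every residue class (project MP_78d38b_ZO, no row;
assembly).
-/

set_option autoImplicit false
set_option linter.unusedSectionVars false
open scoped Classical

open WithZero NumberField IsDedekindDomain H38RT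
open H76PP H36MT H36CY

namespace H30ZO

theorem val_two {K : Type} [Field K] [NumberField K] {v : HeightOneSpectrum (𝓞 K)}
    (h : (2 : 𝓞 K) ∉ v.asIdeal) : v.valuation K 2 = 1 := by
  have h1 : v.valuation K ((2 : 𝓞 K) : K) = 1 := by
    refine le_antisymm (v.valuation_le_one 2) (not_lt.1 fun h1 => h ?_)
    exact (v.valuation_lt_one_iff_mem (K := K) 2).1 h1
  have h2 : ((2 : 𝓞 K) : K) = 2 := map_ofNat (algebraMap (𝓞 K) K) 2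
  rwa [h2] at h1

theorem disc_ne {K : Type} [Field K] [NumberField K] {A B : 𝓞 K}
    (h : 4 * A ^ 3 + 27 * B ^ 2 ≠ 0) : 4 * (A : K) ^ 3 + 27 * (B : K) ^ 2 ≠ 0 := by
  rw [← dsc_coe]
  intro h1
  apply h
  apply RingOfIntegers.coe_injective
  rw [map_zero]
  exact h1

/-- The prime at which the cubic has no root. -/
theorem harm_q {K : Type} [Field K] [NumberField K] {v : HeightOneSpectrum (𝓞 K)}
    (h2 : (2 : 𝓞 K) ∉ v.asIdeal) {A B D : 𝓞 K} (hD : D ≠ 0)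
    (hd : 4 * (A : K) ^ 3 + 27 * (B : K) ^ 2 ≠ 0)
    (hirr : ∀ t : K, t ^ 3 + (A : K) * t + (B : K) ≠ 0)
    (hn : ∀ t : 𝓞 K, t ^ 3 + A * t + B ∉ v.asIdeal) :
    Harm K v ((D ^ 2 * A : 𝓞 K) : K) ((D ^ 3 * B : 𝓞 K) : K) := by
  intro N _ _ _ hN hr _ _
  obtain ⟨r, hr⟩ := hr
  have e1 : ((D ^ 2 * A : 𝓞 K) : K) = (D : K) ^ 2 * (A : K) := by push_cast; rfl
  have e2 : ((D ^ 3 * B : 𝓞 K) : K) = (D : K) ^ 3 * (B : K) := by push_cast; rfl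
  rw [e1, e2]
  exact H36O2.descAt_noroot hr (val_two h2) hD hd hirr hn

/-- The primes at which the cubic has exactly one root. -/
theorem harm_T {K : Type} [Field K] [NumberField K] {v : HeightOneSpectrum (𝓞 K)}
    (h2 : (2 : 𝓞 K) ∉ v.asIdeal) {A B D : 𝓞 K} (hD : D ≠ 0)
    (hd : 4 * (A : K) ^ 3 + 27 * (B : K) ^ 2 ≠ 0)
    (hirr : ∀ t : K, t ^ 3 + (A : K) * t + (B : K) ≠ 0)
    (ht : ∃ t : 𝓞 K, t ^ 3 + A * t + B ∈ v.asIdeal ∧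
      ∀ s : 𝓞 K, -3 * t ^ 2 - 4 * A - s ^ 2 ∉ v.asIdeal) :
    Harm K v ((D ^ 2 * A : 𝓞 K) : K) ((D ^ 3 * B : 𝓞 K) : K) := by
  intro N _ _ _ hN hr hu hdec
  obtain ⟨r, hr⟩ := hr
  obtain ⟨t, ht, hs⟩ := ht
  have e1 : ((D ^ 2 * A : 𝓞 K) : K) = (D : K) ^ 2 * (A : K) := by push_cast; rfl
  have e2 : ((D ^ 3 * B : 𝓞 K) : K) = (D : K) ^ 3 * (B : K) := by push_cast; rfl
  rw [e1, e2]
  exact H36O2.descAt_T hr h2 hu hdec hD hirr ht hs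

/-- The parameters: finite sets of primes, the twisting factors, the count. -/
theorem main_parW (K : Type) [Field K] [NumberField K] {m : Ideal (𝓞 K)} (hm : m ≠ ⊥) {ε : ℝ}
    (hε : 0 < ε) {Z₀ : Set (HeightOneSpectrum (𝓞 K))} (hZ₀ : Z₀.Infinite) :
    ∃ (S : Finset (HeightOneSpectrum (𝓞 K))) (e : ℕ) (Z₁ Z₂ : Finset (HeightOneSpectrum (𝓞 K)))
      (D : HeightOneSpectrum (𝓞 K) → Finset (HeightOneSpectrum (𝓞 K)) → 𝓞 K) (X₀ : ℝ),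
      (∀ v ∈ Z₁ ∪ Z₂, v ∈ Z₀) ∧
      (∀ q ∈ Z₁, ∀ J ⊆ Z₂, D q J - 1 ∈ m ∧ D q J ≠ 0 ∧ (∀ s : K →+* ℝ, 0 < s (D q J : K)) ∧
        ∀ v ∈ S, ∃ r : v.adicCompletion K, algebraMap K (v.adicCompletion K) (D q J : K) = r ^ 2) ∧
      (∀ q ∈ Z₁, ∀ T ⊆ Z₂, ∀ p : 𝓞 K × 𝓞 K, FamS S e q T p.1 p.2 → ¬ BadS S T p.1 p.2 →
        ∃ J ⊆ Z₂, HasU K S (Z₁ ∪ Z₂) (D q J ^ 2 * p.1, D q J ^ 3 * p.2)) ∧
      ∀ X : ℝ, X₀ ≤ X →
        ({p : 𝓞 K × 𝓞 K | p ∈ Bx K X ∧ ¬ ∃ q ∈ Z₁, ∃ T ⊆ Z₂, FamS S e q T p.1 p.2 ∧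
          ¬ BadS S T p.1 p.2}.ncard : ℝ) ≤ ε * X ^ (5 * Module.finrank ℚ K) := by
  obtain ⟨S, e, Z₁, Z₂, m', X₀, hS6, -, hZ₁Z, hZ₂Z, hm'0, hm't, hm'm, hm'S, hZ₁, hZ₂, hZr, hcount⟩ :=
    main_count K hm hε hZ₀ ∅
  have hD : ∀ (q : HeightOneSpectrum (𝓞 K)) (J : Finset (HeightOneSpectrum (𝓞 K))), ∃ D : 𝓞 K,
      q ∈ Z₁ → J ⊆ Z₂ → D - 1 ∈ m' ∧ TwS S q J (D : K) := by
    intro q J
    by_cases h : q ∈ Z₁ ∧ J ⊆ Z₂
    · obtain ⟨D, hD⟩ := exists_twistS hm'0 hm't hm'S (hZ₁ q h.1).2.2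
        (fun p hp => hZr q h.1 p (h.2 hp))
      exact ⟨D, fun _ _ => hD⟩
    · exact ⟨0, fun h1 h2 => absurd ⟨h1, h2⟩ h⟩
  choose D hD using hD
  refine ⟨S, e, Z₁, Z₂, D, X₀, fun v hv => (Finset.mem_union.1 hv).elim (hZ₁Z v) (hZ₂Z v), ?_, ?_,
    hcount⟩
  · intro q hq J hJ
    obtain ⟨h1, h2⟩ := hD q J hq hJ
    refine ⟨hm'm h1, ?_, h2.pos, fun v hv => ?_⟩
    · intro h0
      apply h2.ne
      rw [h0]
      exact map_zero (algebraMap (𝓞 K) K)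
    · obtain ⟨x, hx, hx1⟩ := h2.loc v hv
      exact sq_S hx hx1
  · intro q hq T hT p hF hB
    obtain ⟨J, hJ, hgood⟩ := good_S (q₀ := q) hS6
      (fun v hv => ⟨fun h => (hZ₁ q hq).2.1 (by rw [← h]; exact hT hv), hZ₂ v (hT hv)⟩) hF hB
    have hJ2 : J ⊆ Z₂ := hJ.trans hT
    have hDJ := (hD q J hq hJ2).2
    have hD0 : D q J ≠ 0 := by
      intro h0
      apply hDJ.ne
      rw [h0]
      exact map_zero (algebraMap (𝓞 K) K)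
    have h2v : ∀ v : HeightOneSpectrum (𝓞 K), v ∉ S → (2 : 𝓞 K) ∉ v.asIdeal := by
      intro v hv h2
      apply hv
      apply hS6
      rw [show (6 : 𝓞 K) = 3 * 2 by norm_num]
      exact v.asIdeal.mul_mem_left _ h2
    refine ⟨J, hJ2, hasU_of_rel (P := S ∪ insert q T) ?_ ?_ (fun P' hP' => hgood (D q J) hDJ P'
      (Finset.subset_union_left.trans hP') ?_ (hP' ?_)) ?_⟩
    · intro v hv
      rcases Finset.mem_union.1 hv with h | h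
      · exact Or.inl h
      · right
        rcases Finset.mem_insert.1 h with h | h
        · rw [h]
          exact Finset.mem_union_left _ hq
        · exact Finset.mem_union_right _ (hT h)
    · intro v hv
      rcases Finset.mem_union.1 hv with h | h
      · exact (hZ₁ v h).1
      · exact hZ₂ v h
    · exact (Finset.subset_insert _ _).trans (Finset.subset_union_right.trans hP')
    · exact Finset.mem_union_right _ (Finset.mem_insert_self _ _)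
    · intro v hv hvS
      have h3 : v = q ∨ v ∈ T := by
        rcases Finset.mem_union.1 hv with h | h
        · exact absurd h hvS
        · exact Finset.mem_insert.1 h
      rcases h3 with h3 | h3
      · rw [h3]
        exact harm_q (h2v q (hZ₁ q hq).1) hD0 hF.dsc_ne (fun t => hF.no_root t) hF.irr
      · exact harm_T (h2v v hvS) hD0 hF.dsc_ne (fun t => hF.no_root t) (hF.typ v h3)

/-- Theorem A. -/
theorem main_AW (K : Type) [Field K] [NumberField K] {m : Ideal (𝓞 K)} (hm : m ≠ ⊥) {ε : ℝ}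
    (hε : 0 < ε) {Z₀ : Set (HeightOneSpectrum (𝓞 K))} (hZ₀ : Z₀.Infinite) :
    ∃ (S Q : Finset (HeightOneSpectrum (𝓞 K))) (DD : Finset (𝓞 K)) (X₀ : ℝ),
      (∀ v ∈ Q, v ∈ Z₀) ∧
      (∀ D ∈ DD, D - 1 ∈ m ∧ D ≠ 0 ∧ (∀ s : K →+* ℝ, 0 < s (D : K)) ∧
        ∀ v ∈ S, ∃ r : v.adicCompletion K, algebraMap K (v.adicCompletion K) (D : K) = r ^ 2) ∧
      ∀ X : ℝ, X₀ ≤ X →
        ({p : 𝓞 K × 𝓞 K | p ∈ Bx K X ∧
          ¬ ∃ D ∈ DD, HasU K S Q (D ^ 2 * p.1, D ^ 3 * p.2)}.ncard : ℝ) ≤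
          ε * ((Bx K X).ncard : ℝ) := by
  obtain ⟨c, X₁, hc, hlow⟩ := class_lower (K := K) (m := ⊤) top_ne_bot
  obtain ⟨S, e, Z₁, Z₂, D, X₀, hZ12, h1, h2, h3⟩ := main_parW K hm (ε := ε * c) (by positivity) hZ₀
  refine ⟨S, Z₁ ∪ Z₂, Z₁.biUnion fun q => Z₂.powerset.image (D q), max X₀ X₁, hZ12, ?_, ?_⟩
  · intro d hd
    rw [Finset.mem_biUnion] at hd
    obtain ⟨q, hq, hd⟩ := hd
    rw [Finset.mem_image] at hd
    obtain ⟨J, hJ, rfl⟩ := hd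
    exact h1 q hq J (Finset.mem_powerset.1 hJ)
  · intro X hX
    have h4 := h3 X ((le_max_left _ _).trans hX)
    have h5 := hlow X ((le_max_right _ _).trans hX) 0 0
    have h6 : {p : 𝓞 K × 𝓞 K | p ∈ Bx K X ∧ p.1 - 0 ∈ (⊤ : Ideal (𝓞 K)) ∧
        p.2 - 0 ∈ (⊤ : Ideal (𝓞 K))} = Bx K X := by
      ext p
      simp
    rw [h6] at h5
    have h7 : {p : 𝓞 K × 𝓞 K | p ∈ Bx K X ∧ ¬ ∃ d ∈ Z₁.biUnion fun q => Z₂.powerset.image (D q),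
        HasU K S (Z₁ ∪ Z₂) (d ^ 2 * p.1, d ^ 3 * p.2)} ⊆
        {p : 𝓞 K × 𝓞 K | p ∈ Bx K X ∧ ¬ ∃ q ∈ Z₁, ∃ T ⊆ Z₂, FamS S e q T p.1 p.2 ∧
          ¬ BadS S T p.1 p.2} := by
      rintro p ⟨hp, hno⟩
      refine ⟨hp, ?_⟩
      rintro ⟨q, hq, T, hT, hF, hB⟩
      apply hno
      obtain ⟨J, hJ, hg⟩ := h2 q hq T hT p hF hB
      refine ⟨D q J, ?_, hg⟩
      rw [Finset.mem_biUnion]
      exact ⟨q, hq, Finset.mem_image.2 ⟨J, Finset.mem_powerset.2 hJ, rfl⟩⟩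
    have h8 := Set.ncard_le_ncard h7 ((H36PP.Bx_finite K X).subset fun p hp => hp.1)
    have h9 : ({p : 𝓞 K × 𝓞 K | p ∈ Bx K X ∧
        ¬ ∃ d ∈ Z₁.biUnion fun q => Z₂.powerset.image (D q),
        HasU K S (Z₁ ∪ Z₂) (d ^ 2 * p.1, d ^ 3 * p.2)}.ncard : ℝ) ≤ _ := Nat.cast_le.2 h8
    calc _ ≤ _ := h9
      _ ≤ ε * c * X ^ (5 * Module.finrank ℚ K) := h4
      _ = ε * (c * X ^ (5 * Module.finrank ℚ K)) := by ring
      _ ≤ _ := mul_le_mul_of_nonneg_left h5 hε.le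

/-- Theorem B: every residue class contains a positive proportion of good curves, pairwise not
isomorphic over the algebraic closure. -/
theorem main_BW (K : Type) [Field K] [NumberField K] {m : Ideal (𝓞 K)} (hm : m ≠ ⊥)
    {Z₀ : Set (HeightOneSpectrum (𝓞 K))} (hZ₀ : Z₀.Infinite) :
    ∃ (S Q : Finset (HeightOneSpectrum (𝓞 K))) (c X₀ : ℝ), (∀ v ∈ Q, v ∈ Z₀) ∧ 0 < c ∧
      ∀ a₀ b₀ : 𝓞 K, ∀ X : ℝ, X₀ ≤ X → ∃ G : Finset (𝓞 K × 𝓞 K),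
        (∀ p ∈ G, p ∈ Bx K X ∧ p.1 - a₀ ∈ m ∧ p.2 - b₀ ∈ m ∧ HasU K S Q p) ∧
        (∀ p ∈ G, ∀ q ∈ G, p.1 ^ 3 * q.2 ^ 2 = q.1 ^ 3 * p.2 ^ 2 → p = q) ∧
        c * ((Bx K X).ncard : ℝ) ≤ (G.card : ℝ) := by
  have HB : Blocks K := blocks_of_HR2 K fun h hd => hr2 h hd
  obtain ⟨c, X₁, hc, hlow⟩ := class_lower (K := K) hm
  obtain ⟨S, e, Z₁, Z₂, D, X₂, hZ12, h1, h2, h3⟩ := main_parW K hm (ε := c / 4) (by positivity) hZ₀
  obtain ⟨C, hC, hup⟩ := HB.up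
  obtain ⟨η, X₃, hη, hη1, hsmall⟩ := HB.small (δ := c / 4) (by positivity)
  obtain ⟨M, hM⟩ := exists_subS K S e hη
  -- the size of the twisting factors
  choose t ht using fun (q : HeightOneSpectrum (𝓞 K)) (J : Finset (HeightOneSpectrum (𝓞 K))) =>
    exists_bx (D q J)
  obtain ⟨κ, hκ⟩ : ∃ κ : ℝ, κ = 1 + ∑ q ∈ Z₁, ∑ J ∈ Z₂.powerset, |t q J| := ⟨_, rfl⟩
  have hκ1 : 1 ≤ κ := by
    have : 0 ≤ ∑ q ∈ Z₁, ∑ J ∈ Z₂.powerset, |t q J| :=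
      Finset.sum_nonneg fun _ _ => Finset.sum_nonneg fun _ _ => abs_nonneg _
    linarith
  have hκD : ∀ q ∈ Z₁, ∀ J ⊆ Z₂, D q J ∈ bx K κ := by
    intro q hq J hJ
    refine bx_mono ?_ (ht q J)
    have e1 : |t q J| ≤ ∑ J ∈ Z₂.powerset, |t q J| :=
      Finset.single_le_sum (f := fun J => |t q J|) (fun _ _ => abs_nonneg _)
        (Finset.mem_powerset.2 hJ)
    have e2 : ∑ J ∈ Z₂.powerset, |t q J| ≤ ∑ q ∈ Z₁, ∑ J ∈ Z₂.powerset, |t q J| :=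
      Finset.single_le_sum (f := fun q => ∑ J ∈ Z₂.powerset, |t q J|)
        (fun _ _ => Finset.sum_nonneg fun _ _ => abs_nonneg _) hq
    have := le_abs_self (t q J)
    linarith
  obtain ⟨n, hn⟩ : ∃ n, n = Module.finrank ℚ K := ⟨_, rfl⟩
  rw [← hn] at hlow h3 hup hsmall
  obtain ⟨I, hI⟩ : ∃ I : Finset (HeightOneSpectrum (𝓞 K) × Finset (HeightOneSpectrum (𝓞 K)) ×
    Finset (HeightOneSpectrum (𝓞 K))), I = Z₁ ×ˢ Z₂.powerset ×ˢ Z₂.powerset := ⟨_, rfl⟩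
  obtain ⟨ic, hic⟩ : ∃ ic : ℝ, ic = (I.card : ℝ) := ⟨_, rfl⟩
  have hic0 : 0 ≤ ic := by rw [hic]; exact Nat.cast_nonneg _
  refine ⟨S, Z₁ ∪ Z₂, (c / 2) / ((ic + 1) * (M + 1) * (C * κ ^ (5 * n))),
    κ * max (max X₁ X₂) (max X₃ 1), hZ12, by positivity, ?_⟩
  intro a₀ b₀ Y hY
  obtain ⟨X, hXdef⟩ : ∃ X : ℝ, X = Y / κ := ⟨_, rfl⟩
  have hκ0 : 0 < κ := by linarith
  have hYX : Y = κ * X := by rw [hXdef]; field_simp
  have hX : max (max X₁ X₂) (max X₃ 1) ≤ X := by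
    rw [hXdef, le_div_iff₀ hκ0, mul_comm]
    exact hY
  have hX1 : X₁ ≤ X := (le_max_left _ _).trans ((le_max_left _ _).trans hX)
  have hX2 : X₂ ≤ X := (le_max_right _ _).trans ((le_max_left _ _).trans hX)
  have hX3 : X₃ ≤ X := (le_max_left _ _).trans ((le_max_right _ _).trans hX)
  have hX4 : 1 ≤ X := (le_max_right _ _).trans ((le_max_right _ _).trans hX)
  have hY1 : 1 ≤ Y := by rw [hYX]; nlinarith
  have hXp : 0 < X ^ (5 * n) := by positivity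
  have hfin : ∀ P : 𝓞 K × 𝓞 K → Prop, {p : 𝓞 K × 𝓞 K | p ∈ Bx K X ∧ P p}.Finite := fun P =>
    (H36PP.Bx_finite K X).subset fun p hp => hp.1
  -- the pairs which we use
  obtain ⟨G, hG⟩ : ∃ G : Finset (𝓞 K × 𝓞 K), ∀ p, p ∈ G ↔ (p ∈ Bx K X ∧
      (p.1 - a₀ ∈ m ∧ p.2 - b₀ ∈ m) ∧
      (∃ q ∈ Z₁, ∃ T ⊆ Z₂, FamS S e q T p.1 p.2 ∧ ¬ BadS S T p.1 p.2) ∧
      ∀ s : K →+* ℂ, η * X ^ 2 ≤ ‖s (p.1 : K)‖) :=
    ⟨(hfin _).toFinset, fun p => Set.Finite.mem_toFinset _⟩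
  have hGc : c / 2 * X ^ (5 * n) ≤ (G.card : ℝ) := by
    have g1 := hlow X hX1 a₀ b₀
    have g2 := h3 X hX2
    have g3 := hsmall X hX3
    have g4 : {p : 𝓞 K × 𝓞 K | p ∈ Bx K X ∧ p.1 - a₀ ∈ m ∧ p.2 - b₀ ∈ m} ⊆
        ((G : Set (𝓞 K × 𝓞 K)) ∪ {p : 𝓞 K × 𝓞 K | p ∈ Bx K X ∧ ¬ ∃ q ∈ Z₁, ∃ T ⊆ Z₂,
          FamS S e q T p.1 p.2 ∧ ¬ BadS S T p.1 p.2}) ∪
        {p : 𝓞 K × 𝓞 K | p ∈ Bx K X ∧ ∃ s : K →+* ℂ, ‖s (p.1 : K)‖ < η * X ^ 2} := by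
      rintro p ⟨hp, hc⟩
      by_cases c1 : ∃ q ∈ Z₁, ∃ T ⊆ Z₂, FamS S e q T p.1 p.2 ∧ ¬ BadS S T p.1 p.2
      · by_cases c2 : ∃ s : K →+* ℂ, ‖s (p.1 : K)‖ < η * X ^ 2
        · exact Or.inr ⟨hp, c2⟩
        · push Not at c2
          exact Or.inl (Or.inl (Finset.mem_coe.2 ((hG p).2 ⟨hp, hc, c1, c2⟩)))
      · exact Or.inl (Or.inr ⟨hp, c1⟩)
    have g5 := Set.ncard_le_ncard g4 ((G.finite_toSet.union (hfin _)).union (hfin _))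
    have g6 := g5.trans (Set.ncard_union_le _ _)
    have g7 := g6.trans (Nat.add_le_add_right (Set.ncard_union_le _ _) _)
    rw [Set.ncard_coe_finset] at g7
    have g8 : ({p : 𝓞 K × 𝓞 K | p ∈ Bx K X ∧ p.1 - a₀ ∈ m ∧ p.2 - b₀ ∈ m}.ncard : ℝ) ≤ _ :=
      Nat.cast_le.2 g7
    push_cast at g8
    linarith
  -- pigeonhole
  have hch : ∀ p : 𝓞 K × 𝓞 K, ∃ i : HeightOneSpectrum (𝓞 K) × Finset (HeightOneSpectrum (𝓞 K)) ×
      Finset (HeightOneSpectrum (𝓞 K)), p ∈ G → i ∈ I ∧ FamS S e i.1 i.2.1 p.1 p.2 ∧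
        HasU K S (Z₁ ∪ Z₂) (D i.1 i.2.2 ^ 2 * p.1, D i.1 i.2.2 ^ 3 * p.2) := by
    intro p
    by_cases hp : p ∈ G
    · obtain ⟨-, -, ⟨q, hq, T, hT, hF, hB⟩, -⟩ := (hG p).1 hp
      obtain ⟨J, hJ, hg⟩ := h2 q hq T hT p hF hB
      refine ⟨(q, T, J), fun _ => ⟨?_, hF, hg⟩⟩
      rw [hI, Finset.mem_product, Finset.mem_product]
      exact ⟨hq, Finset.mem_powerset.2 hT, Finset.mem_powerset.2 hJ⟩
    · obtain ⟨v, -⟩ := Ya_exists_two K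
      exact ⟨(v, ∅, ∅), fun h => absurd h hp⟩
  choose f hf using hch
  have hGne : G.Nonempty := by
    rw [← Finset.card_pos]
    have : (0 : ℝ) < (G.card : ℝ) := lt_of_lt_of_le (by positivity) hGc
    exact_mod_cast this
  obtain ⟨p₀, hp₀⟩ := hGne
  obtain ⟨⟨q, T, J⟩, hi, G₂, hG₂, hG₂f, hcard⟩ :=
    pigeon G I ⟨f p₀, (hf p₀ hp₀).1⟩ f (fun a ha => (hf a ha).1)
  have hi' : q ∈ Z₁ ∧ T ⊆ Z₂ ∧ J ⊆ Z₂ := by
    rw [hI, Finset.mem_product, Finset.mem_product] at hi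
    exact ⟨hi.1, Finset.mem_powerset.1 hi.2.1, Finset.mem_powerset.1 hi.2.2⟩
  obtain ⟨G₁, hG₁, hcard₁, hinj₁⟩ := hM q T X (by linarith) G₂ (by
    intro p hp
    have g1 := (hf p (hG₂ hp)).2.1
    rw [hG₂f p hp] at g1
    exact ⟨((hG p).1 (hG₂ hp)).1, g1, ((hG p).1 (hG₂ hp)).2.2.2⟩)
  obtain ⟨hDm, hD0, -⟩ := h1 q hi'.1 J hi'.2.2
  have hinj : Set.InjOn (fun p : 𝓞 K × 𝓞 K => (D q J ^ 2 * p.1, D q J ^ 3 * p.2)) (G₁ : Set _) := by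
    intro p _ p' _ hpp
    simp only [Prod.mk.injEq] at hpp
    exact Prod.ext (mul_left_cancel₀ (pow_ne_zero 2 hD0) hpp.1)
      (mul_left_cancel₀ (pow_ne_zero 3 hD0) hpp.2)
  refine ⟨G₁.image (fun p => (D q J ^ 2 * p.1, D q J ^ 3 * p.2)), ?_, ?_, ?_⟩
  · intro x hx
    rw [Finset.mem_image] at hx
    obtain ⟨p, hp, rfl⟩ := hx
    have hpG := hG₂ (hG₁ hp)
    have hpf := hG₂f p (hG₁ hp)
    obtain ⟨hpB, ⟨hpa, hpb⟩, -, -⟩ := (hG p).1 hpG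
    have g2 := (hf p hpG).2.2
    rw [hpf] at g2
    refine ⟨⟨?_, ?_⟩, ?_, ?_, g2⟩
    · rw [hYX]
      exact bx_int_mul (hκD q hi'.1 J hi'.2.2) hpB.1
    · rw [hYX]
      exact bx_int_mul3 (hκD q hi'.1 J hi'.2.2) hpB.2
    · change D q J ^ 2 * p.1 - a₀ ∈ m
      have e1 : D q J ^ 2 * p.1 - a₀ = (p.1 - a₀) + (D q J - 1) * ((D q J + 1) * p.1) := by ring
      rw [e1]
      exact m.add_mem hpa (m.mul_mem_right _ hDm)
    · change D q J ^ 3 * p.2 - b₀ ∈ m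
      have e1 : D q J ^ 3 * p.2 - b₀ =
          (p.2 - b₀) + (D q J - 1) * ((D q J ^ 2 + D q J + 1) * p.2) := by ring
      rw [e1]
      exact m.add_mem hpb (m.mul_mem_right _ hDm)
  · intro x hx x' hx' h
    rw [Finset.mem_image] at hx hx'
    obtain ⟨p, hp, rfl⟩ := hx
    obtain ⟨p', hp', rfl⟩ := hx'
    have g1 : p = p' := by
      refine hinj₁ p hp p' hp' ?_
      have g2 : D q J ^ 12 * (p.1 ^ 3 * p'.2 ^ 2) = D q J ^ 12 * (p'.1 ^ 3 * p.2 ^ 2) := by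
        change (D q J ^ 2 * p.1) ^ 3 * (D q J ^ 3 * p'.2) ^ 2 =
          (D q J ^ 2 * p'.1) ^ 3 * (D q J ^ 3 * p.2) ^ 2 at h
        linear_combination h
      exact mul_left_cancel₀ (pow_ne_zero 12 hD0) g2
    rw [g1]
  · rw [Finset.card_image_of_injOn hinj]
    have g2 := hup Y hY1
    have hpow : Y ^ (5 * n) = κ ^ (5 * n) * X ^ (5 * n) := by rw [hYX, mul_pow]
    obtain ⟨x₁, hx₁⟩ : ∃ x₁ : ℝ, x₁ = (G₁.card : ℝ) := ⟨_, rfl⟩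
    obtain ⟨x₂, hx₂⟩ : ∃ x₂ : ℝ, x₂ = (G.card : ℝ) := ⟨_, rfl⟩
    obtain ⟨x₃, hx₃⟩ : ∃ x₃ : ℝ, x₃ = ((Bx K Y).ncard : ℝ) := ⟨_, rfl⟩
    obtain ⟨x₄, hx₄⟩ : ∃ x₄ : ℝ, x₄ = (M : ℝ) := ⟨_, rfl⟩
    have h10 : 0 ≤ x₁ := by rw [hx₁]; exact Nat.cast_nonneg _
    have h40 : 0 ≤ x₄ := by rw [hx₄]; exact Nat.cast_nonneg _
    have g4 : x₂ ≤ ic * (x₄ * x₁) := by
      rw [hx₁, hx₂, hx₄, hic]
      have g5 : G.card ≤ I.card * (M * G₁.card) :=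
        hcard.trans (Nat.mul_le_mul_left _ hcard₁)
      exact_mod_cast g5
    rw [← hx₁, ← hx₃, ← hx₄]
    rw [← hx₂] at hGc
    rw [← hx₃] at g2
    have g3 : x₂ ≤ (ic + 1) * ((x₄ + 1) * x₁) := by
      refine g4.trans (mul_le_mul (by linarith) ?_ (by positivity) (by positivity))
      exact mul_le_mul_of_nonneg_right (by linarith) h10
    calc (c / 2) / ((ic + 1) * (x₄ + 1) * (C * κ ^ (5 * n))) * x₃
        ≤ (c / 2) / ((ic + 1) * (x₄ + 1) * (C * κ ^ (5 * n))) * (C * Y ^ (5 * n)) :=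
          mul_le_mul_of_nonneg_left g2 (by positivity)
      _ = (c / 2 * X ^ (5 * n)) / ((ic + 1) * (x₄ + 1)) := by
          rw [hpow]
          field_simp
      _ ≤ x₂ / ((ic + 1) * (x₄ + 1)) :=
          div_le_div_of_nonneg_right hGc (by positivity)
      _ ≤ x₁ := by
          rw [div_le_iff₀ (by positivity)]
          calc x₂ ≤ _ := g3
            _ = _ := by ring

end H30ZO
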