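import Pool.Agent.H30.ZO.Nh
import Pool.Agent.H36.O2.Oi
import Pool.Agent.H73.ZO.Gd
import Pool.Agent.H30.ZO.Uw

/-!
The two forms of the local conditions over fields which need not be Galois (project MP_78d38b_ZO, no
row; modification of `Pool/Agent/H36/ZO/Coh.lean`).
-/

set_option autoImplicit false
set_option linter.unusedSectionVars false
open scoped Classical

open WithZero NumberField IsDedekindDomain WeierstrassCurve H38RT H76PP H36MT H36CY H36ZO H24PD
open Pool.Agent.H10

namespace H30ZO

section Main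

variable {K F : Type} [Field K] [NumberField K] [Field F] [Algebra K F]

/-- The cubic has no root over the number fields contained in a Galois extension with layers of
two-power degree. -/
theorem noroot_in {L : Type} [Field L] [Algebra K L] (hgal : IsGalois K L)
    (hdeg : ∀ (N : IntermediateField K L) [NumberField N], IsGalois K N →
      ∃ r : ℕ, Module.finrank K N = 2 ^ r) {a b : K} (hirr : ∀ t : K, t ^ 3 + a * t + b ≠ 0)
    (k : Type) [Field k] [NumberField k] [Algebra K k] (f : k →ₐ[K] L) (t : k) :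
    t ^ 3 + algebraMap K k a * t + algebraMap K k b ≠ 0 := by
  let M' : IntermediateField K L := f.fieldRange
  let e : k ≃ₐ[K] M' := AlgEquiv.ofInjectiveField f
  have _ : NumberField M' := NumberField.of_ringEquiv _ _ e.toRingEquiv
  obtain ⟨N, _, hNg, hMN, -⟩ := H30CY.exists_big M' (∅ : Finset ℕ) (fun _ => ⊥)
    fun v hv => absurd hv (Finset.notMem_empty v)
  let g : k →ₐ[K] N := (IntermediateField.inclusion hMN).comp e.toAlgHom
  let _ : Algebra k N := (g : k →+* N).toAlgebra
  have _ : IsScalarTower K k N := IsScalarTower.of_algebraMap_eq fun x => (g.commutes x).symm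
  obtain ⟨r, hr⟩ := hdeg N hNg
  have _ : FiniteDimensional K N := Module.Finite.of_restrictScalars_finite ℚ K N
  exact H73P2.noroot (K := K) (N := N) (k := k) hr hirr t

/-- The degrees of the number fields contained in a Galois extension with layers of two-power
degree. -/
theorem deg_in {L : Type} [Field L] [Algebra K L] (hgal : IsGalois K L)
    (hdeg : ∀ (N : IntermediateField K L) [NumberField N], IsGalois K N →
      ∃ r : ℕ, Module.finrank K N = 2 ^ r)
    (k : Type) [Field k] [NumberField k] [Algebra K k] (f : k →ₐ[K] L) :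
    ∃ r : ℕ, Module.finrank K k = 2 ^ r := by
  let M' : IntermediateField K L := f.fieldRange
  let e : k ≃ₐ[K] M' := AlgEquiv.ofInjectiveField f
  have _ : NumberField M' := NumberField.of_ringEquiv _ _ e.toRingEquiv
  obtain ⟨N, _, hNg, hMN, -⟩ := H30CY.exists_big M' (∅ : Finset ℕ) (fun _ => ⊥)
    fun v hv => absurd hv (Finset.notMem_empty v)
  let g : k →ₐ[K] N := (IntermediateField.inclusion hMN).comp e.toAlgHom
  let _ : Algebra k N := (g : k →+* N).toAlgebra
  have _ : IsScalarTower K k N := IsScalarTower.of_algebraMap_eq fun x => (g.commutes x).symm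
  obtain ⟨r, hr⟩ := hdeg N hNg
  have _ : FiniteDimensional K N := Module.Finite.of_restrictScalars_finite ℚ K N
  have h1 := Module.finrank_mul_finrank K k N
  rw [hr] at h1
  obtain ⟨s, -, hs⟩ := (Nat.dvd_prime_pow Nat.prime_two).1 (Dvd.intro _ h1)
  exact ⟨s, hs⟩

/-- Descent for classes. -/
theorem locC_of_descN {v : HeightOneSpectrum (𝓞 K)} {a b : K}
    (hnr : ∀ (k : Type) [Field k] [NumberField k] [Algebra K k] (_ : k →ₐ[K] F) (t : k),
      t ^ 3 + algebraMap K k a * t + algebraMap K k b ≠ 0)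
    (h : ∀ (M : IntermediateField K F) [NumberField M], DescAt K M v a b) :
    LocC K F v a b := by
  intro k k' _ _ _ _ _ _ _ _ _ _ h2 f hf hf2 hw u hu
  obtain ⟨M, hM⟩ : ∃ M : IntermediateField K F, M = (IsScalarTower.toAlgHom K k' F).fieldRange :=
    ⟨_, rfl⟩
  have hk'f : FiniteDimensional K k' := Module.Finite.of_restrictScalars_finite ℚ K k'
  have hMf : FiniteDimensional K M := by
    rw [hM]
    exact LinearMap.finiteDimensional_range (IsScalarTower.toAlgHom K k' F).toLinearMap
  have hMn : NumberField M := NumberField.of_module_finite K M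
  have hmem : ∀ x : k', algebraMap k' F x ∈ M := by
    intro x
    rw [hM]
    exact ⟨x, rfl⟩
  let _ : Algebra k' M := ((algebraMap k' F).codRestrict M.toSubfield hmem).toAlgebra
  let _ : Algebra k M := ((algebraMap k' M).comp (algebraMap k k')).toAlgebra
  have t1 : IsScalarTower K k' M := IsScalarTower.of_algebraMap_eq fun x => by
    apply Subtype.ext
    change algebraMap K F x = algebraMap k' F (algebraMap K k' x)
    exact IsScalarTower.algebraMap_apply K k' F x
  have t2 : IsScalarTower k k' M := IsScalarTower.of_algebraMap_eq fun x => rfl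
  have t3 : IsScalarTower K k M := IsScalarTower.of_algebraMap_eq fun x => by
    rw [IsScalarTower.algebraMap_apply K k' M, IsScalarTower.algebraMap_apply K k k']
    rfl
  have hirrk : ∀ t : k, t ^ 3 + algebraMap K k a * t + algebraMap K k b ≠ 0 :=
    fun t => hnr k ((IsScalarTower.toAlgHom K k' F).comp (IsScalarTower.toAlgHom K k k')) t
  obtain ⟨L, _, _, _, θ, hL⟩ := exists_cub hirrk
  have := elliptic hL
  obtain ⟨g, hg, hg2, hfg⟩ := exists_two hf hf2
  obtain ⟨d, s, hd0, hsq, hs0, he, hd⟩ := exists_d hL hg hg2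
  have key := h M k k' h2 d (by rw [← Te_norm hL]; exact Algebra.norm_ne_zero_iff.2 hd0)
    (by rw [← Te_norm hL]; exact hsq) (fun w hwv => ?_) u hu
  · rw [hfg, trOv_iff_LC hL hg2 hs0 he hd (inf_bc u _ _)]
    exact key
  · have h3 := hw w hwv
    rw [← LC_comp]
    let _ : Algebra k (w.adicCompletion k') := algC k k' w
    exact (trOv_iff_LC hL hg2 hs0 he hd (inf_bc w _ _)).1 ((hfg _).1 h3)

/-- The converse. -/
theorem descN_of_locC {v : HeightOneSpectrum (𝓞 K)} {a b : K}
    (hnr : ∀ (k : Type) [Field k] [NumberField k] [Algebra K k] (_ : k →ₐ[K] F) (t : k),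
      t ^ 3 + algebraMap K k a * t + algebraMap K k b ≠ 0) (h : LocC K F v a b)
    (M : IntermediateField K F) [NumberField M] : DescAt K M v a b := by
  intro k k' _ _ _ _ _ _ _ _ _ _ _ _ _ h2 d hd0 hsq hw u hu
  let _ : Algebra k' F := ((algebraMap M F).comp (algebraMap k' M)).toAlgebra
  have t1 : IsScalarTower K k' F := IsScalarTower.of_algebraMap_eq fun x => by
    change algebraMap M F (algebraMap K M x) = algebraMap M F (algebraMap k' M (algebraMap K k' x))
    rw [← IsScalarTower.algebraMap_apply K k' M]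
  have hirrk : ∀ t : k, t ^ 3 + algebraMap K k a * t + algebraMap K k b ≠ 0 :=
    fun t => hnr k ((IsScalarTower.toAlgHom K k' F).comp (IsScalarTower.toAlgHom K k k')) t
  obtain ⟨L, _, _, _, θ, hL⟩ := exists_cub hirrk
  rw [← Te_norm hL] at hd0 hsq
  obtain ⟨f, s, hf, hf2, hs0, he, hd⟩ := H30ZO.exists_coc hL (fun h0 => hd0 (by
    rw [h0]
    obtain ⟨_, _⟩ := fin3 hL
    exact Algebra.norm_zero)) hsq
  have key := h k k' h2 f hf ((isCobound_iff _).2 ⟨0, fun σ => by
    rw [map_zero, sub_zero, two_nsmul, hf2]⟩) (fun w hwv => ?_) u hu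
  · exact (trOv_iff_LC hL hf2 hs0 he hd (inf_bc u _ _)).1 key
  · have h3 := hw w hwv
    rw [← LC_comp] at h3
    let _ : Algebra k (w.adicCompletion k') := algC k k' w
    exact (trOv_iff_LC hL hf2 hs0 he hd (inf_bc w _ _)).2 h3

end Main

section Exempt

variable {K F L : Type} [Field K] [NumberField K] [Field F] [Field L] [Algebra K F] [Algebra K L]
  [Algebra F L] [IsScalarTower K F L]

/-- A number field in `F` and a Galois number field in `L` that contains it. -/
theorem exists_over (hgal : IsGalois K L) (M : IntermediateField K F) [NumberField M] :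
    ∃ (N : IntermediateField K L) (_ : NumberField N), IsGalois K N ∧ Nonempty (M →ₐ[K] N) := by
  let fM : M →ₐ[K] L := (IsScalarTower.toAlgHom K F L).comp M.val
  let M' : IntermediateField K L := fM.fieldRange
  let e : M ≃ₐ[K] M' := AlgEquiv.ofInjectiveField fM
  have _ : NumberField M' := NumberField.of_ringEquiv _ _ e.toRingEquiv
  obtain ⟨N, hN, hNg, hMN, -⟩ := H30CY.exists_big M' (∅ : Finset ℕ) (fun _ => ⊥)
    fun v hv => absurd hv (Finset.notMem_empty v)
  exact ⟨N, hN, hNg, ⟨(IntermediateField.inclusion hMN).comp e.toAlgHom⟩⟩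

theorem ramF_up {v : HeightOneSpectrum (𝓞 K)} (h : RamF K F v) (hgal : IsGalois K L) :
    RamF K L v := by
  obtain ⟨M, _, V, rfl, hV⟩ := h
  obtain ⟨N, hN, -, ⟨g⟩⟩ := exists_over (F := F) hgal M
  let _ : Algebra M N := (g : M →+* N).toAlgebra
  have _ : IsScalarTower K M N := IsScalarTower.of_algebraMap_eq fun x => (g.commutes x).symm
  obtain ⟨W, rfl⟩ := exists_above (L := N) V
  exact ⟨N, hN, W, (H73P2.dn_dn W).symm, ram_up hV⟩

theorem descAt_noroot_in (hgal : IsGalois K L)
    (hdeg : ∀ (N : IntermediateField K L) [NumberField N], IsGalois K N →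
      ∃ r : ℕ, Module.finrank K N = 2 ^ r) {v : HeightOneSpectrum (𝓞 K)}
    (h2 : (2 : 𝓞 K) ∉ v.asIdeal) {A B : 𝓞 K} (hne : 4 * A ^ 3 + 27 * B ^ 2 ≠ 0)
    (hirr : ∀ t : K, t ^ 3 + (A : K) * t + (B : K) ≠ 0)
    (hn : ∀ t : 𝓞 K, t ^ 3 + A * t + B ∉ v.asIdeal) (M : IntermediateField K F) [NumberField M] :
    DescAt K M v (A : K) (B : K) := by
  obtain ⟨N, _, hNg, ⟨g⟩⟩ := exists_over (F := F) hgal M
  obtain ⟨r, hr⟩ := hdeg N hNg
  have h6 := H36O2.descAt_noroot hr (val_two h2) one_ne_zero (disc_ne hne) hirr hn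
  rw [show ((1 : 𝓞 K) : K) = 1 from map_one (algebraMap (𝓞 K) K), one_pow, one_pow, one_mul,
    one_mul] at h6
  exact descAt_mono g h6

theorem descAt_good_in (hgal : IsGalois K L)
    (hdeg : ∀ (N : IntermediateField K L) [NumberField N], IsGalois K N →
      ∃ r : ℕ, Module.finrank K N = 2 ^ r) {v : HeightOneSpectrum (𝓞 K)} (hr : ¬ RamF K L v)
    (h2 : (2 : 𝓞 K) ∉ v.asIdeal) {A B : 𝓞 K}
    (hirr : ∀ t : K, t ^ 3 + (A : K) * t + (B : K) ≠ 0)
    (hd : 4 * A ^ 3 + 27 * B ^ 2 ∉ v.asIdeal) (M : IntermediateField K F) [NumberField M] :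
    DescAt K M v (A : K) (B : K) := by
  obtain ⟨N, hN, hNg, ⟨g⟩⟩ := exists_over (F := F) hgal M
  obtain ⟨r, hr'⟩ := hdeg N hNg
  exact descAt_mono g (H73ZO.descAt_good hr' h2 (fun V hV hR => hr ⟨N, hN, V, hV, hR⟩) hirr hd)

end Exempt

end H30ZO
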