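import Pool.Agent.H30.ZO.Jb
import Pool.Agent.H73.CY.Lo

/-!
ROW Jc (project MP_78d38b_ZO, about 120 lines): local triviality at all places. Use only the STATEMENT of Jb.

PROOF. `isLocTriv_iff` (Pool/Agent/H10/Func4.lean). Finite `v`: triv_of_LC with `F = v.adicCompletion K`. Infinite `v`, `F := v.Completion`. If `v` is real: `s : K →+* ℝ` the real embedding and the ring isomorphism `e : F ≃+* ℝ` over `K` (Mathlib `InfinitePlace.Completion.ringEquivRealOfIsReal`, `extensionEmbeddingOfIsReal`,
`surjective_extensionEmbeddingOfIsReal`; `extensionEmbeddingOfIsReal_coe` gives `e (algebraMap x) = s x`); `LC s a b d` is transported by `e.symm : ℝ →+* F` (`H73CY.LC_map`) to `LC (algebraMap K F) a b d`, then triv_of_LC. If `v` is complex: `F ≃+* ℂ` (`ringEquivComplexOfIsComplex`) is algebraically closed, so `algebraMap F (AlgebraicClosure F)` is surjective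
(`IsAlgClosed.algebraMap_bijective_of_isIntegral` or similar) and every `τ : AlgebraicClosure F ≃ₐ[F] AlgebraicClosure F` is the identity; then `ι (σ x) = τ (ι x) = ι x`, `σ = 1`, `f 1 = 0` (`IsCoc.one` with `isCocycle_iff`), take `P = 0`.
-/

set_option autoImplicit false
open scoped Classical

open WeierstrassCurve NumberField IsDedekindDomain Pool.Agent.H10 H76PP H24PD

namespace H30ZO

theorem locTriv {K L : Type} [Field K] [NumberField K] [Field L] [Algebra K L] {a b : K} {θ : L}
    (hL : Cub K L a b θ) {f : Coch K (⟨0, 0, 0, a, b⟩ : WeierstrassCurve K)}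
    (hc : IsCocycle K _ f) (h2 : ∀ σ, f σ + f σ = 0)
    {r : (L →ₐ[K] AlgebraicClosure K) → AlgebraicClosure K} (hr : ∀ φ, r φ ≠ 0)
    (he : ∀ σ φ, σ (r φ) = ((wp (mv σ φ θ) (f σ) : ℤ) : AlgebraicClosure K) * r (mv σ φ))
    {d : Fin 3 → K} (hd : ∀ φ, r φ ^ 2 = φ (ev θ d))
    (hfin : ∀ v : HeightOneSpectrum (𝓞 K), LC (algebraMap K (v.adicCompletion K)) a b d)
    (hreal : ∀ s : K →+* ℝ, LC s a b d) : IsLocTriv K _ f := by
  rw [isLocTriv_iff]
  refine ⟨fun v ι => triv_of_LC hL h2 hr he hd (hfin v) ι, fun v ι => ?_⟩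
  rcases v.isReal_or_isComplex with hv | hv
  · obtain ⟨e, -⟩ : ∃ e : v.Completion ≃+* ℝ, e = e :=
      ⟨InfinitePlace.Completion.ringEquivRealOfIsReal hv, rfl⟩
    have h3 := H73CY.LC_map (j := algebraMap K v.Completion) (e.symm : ℝ →+* v.Completion)
      (fun x => e.symm_apply_apply (algebraMap K v.Completion x))
      (hreal ((e : v.Completion →+* ℝ).comp (algebraMap K v.Completion)))
    exact triv_of_LC hL h2 hr he hd h3 ι
  · obtain ⟨e, -⟩ : ∃ e : v.Completion ≃+* ℂ, e = e :=
      ⟨InfinitePlace.Completion.ringEquivComplexOfIsComplex hv, rfl⟩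
    have hac : IsAlgClosed v.Completion := IsAlgClosed.of_ringEquiv ℂ v.Completion e.symm
    have hsur : Function.Surjective (algebraMap v.Completion (AlgebraicClosure v.Completion)) :=
      IsAlgClosed.algebraMap_bijective_of_isIntegral.2
    refine ⟨0, ?_⟩
    intro τ σ hτ
    have h3 : σ = 1 := by
      refine AlgEquiv.ext fun x => ?_
      obtain ⟨y, hy⟩ := hsur ((ι : AlgebraicClosure K →+* AlgebraicClosure v.Completion) x)
      have h4 := hτ x
      rw [← hy, AlgEquiv.commutes, hy] at h4
      exact ((ι : AlgebraicClosure K →+* AlgebraicClosure v.Completion).injective h4).symm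
    have h5 : f 1 = 0 := ((isCocycle_iff f).1 hc).one
    rw [h3, h5, map_zero, map_zero, sub_zero]

end H30ZO
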