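import Pool.Agent.H24.PD.Lr
import Pool.Agent.H24.PD.Ku
import Pool.Agent.H24.PD.Fi

/-!
ROW Jd (project MP_78d38b_ZO, about 170 lines): if the cocycle is a coboundary then the class is trivial.

PROOF. `Ω := AlgebraicClosure K`, `V := ⟨0,0,0,a,b⟩`, `E := V.baseChange Ω`. `isCobound_iff` (Pool/Agent/H10/Func4.lean): `R` with `f σ = act σ R - R`. Then `act σ (R + R) = R + R` for all `σ` (`h2`), so `R + R` is the image of a point `P₀ ∈ E(K)` (`Pool.Agent.H11.exists_of_act_eq` in Pool/Agent/H11/MW.lean; see `Fi_base` in Pool/Agent/H24/PD/Fi.lean for the comparison of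
`H11.act` and `H10.act` and of `V.toAffine.Point` and `(V.baseChange K).toAffine.Point`). `E(K)` is finite without elements of order two, so doubling is injective, hence surjective: `P₀ = R₀ + R₀`. Let `T := R - (image of R₀)`: `T + T = 0`, `f σ = act σ T - T` (the image of `R₀` is fixed), i.e. `act σ T = f σ + T`.
Put `r' φ := wp (φ θ) T * r φ` (sign cast to `Ω`). For `ψ = mv σ φ`: `σ (r' φ) = wp (φ θ) T * wp (ψ θ) (f σ) * r ψ`; `wp (ψ θ) (act σ T) = wp (σ (φ θ)) (act σ T) = wp (φ θ) T` (`wp_pm`), and `wp (ψ θ) (act σ T) = wp (ψ θ) (f σ) * wp (ψ θ) T` (`wp_add`, `IsCub` from emb3 and isCub_of as in Pool/Agent/H24/PD/Lo.lean). So `wp (ψ θ) (f σ) = wp (φ θ) T * wp (ψ θ) T` (signs square to one)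
and `σ (r' φ) = wp (ψ θ) T * r ψ = r' ψ`. By `H24PD.fd` (Pool/Agent/H24/PD/Ku.lean; an embedding `φ₀` exists) there is `x : L` with `r' φ = φ x` for all `φ`. `φ (x^2) = r' φ ^ 2 = r φ ^ 2 = φ (ev θ d)`, `φ₀` is injective: `ev θ d = x^2`.
-/

set_option autoImplicit false
open scoped Classical

open WeierstrassCurve NumberField IsDedekindDomain Pool.Agent.H10 H76PP H24PD

namespace H30ZO

private theorem Jd_double {G : Type*} [AddCommGroup G] (hfin : Finite G)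
    (ht : ∀ P : G, P + P = 0 → P = 0) (P : G) : ∃ R, P = R + R := by
  have hinj : Function.Injective (fun P : G => P + P) := by
    intro P Q h
    have h1 : P + P = Q + Q := h
    refine sub_eq_zero.1 (ht (P - Q) ?_)
    have h2 : P - Q + (P - Q) = (P + P) - (Q + Q) := by abel
    rw [h2, h1, sub_self]
  obtain ⟨R, hR⟩ := (Finite.injective_iff_surjective.1 hinj) P
  exact ⟨R, hR.symm⟩

private theorem Jd_cub {K L : Type} [Field K] [CharZero K] [Field L] [Algebra K L]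
    {a b : K} {θ : L} (hL : Cub K L a b θ) (φ : L →ₐ[K] AlgebraicClosure K) :
    ∃ e₁ e₂ e₃ : AlgebraicClosure K, IsCub ((⟨0, 0, 0, a, b⟩ : WeierstrassCurve K).baseChange
      (AlgebraicClosure K)) e₁ e₂ e₃ ∧ (φ θ = e₁ ∨ φ θ = e₂ ∨ φ θ = e₃) := by
  obtain ⟨φ₁, φ₂, φ₃, n12, n13, n23, hall⟩ := emb3 (Ω := AlgebraicClosure K) hL
  refine ⟨φ₁ θ, φ₂ θ, φ₃ θ, isCub_of (a := algebraMap K _ a) (b := algebraMap K _ b)
    (map_zero (algebraMap K (AlgebraicClosure K))) (map_zero (algebraMap K (AlgebraicClosure K)))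
    (map_zero (algebraMap K (AlgebraicClosure K))) rfl rfl two_ne_zero
    (emb_root hL φ₁) (emb_root hL φ₂) (emb_root hL φ₃) (fun h => n12 (emb_ext hL h))
    (fun h => n13 (emb_ext hL h)) (fun h => n23 (emb_ext hL h)), ?_⟩
  rcases hall φ with h | h | h
  · left
    rw [h]
  · right
    left
    rw [h]
  · right
    right
    rw [h]

theorem sq_of_cob {K L : Type} [Field K] [NumberField K] [Field L] [NumberField L] [Algebra K L]
    {a b : K} {θ : L} (hL : Cub K L a b θ) {f : Coch K (⟨0, 0, 0, a, b⟩ : WeierstrassCurve K)}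
    (h2 : ∀ σ, f σ + f σ = 0)
    {r : (L →ₐ[K] AlgebraicClosure K) → AlgebraicClosure K}
    (he : ∀ σ φ, σ (r φ) = ((wp (mv σ φ θ) (f σ) : ℤ) : AlgebraicClosure K) * r (mv σ φ))
    {d : Fin 3 → K} (hd : ∀ φ, r φ ^ 2 = φ (ev θ d)) (hcob : IsCobound K _ f)
    (hfin : Finite (⟨0, 0, 0, a, b⟩ : WeierstrassCurve K).toAffine.Point)
    (ht : ∀ P : (⟨0, 0, 0, a, b⟩ : WeierstrassCurve K).toAffine.Point, P + P = 0 → P = 0) :
    IsSquare (ev θ d) := by
  have hact : ∀ (σ : AlgebraicClosure K ≃ₐ[K] AlgebraicClosure K)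
      (X : ((⟨0, 0, 0, a, b⟩ : WeierstrassCurve K).baseChange
        (AlgebraicClosure K)).toAffine.Point),
      Pool.Agent.H11.act (⟨0, 0, 0, a, b⟩ : WeierstrassCurve K) σ X =
        act (inv_bc K (⟨0, 0, 0, a, b⟩ : WeierstrassCurve K)) σ X := by
    intro σ X
    unfold Pool.Agent.H11.act
    rw [map_eq_pm]
    rfl
  obtain ⟨R, hR⟩ := (isCobound_iff f).1 hcob
  obtain ⟨P₀, hP₀⟩ := Pool.Agent.H11.exists_of_act_eq (⟨0, 0, 0, a, b⟩ : WeierstrassCurve K)
    (R + R) (by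
      intro σ
      rw [hact, map_add]
      have h1 := h2 σ
      rw [hR σ] at h1
      have h3 : ∀ x y : ((⟨0, 0, 0, a, b⟩ : WeierstrassCurve K).baseChange
        (AlgebraicClosure K)).toAffine.Point, x - y + (x - y) = 0 → x + x = y + y := by
        intro x y h
        rw [← sub_eq_zero, ← h]
        abel
      exact h3 _ _ h1)
  obtain ⟨R₀, hR₀⟩ : ∃ R₀, P₀ = R₀ + R₀ :=
    @Jd_double (⟨0, 0, 0, a, b⟩ : WeierstrassCurve K).toAffine.Point _ hfin ht P₀
  obtain ⟨M, hM⟩ : ∃ M, M = WeierstrassCurve.Affine.Point.map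
    (Algebra.ofId K (AlgebraicClosure K)) R₀ := ⟨_, rfl⟩
  have hMf : ∀ σ, act (inv_bc K (⟨0, 0, 0, a, b⟩ : WeierstrassCurve K)) σ M = M := by
    intro σ
    rw [← hact, hM]
    exact Pool.Agent.H11.act_of_K _ R₀ σ
  have hMM : M + M = R + R := by
    rw [← hP₀, hR₀, map_add, hM]
  obtain ⟨T, hT⟩ : ∃ T, T = R - M := ⟨_, rfl⟩
  have hTT : T + T = 0 := by
    rw [hT]
    have h3 : R - M + (R - M) = (R + R) - (M + M) := by abel
    rw [h3, hMM, sub_self]
  have hTf : ∀ σ, act (inv_bc K (⟨0, 0, 0, a, b⟩ : WeierstrassCurve K)) σ T = f σ + T := by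
    intro σ
    rw [hR σ, hT, map_sub, hMf]
    abel
  have hsq : ∀ u : ℤˣ, ((u : ℤ) : AlgebraicClosure K) * ((u : ℤ) : AlgebraicClosure K) = 1 := by
    intro u
    rw [← Int.cast_mul, ← Units.val_mul, Int.units_mul_self, Units.val_one, Int.cast_one]
  have hw : ∀ σ φ, wp (φ θ) T = wp (mv σ φ θ) (f σ) * wp (mv σ φ θ) T := by
    intro σ φ
    obtain ⟨e₁, e₂, e₃, hcub, hφ⟩ := Jd_cub hL (mv σ φ)
    rw [← wp_add hcub hφ (h2 σ) hTT, ← hTf σ]
    exact (wp_pm (σ : AlgebraicClosure K →+* AlgebraicClosure K)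
      (inv_bc K (⟨0, 0, 0, a, b⟩ : WeierstrassCurve K) σ) (φ θ) T).symm
  obtain ⟨φ₀, -, -, -, -, -, -⟩ := emb3 (Ω := AlgebraicClosure K) hL
  obtain ⟨x, hx⟩ := H24PD.fd (K := K) (L := L) (Ω := AlgebraicClosure K)
    (fun φ => ((wp (φ θ) T : ℤ) : AlgebraicClosure K) * r φ) (by
      intro σ φ
      rw [map_mul, map_intCast, he, hw σ φ, Units.val_mul, Int.cast_mul]
      have h3 := hsq (wp (mv σ φ θ) (f σ))
      linear_combination (((wp (mv σ φ θ) T : ℤ) : AlgebraicClosure K) * r (mv σ φ)) * h3) φ₀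
  refine ⟨x, ?_⟩
  apply φ₀.toRingHom.injective
  show φ₀ (ev θ d) = φ₀ (x * x)
  rw [← hd φ₀, map_mul, ← hx φ₀]
  have h3 := hsq (wp (φ₀ θ) T)
  linear_combination (-(r φ₀ ^ 2)) * h3

end H30ZO
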