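import Pool.Agent.H30.ZO.Ja
import Pool.Agent.H30.ZO.Jc
import Pool.Agent.H30.ZO.Jd

/-!
Finite odd group of points and trivial two-primary Tate-Shafarevich group give a trivial two-Selmer group
(project MP_78d38b_ZO, no row; assembly).
-/

set_option autoImplicit false
open scoped Classical

open WeierstrassCurve NumberField IsDedekindDomain Pool.Agent.H10 H76PP H24PD

namespace H30ZO

theorem selTriv_of_sha {K L : Type} [Field K] [NumberField K] [Field L] [NumberField L] [Algebra K L]
    {a b : K} {θ : L} (hL : Cub K L a b θ)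
    (hfin : Finite (⟨0, 0, 0, a, b⟩ : WeierstrassCurve K).toAffine.Point)
    (ht : ∀ P : (⟨0, 0, 0, a, b⟩ : WeierstrassCurve K).toAffine.Point, P + P = 0 → P = 0)
    (hS : Sha2Trivial K (⟨0, 0, 0, a, b⟩ : WeierstrassCurve K)) : SelTriv K L a b θ := by
  intro d hd hn hf hr
  obtain ⟨f, r, hc, h2, hr0, he, hd2⟩ := exists_coc hL hd hn
  have hl := locTriv hL hc h2 hr0 he hd2 hf hr
  refine sq_of_cob hL h2 he hd2 (hS f hc hl ⟨1, ?_⟩) hfin ht
  refine ⟨0, fun σ => ?_⟩
  rw [map_zero, sub_zero, pow_one]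
  change 2 • f σ = 0
  rw [two_nsmul]
  exact h2 σ

end H30ZO
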