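import Pool.Agent.H36.CY.Df
import Pool.Agent.H36.CY.Ld
import Pool.Agent.H76.PP.Th
import Pool.Agent.H73.P2.Ua

/-!
The descent of the local conditions for a twist by a local square (project MP_78d38b_ZO, no row).
-/

set_option autoImplicit false
set_option linter.unusedSectionVars false
open scoped Classical

open WithZero NumberField IsDedekindDomain H38RT
open H76PP H73P2 H36CY

namespace H30ZO

theorem nf_twist {F : Type} [CommRing F] (A B D : F) (d : Fin 3 → F) :
    Te_nf A B (fun j => d j * D ^ (j : ℕ)) = Te_nf (D ^ 2 * A) (D ^ 3 * B) d := by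
  simp only [Te_nf, Fin.val_zero, Fin.val_one, Fin.val_two]
  ring

/-- The converse of `LC_twist`. -/
theorem LC_untwist {K F : Type} [Field K] [Field F] (i : K →+* F) {A B D : K} (hD : D ≠ 0)
    {d : Fin 3 → K} {r : F} (hr : i D = r ^ 2) (h : LC i A B (fun j => d j * D ^ (j : ℕ))) :
    LC i (D ^ 2 * A) (D ^ 3 * B) d := by
  have hD' : D⁻¹ ≠ 0 := inv_ne_zero hD
  have hr' : i D⁻¹ = r⁻¹ ^ 2 := by rw [map_inv₀, hr, inv_pow]
  have e1 : D⁻¹ ^ 2 * (D ^ 2 * A) = A := by
    field_simp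
  have e2 : D⁻¹ ^ 3 * (D ^ 3 * B) = B := by
    field_simp
  have h1 : LC i (D⁻¹ ^ 2 * (D ^ 2 * A)) (D⁻¹ ^ 3 * (D ^ 3 * B)) (fun j => d j * D ^ (j : ℕ)) := by
    rw [e1, e2]
    exact h
  have h2 := LC_twist i hD' hr' h1
  have e3 : (fun j : Fin 3 => d j * D ^ (j : ℕ) * D⁻¹ ^ (j : ℕ)) = d := by
    funext j
    rw [mul_assoc, ← mul_pow, mul_inv_cancel₀ hD, one_pow, mul_one]
  rw [e3] at h2
  exact h2

theorem descAt_twist {K N : Type} [Field K] [NumberField K] [Field N] [NumberField N] [Algebra K N]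
    {v : HeightOneSpectrum (𝓞 K)} {A B D : K} (hD : D ≠ 0) {r : v.adicCompletion K}
    (hr : algebraMap K (v.adicCompletion K) D = r ^ 2) (h : DescAt K N v A B) :
    DescAt K N v (D ^ 2 * A) (D ^ 3 * B) := by
  intro k k' _ _ _ _ _ _ _ _ _ _ _ _ _ two d hd hn hloc u hu
  have key : ∀ (m : Type) [Field m] [NumberField m] [Algebra K m] (w : HeightOneSpectrum (𝓞 m)),
      dn K w = v → ∃ s : w.adicCompletion m,
        algebraMap m (w.adicCompletion m) (algebraMap K m D) = s ^ 2 := by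
    intro m _ _ _ w hw
    subst hw
    refine ⟨(over_dn w).map r, ?_⟩
    rw [← map_pow, ← hr, Pool.Agent.H10.Over.map_algebraMap]
  have e2 : ∀ (m : Type) [Field m] [Algebra K m],
      algebraMap K m (D ^ 2 * A) = (algebraMap K m D) ^ 2 * algebraMap K m A := by
    intro m _ _
    rw [map_mul, map_pow]
  have e3 : ∀ (m : Type) [Field m] [Algebra K m],
      algebraMap K m (D ^ 3 * B) = (algebraMap K m D) ^ 3 * algebraMap K m B := by
    intro m _ _
    rw [map_mul, map_pow]
  rw [e2, e3] at hd hn ⊢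
  have hDk : algebraMap K k D ≠ 0 := (map_ne_zero _).2 hD
  have hDk' : algebraMap K k' D ≠ 0 := (map_ne_zero _).2 hD
  obtain ⟨s, hs⟩ := key k u hu
  refine LC_untwist _ hDk hs ?_
  rw [← nf_twist] at hd hn
  refine h k k' two _ hd hn (fun u' hu' => ?_) u hu
  obtain ⟨s', hs'⟩ := key k' u' hu'
  have h1 := hloc u' hu'
  rw [e2, e3] at h1
  have h2 := LC_twist _ hDk' hs' h1
  have e4 : (fun j : Fin 3 => algebraMap k k' (d j * algebraMap K k D ^ (j : ℕ))) =
      fun j : Fin 3 => algebraMap k k' (d j) * algebraMap K k' D ^ (j : ℕ) := by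
    funext j
    rw [map_mul, map_pow, ← IsScalarTower.algebraMap_apply]
  rw [e4]
  exact h2

end H30ZO
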