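import Pool.Agent.H30.ZO.Al
import Pool.Agent.H36.CY.Ly
import Pool.Agent.H73.P2.Cm
import Pool.Agent.H30.PN.Fi

/-!
The uniform local-global principle for a curve with trivial relaxed Selmer groups (project
MP_78d38b_ZO, no row; assembly).
-/

set_option autoImplicit false
set_option linter.unusedSectionVars false
open scoped Classical

open WithZero NumberField IsDedekindDomain H38RT H76PP H36MT H36CY

namespace H30ZO

section Split

variable {K N : Type} [Field K] [NumberField K] [Field N] [NumberField N] [Algebra K N]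

theorem cm_dn (v : HeightOneSpectrum (𝓞 K)) (j : N →+* v.adicCompletion K)
    (hj : ∀ x : K, j (algebraMap K N x) = algebraMap K (v.adicCompletion K) x) :
    dn K (H73P2.Cm_pl v j hj) = v := by
  apply HeightOneSpectrum.ext
  ext x
  have h1 : x ∈ (dn K (H73P2.Cm_pl v j hj)).asIdeal ↔
      algebraMap (𝓞 K) (𝓞 N) x ∈ H73P2.Cm_id v j hj := Iff.rfl
  rw [h1, H73P2.Cm_mem, ← IsScalarTower.algebraMap_apply (𝓞 K) (𝓞 N) N,
    IsScalarTower.algebraMap_apply (𝓞 K) K N, H73P2.Cm_val v j hj]
  exact v.valuation_lt_one_iff_mem (K := K) x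

theorem cm_lt (v : HeightOneSpectrum (𝓞 K)) (j : N →+* v.adicCompletion K)
    (hj : ∀ x : K, j (algebraMap K N x) = algebraMap K (v.adicCompletion K) x) {x y : N}
    (hy : y ≠ 0) (h : Valued.v (j x) < Valued.v (j y)) :
    (H73P2.Cm_pl v j hj).valuation N x < (H73P2.Cm_pl v j hj).valuation N y := by
  by_contra hcon
  rw [not_lt] at hcon
  have hx : x ≠ 0 := by
    rintro rfl
    rw [map_zero, le_zero_iff, Valuation.zero_iff] at hcon
    exact hy hcon
  have h1 : (H73P2.Cm_pl v j hj).valuation N (y / x) ≤ 1 := by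
    rw [map_div₀]
    exact (div_le_one₀ (zero_lt_iff.2 ((Valuation.ne_zero_iff _).2 hx))).2 hcon
  have h2 := H73P2.Cm_pl_le v j hj _ h1
  rw [map_div₀, map_div₀, div_le_one₀ (zero_lt_iff.2 ((Valuation.ne_zero_iff _).2
    ((map_ne_zero j).2 hx)))] at h2
  exact absurd h (not_lt.2 h2)

/-- The decomposition groups at a completely split prime are trivial. -/
theorem stb_triv (v : HeightOneSpectrum (𝓞 K)) (j : N →+* v.adicCompletion K)
    (hj : ∀ x : K, j (algebraMap K N x) = algebraMap K (v.adicCompletion K) x) (g : N ≃ₐ[K] N)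
    (hg : Stb K (H73P2.Cm_pl v j hj) g) : g = 1 := by
  apply AlgEquiv.ext
  intro x
  rw [AlgEquiv.one_apply]
  by_contra hne
  have hy : g x - x ≠ 0 := sub_ne_zero.2 hne
  have hjy : j (g x - x) ≠ 0 := (map_ne_zero j).2 hy
  obtain ⟨c, hc⟩ := near_coe v (j x) hjy
  have h1 : Valued.v (j (x - algebraMap K N c)) < Valued.v (j (g x - x)) := by
    rw [map_sub, hj, Valuation.map_sub_swap]
    exact hc
  have h2 := cm_lt v j hj hy h1
  have h3 := hg (x - algebraMap K N c)
  rw [map_sub, AlgEquiv.commutes] at h3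
  have e : g x - x = (g x - algebraMap K N c) - (x - algebraMap K N c) := by ring
  have h4 := Valuation.map_sub ((H73P2.Cm_pl v j hj).valuation N) (g x - algebraMap K N c)
    (x - algebraMap K N c)
  rw [← e, h3, max_self] at h4
  exact absurd h2 (not_lt.2 h4)

/-- The local conditions descend at the completely split primes. -/
theorem descAt_split [IsGalois K N] {v : HeightOneSpectrum (𝓞 K)}
    (hs : ∃ ι : N →+* v.adicCompletion K, ∀ x : K,
      ι (algebraMap K N x) = algebraMap K (v.adicCompletion K) x) (a b : K) :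
    DescAt K N v a b := by
  obtain ⟨j, hj⟩ := hs
  intro k k' _ _ _ _ _ _ _ _ _ _ _ _ _ two d hd hsq hloc u hu
  have _ : IsGalois k N := IsGalois.tower_top_of_isGalois K k N
  obtain ⟨D₀, ρ, hρ, hρk⟩ := H73P2.exists_gen0 (k := k) (k' := k') two
  obtain ⟨W, rfl⟩ := exists_above (L := N) u
  have hab : ∀ x : K, algebraMap K k' x = algebraMap k k' (algebraMap K k x) :=
    IsScalarTower.algebraMap_apply K k k'
  refine ld_split two W hρ hρk ?_ ?_
  · intro g hg
    have h0 : dn K W = dn K (H73P2.Cm_pl v j hj) := by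
      rw [cm_dn, ← hu]
      exact (H73P2.dn_dn W).symm
    have h1 := triv_conj (K := K) h0 (fun g hg => stb_triv v j hj g hg) (g.restrictScalars K) hg
    have h2 := congrArg (fun t : N ≃ₐ[K] N => t (algebraMap k' N ρ)) h1
    exact h2
  · intro u' hu'
    have h1 := hloc u' (by rw [← hu, ← hu', H73P2.dn_dn])
    rw [hab, hab] at h1
    exact h1

end Split

/-- The prime `v` is ramified in `F`. -/
def RamF (K F : Type) [Field K] [NumberField K] [Field F] [Algebra K F]
    (v : HeightOneSpectrum (𝓞 K)) : Prop :=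
  ∃ (N : IntermediateField K F) (_ : NumberField N) (V : HeightOneSpectrum (𝓞 N)),
    dn K V = v ∧ H73P2.Ram K V

/-- The local condition at `v`. -/
def LocF (K F : Type) [Field K] [NumberField K] [Field F] [Algebra K F]
    (v : HeightOneSpectrum (𝓞 K)) (a b : K) : Prop :=
  ∀ (N : IntermediateField K F) [NumberField N], IsGalois K N → DescAt K N v a b

/-- The uniform local-global principle: `P` contains the exceptional primes. -/
structure HasP (K : Type) [Field K] [NumberField K] (P : Finset (HeightOneSpectrum (𝓞 K)))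
    (p : 𝓞 K × 𝓞 K) : Prop where
  ne : 4 * p.1 ^ 3 + 27 * p.2 ^ 2 ≠ 0
  irr : ∀ t : K, t ^ 3 + (p.1 : K) * t + (p.2 : K) ≠ 0
  base : Tv K (p.1 : K) (p.2 : K)
  main : ∀ (F : Type) [Field F] [Algebra K F], IsGalois K F →
    (∀ (N : IntermediateField K F) [NumberField N], IsGalois K N →
      ∃ r : ℕ, Module.finrank K N = 2 ^ r) →
    (∀ v : HeightOneSpectrum (𝓞 K), (v ∈ P ∨ RamF K F v) →
      (¬ ∃ ι : F →+* v.adicCompletion K, ∀ x : K,
        ι (algebraMap K F x) = algebraMap K (v.adicCompletion K) x) →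
      (v ∉ P → ∃ t : 𝓞 K, t ^ 3 + p.1 * t + p.2 ∈ v.asIdeal) →
      LocF K F v (p.1 : K) (p.2 : K)) →
    RealN K F (p.1 : K) (p.2 : K) → PF K F p

/-- The uniform local-global principle for a curve with trivial relaxed Selmer groups. -/
theorem hasP_of_rel {K : Type} [Field K] [NumberField K] {P : Finset (HeightOneSpectrum (𝓞 K))}
    {p : 𝓞 K × 𝓞 K} (hrel : ∀ P' : Finset (HeightOneSpectrum (𝓞 K)), P ⊆ P' → RelG K P' p.1 p.2) :
    HasP K P p := by
  have h0 := hrel P subset_rfl
  refine ⟨h0.ne, h0.irr, ?_, ?_⟩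
  · have hd : 4 * (p.1 : K) ^ 3 + 27 * (p.2 : K) ^ 2 ≠ 0 := by
      rw [← dsc_coe]
      intro h1
      apply h0.ne
      apply RingOfIntegers.coe_injective
      rw [map_zero]
      exact h1
    obtain ⟨L, _, _, _, θ, hL⟩ := H24PD.exists_cub h0.irr
    have h1 := H24PD.descent hL (H73P2.sel_mid (K := K) (N := K) ordSub (r := 0)
      (by rw [pow_zero, Module.finrank_self]) (S := P) h0.two hd h0.nice
      (fun v _ => ⟨algebraMap K _, fun _ => rfl⟩) (fun s => Or.inr ⟨s, fun _ => rfl⟩)
      (fun V _ hV => absurd hV (not_ram V)) h0.rel K L θ hL)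
    exact ⟨h1.1, tors_of_noroot h0.irr, h1.2⟩
  intro F _ _ hgal hdeg hloc hreal M _
  obtain ⟨N, _, hNg, hMN, -⟩ := H30CY.exists_big M (∅ : Finset ℕ) (fun _ => ⊥)
    fun v hv => absurd hv (Finset.notMem_empty v)
  let _ : Algebra M N := (IntermediateField.inclusion hMN).toRingHom.toAlgebra
  have _ : IsScalarTower K M N := IsScalarTower.of_algebraMap_eq fun _ => rfl
  obtain ⟨r, hr⟩ := hdeg N hNg
  have hd : 4 * (p.1 : K) ^ 3 + 27 * (p.2 : K) ^ 2 ≠ 0 := by
    rw [← dsc_coe]
    intro h1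
    apply h0.ne
    apply RingOfIntegers.coe_injective
    rw [map_zero]
    exact h1
  have _ : FiniteDimensional K N := Module.Finite.of_restrictScalars_finite ℚ K N
  obtain ⟨R, hR⟩ : ∃ R : Finset (HeightOneSpectrum (𝓞 K)), R =
    (H30PN.ram_fin K N).toFinset.image (dn K) := ⟨_, rfl⟩
  obtain ⟨Sg, hSg⟩ : ∃ Sg : Finset (HeightOneSpectrum (𝓞 K)), Sg =
    P ∪ R.filter (fun v => ∃ t : 𝓞 K, t ^ 3 + p.1 * t + p.2 ∈ v.asIdeal) := ⟨_, rfl⟩
  have hPS : P ⊆ Sg := by
    rw [hSg]
    exact Finset.subset_union_left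
  have h1 := hrel Sg hPS
  have hnr := H73P2.noroot (K := K) (N := N) (k := M) hr h1.irr
  obtain ⟨L, _, _, _, θ, hL⟩ := H24PD.exists_cub (K := M) hnr
  have hdes := H24PD.descent hL (H73ZO.selS_mid (K := K) (N := N) ordSub hr (Sg := Sg) (S := ∅)
    h1.two hd (fun v hv _ => h1.nice v hv) (fun v hv => absurd hv (Finset.notMem_empty v)) ?_ ?_ ?_
    ?_ M L θ hL)
  · exact ⟨hdes.1, tors_of_noroot hnr, hdes.2⟩
  · intro s
    rcases hreal s with h2 | h2
    · exact Or.inl h2
    · exact Or.inr (h2 N)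
  · intro V hV _ hr'
    have h2 : dn K V ∈ R := by
      rw [hR, Finset.mem_image]
      exact ⟨V, (H30PN.ram_fin K N).mem_toFinset.2 hr', rfl⟩
    refine H73P2.noRootAt_of fun t ht => hV ?_
    rw [hSg]
    exact Finset.mem_union_right _ (Finset.mem_filter.2 ⟨h2, t, ht⟩)
  · intro v hv
    by_cases hs : ∃ ι : F →+* v.adicCompletion K, ∀ x : K,
        ι (algebraMap K F x) = algebraMap K (v.adicCompletion K) x
    · obtain ⟨ι, hι⟩ := hs
      exact descAt_split ⟨ι.comp N.val.toRingHom, fun x => hι x⟩ _ _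
    · rw [hSg, Finset.mem_union, Finset.mem_filter] at hv
      refine hloc v ?_ hs ?_ N hNg
      · rcases hv with h2 | ⟨h2, -⟩
        · exact Or.inl h2
        · right
          rw [hR, Finset.mem_image] at h2
          obtain ⟨V, h3, h4⟩ := h2
          exact ⟨N, inferInstance, V, h4, (H30PN.ram_fin K N).mem_toFinset.1 h3⟩
      · intro h2
        rcases hv with h3 | ⟨-, h3⟩
        · exact absurd h3 h2
        · exact h3
  · intro L _ _ _ θ hL
    refine H73ZO.relST_of ?_
    rw [Finset.union_empty]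
    exact h1.rel L θ hL

end H30ZO
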