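import Pool.Agent.H30.ZO.Ra
import Pool.Agent.H30.ZO.Zo
import Pool.Agent.H36.CY.Ag

/-!
The necessity of the condition at the real places (project MP_78d38b_ZO, no row).
-/

set_option autoImplicit false
set_option linter.unusedSectionVars false
open scoped Classical

open WithZero NumberField IsDedekindDomain H38RT
open H38T1 (SC sc scu rep eo la si Pri OddP tp unif)
open H76PP H73P2

namespace H30ZO

theorem desc_real (hos : H73P2.OrdSub) {k L k' L' : Type} [Field k] [NumberField k] [Field L]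
    [NumberField L] [Field k'] [NumberField k'] [Field L'] [NumberField L'] [Algebra k L]
    [Algebra k k'] [Algebra L L'] [Algebra k' L'] [Algebra k L'] [IsScalarTower k L L']
    [IsScalarTower k k' L'] {a b : k} {θ : L} {θ' : L'} (hQ : QS k L k' L' a b θ θ')
    (ha : ∀ v : HeightOneSpectrum (𝓞 k), v.valuation k a ≤ 1)
    (hb : ∀ v : HeightOneSpectrum (𝓞 k), v.valuation k b ≤ 1)
    (hD : 4 * a ^ 3 + 27 * b ^ 2 ≠ 0) (hsel : SelTriv k L a b θ)
    (hsel' : SelTriv k' L' (algebraMap k k' a) (algebraMap k k' b) θ')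
    (s₀ : k →+* ℝ) (hs₀ : ∀ s' : k' →+* ℝ, s'.comp (algebraMap k k') ≠ s₀) {d : Fin 3 → k}
    (hd : ev θ d ≠ 0) (hn : IsSquare (Algebra.norm k (ev θ d))) : LC s₀ a b d := by
  have hc₀ : sc (ev θ d) ∈ HH k L := (mem_HH hd).2 hn
  obtain ⟨c, hcH, hfin, h0, hre⟩ := exists_classR hos hQ.cub ha hb hD hsel s₀ hc₀
  obtain ⟨x, hx0, hxc⟩ := H38T1.sc_surj c
  obtain ⟨e, hex⟩ : ∃ e : Fin 3 → k, ev θ e = x :=
    ⟨fun i => hQ.cub.co i x, (hQ.cub.eq_co x).symm⟩
  have he0 : ev θ e ≠ 0 := by
    rw [hex]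
    exact hx0
  have hec : sc (ev θ e) = c := by
    rw [hex]
    exact hxc
  have hne : IsSquare (Algebra.norm k (ev θ e)) := (mem_HH he0).1 (by rw [hec]; exact hcH)
  have hco : algebraMap L L' (ev θ e) = ev θ' (fun i => algebraMap k k' (e i)) := hQ.coord e
  have he'0 : ev θ' (fun i => algebraMap k k' (e i)) ≠ 0 := by
    rw [← hco]
    exact (map_ne_zero _).2 he0
  have hsq : IsSquare (ev θ' (fun i => algebraMap k k' (e i))) := by
    refine hsel' _ he'0 ?_ ?_ ?_
    · rw [Te_norm hQ.cub', Te_nf_map, ← Te_norm hQ.cub]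
      exact hne.map _
    · intro u'
      have hov := H36CY.over_dn (K := k) u'
      have h1 := hfin (dn k u')
      rw [← hec] at h1
      exact Nc_comp _ (H73CY.LC_map hov.map (fun x => hov.map_algebraMap x)
        ((Wc_iff _ hQ.cub he0).1 h1))
    · intro s'
      have h1 := hre (s'.comp (algebraMap k k')) (hs₀ s')
      rw [← hec] at h1
      exact Nc_comp _ ((Wc_iff _ hQ.cub he0).1 h1)
  have hsqe : IsSquare (ev θ e) := Nc_square hQ he0 hne (by rw [hco]; exact hsq)
  have hc0 : c = 0 := by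
    rw [← hec]
    exact (H38T1.sc_eq_zero he0).2 hsqe
  rw [hc0, zero_sub, neg_eq_of_add_eq_zero_left (Nc_two (sc (ev θ d)))] at h0
  exact (Wc_iff _ hQ.cub hd).1 h0

/-- A class which violates the local condition at a real place with three real roots. -/
theorem real_wit {k : Type} [Field k] {a b : k} (s : k →+* ℝ)
    (hneg : s (4 * a ^ 3 + 27 * b ^ 2) < 0) :
    ∃ d : Fin 3 → k, Te_nf a b d ≠ 0 ∧ IsSquare (Te_nf a b d) ∧ ¬ LC s a b d := by
  have hs : s (4 * a ^ 3 + 27 * b ^ 2) = 4 * (s a) ^ 3 + 27 * (s b) ^ 2 := by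
    rw [map_add, map_mul, map_mul, map_pow, map_pow, map_ofNat, map_ofNat]
  rw [hs] at hneg
  rcases real_cases hneg.ne with ⟨r, p, q, hf, hpq⟩ | ⟨r₁, r₂, r₃, h12, h23, hf⟩
  · exfalso
    have e0 := hf 0
    have e1 := hf 1
    have e2 := hf (-1)
    have hB : s b = -(r * q) := by linear_combination e0
    have hp : p = r := by linear_combination (-1 / 2) * e1 + (-1 / 2) * e2 + hB
    have hA : s a = q - r ^ 2 := by
      rw [hp, hB] at e1
      linear_combination e1
    have h1 : 4 * (s a) ^ 3 + 27 * (s b) ^ 2 = (4 * q - r ^ 2) * (q + 2 * r ^ 2) ^ 2 := by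
      rw [hA, hB]
      ring
    rw [hp] at hpq
    rw [h1] at hneg
    have h2 : 0 ≤ (4 * q - r ^ 2) * (q + 2 * r ^ 2) ^ 2 :=
      mul_nonneg (by linarith) (sq_nonneg _)
    linarith
  · obtain ⟨q, hq1, hq2⟩ := exists_rat_btwn h23
    obtain ⟨r, hr⟩ : ∃ r : k, s r = (q : ℝ) := by
      have h0 : CharZero k := s.charZero
      exact ⟨(q : k), map_ratCast s q⟩
    obtain ⟨c, hc⟩ : ∃ c : k, c = -(r ^ 3 + a * r + b) := ⟨_, rfl⟩
    have hsc : s c = -(((q : ℝ) - r₁) * (((q : ℝ) - r₂) * ((q : ℝ) - r₃))) := by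
      rw [hc, map_neg, map_add, map_add, map_mul, map_pow, hr, hf]
      ring
    have hsc0 : 0 < s c := by
      rw [hsc]
      have h1 : 0 < (q : ℝ) - r₁ := by linarith
      have h2 : 0 < (q : ℝ) - r₂ := by linarith
      have h3 : 0 < r₃ - (q : ℝ) := by linarith
      have h4 := mul_pos h1 (mul_pos h2 h3)
      nlinarith
    have hc0 : c ≠ 0 := by
      rintro rfl
      rw [map_zero] at hsc0
      exact lt_irrefl _ hsc0
    have hnf : Te_nf a b ![-(r * c), c, 0] = (c ^ 2) * (c ^ 2) := by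
      simp [Te_nf]
      rw [hc]
      ring
    refine ⟨![-(r * c), c, 0], ?_, ?_, ?_⟩
    · rw [hnf]
      exact mul_ne_zero (pow_ne_zero 2 hc0) (pow_ne_zero 2 hc0)
    · rw [hnf]
      exact ⟨c ^ 2, rfl⟩
    · rintro ⟨x, y, z, hy, hxy, hm⟩
      have key : ∀ t : ℝ, t ^ 3 + s a * t + s b = 0 → 0 ≤ s c * (t - q) * (x - t) := by
        intro t ht
        have h1 := congrArg (H36CY.e1 t) hm
        rw [H36CY.e1_m3 ht, H36CY.e1_m3 ht] at h1
        have h2 : H36CY.e1 t (fun i => s ((![-(r * c), c, 0] : Fin 3 → k) i)) * H36CY.e1 t ![x, -1, 0] =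
            s c * (t - q) * (x - t) := by
          simp [H36CY.e1, hr]
          ring
        rw [← h2, h1]
        exact mul_self_nonneg _
      have hr1 := key r₁ (by rw [hf]; ring)
      have hr3 := key r₃ (by rw [hf]; ring)
      have h1 : x ≤ r₁ := by
        by_contra hx
        push Not at hx
        have h2 : s c * (r₁ - q) < 0 := mul_neg_of_pos_of_neg hsc0 (by linarith)
        have h3 := mul_neg_of_neg_of_pos h2 (by linarith : 0 < x - r₁)
        linarith
      have h3 : r₃ ≤ x := by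
        by_contra hx
        push Not at hx
        have h2 : 0 < s c * (r₃ - q) := mul_pos hsc0 (by linarith)
        have h3 := mul_neg_of_pos_of_neg h2 (by linarith : x - r₃ < 0)
        linarith
      linarith

/-- The real condition for all number fields between `K` and `F`. -/
def RealN (K F : Type) [Field K] [NumberField K] [Field F] [Algebra K F] (a b : K) : Prop :=
  ∀ s : K →+* ℝ, 0 < s (4 * a ^ 3 + 27 * b ^ 2) ∨
    ∀ (N : IntermediateField K F) [NumberField N], ∃ s' : N →+* ℝ, ∀ x : K,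
      s' (algebraMap K N x) = s x

/-- Root and Selmer group over a field which embeds in `F`. -/
theorem pf_sel {K F : Type} [Field K] [NumberField K] [Field F] [Algebra K F] {a b : 𝓞 K}
    (hDk : ∀ (m : Type) [Field m] [Algebra K m],
      4 * (algebraMap K m a) ^ 3 + 27 * (algebraMap K m b) ^ 2 ≠ 0)
    (h : PF K F (a, b)) (m : Type) [Field m] [NumberField m] [Algebra K m] (f : m →ₐ[K] F) :
    (∀ t : m, t ^ 3 + algebraMap K m a * t + algebraMap K m b ≠ 0) ∧
      ∀ (L : Type) [Field L] [NumberField L] [Algebra m L] (θ : L),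
        Cub m L (algebraMap K m a) (algebraMap K m b) θ →
        SelTriv m L (algebraMap K m a) (algebraMap K m b) θ := by
  let M : IntermediateField K F := f.fieldRange
  let e : m ≃ₐ[K] M := AlgEquiv.ofInjectiveField f
  have _ : NumberField M := NumberField.of_ringEquiv _ _ e.toRingEquiv
  have hM := h M
  refine ⟨fun t ht => ?_, fun L _ _ _ θ hL => ?_⟩
  · refine hM.noroot (hDk M) (e t) ?_
    have h4 := congrArg e ht
    rw [map_add, map_add, map_mul, map_pow, e.commutes, e.commutes, map_zero] at h4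
    exact h4
  · exact hM.sel (M := M) (k := m) e.symm.toRingEquiv (e.symm.commutes _)
      (e.symm.commutes _) L θ hL

/-- A real-valued embedding. -/
theorem to_real {k : Type} [Field k] (τ : k →+* ℂ)
    (h : ∀ x, (starRingEnd ℂ) (τ x) = τ x) : ∃ s : k →+* ℝ, ∀ x, ((s x : ℝ) : ℂ) = τ x := by
  have him : ∀ x, (τ x).im = 0 := fun x => Complex.conj_eq_iff_im.1 (h x)
  have hre : ∀ x, (((τ x).re : ℝ) : ℂ) = τ x := fun x => Complex.conj_eq_iff_re.1 (h x)
  refine ⟨{ toFun := fun x => (τ x).re, map_one' := ?_, map_mul' := ?_,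
            map_zero' := ?_, map_add' := ?_ }, hre⟩
  · rw [map_one, Complex.one_re]
  · intro x y
    change (τ (x * y)).re = (τ x).re * (τ y).re
    rw [map_mul, Complex.mul_re, him x, zero_mul, sub_zero]
  · change (τ 0).re = 0
    rw [map_zero, Complex.zero_re]
  · intro x y
    change (τ (x + y)).re = (τ x).re + (τ y).re
    rw [map_add, Complex.add_re]

/-- The real condition is necessary. -/
theorem zo_real {K F : Type} [Field K] [NumberField K] [Field F] [Algebra K F] [IsGalois K F]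
    {a b : 𝓞 K} (hD : 4 * a ^ 3 + 27 * b ^ 2 ≠ 0) (h : PF K F (a, b)) :
    RealN K F (a : K) (b : K) := by
  have hDK : (4 * (a : K) ^ 3 + 27 * (b : K) ^ 2) ≠ 0 := by
    intro h1
    apply hD
    apply FaithfulSMul.algebraMap_injective (𝓞 K) K
    rw [map_add, map_mul, map_mul, map_pow, map_pow, map_ofNat, map_ofNat, map_zero]
    exact h1
  have hDk : ∀ (m : Type) [Field m] [Algebra K m],
      4 * (algebraMap K m a) ^ 3 + 27 * (algebraMap K m b) ^ 2 ≠ 0 := by
    intro m _ _
    have h1 := (map_ne_zero (algebraMap K m)).2 hDK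
    simpa only [map_add, map_mul, map_pow, map_ofNat] using h1
  intro s
  by_contra hcon
  rw [not_or] at hcon
  obtain ⟨hneg, hno⟩ := hcon
  push Not at hno
  obtain ⟨N₁, _, hN₁⟩ := hno
  have hneg' : s (4 * (a : K) ^ 3 + 27 * (b : K) ^ 2) < 0 :=
    lt_of_le_of_ne (not_lt.1 hneg) ((map_ne_zero s).2 hDK)
  obtain ⟨N, _, hNg, hMN, -⟩ := H30CY.exists_big N₁ (∅ : Finset ℕ) (fun _ => ⊥)
    fun v hv => absurd hv (Finset.notMem_empty v)
  have hN : ∀ s' : N →+* ℝ, ∃ x : K, s' (algebraMap K N x) ≠ s x := by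
    intro s'
    obtain ⟨x, hx⟩ := hN₁ (s'.comp (IntermediateField.inclusion hMN).toRingHom)
    exact ⟨x, hx⟩
  have hfd : FiniteDimensional K N := Module.Finite.of_restrictScalars_finite ℚ K N
  -- the complex embedding
  let _ : Algebra K ℂ := ((Complex.ofRealHom).comp s).toAlgebra
  have hKC : ∀ x : K, algebraMap K ℂ x = ((s x : ℝ) : ℂ) := fun _ => rfl
  let σ : N →ₐ[K] ℂ := IsAlgClosed.lift
  let _ : Algebra N ℂ := σ.toRingHom.toAlgebra
  have _ : IsScalarTower K N ℂ := IsScalarTower.of_algebraMap_eq fun x => (σ.commutes x).symm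
  let χ : ℂ ≃ₐ[K] ℂ := AlgEquiv.ofRingEquiv (f := (Complex.conjAe : ℂ ≃+* ℂ)) (fun x => by
    rw [hKC]
    exact Complex.conj_ofReal _)
  have hχ : ∀ z : ℂ, χ z = (starRingEnd ℂ) z := fun _ => rfl
  obtain ⟨g, hg⟩ : ∃ g : N ≃ₐ[K] N, g = χ.restrictNormal N := ⟨_, rfl⟩
  have hgs : ∀ x : N, σ (g x) = (starRingEnd ℂ) (σ x) := by
    intro x
    rw [hg]
    exact χ.restrictNormal_commutes N x
  have hg2 : ∀ x : N, g (g x) = x := by
    intro x
    apply (σ : N →+* ℂ).injective
    change σ (g (g x)) = σ x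
    rw [hgs, hgs, Complex.conj_conj]
  have hg1 : g ≠ 1 := by
    intro h1
    obtain ⟨s', hs'⟩ := to_real (σ : N →+* ℂ) (fun x => by
      change (starRingEnd ℂ) (σ x) = σ x
      rw [← hgs, h1]
      rfl)
    obtain ⟨x, hx⟩ := hN s'
    apply hx
    have h2 : ((s' (algebraMap K N x) : ℝ) : ℂ) = ((s x : ℝ) : ℂ) := by
      rw [hs', ← hKC]
      exact σ.commutes x
    exact_mod_cast h2
  have hord : orderOf g = 2 := by
    refine orderOf_eq_prime ?_ hg1
    ext x
    rw [pow_two]
    exact congrArg _ (hg2 x)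
  let k : IntermediateField K N := IntermediateField.fixedField (Subgroup.zpowers g)
  have hkf : ∀ x : k, g (x : N) = (x : N) := fun x =>
    (IntermediateField.mem_fixedField_iff _ _).1 x.2 g (Subgroup.mem_zpowers g)
  have _ : NumberField k := NumberField.of_module_finite K k
  have two : Module.finrank k N = 2 := by
    rw [IntermediateField.finrank_fixedField_eq_card, Nat.card_zpowers, hord]
  obtain ⟨s₀, hs₀⟩ := to_real ((σ : N →+* ℂ).comp (algebraMap k N)) (fun x => by
    change (starRingEnd ℂ) (σ (x : N)) = σ (x : N)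
    rw [← hgs, hkf])
  have hs₀K : ∀ x : K, s₀ (algebraMap K k x) = s x := by
    intro x
    have h2 : ((s₀ (algebraMap K k x) : ℝ) : ℂ) = ((s x : ℝ) : ℂ) := by
      rw [hs₀, ← hKC]
      exact σ.commutes x
    exact_mod_cast h2
  have hs₀N : ∀ s' : N →+* ℝ, s'.comp (algebraMap k N) ≠ s₀ := by
    intro s' hs'
    obtain ⟨x, hx⟩ := hN s'
    apply hx
    rw [← hs₀K, ← hs']
    rfl
  have hint : ∀ (x : 𝓞 K) (w : HeightOneSpectrum (𝓞 k)), w.valuation k (algebraMap K k x) ≤ 1 := by
    intro x w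
    have e1 : algebraMap K k x = algebraMap (𝓞 k) k (algebraMap (𝓞 K) (𝓞 k) x) := rfl
    rw [e1]
    exact w.valuation_le_one _
  -- the Selmer groups
  obtain ⟨-, hT⟩ := pf_sel hDk h k (N.val.comp (IsScalarTower.toAlgHom K k N))
  obtain ⟨hir, hT'⟩ := pf_sel hDk h N N.val
  obtain ⟨L', _, _, _, θ', h'⟩ := H24PD.exists_cub (K := N) hir
  have _ : IsScalarTower k N L' := inferInstance
  have h'' : Cub N L' (algebraMap k N (algebraMap K k a)) (algebraMap k N (algebraMap K k b)) θ' := h'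
  obtain ⟨L, _, _, _, _, _, θ, hc, hθ⟩ := exists_sub h''
  have Q : QS k L N L' (algebraMap K k a) (algebraMap K k b) θ θ' := ⟨two, hc, h'', hθ⟩
  obtain ⟨d, hd1, hd2, hd3⟩ := real_wit (a := algebraMap K k a) (b := algebraMap K k b) s₀ (by
    have e1 : 4 * algebraMap K k a ^ 3 + 27 * algebraMap K k b ^ 2 =
        algebraMap K k (4 * (a : K) ^ 3 + 27 * (b : K) ^ 2) := by
      rw [map_add, map_mul, map_mul, map_pow, map_pow, map_ofNat, map_ofNat]
    rw [e1, hs₀K]
    exact hneg')
  apply hd3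
  refine desc_real H36MT.ordSub Q (hint a) (hint b) (hDk k) (hT L θ hc) (hT' L' θ' h'') s₀ hs₀N ?_ ?_
  · rw [← Te_norm hc d, Ne, Algebra.norm_eq_zero_iff] at hd1
    exact hd1
  · rw [Te_norm hc d]
    exact hd2

end H30ZO
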