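import Pool.Agent.H30.ZO.Df

/-!
Definitions for the project MP_78d38b_ZO (no row): levels of the points of `y^2 = x^3 + A x + B`.
-/

set_option autoImplicit false
set_option linter.unusedSectionVars false
open scoped Classical

open WithZero WeierstrassCurve

namespace H30ZO

/-- The points of the curve. -/
abbrev Pc {F : Type} [Field F] (A B : F) : Type := (⟨0, 0, 0, A, B⟩ : WeierstrassCurve F).toAffine.Point

/-- The points of level at least `m`. -/
def Lv {F : Type} [Field F] (V : Valuation F (WithZero (Multiplicative ℤ))) {A B : F} (m : ℕ)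
    (P : Pc A B) : Prop :=
  P = 0 ∨ ∃ (x y : F) (h : (⟨0, 0, 0, A, B⟩ : WeierstrassCurve F).toAffine.Nonsingular x y),
    P = Affine.Point.some x y h ∧ exp (2 * (m : ℤ)) ≤ V x

/-- The parameter `x / y`. -/
def zt {F : Type} [Field F] {A B : F} : Pc A B → F
  | 0 => 0
  | .some x y _ => x / y

theorem zt_zero {F : Type} [Field F] {A B : F} : zt (0 : Pc A B) = 0 := rfl

theorem zt_some {F : Type} [Field F] {A B : F} {x y : F}
    (h : (⟨0, 0, 0, A, B⟩ : WeierstrassCurve F).toAffine.Nonsingular x y) :
    zt (Affine.Point.some x y h : Pc A B) = x / y := rfl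

end H30ZO
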