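import Pool.Agent.H30.ZO.Df2
import Pool.Agent.H10.GrHen

/-!
ROW Bd (project MP_78d38b_ZO, about 120 lines): points with a given parameter over the completion.

PROOF. `t = 0`: the point `0`. `t ≠ 0`: `F := v.adicCompletion k`. There is `s ∈ F`, `Valued.v (s - 1) < 1`, with `s = 1 + A t^4 s^2 + B t^6 s^3`: contraction `s ↦ 1 + A t^4 s^2 + B t^6 s^3` on `{s | Valued.v (s - 1) < 1}` (`F` complete), or Hensel's lemma for the polynomial `X - 1 - A t^4 X^2 - B t^6 X^3`, whose derivative at `1` is a unit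
(Hensel for completions of number fields: Pool/Agent/H10/GrHen.lean, Pool/Agent/H38/T6 (`ad_hens`), `HenselianLocalRing` of the integers; or row Ae of this project, whose limit argument is the same). Then `x := (t^2 s)⁻¹`, `y := (t^3 s)⁻¹` satisfy `y^2 = x^3 + A x + B` (multiply by `t^6 s^3`), `y ≠ 0`, so the point is nonsingular
(`H73P2.Lb_ns` in Pool/Agent/H73/P2/Lb.lean, `2 ≠ 0`), `x / y = t` and `Valued.v x = Valued.v t ^ (-2) ≥ exp (2 m)`.
-/

set_option autoImplicit false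
set_option linter.unusedSectionVars false
open scoped Classical

open WithZero WeierstrassCurve NumberField IsDedekindDomain

namespace H30ZO

section Hensel

open Topology Filter

variable {F : Type*} [Field F] [Valued F (WithZero (Multiplicative ℤ))]

/-- The Newton iteration for the cubic equation `y = -(a0 + a2 y^2 + a3 y^3)`. -/
def Bd_it (a0 a2 a3 : F) : ℕ → F
  | 0 => 0
  | n + 1 => -(a0 + a2 * (Bd_it a0 a2 a3 n) ^ 2 + a3 * (Bd_it a0 a2 a3 n) ^ 3)

lemma Bd_le {a0 a2 a3 : F} (h0 : Valued.v a0 < 1) (h2 : Valued.v a2 ≤ 1) (h3 : Valued.v a3 ≤ 1)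
    (n : ℕ) : Valued.v (Bd_it a0 a2 a3 n) ≤ Valued.v a0 := by
  induction n with
  | zero => change Valued.v (0 : F) ≤ _; rw [map_zero]; exact zero_le
  | succ n ih =>
    change Valued.v (-(a0 + a2 * (Bd_it a0 a2 a3 n) ^ 2 + a3 * (Bd_it a0 a2 a3 n) ^ 3)) ≤ _
    rw [Valuation.map_neg]
    have hy1 : Valued.v (Bd_it a0 a2 a3 n) ≤ 1 := ih.trans h0.le
    refine (Valuation.map_add _ _ _).trans (max_le ((Valuation.map_add _ _ _).trans
      (max_le le_rfl ?_)) ?_)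
    · rw [map_mul, map_pow, pow_two]
      calc Valued.v a2 * (Valued.v (Bd_it a0 a2 a3 n) * Valued.v (Bd_it a0 a2 a3 n))
          ≤ 1 * (Valued.v a0 * 1) := mul_le_mul' h2 (mul_le_mul' ih hy1)
        _ = _ := by rw [one_mul, mul_one]
    · rw [map_mul, map_pow, pow_succ, pow_two]
      calc Valued.v a3 * (Valued.v (Bd_it a0 a2 a3 n) * Valued.v (Bd_it a0 a2 a3 n) *
            Valued.v (Bd_it a0 a2 a3 n))
          ≤ 1 * (Valued.v a0 * 1 * 1) := mul_le_mul' h3 (mul_le_mul' (mul_le_mul' ih hy1) hy1)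
        _ = _ := by rw [one_mul, mul_one, mul_one]

lemma Bd_succ {a0 a2 a3 : F} (h0 : Valued.v a0 < 1) (h2 : Valued.v a2 ≤ 1)
    (h3 : Valued.v a3 ≤ 1) (n : ℕ) :
    Valued.v (Bd_it a0 a2 a3 (n + 1) - Bd_it a0 a2 a3 n) ≤ exp (-((n + 1 : ℕ) : ℤ)) := by
  have hc' := Pool.Agent.H10.lt_one_le_exp h0
  induction n with
  | zero =>
    change Valued.v (-(a0 + a2 * (0 : F) ^ 2 + a3 * (0 : F) ^ 3) - 0) ≤ _
    have : -(a0 + a2 * (0 : F) ^ 2 + a3 * (0 : F) ^ 3) - 0 = -a0 := by ring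
    rw [this, Valuation.map_neg]
    exact_mod_cast hc'
  | succ n ih =>
    set y := Bd_it a0 a2 a3 (n + 1) with hy
    set z := Bd_it a0 a2 a3 n with hz
    have e : Bd_it a0 a2 a3 (n + 1 + 1) - y =
        -((y - z) * (a2 * (y + z) + a3 * (y ^ 2 + y * z + z ^ 2))) := by
      have e1 : Bd_it a0 a2 a3 (n + 1 + 1) = -(a0 + a2 * y ^ 2 + a3 * y ^ 3) := rfl
      have e2 : y = -(a0 + a2 * z ^ 2 + a3 * z ^ 3) := rfl
      rw [e1]
      linear_combination (-1 : F) * e2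
    rw [e, Valuation.map_neg, map_mul]
    have hyl : Valued.v y ≤ exp (-1 : ℤ) := (Bd_le h0 h2 h3 _).trans hc'
    have hzl : Valued.v z ≤ exp (-1 : ℤ) := (Bd_le h0 h2 h3 _).trans hc'
    have hexp : (exp (-1 : ℤ) : WithZero (Multiplicative ℤ)) ≤ 1 := by
      rw [← exp_zero, exp_le_exp]; omega
    have q1 : Valued.v (a2 * (y + z)) ≤ exp (-1 : ℤ) := by
      rw [map_mul]
      calc Valued.v a2 * Valued.v (y + z) ≤ 1 * exp (-1 : ℤ) :=
            mul_le_mul' h2 ((Valuation.map_add _ _ _).trans (max_le hyl hzl))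
        _ = _ := one_mul _
    have q2 : Valued.v (y ^ 2 + y * z + z ^ 2) ≤ exp (-1 : ℤ) := by
      refine (Valuation.map_add _ _ _).trans (max_le ((Valuation.map_add _ _ _).trans
        (max_le ?_ ?_)) ?_)
      · rw [map_pow, pow_two]
        calc Valued.v y * Valued.v y ≤ exp (-1 : ℤ) * 1 := mul_le_mul' hyl (hyl.trans hexp)
          _ = _ := mul_one _
      · rw [map_mul]
        calc Valued.v y * Valued.v z ≤ exp (-1 : ℤ) * 1 := mul_le_mul' hyl (hzl.trans hexp)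
          _ = _ := mul_one _
      · rw [map_pow, pow_two]
        calc Valued.v z * Valued.v z ≤ exp (-1 : ℤ) * 1 := mul_le_mul' hzl (hzl.trans hexp)
          _ = _ := mul_one _
    have q3 : Valued.v (a3 * (y ^ 2 + y * z + z ^ 2)) ≤ exp (-1 : ℤ) := by
      rw [map_mul]
      calc Valued.v a3 * Valued.v (y ^ 2 + y * z + z ^ 2) ≤ 1 * exp (-1 : ℤ) := mul_le_mul' h3 q2
        _ = _ := one_mul _
    have h1 : Valued.v (a2 * (y + z) + a3 * (y ^ 2 + y * z + z ^ 2)) ≤ exp (-1 : ℤ) :=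
      (Valuation.map_add _ _ _).trans (max_le q1 q3)
    calc Valued.v (y - z) * Valued.v (a2 * (y + z) + a3 * (y ^ 2 + y * z + z ^ 2))
        ≤ exp (-((n + 1 : ℕ) : ℤ)) * exp (-1 : ℤ) := mul_le_mul' ih h1
      _ = exp (-((n + 1 + 1 : ℕ) : ℤ)) := by
          rw [← exp_add]; congr 1

lemma Bd_sub {a0 a2 a3 : F} (h0 : Valued.v a0 < 1) (h2 : Valued.v a2 ≤ 1)
    (h3 : Valued.v a3 ≤ 1) (n k : ℕ) :
    Valued.v (Bd_it a0 a2 a3 (n + k) - Bd_it a0 a2 a3 n) ≤ exp (-((n + 1 : ℕ) : ℤ)) := by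
  induction k with
  | zero => rw [add_zero, sub_self, map_zero]; exact zero_le
  | succ k ih =>
    have e : Bd_it a0 a2 a3 (n + (k + 1)) - Bd_it a0 a2 a3 n =
        (Bd_it a0 a2 a3 (n + k + 1) - Bd_it a0 a2 a3 (n + k)) +
          (Bd_it a0 a2 a3 (n + k) - Bd_it a0 a2 a3 n) := by
      rw [← add_assoc]; ring
    rw [e]
    refine (Valuation.map_add _ _ _).trans (max_le ((Bd_succ h0 h2 h3 _).trans ?_) ih)
    rw [exp_le_exp]
    push_cast
    omega

theorem Bd_exists [CompleteSpace F] {a0 a2 a3 : F} (h0 : Valued.v a0 < 1)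
    (h2 : Valued.v a2 ≤ 1) (h3 : Valued.v a3 ≤ 1) :
    ∃ t : F, Valued.v t < 1 ∧ t = -(a0 + a2 * t ^ 2 + a3 * t ^ 3) := by
  have hcau : CauchySeq (Bd_it a0 a2 a3) := by
    rw [CauchySeq, Valued.cauchy_iff]
    refine ⟨inferInstance, fun γ => ?_⟩
    obtain ⟨N, hN⟩ := exists_exp_neg_natCast_lt
      (x := MonoidWithZeroHom.ValueGroup₀.embedding γ.1) (by simp)
    refine ⟨Bd_it a0 a2 a3 '' Set.Ici N, Filter.image_mem_map (Filter.Ici_mem_atTop N), ?_⟩
    rintro _ ⟨m, hm, rfl⟩ _ ⟨n, hn, rfl⟩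
    rw [Valuation.restrict_lt_iff_lt_embedding]
    refine lt_of_le_of_lt ?_ hN
    have h1 := Bd_sub h0 h2 h3 N (m - N)
    have h2 := Bd_sub h0 h2 h3 N (n - N)
    rw [Nat.add_sub_cancel' hm] at h1
    rw [Nat.add_sub_cancel' hn] at h2
    have e : Bd_it a0 a2 a3 n - Bd_it a0 a2 a3 m = (Bd_it a0 a2 a3 n - Bd_it a0 a2 a3 N) -
        (Bd_it a0 a2 a3 m - Bd_it a0 a2 a3 N) := by ring
    rw [e]
    refine (Valuation.map_sub _ _ _).trans (max_le (h2.trans ?_) (h1.trans ?_)) <;>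
    · rw [exp_le_exp]; push_cast; omega
  obtain ⟨t, ht⟩ := cauchySeq_tendsto_of_complete hcau
  have e1 : Tendsto (fun n => Bd_it a0 a2 a3 (n + 1)) atTop (𝓝 t) :=
    ht.comp (tendsto_add_atTop_nat 1)
  have e2 : Tendsto (fun n => Bd_it a0 a2 a3 (n + 1)) atTop
      (𝓝 (-(a0 + a2 * t ^ 2 + a3 * t ^ 3))) := by
    have : (fun n => Bd_it a0 a2 a3 (n + 1)) =
        fun n => -(a0 + a2 * (Bd_it a0 a2 a3 n) ^ 2 + a3 * (Bd_it a0 a2 a3 n) ^ 3) := rfl
    rw [this]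
    exact ((tendsto_const_nhds.add ((ht.pow 2).const_mul a2)).add ((ht.pow 3).const_mul a3)).neg
  refine ⟨t, ?_, tendsto_nhds_unique e1 e2⟩
  -- the valuation of the limit
  have hnb : {z : F | Valued.v.restrict (z - t) < 1} ∈ 𝓝 t := by
    rw [Valued.mem_nhds]
    exact ⟨1, by intro z hz; simpa using hz⟩
  obtain ⟨n, hn⟩ := (ht.eventually hnb).exists
  have hn1 : Valued.v (Bd_it a0 a2 a3 n - t) < 1 := by
    have hn' : Valued.v.restrict (Bd_it a0 a2 a3 n - t) < 1 := hn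
    rwa [Valuation.restrict_lt_one_iff] at hn'
  have e : t = Bd_it a0 a2 a3 n - (Bd_it a0 a2 a3 n - t) := by ring
  rw [e]
  exact lt_of_le_of_lt (Valuation.map_sub _ _ _)
    (max_lt (lt_of_le_of_lt (Bd_le h0 h2 h3 n) h0) hn1)

end Hensel

lemma Bd_hens {F : Type*} [Field F] [Valued F (WithZero (Multiplicative ℤ))] [CompleteSpace F]
    {g0 g1 g2 g3 : F} (h0 : Valued.v g0 < 1) (h1 : Valued.v g1 = 1) (h2 : Valued.v g2 ≤ 1)
    (h3 : Valued.v g3 ≤ 1) :
    ∃ y : F, Valued.v y < 1 ∧ g0 + g1 * y + g2 * y ^ 2 + g3 * y ^ 3 = 0 := by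
  have hne : g1 ≠ 0 := by
    intro h
    rw [h, map_zero] at h1
    exact zero_ne_one h1
  obtain ⟨t, ht1, ht⟩ := Bd_exists (F := F) (a0 := g0 / g1) (a2 := g2 / g1) (a3 := g3 / g1)
    (by rw [map_div₀, h1, div_one]; exact h0) (by rw [map_div₀, h1, div_one]; exact h2)
    (by rw [map_div₀, h1, div_one]; exact h3)
  refine ⟨t, ht1, ?_⟩
  have h : g1 * t = -(g0 + g2 * t ^ 2 + g3 * t ^ 3) := by
    calc g1 * t = g1 * (-(g0 / g1 + g2 / g1 * t ^ 2 + g3 / g1 * t ^ 3)) := by rw [← ht]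
      _ = _ := by field_simp
  linear_combination h

lemma Bd_nat {F : Type*} [Field F] (V : Valuation F (WithZero (Multiplicative ℤ))) (n : ℕ) :
    V (n : F) ≤ 1 := by
  induction n with
  | zero => rw [Nat.cast_zero, map_zero]; exact zero_le
  | succ n ih =>
    rw [Nat.cast_succ]
    exact V.map_add_le ih (le_of_eq (map_one V))

lemma Bd_mul_lt {x y : WithZero (Multiplicative ℤ)} (hx : x ≤ 1) (hy : y < 1) : x * y < 1 :=
  lt_of_le_of_lt (by calc x * y ≤ 1 * y := mul_le_mul' hx le_rfl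
    _ = y := one_mul y) hy


theorem exists_zt {k : Type} [Field k] [NumberField k] (v : HeightOneSpectrum (𝓞 k))
    {A B : v.adicCompletion k} (hA : Valued.v A ≤ 1) (hB : Valued.v B ≤ 1) {m : ℕ} (hm : 1 ≤ m)
    {t : v.adicCompletion k} (ht : Valued.v t ≤ exp (-(m : ℤ))) :
    ∃ P : Pc A B, Lv Valued.v m P ∧ zt P = t := by
  by_cases ht0 : t = 0
  · refine ⟨0, Or.inl rfl, ?_⟩
    rw [ht0]
    rfl
  have ht1 : Valued.v t < 1 := lt_of_le_of_lt ht (by
    rw [← exp_zero, exp_lt_exp]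
    omega)
  have hp : ∀ n : ℕ, n ≠ 0 → Valued.v (t ^ n) < 1 := by
    intro n hn
    rw [map_pow]
    exact pow_lt_one₀ zero_le ht1 hn
  have hu : Valued.v (A * t ^ 4) < 1 := by
    rw [map_mul]
    exact Bd_mul_lt hA (hp 4 (by norm_num))
  have hw : Valued.v (B * t ^ 6) < 1 := by
    rw [map_mul]
    exact Bd_mul_lt hB (hp 6 (by norm_num))
  have h2v : Valued.v (2 : v.adicCompletion k) ≤ 1 := by
    have := Bd_nat (Valued.v : Valuation (v.adicCompletion k) _) 2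
    rwa [Nat.cast_ofNat] at this
  have h3v : Valued.v (3 : v.adicCompletion k) ≤ 1 := by
    have := Bd_nat (Valued.v : Valuation (v.adicCompletion k) _) 3
    rwa [Nat.cast_ofNat] at this
  have h2u : Valued.v (2 * (A * t ^ 4)) < 1 := by
    rw [map_mul]
    exact Bd_mul_lt h2v hu
  have h3w : Valued.v (3 * (B * t ^ 6)) < 1 := by
    rw [map_mul]
    exact Bd_mul_lt h3v hw
  have hg0 : Valued.v (-(A * t ^ 4 + B * t ^ 6)) < 1 := by
    rw [Valuation.map_neg]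
    exact lt_of_le_of_lt (Valuation.map_add _ _ _) (max_lt hu hw)
  have hg1 : Valued.v (1 + -(2 * (A * t ^ 4) + 3 * (B * t ^ 6))) = 1 := by
    have h : Valued.v (-(2 * (A * t ^ 4) + 3 * (B * t ^ 6))) < Valued.v (1 : v.adicCompletion k) := by
      rw [Valuation.map_neg, map_one]
      exact lt_of_le_of_lt (Valuation.map_add _ _ _) (max_lt h2u h3w)
    rw [Valuation.map_add_eq_of_lt_left _ h, map_one]
  have hg2 : Valued.v (-(A * t ^ 4 + 3 * (B * t ^ 6))) ≤ 1 := by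
    rw [Valuation.map_neg]
    exact (Valuation.map_add _ _ _).trans (max_le hu.le h3w.le)
  have hg3 : Valued.v (-(B * t ^ 6)) ≤ 1 := by
    rw [Valuation.map_neg]
    exact hw.le
  obtain ⟨y, hy1, hy⟩ := Bd_hens hg0 hg1 hg2 hg3
  have hs1 : Valued.v (1 + y) = 1 := by
    have h : Valued.v y < Valued.v (1 : v.adicCompletion k) := by
      rw [map_one]
      exact hy1
    rw [Valuation.map_add_eq_of_lt_left _ h, map_one]
  obtain ⟨s, hs⟩ : ∃ s : v.adicCompletion k, s = 1 + y := ⟨_, rfl⟩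
  rw [← hs] at hs1
  have hse : s = 1 + A * t ^ 4 * s ^ 2 + B * t ^ 6 * s ^ 3 := by
    rw [hs]
    linear_combination hy
  have hs0 : s ≠ 0 := by
    intro h
    rw [h, map_zero] at hs1
    exact zero_ne_one hs1
  have h20 : (2 : v.adicCompletion k) ≠ 0 := by
    have := charZero_of_injective_algebraMap (algebraMap k (v.adicCompletion k)).injective
    exact two_ne_zero
  have hyne : (t ^ 3 * s)⁻¹ ≠ 0 := inv_ne_zero (mul_ne_zero (pow_ne_zero 3 ht0) hs0)
  have hcurve : ((t ^ 3 * s)⁻¹) ^ 2 = ((t ^ 2 * s)⁻¹) ^ 3 + A * (t ^ 2 * s)⁻¹ + B := by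
    have e1 : ((t ^ 3 * s)⁻¹) ^ 2 = s / (t ^ 6 * s ^ 3) := by
      field_simp
    have e2 : ((t ^ 2 * s)⁻¹) ^ 3 + A * (t ^ 2 * s)⁻¹ + B =
        (1 + A * t ^ 4 * s ^ 2 + B * t ^ 6 * s ^ 3) / (t ^ 6 * s ^ 3) := by
      field_simp
    rw [e1, e2, ← hse]
  have hns := H73P2.Lb_ns h20 hyne hcurve
  refine ⟨Affine.Point.some _ _ hns, Or.inr ⟨_, _, hns, rfl, ?_⟩, ?_⟩
  · rw [map_inv₀, map_mul, hs1, mul_one, map_pow]
    have hv0 : Valued.v t ≠ 0 := (Valuation.ne_zero_iff _).2 ht0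
    have h1 : Valued.v t ^ 2 ≤ exp (-(2 * (m : ℤ))) := by
      calc Valued.v t ^ 2 ≤ exp (-(m : ℤ)) ^ 2 := pow_le_pow_left₀ zero_le ht 2
        _ = exp (-(2 * (m : ℤ))) := by
            rw [← exp_nsmul]
            congr 1
            simp
    rw [← inv_inv (exp (2 * (m : ℤ)))]
    refine inv_anti₀ (zero_lt_iff.2 (pow_ne_zero 2 hv0)) ?_
    rw [← exp_neg]
    exact h1
  · rw [zt_some]
    field_simp

end H30ZO
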