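import Mathlib

/-!
ROW Aa (project MP_78d38b_ZO, about 80 lines): the counting lemma.

PROOF. Put `φ : X → ∀ j, H / W j`, `c ↦ (class of c)_j` (`H / W j` is `H ⧸ (W j).addSubgroupOf H`; `relIndex` is the
`index` of `addSubgroupOf`, so `Nat.card (H ⧸ (W j).addSubgroupOf H) = (W j).relIndex H`, it is finite because
it is not zero). It is an additive homomorphism and injective by `htriv`. `Nat.card (∀ j, H / W j) = ∏ j, (W j).relIndex H`
(`Nat.card_pi`) `≤ Nat.card X`, so `φ` is bijective (`Function.Injective` between finite types with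
`Nat.card` of the target at most that of the source: `Function.Injective.bijective_of_nat_card_le` or
`Fintype.bijective_iff_injective_and_card`). Given `h` take `c` with `φ c = (class of h j)_j`; then `c - h j ∈ W j`
(`QuotientAddGroup.eq_iff_sub_mem` or `QuotientAddGroup.eq` : `-c + h j ∈ W j`).
-/

set_option autoImplicit false

namespace H30ZO

theorem exists_lift {G J : Type} [AddCommGroup G] [Fintype J] (H X : AddSubgroup G) (hX : X ≤ H)
    (W : J → AddSubgroup G) (hfin : ∀ j, (W j).relIndex H ≠ 0) (hXf : Finite X)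
    (hprod : ∏ j, (W j).relIndex H ≤ Nat.card X)
    (htriv : ∀ c ∈ X, (∀ j, c ∈ W j) → c = 0) (h : J → G) (hh : ∀ j, h j ∈ H) :
    ∃ c ∈ X, ∀ j, c - h j ∈ W j := by
  classical
  have hcard : ∀ j, Nat.card (H ⧸ (W j).addSubgroupOf H) = (W j).relIndex H := fun j => rfl
  have hf : ∀ j, Finite (H ⧸ (W j).addSubgroupOf H) := fun j =>
    Nat.finite_of_card_ne_zero (by rw [hcard]; exact hfin j)
  have hpi : Nat.card (∀ j, H ⧸ (W j).addSubgroupOf H) = ∏ j, (W j).relIndex H := by
    rw [Nat.card_pi]
    rfl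
  obtain ⟨φ, hφ⟩ : ∃ φ : X → ∀ j, H ⧸ (W j).addSubgroupOf H,
      ∀ c j, φ c j = QuotientAddGroup.mk (⟨(c : G), hX c.2⟩ : H) := ⟨fun c j => _, fun _ _ => rfl⟩
  have hinj : Function.Injective φ := by
    intro c d hcd
    have h1 : ∀ j, (c : G) - d ∈ W j := by
      intro j
      have h2 := congrFun hcd j
      rw [hφ, hφ, QuotientAddGroup.eq, AddSubgroup.mem_addSubgroupOf] at h2
      have h3 : (c : G) - d = - (- (c : G) + d) := by abel
      rw [h3]
      exact neg_mem h2
    have h4 := htriv _ (sub_mem c.2 d.2) h1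
    exact Subtype.ext (sub_eq_zero.1 h4)
  have hbij : Function.Bijective φ := by
    refine Function.Injective.bijective_of_nat_card_le hinj ?_
    rw [hpi]
    exact hprod
  obtain ⟨c, hc⟩ := hbij.2 (fun j => QuotientAddGroup.mk (⟨h j, hh j⟩ : H))
  refine ⟨c, c.2, fun j => ?_⟩
  have h2 := congrFun hc j
  rw [hφ, QuotientAddGroup.eq, AddSubgroup.mem_addSubgroupOf] at h2
  have h3 : (c : G) - h j = - (- (c : G) + h j) := by abel
  rw [h3]
  exact neg_mem h2

end H30ZO
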