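import Pool.Agent.H30.ZO.Df

/-!
ROW Ab (project MP_78d38b_ZO, about 150 lines): the number of square roots of one modulo a power of a prime.

PROOF. `p := v.asIdeal`, `e := e2 v`, `R := 𝓞 K ⧸ p ^ N`. `2 ∈ p ^ e`, `2 ∉ p ^ (e + 1)` (`e2_spec`, `HeightOneSpectrum.valuation_le_pow_iff_dvd` or
`Pool/Agent/H10` lemmas: `v.valuation K x ≤ exp (-n) ↔ x ∈ p ^ n` for `x ∈ 𝓞 K`: `HeightOneSpectrum.intValuation_le_pow_iff_mem`). For `x ∈ 𝓞 K`: `x ^ 2 - 1 ∈ p ^ N` iff `x - 1 ∈ p ^ (N - e)` or `x + 1 ∈ p ^ (N - e)`: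
(⇐) the other factor is `(x - 1) + 2 ∈ p ^ e` (as `N - e ≥ e + 1`), the product is in `p ^ N`. (⇒) with `i, j` the orders of `x - 1, x + 1` (one of them zero: trivial): `i + j ≥ N ≥ 2 e + 1`; `2 = (x + 1) - (x - 1)` has
order `e`, so `min i j ≤ e` and therefore `max i j ≥ N - e`. The two cases exclude each other: otherwise `2 ∈ p ^ (N - e) ≤ p ^ (e + 1)`.
So the set of solutions in `R` (all solutions are units) is the disjoint union of `1 + I` and `-1 + I`, where `I` is the image of `p ^ (N - e)` in `R`, so its number is `2 * Nat.card I`, and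
`Nat.card I = Nat.card (p ^ (N - e) / p ^ N) = Nv v ^ N / Nv v ^ (N - e) = Nv v ^ e`: `Nat.card R = Nv v ^ N` (`Ideal.absNorm`, multiplicative; `Submodule.cardQuot_pow_of_prime`), `Nat.card R = Nat.card (R / I) * Nat.card I`, `R / I ≅ 𝓞 K ⧸ p ^ (N - e)`
(third isomorphism theorem, `DoubleQuot.quotQuotEquivQuotOfLE`). `qq v = Nv v ^ e` by definition.
-/

set_option autoImplicit false
set_option linter.unusedSectionVars false
open scoped Classical

open WithZero NumberField IsDedekindDomain H38RT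
open H38T1 (SC sc scu rep eo la si Pri OddP tp unif)
open H76PP

namespace H30ZO

section Ab

variable {K : Type} [Field K] [NumberField K] (v : HeightOneSpectrum (𝓞 K))

theorem Ab_two : v.intValuation (2 : 𝓞 K) = exp (-(e2 v : ℤ)) := by
  have h := e2_spec v
  have h2 : algebraMap (𝓞 K) K 2 = 2 := map_ofNat _ 2
  rw [← h, ← HeightOneSpectrum.valuation_of_algebraMap (K := K) v (2 : 𝓞 K)]
  exact congrArg _ h2

theorem Ab_mem (x : 𝓞 K) (n : ℕ) : x ∈ v.asIdeal ^ n ↔ v.intValuation x ≤ exp (-(n : ℤ)) :=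
  (HeightOneSpectrum.intValuation_le_pow_iff_mem v x n).symm

theorem Ab_two_mem : (2 : 𝓞 K) ∈ v.asIdeal ^ e2 v := by
  rw [Ab_mem, Ab_two]

theorem Ab_two_nmem : (2 : 𝓞 K) ∉ v.asIdeal ^ (e2 v + 1) := by
  rw [Ab_mem, Ab_two, exp_le_exp]
  push_cast
  omega

theorem Ab_or {N : ℕ} (hN : 2 * e2 v + 1 ≤ N) (x : 𝓞 K) :
    x ^ 2 - 1 ∈ v.asIdeal ^ N ↔ x - 1 ∈ v.asIdeal ^ (N - e2 v) ∨ x + 1 ∈ v.asIdeal ^ (N - e2 v) := by
  have hle : v.asIdeal ^ (N - e2 v) ≤ v.asIdeal ^ e2 v := Ideal.pow_le_pow_right (by omega)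
  have hmul : v.asIdeal ^ (N - e2 v) * v.asIdeal ^ e2 v = v.asIdeal ^ N := by
    rw [← pow_add]
    congr 1
    omega
  constructor
  · intro h
    by_contra hcon
    rw [not_or, Ab_mem, Ab_mem, not_le, not_le] at hcon
    obtain ⟨h1, h2⟩ := hcon
    have hf : x ^ 2 - 1 = (x - 1) * (x + 1) := by ring
    rw [hf, Ab_mem, map_mul] at h
    have n1 : v.intValuation (x - 1) ≠ 0 := ne_of_gt (lt_of_le_of_lt zero_le h1)
    have n2 : v.intValuation (x + 1) ≠ 0 := ne_of_gt (lt_of_le_of_lt zero_le h2)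
    obtain ⟨i, hi⟩ : ∃ i : ℤ, v.intValuation (x - 1) = exp i := ⟨_, (exp_log n1).symm⟩
    obtain ⟨j, hj⟩ : ∃ j : ℤ, v.intValuation (x + 1) = exp j := ⟨_, (exp_log n2).symm⟩
    rw [hi, exp_lt_exp] at h1
    rw [hj, exp_lt_exp] at h2
    rw [hi, hj, ← exp_add, exp_le_exp] at h
    have h3 : (2 : 𝓞 K) = (x + 1) - (x - 1) := by ring
    have h4 : v.intValuation (2 : 𝓞 K) ≤ max (exp j) (exp i) := by
      rw [h3, ← hi, ← hj]
      exact Valuation.map_sub _ _ _
    rw [Ab_two, le_max_iff, exp_le_exp, exp_le_exp] at h4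
    rw [Nat.cast_sub (by omega)] at h1 h2
    omega
  · have hf : x ^ 2 - 1 = (x - 1) * (x + 1) := by ring
    rintro (h | h)
    · rw [hf, ← hmul]
      refine Ideal.mul_mem_mul h ?_
      have h5 : x + 1 = (x - 1) + 2 := by ring
      rw [h5]
      exact Ideal.add_mem _ (hle h) (Ab_two_mem v)
    · rw [hf, ← hmul, mul_comm (x - 1)]
      refine Ideal.mul_mem_mul h ?_
      have h5 : x - 1 = (x + 1) - 2 := by ring
      rw [h5]
      exact Ideal.sub_mem _ (hle h) (Ab_two_mem v)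

theorem Ab_card (n : ℕ) : Nat.card (𝓞 K ⧸ v.asIdeal ^ n) = Nv v ^ n := by
  rw [Nv, ← map_pow, Ideal.absNorm_apply, Submodule.cardQuot_apply]

theorem Ab_cardI {N m e : ℕ} (h : m + e = N) :
    Nat.card ((v.asIdeal ^ m).map (Ideal.Quotient.mk (v.asIdeal ^ N))) = Nv v ^ e := by
  have hle : v.asIdeal ^ N ≤ v.asIdeal ^ m := Ideal.pow_le_pow_right (by omega)
  have h1 := Submodule.card_eq_card_quotient_mul_card
    ((v.asIdeal ^ m).map (Ideal.Quotient.mk (v.asIdeal ^ N)))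
  have h2 : Nat.card ((𝓞 K ⧸ v.asIdeal ^ N) ⧸ (v.asIdeal ^ m).map (Ideal.Quotient.mk (v.asIdeal ^ N))) =
      Nv v ^ m := by
    rw [← Ab_card v m]
    exact Nat.card_congr (DoubleQuot.quotQuotEquivQuotOfLE hle).toEquiv
  rw [Ab_card, h2] at h1
  have hpos : 0 < Nv v ^ m := by
    refine pow_pos ?_ _
    rw [Nv]
    exact Nat.pos_of_ne_zero (fun h0 => v.ne_bot (Ideal.absNorm_eq_zero_iff.1 h0))
  rw [mul_comm (Nat.card _)] at h1
  have h3 : Nv v ^ N = Nv v ^ m * Nv v ^ e := by rw [← pow_add, h]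
  rw [h3] at h1
  exact (Nat.eq_of_mul_eq_mul_left hpos h1).symm

end Ab

theorem Ab_count {R : Type} [CommRing R] [Finite R] (I : Ideal R)
    (hsol : ∀ r : R, r ^ 2 = 1 ↔ r - 1 ∈ I ∨ r + 1 ∈ I) (hdis : ∀ r : R, r - 1 ∈ I → r + 1 ∉ I) :
    Nat.card {x : Rˣ // x ^ 2 = 1} = 2 * Nat.card I := by
  have hp : ∀ a : I, ((a : R) + 1) ^ 2 = 1 := by
    intro a
    rw [hsol]
    left
    rw [add_sub_cancel_right]
    exact a.2
  have hm : ∀ a : I, ((a : R) - 1) ^ 2 = 1 := by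
    intro a
    rw [hsol]
    right
    rw [sub_add_cancel]
    exact a.2
  have e1 : {x : Rˣ // x ^ 2 = 1} ≃ (I ⊕ I) :=
    { toFun := fun u => if h : ((u : Rˣ) : R) - 1 ∈ I then
        Sum.inl ⟨_, h⟩ else Sum.inr ⟨((u : Rˣ) : R) + 1, by
          have h2 : ((u : Rˣ) : R) ^ 2 = 1 := by
            rw [← Units.val_pow_eq_pow_val, u.2, Units.val_one]
          exact ((hsol _).1 h2).resolve_left h⟩
      invFun := Sum.elim (fun a : I => ⟨Units.mkOfMulEqOne ((a : R) + 1)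
          ((a : R) + 1) (by rw [← sq]; exact hp a), by
            apply Units.ext
            rw [Units.val_pow_eq_pow_val, Units.val_mkOfMulEqOne, Units.val_one]
            exact hp a⟩)
          (fun a : I => ⟨Units.mkOfMulEqOne ((a : R) - 1)
          ((a : R) - 1) (by rw [← sq]; exact hm a), by
            apply Units.ext
            rw [Units.val_pow_eq_pow_val, Units.val_mkOfMulEqOne, Units.val_one]
            exact hm a⟩)
      left_inv := by
        intro u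
        apply Subtype.ext
        apply Units.ext
        dsimp only
        split_ifs with h
        · simp only [Sum.elim_inl, Units.val_mkOfMulEqOne, sub_add_cancel]
        · simp only [Sum.elim_inr, Units.val_mkOfMulEqOne, add_sub_cancel_right]
      right_inv := by
        rintro (a | a)
        · simp only [Sum.elim_inl, Units.val_mkOfMulEqOne, add_sub_cancel_right, SetLike.coe_mem, dite_true]
        · have h : ¬ ((a : R) - 1) - 1 ∈ I := by
            intro h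
            refine hdis _ h ?_
            rw [sub_add_cancel]
            exact a.2
          simp only [Sum.elim_inr, Units.val_mkOfMulEqOne, sub_add_cancel, h, dite_false] }
  rw [Nat.card_congr e1, Nat.card_sum]
  ring

theorem two_tors {K : Type} [Field K] [NumberField K] (v : HeightOneSpectrum (𝓞 K)) (N : ℕ)
    (hN : 2 * e2 v + 1 ≤ N) :
    Nat.card {x : (𝓞 K ⧸ v.asIdeal ^ N)ˣ // x ^ 2 = 1} = 2 * qq v := by
  have hfin : Finite (𝓞 K ⧸ v.asIdeal ^ N) := by
    refine Nat.finite_of_card_ne_zero ?_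
    rw [Ab_card]
    refine pow_ne_zero _ ?_
    rw [Nv]
    exact fun h0 => v.ne_bot (Ideal.absNorm_eq_zero_iff.1 h0)
  set I := (v.asIdeal ^ (N - e2 v)).map (Ideal.Quotient.mk (v.asIdeal ^ N)) with hI
  have hle : v.asIdeal ^ N ≤ v.asIdeal ^ (N - e2 v) := Ideal.pow_le_pow_right (by omega)
  have hmemI : ∀ x : 𝓞 K, Ideal.Quotient.mk (v.asIdeal ^ N) x ∈ I ↔ x ∈ v.asIdeal ^ (N - e2 v) := by
    intro x
    rw [hI, Ideal.mem_map_iff_of_surjective _ Ideal.Quotient.mk_surjective]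
    constructor
    · rintro ⟨y, hy, hxy⟩
      rw [Ideal.Quotient.eq] at hxy
      have := Ideal.sub_mem _ hy (hle hxy)
      rwa [sub_sub_cancel] at this
    · intro hx
      exact ⟨x, hx, rfl⟩
  have hsol : ∀ r : 𝓞 K ⧸ v.asIdeal ^ N, r ^ 2 = 1 ↔ r - 1 ∈ I ∨ r + 1 ∈ I := by
    intro r
    obtain ⟨x, rfl⟩ := Ideal.Quotient.mk_surjective r
    have h1 : Ideal.Quotient.mk (v.asIdeal ^ N) x - 1 = Ideal.Quotient.mk (v.asIdeal ^ N) (x - 1) := by
      rw [map_sub, map_one]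
    have h2 : Ideal.Quotient.mk (v.asIdeal ^ N) x + 1 = Ideal.Quotient.mk (v.asIdeal ^ N) (x + 1) := by
      rw [map_add, map_one]
    rw [h1, h2, hmemI, hmemI, ← Ab_or v hN, ← Ideal.Quotient.eq_zero_iff_mem, map_sub, map_pow, map_one,
      sub_eq_zero]
  have hdis : ∀ r : 𝓞 K ⧸ v.asIdeal ^ N, r - 1 ∈ I → r + 1 ∉ I := by
    intro r h1 h2
    have h3 : Ideal.Quotient.mk (v.asIdeal ^ N) 2 ∈ I := by
      have h4 : Ideal.Quotient.mk (v.asIdeal ^ N) 2 = (r + 1) - (r - 1) := by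
        rw [map_ofNat]
        ring
      rw [h4]
      exact Ideal.sub_mem _ h2 h1
    rw [hmemI] at h3
    exact Ab_two_nmem v (Ideal.pow_le_pow_right (by omega) h3)
  have hcI : Nat.card I = Nv v ^ e2 v := Ab_cardI v (by omega)
  rw [Ab_count I hsol hdis, hcI, qq]

end H30ZO
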