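import Pool.Agent.H30.ZO.Df
import Pool.Agent.H76.PP.Tb

/-!
ROW Ad (project MP_78d38b_ZO, about 120 lines): the orders of two at the places above `v`.

PROOF. `H76PP.ord_dn` (Pool/Agent/H76/PP/Ta.lean): for `w` above `v` there is `e ≥ 1` (the ramification index) with `ord_w (algebraMap x) = e ord_v x`; `Nv w = Nv v ^ f` with the inertia degree `f` (`Ideal.absNorm_eq_pow_inertiaDeg` / `Ideal.inertiaDeg`), and the sum over the places above `v` of `e f` is `finrank k L = 3` (`Ideal.sum_ramification_inertia`;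
`Pool/Agent/H76/PP/Tb.lean` (`ord_norm`) and `Pool/Agent/H30/PN/Sp.lean` translate between `HeightOneSpectrum` above `v` and the finset of prime factors). So `qq w = Nv w ^ e2 w = Nv v ^ (f e e2 v) = qq v ^ (e f)`.
SHORTER (no inertia degrees): `2 = π^m u`-free version with `ord_norm` (Tb.lean): `ord_v (N_{L/k} x) log (Nv v) = ∑_w ord_w x log (Nv w)` for `x ∈ L`, applied to `x = 2`, `N_{L/k} 2 = 2^3`: `∏_w Nv w ^ (ord_w 2) = Nv v ^ (3 ord_v 2)`. Use whichever the statement of `ord_norm` allows.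
-/

set_option autoImplicit false
set_option linter.unusedSectionVars false
open scoped Classical

open WithZero NumberField IsDedekindDomain H38RT
open H38T1 (SC sc scu rep eo la si Pri OddP tp unif)
open H76PP

namespace H30ZO

private theorem ZOAd_Nv {k L : Type} [Field k] [NumberField k] [Field L] [NumberField L]
    [Algebra k L] (w : HeightOneSpectrum (𝓞 L)) :
    Nv w = Nv (dn k w) ^ (w.asIdeal.inertiaDeg (𝓞 k)) := by
  have h1 : w.asIdeal.IsMaximal := w.isMaximal
  have h2 : (dn k w).asIdeal.IsMaximal := (dn k w).isMaximal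
  have h3 : w.asIdeal.LiesOver (dn k w).asIdeal := ⟨rfl⟩
  have h4 : Ideal.relNorm (𝓞 k) w.asIdeal = (dn k w).asIdeal ^ (w.asIdeal.inertiaDeg (𝓞 k)) :=
    Ideal.relNorm_eq_pow_of_isMaximal w.asIdeal (dn k w).asIdeal
  have h5 := Ideal.absNorm_relNorm (R := 𝓞 k) (S := 𝓞 L) w.asIdeal
  rw [h4, map_pow] at h5
  exact h5.symm

private theorem ZOAd_e2 {k : Type} [Field k] [NumberField k] (v : HeightOneSpectrum (𝓞 k)) :
    ord (v.valuation k) 2 = (e2 v : ℤ) := by
  rw [ord, e2_spec, log_exp, neg_neg]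

theorem prod_qq {k L : Type} [Field k] [NumberField k] [Field L] [NumberField L] [Algebra k L]
    {a b : k} {θ : L} (h : Cub k L a b θ) (v : HeightOneSpectrum (𝓞 k)) :
    ∏ w ∈ (fin_above (L := L) v).toFinset, qq w = qq v ^ 3 := by
  have hfr : Module.finrank k L = 3 := h.finrank
  have h2L : (2 : L) ≠ 0 := two_ne_zero
  have hn : Algebra.norm k (2 : L) = 2 ^ 3 := by
    have e1 := Algebra.norm_algebraMap (R := k) (S := L) (2 : k)
    rw [hfr, map_ofNat] at e1
    exact e1
  have h1 := ord_norm (K := k) (L := L) v h2L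
  have h0 : ∑ᶠ w : {w : HeightOneSpectrum (𝓞 L) // dn k w = v},
        (w.1.asIdeal.inertiaDeg (𝓞 k) : ℤ) * ord (w.1.valuation L) 2 =
      ∑ w ∈ (fin_above (L := L) v).toFinset,
        (w.asIdeal.inertiaDeg (𝓞 k) : ℤ) * ord (w.valuation L) 2 := by
    rw [← finsum_mem_eq_finite_toFinset_sum (fun w : HeightOneSpectrum (𝓞 L) =>
      (w.asIdeal.inertiaDeg (𝓞 k) : ℤ) * ord (w.valuation L) 2) (fin_above (L := L) v)]
    exact finsum_set_coe_eq_finsum_mem {w : HeightOneSpectrum (𝓞 L) | dn k w = v}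
      (f := fun w => (w.asIdeal.inertiaDeg (𝓞 k) : ℤ) * ord (w.valuation L) 2)
  have h2k : (2 : k) ≠ 0 := two_ne_zero
  have h3 : ord (v.valuation k) ((2 : k) ^ 3) = 3 * (e2 v : ℤ) := by
    have e1 : (2 : k) ^ 3 = 2 * (2 * 2) := by ring
    rw [e1, ord_mul h2k (mul_ne_zero h2k h2k), ord_mul h2k h2k, ZOAd_e2]
    ring
  rw [h0, hn, h3] at h1
  have h4 : 3 * e2 v = ∑ w ∈ (fin_above (L := L) v).toFinset,
      w.asIdeal.inertiaDeg (𝓞 k) * e2 w := by
    have e1 : ((3 * e2 v : ℕ) : ℤ) = ((∑ w ∈ (fin_above (L := L) v).toFinset,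
        w.asIdeal.inertiaDeg (𝓞 k) * e2 w : ℕ) : ℤ) := by
      push_cast
      rw [h1]
      refine Finset.sum_congr rfl fun w _ => ?_
      rw [ZOAd_e2]
    exact_mod_cast e1
  have h5 : ∀ w ∈ (fin_above (L := L) v).toFinset,
      qq w = Nv v ^ (w.asIdeal.inertiaDeg (𝓞 k) * e2 w) := by
    intro w hw
    have e1 : dn k w = v := by
      have := (Set.Finite.mem_toFinset _).1 hw
      exact this
    rw [qq, ZOAd_Nv (k := k) w, e1, ← pow_mul]
  rw [Finset.prod_congr rfl h5, Finset.prod_pow_eq_pow_sum, ← h4, qq, ← pow_mul, mul_comm]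

end H30ZO
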