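import Pool.Agent.H30.ZO.Df

/-!
ROW Ae (project MP_78d38b_ZO, about 130 lines): square roots near one in the cubic algebra over the completion.

PROOF. `F := v.adicCompletion k` (complete, `Valued F (WithZero (Multiplicative ℤ))`), `A := F[T]/(T^3 + A T + B)` with the product `m3 A B` on `Fin 3 → F`. `m3` is bilinear, commutative, associative with unit `![1, 0, 0]` (polynomial identities, `funext; fin_cases; simp [m3]; ring`) and preserves integrality: if all coordinates of `x` have valuation at most `α` and those of `y` at most `β`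
then those of `m3 A B x y` have valuation at most `α β` (`A`, `B` integral). We look for `s = 1 + 2 t` with `t^2 + t = l`, i.e. `t = l - t^2`. Iterate `t_0 = 0`, `t_(n+1) = l - t_n^2`: all coordinates of `t_n` have valuation at most `exp (-1)`, and
`t_(n+1) - t_n = (t_(n-1) - t_n)(t_(n-1) + t_n)` has coordinates of valuation at most `exp (-(n+1))`. So each coordinate is a Cauchy sequence in `F`, let `t` be the limit (coordinatewise; `F` is complete; the model for such a limit argument in a completion is in Pool/Agent/H10/GrHen.lean, or use `cauchySeq_tendsto_of_complete`, the series `∑ (t_(n+1) - t_n)` with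
`NonarchimedeanAddGroup.summable_of_tendsto_cofinite_zero`, or `HenselianLocalRing`-free: `Valued` topology with `Valued.mem_nhds`). By continuity of the polynomial map `t^2 + t = l`, and `(1 + 2 t)^2 = 1 + 4 (t + t^2) = 1 + 4 l`.
-/

set_option autoImplicit false
set_option linter.unusedSectionVars false
open scoped Classical

open WithZero NumberField IsDedekindDomain H38RT
open H38T1 (SC sc scu rep eo la si Pri OddP tp unif)
open H76PP

namespace H30ZO

section AeAux

open Filter Topology

variable {F : Type*} [Field F] [Valued F (WithZero (Multiplicative ℤ))]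

/-- The iteration `t ↦ l - t ^ 2` in the cubic algebra. -/
private def aeT (A B : F) (l : Fin 3 → F) : ℕ → Fin 3 → F
  | 0 => 0
  | n + 1 => fun j => l j - m3 A B (aeT A B l n) (aeT A B l n) j

private lemma ae_m3 {A B : F} (hA : Valued.v A ≤ 1) (hB : Valued.v B ≤ 1)
    {α β : WithZero (Multiplicative ℤ)} {x y : Fin 3 → F} (hx : ∀ j, Valued.v (x j) ≤ α)
    (hy : ∀ j, Valued.v (y j) ≤ β) (j : Fin 3) : Valued.v (m3 A B x y j) ≤ α * β := by
  have hm : ∀ i j, Valued.v (x i * y j) ≤ α * β := by
    intro i j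
    rw [map_mul]
    exact mul_le_mul' (hx i) (hy j)
  have hc : ∀ (a w : F), Valued.v a ≤ 1 → Valued.v w ≤ α * β → Valued.v (a * w) ≤ α * β := by
    intro a w ha hw
    rw [map_mul]
    calc _ ≤ 1 * (α * β) := mul_le_mul' ha hw
      _ = _ := one_mul _
  have ha : ∀ u w : F, Valued.v u ≤ α * β → Valued.v w ≤ α * β → Valued.v (u + w) ≤ α * β :=
    fun u w hu hw => (Valuation.map_add _ _ _).trans (max_le hu hw)
  have hs : ∀ u w : F, Valued.v u ≤ α * β → Valued.v w ≤ α * β → Valued.v (u - w) ≤ α * β :=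
    fun u w hu hw => (Valuation.map_sub _ _ _).trans (max_le hu hw)
  fin_cases j
  · exact hs _ _ (hm 0 0) (hc _ _ hB (ha _ _ (hm 1 2) (hm 2 1)))
  · exact hs _ _ (hs _ _ (ha _ _ (hm 0 1) (hm 1 0)) (hc _ _ hA (ha _ _ (hm 1 2) (hm 2 1))))
      (hc _ _ hB (hm 2 2))
  · exact hs _ _ (ha _ _ (ha _ _ (hm 0 2) (hm 1 1)) (hm 2 0)) (hc _ _ hA (hm 2 2))

private lemma ae_le {A B : F} (hA : Valued.v A ≤ 1) (hB : Valued.v B ≤ 1) {l : Fin 3 → F}
    (hl : ∀ j, Valued.v (l j) ≤ exp (-1 : ℤ)) (n : ℕ) :
    ∀ j, Valued.v (aeT A B l n j) ≤ exp (-1 : ℤ) := by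
  induction n with
  | zero =>
    intro j
    change Valued.v (0 : F) ≤ _
    rw [map_zero]
    exact zero_le
  | succ n ih =>
    intro j
    change Valued.v (l j - m3 A B (aeT A B l n) (aeT A B l n) j) ≤ _
    refine (Valuation.map_sub _ _ _).trans (max_le (hl j) ?_)
    refine (ae_m3 hA hB ih ih j).trans ?_
    rw [← exp_add, exp_le_exp]
    norm_num

private lemma ae_dif (A B : F) (t u : Fin 3 → F) (j : Fin 3) :
    m3 A B t t j - m3 A B u u j = m3 A B (fun i => t i - u i) (fun i => t i + u i) j := by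
  fin_cases j
  · simp only [m3, Fin.zero_eta, Matrix.cons_val_zero]
    ring
  · simp only [m3, Fin.mk_one, Matrix.cons_val_one, Matrix.cons_val_zero]
    ring
  · simp [m3]
    ring

private lemma ae_succ {A B : F} (hA : Valued.v A ≤ 1) (hB : Valued.v B ≤ 1) {l : Fin 3 → F}
    (hl : ∀ j, Valued.v (l j) ≤ exp (-1 : ℤ)) (n : ℕ) :
    ∀ j, Valued.v (aeT A B l (n + 1) j - aeT A B l n j) ≤ exp (-((n + 1 : ℕ) : ℤ)) := by
  induction n with
  | zero =>
    intro j
    change Valued.v (aeT A B l 1 j - (0 : F)) ≤ _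
    rw [sub_zero]
    exact_mod_cast ae_le hA hB hl 1 j
  | succ n ih =>
    intro j
    have e : aeT A B l (n + 1 + 1) j - aeT A B l (n + 1) j =
        -(m3 A B (fun i => aeT A B l (n + 1) i - aeT A B l n i)
          (fun i => aeT A B l (n + 1) i + aeT A B l n i) j) := by
      rw [← ae_dif]
      change (l j - m3 A B (aeT A B l (n + 1)) (aeT A B l (n + 1)) j) -
        (l j - m3 A B (aeT A B l n) (aeT A B l n) j) = _
      ring
    rw [e, Valuation.map_neg]
    refine (ae_m3 hA hB ih (β := exp (-1 : ℤ)) (fun i =>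
      (Valuation.map_add _ _ _).trans (max_le (ae_le hA hB hl _ i) (ae_le hA hB hl _ i))) j).trans
      ?_
    rw [← exp_add, exp_le_exp]
    push_cast
    omega

private lemma ae_sub {A B : F} (hA : Valued.v A ≤ 1) (hB : Valued.v B ≤ 1) {l : Fin 3 → F}
    (hl : ∀ j, Valued.v (l j) ≤ exp (-1 : ℤ)) (j : Fin 3) (n k : ℕ) :
    Valued.v (aeT A B l (n + k) j - aeT A B l n j) ≤ exp (-((n + 1 : ℕ) : ℤ)) := by
  induction k with
  | zero => rw [add_zero, sub_self, map_zero]; exact zero_le
  | succ k ih =>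
    have e : aeT A B l (n + (k + 1)) j - aeT A B l n j =
        (aeT A B l (n + k + 1) j - aeT A B l (n + k) j) +
          (aeT A B l (n + k) j - aeT A B l n j) := by
      rw [← add_assoc]; ring
    rw [e]
    refine (Valuation.map_add _ _ _).trans (max_le ((ae_succ hA hB hl _ j).trans ?_) ih)
    rw [exp_le_exp]
    push_cast
    omega

private lemma ae_lim [CompleteSpace F] {A B : F} (hA : Valued.v A ≤ 1) (hB : Valued.v B ≤ 1)
    {l : Fin 3 → F} (hl : ∀ j, Valued.v (l j) ≤ exp (-1 : ℤ)) :
    ∃ t : Fin 3 → F, ∀ j, m3 A B t t j + t j = l j := by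
  have hcau : ∀ j, CauchySeq fun n => aeT A B l n j := by
    intro j
    rw [CauchySeq, Valued.cauchy_iff]
    refine ⟨inferInstance, fun γ => ?_⟩
    obtain ⟨N, hN⟩ := exists_exp_neg_natCast_lt
      (x := MonoidWithZeroHom.ValueGroup₀.embedding γ.1) (by simp)
    refine ⟨(fun n => aeT A B l n j) '' Set.Ici N,
      Filter.image_mem_map (Filter.Ici_mem_atTop N), ?_⟩
    rintro _ ⟨m, hm, rfl⟩ _ ⟨n, hn, rfl⟩
    rw [Valuation.restrict_lt_iff_lt_embedding]
    refine lt_of_le_of_lt ?_ hN
    have h1 := ae_sub hA hB hl j N (m - N)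
    have h2 := ae_sub hA hB hl j N (n - N)
    rw [Nat.add_sub_cancel' hm] at h1
    rw [Nat.add_sub_cancel' hn] at h2
    have e : aeT A B l n j - aeT A B l m j =
        (aeT A B l n j - aeT A B l N j) - (aeT A B l m j - aeT A B l N j) := by ring
    show Valued.v (aeT A B l n j - aeT A B l m j) ≤ _
    rw [e]
    refine (Valuation.map_sub _ _ _).trans (max_le (h2.trans ?_) (h1.trans ?_)) <;>
    · rw [exp_le_exp]; push_cast; omega
  choose t ht using fun j => cauchySeq_tendsto_of_complete (hcau j)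
  have ht2 : Tendsto (fun n => aeT A B l n) atTop (𝓝 t) := tendsto_pi_nhds.2 ht
  refine ⟨t, fun j => ?_⟩
  have hc : Continuous fun u : Fin 3 → F => l j - m3 A B u u j := by
    fin_cases j
    · simp only [m3, Fin.zero_eta, Matrix.cons_val_zero]
      fun_prop
    · simp only [m3, Fin.mk_one, Matrix.cons_val_one, Matrix.cons_val_zero]
      fun_prop
    · simp [m3]
      fun_prop
  have h1 : Tendsto (fun n => aeT A B l (n + 1) j) atTop (𝓝 (t j)) :=
    (ht j).comp (tendsto_add_atTop_nat 1)
  have h2 : Tendsto (fun n => aeT A B l (n + 1) j) atTop (𝓝 (l j - m3 A B t t j)) :=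
    (hc.tendsto t).comp ht2
  have := tendsto_nhds_unique h1 h2
  linear_combination this

end AeAux

theorem sqrt_alg {k : Type} [Field k] [NumberField k] (v : HeightOneSpectrum (𝓞 k))
    {A B : v.adicCompletion k} (hA : Valued.v A ≤ 1) (hB : Valued.v B ≤ 1)
    {l : Fin 3 → v.adicCompletion k} (hl : ∀ j, Valued.v (l j) ≤ exp (-1 : ℤ)) :
    ∃ s : Fin 3 → v.adicCompletion k, m3 A B s s = fun j => (![1, 0, 0] : Fin 3 → _) j + 4 * l j := by
  obtain ⟨t, ht⟩ := ae_lim hA hB hl
  refine ⟨fun j => (![1, 0, 0] : Fin 3 → _) j + 2 * t j, ?_⟩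
  funext j
  rw [← ht j]
  fin_cases j
  · simp [m3]
    ring
  · simp [m3]
    ring
  · simp [m3]
    ring

end H30ZO
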