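import Pool.Agent.H30.ZO.Df
import Pool.Agent.H36.CY.Ld

/-!
ROW Af (project MP_78d38b_ZO, about 130 lines): approximation of the square roots at all places above `v`.

PROOF. For each of the finitely many `w` above `v` (`fin_above`) there is `r_w` in the completion with `x = r_w^2` (`mem_Sqv`, `mem_Sq`), `r_w ≠ 0`; choose `s_w ∈ L` close to `r_w` (density; `H36CY.near_coe` in Pool/Agent/H36/CY/Ld.lean, or `HeightOneSpectrum.denseRange_algebraMap`), and then `s ∈ L` close to all `s_w` at `w` (weak approximation at finitely many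
primes of `L`: Mathlib `IsDedekindDomain.exists_forall_sub_mem_ideal` after clearing denominators, or the pool: grep `approx` in Pool/Agent/H88/T7, Pool/Agent/H10/GrPlace.lean, Pool/Agent/H36/CY; `Tf_approx` in Pool/Agent/H76/PP/Tf.lean). If `w.valuation (s - r_w) < exp (-M) * w.valuation (r_w)` (in the completion) then
`s ≠ 0`, `Valued.v s = Valued.v r_w`, `x / s^2 - 1 = (r_w - s)(r_w + s) / s^2` has valuation at most `exp (-M)`.
-/

set_option autoImplicit false
set_option linter.unusedSectionVars false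
open scoped Classical

open WithZero NumberField IsDedekindDomain H38RT
open H38T1 (SC sc scu rep eo la si Pri OddP tp unif)
open H76PP

namespace H30ZO

private theorem Af_pow {N : Type} [Field N] [NumberField N] (S : Finset (HeightOneSpectrum (𝓞 N)))
    {b : 𝓞 N} (hb : b ≠ 0) {ε : HeightOneSpectrum (𝓞 N) → WithZero (Multiplicative ℤ)}
    (hε : ∀ w, ε w ≠ 0) :
    ∃ k : ℕ, ∀ V ∈ S, exp (-(k : ℤ)) < ε V * V.intValuation b := by
  induction S using Finset.induction_on with
  | empty => exact ⟨0, fun V hV => absurd hV (Finset.notMem_empty V)⟩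
  | insert V S hV ih =>
    obtain ⟨k, hk⟩ := ih
    have h0 : ε V * V.intValuation b ≠ 0 := mul_ne_zero (hε V) (V.intValuation_ne_zero b hb)
    obtain ⟨l, hl⟩ : ∃ l : ℕ, exp (-(l : ℤ)) < ε V * V.intValuation b := by
      refine ⟨(-(log (ε V * V.intValuation b)) + 1).toNat, ?_⟩
      have h2 := Int.self_le_toNat (-(log (ε V * V.intValuation b)) + 1)
      have h3 : exp (-((-(log (ε V * V.intValuation b)) + 1).toNat : ℤ)) <
          exp (log (ε V * V.intValuation b)) := by
        rw [exp_lt_exp]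
        omega
      rwa [exp_log h0] at h3
    refine ⟨max k l, fun U hU => ?_⟩
    rcases Finset.mem_insert.mp hU with rfl | hU
    · refine lt_of_le_of_lt ?_ hl
      rw [exp_le_exp]
      have : (l : ℤ) ≤ ((max k l : ℕ) : ℤ) := by exact_mod_cast le_max_right k l
      omega
    · refine lt_of_le_of_lt ?_ (hk U hU)
      rw [exp_le_exp]
      have : (k : ℤ) ≤ ((max k l : ℕ) : ℤ) := by exact_mod_cast le_max_left k l
      omega

private theorem Af_weak {N : Type} [Field N] [NumberField N]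
    (S : Finset (HeightOneSpectrum (𝓞 N))) (x : HeightOneSpectrum (𝓞 N) → N)
    {ε : HeightOneSpectrum (𝓞 N) → WithZero (Multiplicative ℤ)} (hε : ∀ w, ε w ≠ 0) :
    ∃ y : N, ∀ V ∈ S, V.valuation N (y - x V) < ε V := by
  obtain ⟨b, hb⟩ := IsLocalization.exist_integer_multiples_of_finset (nonZeroDivisors (𝓞 N))
    (S.image x)
  have hb0 : (b : 𝓞 N) ≠ 0 := nonZeroDivisors.ne_zero b.2
  have ha : ∀ V : HeightOneSpectrum (𝓞 N), V ∈ S → ∃ a : 𝓞 N,
      algebraMap (𝓞 N) N a = algebraMap (𝓞 N) N b * x V := by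
    intro V hV
    obtain ⟨a, ha⟩ := hb (x V) (Finset.mem_image_of_mem x hV)
    refine ⟨a, ?_⟩
    rw [ha, Algebra.smul_def]
  obtain ⟨k, hk⟩ := Af_pow S hb0 hε
  obtain ⟨z, hz⟩ := IsDedekindDomain.exists_forall_sub_mem_ideal
    (s := S) (fun V : HeightOneSpectrum (𝓞 N) => V.asIdeal) (fun _ => k)
    (fun V _ => V.prime)
    (fun V _ U _ hVU h => hVU (HeightOneSpectrum.ext h))
    (fun V => (ha V.1 V.2).choose)
  have hbN : algebraMap (𝓞 N) N b ≠ 0 := by
    intro h
    exact hb0 ((FaithfulSMul.algebraMap_injective (𝓞 N) N) (by rw [h, map_zero]))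
  refine ⟨algebraMap (𝓞 N) N z / algebraMap (𝓞 N) N b, fun V hV => ?_⟩
  have h1 := hz V hV
  have h2 := (ha V hV).choose_spec
  set a := (ha V hV).choose with hadef
  have h3 : algebraMap (𝓞 N) N z / algebraMap (𝓞 N) N b - x V =
      algebraMap (𝓞 N) N (z - a) / algebraMap (𝓞 N) N b := by
    rw [map_sub, h2]
    field_simp
  rw [h3, map_div₀, V.valuation_of_algebraMap, V.valuation_of_algebraMap,
    div_lt_iff₀ (zero_lt_iff.mpr (V.intValuation_ne_zero b hb0))]
  exact lt_of_le_of_lt ((V.intValuation_le_pow_iff_mem (z - a) k).mpr h1) (hk V hV)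

private theorem Af_exp_le (M : ℕ) : exp (-(M : ℤ)) ≤ (1 : WithZero (Multiplicative ℤ)) := by
  rw [← exp_zero, exp_le_exp]
  omega

/-- The local computation. -/
private theorem Af_loc {F : Type} [Field F] (V : Valuation F (WithZero (Multiplicative ℤ))) {x r s : F} (M : ℕ)
    (hr : r ≠ 0) (hx : x = r * r) (h : V (s - r) < exp (-(M : ℤ)) * V r) :
    s ≠ 0 ∧ V (x / s ^ 2 - 1) ≤ exp (-(M : ℤ)) := by
  have hr0 : V r ≠ 0 := (Valuation.ne_zero_iff _).2 hr
  have hrp : 0 < V r := zero_lt_iff.2 hr0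
  have h1 : V (s - r) < V r := by
    refine lt_of_lt_of_le h ?_
    calc exp (-(M : ℤ)) * V r ≤ 1 * V r := mul_le_mul_left (Af_exp_le M) (V r)
      _ = V r := one_mul _
  have h2 : V s = V r := by
    have h3 : s = r + (s - r) := by ring
    rw [h3]
    exact Valuation.map_add_eq_of_lt_left V h1
  have hs0 : V s ≠ 0 := by rw [h2]; exact hr0
  have hs : s ≠ 0 := (Valuation.ne_zero_iff _).1 hs0
  refine ⟨hs, ?_⟩
  have h4 : x / s ^ 2 - 1 = (r - s) * (r + s) / s ^ 2 := by
    rw [hx]
    field_simp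
    ring
  have h5 : V (r + s) ≤ V r := V.map_add_le le_rfl (le_of_eq h2)
  have h6 : V (r - s) ≤ exp (-(M : ℤ)) * V r := by
    rw [← Valuation.map_neg, neg_sub]
    exact h.le
  rw [h4, map_div₀, map_mul, map_pow, h2]
  rw [div_le_iff₀ (pow_pos hrp 2)]
  calc V (r - s) * V (r + s) ≤ (exp (-(M : ℤ)) * V r) * V r := mul_le_mul' h6 h5
    _ = exp (-(M : ℤ)) * V r ^ 2 := by rw [mul_assoc, pow_two]

theorem approx_sq {k L : Type} [Field k] [NumberField k] [Field L] [NumberField L] [Algebra k L]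
    (v : HeightOneSpectrum (𝓞 k)) {x : L} (hx : x ≠ 0) (hs : sc x ∈ Sqv k L v) (M : ℕ) :
    ∃ s : L, s ≠ 0 ∧ ∀ w : HeightOneSpectrum (𝓞 L), dn k w = v →
      w.valuation L (x / s ^ 2 - 1) ≤ exp (-(M : ℤ)) := by
  classical
  have hfin := fin_above (K := k) (L := L) v
  have h0 : ∀ w : HeightOneSpectrum (𝓞 L), dn k w = v →
      ∃ r : w.adicCompletion L, r ≠ 0 ∧ algebraMap L (w.adicCompletion L) x = r * r := by
    intro w hw
    obtain ⟨r, hr⟩ := (mem_Sq hx).1 (mem_Sqv.1 hs w hw)
    refine ⟨r, ?_, hr⟩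
    rintro rfl
    rw [mul_zero] at hr
    exact hx ((map_eq_zero (algebraMap L (w.adicCompletion L))).1 hr)
  have h1 : ∀ w : HeightOneSpectrum (𝓞 L), ∃ (y : L) (e : WithZero (Multiplicative ℤ)), e ≠ 0 ∧
      (dn k w = v → ∃ r : w.adicCompletion L, r ≠ 0 ∧ algebraMap L (w.adicCompletion L) x = r * r ∧
        e = exp (-(M : ℤ)) * Valued.v r ∧
        Valued.v (algebraMap L (w.adicCompletion L) y - r) < exp (-(M : ℤ)) * Valued.v r) := by
    intro w
    by_cases hw : dn k w = v
    · obtain ⟨r, hr0, hr⟩ := h0 w hw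
      obtain ⟨π, hπ⟩ := w.valuation_exists_uniformizer L
      have hπ0 : π ≠ 0 := by
        rintro rfl
        rw [map_zero] at hπ
        exact exp_ne_zero hπ.symm
      have hπM : Valued.v (algebraMap L (w.adicCompletion L) (π ^ M)) = exp (-(M : ℤ)) := by
        rw [H36CY.val_coe, map_pow, hπ, ← exp_nsmul]
        congr 1
        simp
      have hc : algebraMap L (w.adicCompletion L) (π ^ M) * r ≠ 0 :=
        mul_ne_zero ((map_ne_zero _).2 (pow_ne_zero M hπ0)) hr0
      obtain ⟨y, hy⟩ := H36CY.near_coe w r hc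
      rw [map_mul, hπM] at hy
      refine ⟨y, exp (-(M : ℤ)) * Valued.v r, mul_ne_zero exp_ne_zero ((Valuation.ne_zero_iff _).2 hr0),
        fun _ => ⟨r, hr0, hr, rfl, hy⟩⟩
    · exact ⟨0, 1, one_ne_zero, fun h => absurd h hw⟩
  choose y e he0 hye using h1
  obtain ⟨s, hsS⟩ := Af_weak hfin.toFinset y he0
  have h2 : ∀ w : HeightOneSpectrum (𝓞 L), dn k w = v → s ≠ 0 ∧
      w.valuation L (x / s ^ 2 - 1) ≤ exp (-(M : ℤ)) := by
    intro w hw
    obtain ⟨r, hr0, hr, he, hy⟩ := hye w hw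
    have h3 : w.valuation L (s - y w) < exp (-(M : ℤ)) * Valued.v r := by
      rw [← he]
      exact hsS w (hfin.mem_toFinset.2 hw)
    have h4 : Valued.v (algebraMap L (w.adicCompletion L) s - r) < exp (-(M : ℤ)) * Valued.v r := by
      have h5 : algebraMap L (w.adicCompletion L) s - r =
          algebraMap L (w.adicCompletion L) (s - y w) +
            (algebraMap L (w.adicCompletion L) (y w) - r) := by
        rw [map_sub]
        ring
      rw [h5]
      refine Valuation.map_add_lt _ ?_ hy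
      rw [H36CY.val_coe]
      exact h3
    obtain ⟨h6, h7⟩ := Af_loc (Valued.v : Valuation (w.adicCompletion L) (WithZero (Multiplicative ℤ))) M hr0 hr h4
    refine ⟨fun h => h6 (by rw [h, map_zero]), ?_⟩
    rw [← H36CY.val_coe, map_sub, map_div₀, map_pow, map_one]
    exact h7
  by_cases hs0 : s = 0
  · exact ⟨1, one_ne_zero, fun w hw => absurd hs0 (h2 w hw).1⟩
  · exact ⟨s, hs0, fun w hw => (h2 w hw).2⟩

end H30ZO
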