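import Pool.Agent.H30.ZO.Df

/-!
ROW Ag (project MP_78d38b_ZO, about 150 lines): the coordinates of an element which is integral above `v`.

PROOF. `D := 4 a^3 + 27 b^2`, `f = T^3 + a T + b`, `f'(θ) = 3 θ^2 + a`. Euler's formula (`Cub.euler` in Pool/Agent/H76/PP/Eb.lean; or directly from `Cub.trace`): for `x ∈ L` the coordinates are
`co 2 x = Tr (x / f'(θ))`, `co 1 x = Tr (x θ / f'(θ))`, `co 0 x = Tr (x (θ^2 + a) / f'(θ))` (the dual basis of `1, θ, θ^2`). `D / f'(θ)` is, up to sign, `6 a θ^2 - 9 b θ + 4 a^2` because `(6 a θ^2 - 9 b θ + 4 a^2)(3 θ^2 + a) = D` (for a root `θ`: the identity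
`(6 a T^2 - 9 b T + 4 a^2)(3 T^2 + a) - (18 a T - 27 b) f(T) = D`; `Cub.der_inv` in Eb.lean is of this kind). So `D * co j x = Tr (x u_j)` with `u_j` a polynomial in `θ` with coefficients in `ℤ[a, b]`. `θ` is a root of a monic polynomial with coefficients integral at `v`, so `w.valuation θ ≤ 1` for `w` above `v` (`H76PP.val_le`,
as in even_nice, Pool/Agent/H73/P2/Ev.lean), hence `w.valuation (x u_j) ≤ 1` for all `w` above `v`. It remains: if `w.valuation y ≤ 1` for all `w` above `v` then `v.valuation (Tr y) ≤ 1`. Choose `c ∈ 𝓞 k`, `c ∉ v.asIdeal`, with `c y ∈ 𝓞 L`: the set of primes `w'` with `1 < w'.valuation y` is finite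
(`H38RT`/`fin_bad`, or `Tf`), the primes `dn k w'` are different from `v`; take `c` in a high power of all of them and outside `v` (`Ideal.IsPrime.prod_le`, or clear the denominator: `y = z / n`, `n ∈ 𝓞 k` nonzero, and localise: `Algebra.IsIntegral` at the localisation at `v`). Then `c Tr y = Tr (c y) ∈ 𝓞 k` (`Algebra.isIntegral_trace`), `v.valuation c = 1`.
Alternative: `Pool/Agent/H76/PP/Ea.lean` (`int_coord`, `Ea_tr`, `Ea_val`) contains these steps for the family `Fam` (`Ea_tr`: trace of an element integral above `v`).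
-/

set_option autoImplicit false
set_option linter.unusedSectionVars false
open scoped Classical

open WithZero NumberField IsDedekindDomain H38RT
open H38T1 (SC sc scu rep eo la si Pri OddP tp unif)
open H76PP

namespace H30ZO

/-- the trace of an element which is integral above `v` -/
theorem Ag_trace {k L : Type} [Field k] [NumberField k] [Field L] [NumberField L] [Algebra k L]
    (v : HeightOneSpectrum (𝓞 k)) {y : L}
    (hy : ∀ w : HeightOneSpectrum (𝓞 L), dn k w = v → w.valuation L y ≤ 1) :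
    v.valuation k (Algebra.trace k L y) ≤ 1 := by
  let J : Ideal (𝓞 L) :=
    { carrier := {d | ∃ n : 𝓞 L, y * algebraMap (𝓞 L) L d = algebraMap (𝓞 L) L n}
      add_mem' := by
        rintro d₁ d₂ ⟨n₁, h₁⟩ ⟨n₂, h₂⟩
        refine ⟨n₁ + n₂, ?_⟩
        rw [map_add, map_add, mul_add, h₁, h₂]
      zero_mem' := ⟨0, by rw [map_zero, mul_zero]⟩
      smul_mem' := by
        rintro c d ⟨n, h⟩
        refine ⟨c * n, ?_⟩
        rw [smul_eq_mul, map_mul, map_mul, ← h]
        ring }
  have hinj : Function.Injective (algebraMap (𝓞 k) (𝓞 L)) := by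
    intro p q hpq
    apply RingOfIntegers.coe_injective
    apply (algebraMap k L).injective
    have h1 := congrArg (algebraMap (𝓞 L) L) hpq
    exact h1
  have hp := v.isPrime
  have hne : ¬ J.comap (algebraMap (𝓞 k) (𝓞 L)) ≤ v.asIdeal := by
    intro hle
    obtain ⟨Q, hQJ, hQ, hQc⟩ := Ideal.exists_ideal_over_prime_of_isIntegral (S := 𝓞 L) v.asIdeal J hle
    have hQb : Q ≠ ⊥ := by
      rintro rfl
      apply v.ne_bot
      rw [← hQc, eq_bot_iff]
      intro x hx
      rw [Ideal.mem_comap, Ideal.mem_bot] at hx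
      rw [Ideal.mem_bot]
      exact hinj (by rw [hx, map_zero])
    let w : HeightOneSpectrum (𝓞 L) := ⟨Q, hQ, hQb⟩
    have hw : dn k w = v := HeightOneSpectrum.ext hQc
    obtain ⟨n, ⟨d, hd⟩, hnd⟩ := w.exists_primeCompl_mul_eq_of_integer y (hy w hw)
    exact hd (hQJ ⟨n, hnd⟩)
  rw [SetLike.not_le_iff_exists] at hne
  obtain ⟨c, hcJ, hcv⟩ := hne
  obtain ⟨n, hn⟩ := hcJ
  obtain ⟨t, ht⟩ : ∃ t : 𝓞 k, (t : k) = Algebra.trace k L (n : L) :=
    ⟨⟨_, Algebra.isIntegral_trace n.isIntegral_coe⟩, rfl⟩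
  have e1 : algebraMap (𝓞 L) L (algebraMap (𝓞 k) (𝓞 L) c) = algebraMap k L (c : k) := rfl
  have e2 : Algebra.trace k L (n : L) = (c : k) * Algebra.trace k L y := by
    have e3 : (n : L) = (c : k) • y := by
      rw [Algebra.smul_def]
      have h3 := hn
      rw [e1] at h3
      have h4 : (n : L) = y * algebraMap k L (c : k) := h3.symm
      rw [h4, mul_comm]
    rw [e3, map_smul, smul_eq_mul]
  have h1 : v.valuation k (c : k) = 1 := by
    have h2 : ¬ v.valuation k (c : k) < 1 := fun h => hcv ((v.valuation_lt_one_iff_mem (K := k) c).1 h)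
    exact le_antisymm (v.valuation_le_one c) (not_lt.1 h2)
  have h5 : v.valuation k (t : k) ≤ 1 := v.valuation_le_one t
  rw [ht, e2, map_mul, h1, one_mul] at h5
  exact h5

/-- the dual basis -/
theorem Ag_dual {k L : Type} [Field k] [Field L] [Algebra k L] {a b : k} {θ : L}
    (h : Cub k L a b θ) (x : L) (j : Fin 3) :
    ∃ c : Fin 3 → k, (∀ {v : Valuation k (WithZero (Multiplicative ℤ))}, v a ≤ 1 → v b ≤ 1 →
      v 2 ≤ 1 → v 3 ≤ 1 → ∀ i, v (c i) ≤ 1) ∧
      Algebra.trace k L (x * (algebraMap k L (c 0) + algebraMap k L (c 1) * θ +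
        algebraMap k L (c 2) * θ ^ 2)) = (4 * a ^ 3 + 27 * b ^ 2) * h.co j x := by
  have hall : ∀ c : Fin 3 → k, Algebra.trace k L (x * (algebraMap k L (c 0) +
      algebraMap k L (c 1) * θ + algebraMap k L (c 2) * θ ^ 2)) =
      3 * (h.co 0 x * c 0 - b * (h.co 1 x * c 2 + h.co 2 x * c 1)) -
        2 * a * (h.co 0 x * c 2 + h.co 1 x * c 1 + h.co 2 x * c 0 - a * (h.co 2 x * c 2)) := by
    intro c
    obtain ⟨i0, i1, i2⟩ := h.co_mk' (c 0) (c 1) (c 2)
    rw [h.trace, (h.co_mul _ _).1, (h.co_mul _ _).2.2, i0, i1, i2]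
  have hv2 : ∀ {v : Valuation k (WithZero (Multiplicative ℤ))} {p q : k}, v p ≤ 1 → v q ≤ 1 →
      v (p * q) ≤ 1 := fun {v} {p q} hp hq => by
    rw [map_mul]
    exact mul_le_one' hp hq
  have hva : ∀ {v : Valuation k (WithZero (Multiplicative ℤ))} {p q : k}, v p ≤ 1 → v q ≤ 1 →
      v (p + q) ≤ 1 := fun {v} {p q} hp hq => (v.map_add p q).trans (max_le hp hq)
  fin_cases j
  · refine ⟨![(2 * a) * (2 * a) * a + (3 * b) * (3 * b), -((2 * (3 * a)) * b), (2 * a) * (2 * a)], ?_, ?_⟩
    · intro v ha hb h2 h3 i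
      fin_cases i
      · exact hva (hv2 (hv2 (hv2 h2 ha) (hv2 h2 ha)) ha) (hv2 (hv2 h3 hb) (hv2 h3 hb))
      · show v (-((2 * (3 * a)) * b)) ≤ 1
        rw [Valuation.map_neg]
        exact hv2 (hv2 h2 (hv2 h3 ha)) hb
      · exact hv2 (hv2 h2 ha) (hv2 h2 ha)
    · rw [hall]
      simp only [Matrix.cons_val_zero, Matrix.cons_val_one, Matrix.cons_val_two, Matrix.head_cons,
        Matrix.tail_cons, Fin.zero_eta]
      ring
  · refine ⟨![-((2 * (3 * a)) * b), -(2 * (a * a)), -(3 * (3 * b))], ?_, ?_⟩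
    · intro v ha hb h2 h3 i
      fin_cases i
      · show v (-((2 * (3 * a)) * b)) ≤ 1
        rw [Valuation.map_neg]
        exact hv2 (hv2 h2 (hv2 h3 ha)) hb
      · show v (-(2 * (a * a))) ≤ 1
        rw [Valuation.map_neg]
        exact hv2 h2 (hv2 ha ha)
      · show v (-(3 * (3 * b))) ≤ 1
        rw [Valuation.map_neg]
        exact hv2 h3 (hv2 h3 hb)
    · rw [hall]
      simp only [Matrix.cons_val_zero, Matrix.cons_val_one, Matrix.cons_val_two, Matrix.head_cons,
        Matrix.tail_cons, Fin.mk_one]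
      ring
  · refine ⟨![(2 * a) * (2 * a), -(3 * (3 * b)), 2 * (3 * a)], ?_, ?_⟩
    · intro v ha hb h2 h3 i
      fin_cases i
      · exact hv2 (hv2 h2 ha) (hv2 h2 ha)
      · show v (-(3 * (3 * b))) ≤ 1
        rw [Valuation.map_neg]
        exact hv2 h3 (hv2 h3 hb)
      · exact hv2 h2 (hv2 h3 ha)
    · rw [hall]
      simp only [Matrix.cons_val_zero, Matrix.cons_val_one, Matrix.cons_val_two, Matrix.head_cons,
        Matrix.tail_cons, Fin.reduceFinMk, Matrix.cons_val]
      ring

theorem coord_int {k L : Type} [Field k] [NumberField k] [Field L] [NumberField L] [Algebra k L]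
    {a b : k} {θ : L} (h : Cub k L a b θ) (v : HeightOneSpectrum (𝓞 k))
    (ha : v.valuation k a ≤ 1) (hb : v.valuation k b ≤ 1) {x : L}
    (hx : ∀ w : HeightOneSpectrum (𝓞 L), dn k w = v → w.valuation L x ≤ 1) (j : Fin 3) :
    v.valuation k ((4 * a ^ 3 + 27 * b ^ 2) * h.co j x) ≤ 1 := by
  obtain ⟨c, hc, htr⟩ := Ag_dual h x j
  rw [← htr]
  have hnat : ∀ n : ℕ, v.valuation k (n : k) ≤ 1 := by
    intro n
    have h1 : v.valuation k (algebraMap (𝓞 k) k (n : 𝓞 k)) ≤ 1 := v.valuation_le_one _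
    have h2 : algebraMap (𝓞 k) k (n : 𝓞 k) = (n : k) := map_natCast _ n
    rwa [h2] at h1
  have hci := hc (v := v.valuation k) ha hb (by exact_mod_cast hnat 2) (by exact_mod_cast hnat 3)
  apply Ag_trace
  intro w hw
  have hcw : ∀ i, w.valuation L (algebraMap k L (c i)) ≤ 1 := by
    intro i
    apply val_le
    rw [hw]
    exact hci i
  have hθ : w.valuation L θ ≤ 1 := by
    have ha' : w.valuation L (algebraMap k L a) ≤ 1 := by
      apply val_le
      rw [hw]
      exact ha
    have hb' : w.valuation L (algebraMap k L b) ≤ 1 := by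
      apply val_le
      rw [hw]
      exact hb
    by_contra hcon
    rw [not_le] at hcon
    have e1 : θ ^ 3 = -(algebraMap k L a * θ + algebraMap k L b) := by
      have h1 := h.root
      linear_combination h1
    have e2 : w.valuation L θ ^ 3 ≤ w.valuation L θ := by
      rw [← map_pow, e1, Valuation.map_neg]
      refine ((w.valuation L).map_add _ _).trans (max_le ?_ (hb'.trans hcon.le))
      rw [map_mul]
      exact mul_le_of_le_one_left' ha'
    have e3 : w.valuation L θ < w.valuation L θ ^ 3 := by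
      calc w.valuation L θ = w.valuation L θ ^ 1 := (pow_one _).symm
        _ < w.valuation L θ ^ 3 := pow_lt_pow_right₀ hcon (by norm_num)
    exact absurd e2 (not_le.2 e3)
  rw [map_mul]
  refine mul_le_one' (hx w hw) ?_
  refine ((w.valuation L).map_add _ _).trans (max_le (((w.valuation L).map_add _ _).trans
    (max_le (hcw 0) ?_)) ?_)
  · rw [map_mul]
    exact mul_le_one' (hcw 1) hθ
  · rw [map_mul, map_pow]
    exact mul_le_one' (hcw 2) (pow_le_one' hθ 2)

end H30ZO
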