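import Pool.Agent.H30.ZO.Ae
import Pool.Agent.H30.ZO.Af
import Pool.Agent.H30.ZO.Ag

/-!
ROW Ah (project MP_78d38b_ZO, about 170 lines): an element of `L` is a square at all the places above `v` if and only if it is a square in
the cubic algebra over the completion of `k`. Use only the STATEMENTS of Ae, Af, Ag.

PROOF. `F := v.adicCompletion k`, `D := 4 a^3 + 27 b^2 ≠ 0` (`f` is separable: if `D = 0`, `3 θ^2 + a` would be zero by the identity in Ag or `Cub.der_ne` (Pool/Agent/H76/PP/Eb.lean)).
sq_alg. `x := ev θ d`. Choose `M` with `exp (-M) ≤ v`-size of `4 D π` seen at all `w` above `v`: precisely let `c ∈ k`, `c ≠ 0`, with `v.valuation c ≤ exp (-1)`, `c := D * π` (`π` a uniformizer of `v`), and `M` such that `exp (-M) ≤ w.valuation (algebraMap (4 c))` for the finitely many `w` above `v` (`ord_dn`). `s ∈ L` from approx_sq. `x / s^2 - 1 = 4 c λ` with `w.valuation λ ≤ 1` for all `w` above `v`.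
By coord_int the coordinates of `D λ` are integral at `v`, so `l_j := c * co j λ = π (D co j λ)` has valuation at most `exp (-1)`. sqrt_alg: `t : Fin 3 → F` with `t^2 = 1 + 4 l` in the algebra. Let `s'` be the coordinates of `s` (in `F`), `z := m3 s' t`. Then `z^2 = s'^2 t^2 =` coordinates of `s^2 (1 + 4 c λ) = x`
(`m3` commutative, associative; `Te_ev_mul`, `Te_m3_map` in Pool/Agent/H76/PP/Te.lean, `Cub.co_mk`, `Cub.eq_co`: the coordinates of a product of elements of `L` are `m3` of the coordinates).
alg_sq. For `w` above `v` let `ι : F → w.adicCompletion L` be `(over_dn w).map` (`H73P2.over_dn`, Pool/Agent/H73/P2/Ua.lean; `Pool.Agent.H10.Over.map_algebraMap`; `dn k w = v`, `subst`), `θ_w` the image of `θ`: a root of `T^3 + ι a T + ι b`. The map `E : (Fin 3 → F) → w.adicCompletion L`, `z ↦ ι (z 0) + ι (z 1) θ_w + ι (z 2) θ_w^2` is multiplicative for `m3`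
(as in the proof of `Te_ev_mul`), so `E(z)^2 = E(d) =` image of `ev θ d`. `mem_Sqv`, `mem_Sq`.
-/

set_option autoImplicit false
set_option linter.unusedSectionVars false
open scoped Classical

open WithZero NumberField IsDedekindDomain H38RT
open H38T1 (SC sc scu rep eo la si Pri OddP tp unif)
open H76PP

namespace H30ZO

variable {k L : Type} [Field k] [NumberField k] [Field L] [NumberField L] [Algebra k L]

private lemma Ah_disc {a b : k} {θ : L} (h : Cub k L a b θ) : 4 * a ^ 3 + 27 * b ^ 2 ≠ 0 := by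
  intro hD
  have h1 : (3 * θ ^ 2 + algebraMap k L a) * (4 * algebraMap k L a ^ 2 - 9 * algebraMap k L b * θ +
      6 * algebraMap k L a * θ ^ 2) = algebraMap k L (4 * a ^ 3 + 27 * b ^ 2) := by
    simp only [map_add, map_mul, map_pow, map_ofNat]
    linear_combination (18 * algebraMap k L a * θ - 27 * algebraMap k L b) * h.root
  rw [hD, map_zero, mul_eq_zero] at h1
  rcases h1 with h1 | h1
  · obtain ⟨_, _, e2⟩ := h.li a 0 3 (by
      rw [map_zero, map_ofNat]
      linear_combination h1)
    exact three_ne_zero e2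
  · obtain ⟨_, e1, e2⟩ := h.li (4 * a ^ 2) (-9 * b) (6 * a) (by
      simp only [map_mul, map_pow, map_neg, map_ofNat]
      linear_combination h1)
    have ha : a = 0 := by
      rcases mul_eq_zero.1 e2 with h2 | h2
      · exact absurd h2 (by norm_num)
      · exact h2
    have hb : b = 0 := by
      rcases mul_eq_zero.1 e1 with h2 | h2
      · exact absurd h2 (by norm_num)
      · exact h2
    have hr := h.root
    rw [ha, hb, map_zero, zero_mul, add_zero, add_zero] at hr
    have hθ : θ = 0 := pow_eq_zero_iff (three_ne_zero) |>.1 hr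
    obtain ⟨_, e3, _⟩ := h.li 0 1 0 (by rw [hθ, map_zero]; ring)
    exact one_ne_zero e3

private lemma Ah_m3 {F : Type*} [CommRing F] (a b : F) (s t : Fin 3 → F) :
    m3 a b (m3 a b s t) (m3 a b s t) = m3 a b (m3 a b s s) (m3 a b t t) := by
  funext j
  fin_cases j <;> simp only [m3, Matrix.cons_val_zero, Matrix.cons_val_one, Matrix.cons_val_two,
    Matrix.head_cons, Matrix.tail_cons, Matrix.cons_val, Fin.zero_eta, Fin.mk_one,
    Fin.reduceFinMk] <;> ring

private lemma Ah_inj {a b : k} {θ : L} (h : Cub k L a b θ) {c d : Fin 3 → k}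
    (e : ev θ c = ev θ d) : c = d := by
  funext j
  have h1 := h.co_mk c j
  have h2 := h.co_mk d j
  have h3 : algebraMap k L (c 0) + algebraMap k L (c 1) * θ + algebraMap k L (c 2) * θ ^ 2 =
      algebraMap k L (d 0) + algebraMap k L (d 1) * θ + algebraMap k L (d 2) * θ ^ 2 := e
  rw [← h1, ← h2, h3]

private lemma Ah_prec (v : HeightOneSpectrum (𝓞 k)) {g : k} (hg : g ≠ 0) :
    ∃ M : ℕ, ∀ w : HeightOneSpectrum (𝓞 L), dn k w = v →
      exp (-(M : ℤ)) ≤ w.valuation L (algebraMap k L g) := by
  have hgL : algebraMap k L g ≠ 0 := by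
    rw [Ne, map_eq_zero]
    exact hg
  refine ⟨(fin_above (K := k) (L := L) v).toFinset.sup
    (fun w => (ord (w.valuation L) (algebraMap k L g)).toNat), fun w hw => ?_⟩
  have h1 : (ord (w.valuation L) (algebraMap k L g)).toNat ≤
      (fin_above (K := k) (L := L) v).toFinset.sup
        (fun w => (ord (w.valuation L) (algebraMap k L g)).toNat) :=
    Finset.le_sup (f := fun w => (ord (w.valuation L) (algebraMap k L g)).toNat)
      ((fin_above (K := k) (L := L) v).mem_toFinset.2 hw)
  have h2 : w.valuation L (algebraMap k L g) = exp (-ord (w.valuation L) (algebraMap k L g)) := by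
    unfold ord
    rw [neg_neg, exp_log ((Valuation.ne_zero_iff _).2 hgL)]
  rw [h2, exp_le_exp]
  have h3 := Int.self_le_toNat (ord (w.valuation L) (algebraMap k L g))
  omega

theorem sq_alg {a b : k} {θ : L} (h : Cub k L a b θ) (v : HeightOneSpectrum (𝓞 k))
    (ha : v.valuation k a ≤ 1) (hb : v.valuation k b ≤ 1) {d : Fin 3 → k} (hd : ev θ d ≠ 0)
    (hs : sc (ev θ d) ∈ Sqv k L v) :
    ∃ z : Fin 3 → v.adicCompletion k, m3 (algebraMap k (v.adicCompletion k) a)
      (algebraMap k (v.adicCompletion k) b) z z =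
        fun j => algebraMap k (v.adicCompletion k) (d j) := by
  set i : k →+* v.adicCompletion k := algebraMap k (v.adicCompletion k) with hi
  have hiv : ∀ x : k, Valued.v (i x) = v.valuation k x := fun x =>
    HeightOneSpectrum.valuedAdicCompletion_eq_valuation' v x
  set D : k := 4 * a ^ 3 + 27 * b ^ 2 with hDdef
  have hD : D ≠ 0 := Ah_disc h
  have hDv : v.valuation k D ≤ 1 := by
    rw [hDdef]
    have n4 : v.valuation k 4 ≤ 1 := by
      have := val_nat (v.valuation k) 4
      rwa [Nat.cast_ofNat] at this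
    have n27 : v.valuation k 27 ≤ 1 := by
      have := val_nat (v.valuation k) 27
      rwa [Nat.cast_ofNat] at this
    refine Valuation.map_add_le _ ?_ ?_
    · rw [map_mul, map_pow]
      exact mul_le_one' n4 (pow_le_one' ha 3)
    · rw [map_mul, map_pow]
      exact mul_le_one' n27 (pow_le_one' hb 2)
  obtain ⟨π, hπ⟩ := v.valuation_exists_uniformizer k
  have hπ0 : π ≠ 0 := by
    rintro rfl
    rw [map_zero] at hπ
    exact exp_ne_zero hπ.symm
  have hc0 : D * π ≠ 0 := mul_ne_zero hD hπ0
  have h40 : (4 : k) * (D * π) ≠ 0 := mul_ne_zero (by norm_num) hc0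
  have h4L : algebraMap k L (4 * (D * π)) ≠ 0 := by
    rw [Ne, map_eq_zero]
    exact h40
  obtain ⟨M, hM⟩ := Ah_prec (L := L) v h40
  obtain ⟨s, hs0, hsw⟩ := approx_sq v hd hs M
  set lam : L := (ev θ d / s ^ 2 - 1) / algebraMap k L (4 * (D * π)) with hlam
  have hlamw : ∀ w : HeightOneSpectrum (𝓞 L), dn k w = v → w.valuation L lam ≤ 1 := by
    intro w hw
    have hpos : w.valuation L (algebraMap k L (4 * (D * π))) ≠ 0 :=
      (Valuation.ne_zero_iff _).2 h4L
    rw [hlam, map_div₀]
    exact (div_le_one₀ (zero_lt_iff.2 hpos)).2 ((hsw w hw).trans (hM w hw))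
  have hco := coord_int h v ha hb hlamw
  set l : Fin 3 → v.adicCompletion k := fun j => i (D * π * h.co j lam) with hl
  have hlv : ∀ j, Valued.v (l j) ≤ exp (-1 : ℤ) := by
    intro j
    have e1 : D * π * h.co j lam = π * (D * h.co j lam) := by ring
    rw [hl]
    change Valued.v (i (D * π * h.co j lam)) ≤ _
    rw [hiv, e1, map_mul, hπ]
    exact mul_le_of_le_one_right' (hco j)
  have hAv : Valued.v (i a) ≤ 1 := by rw [hiv]; exact ha
  have hBv : Valued.v (i b) ≤ 1 := by rw [hiv]; exact hb
  obtain ⟨t, ht⟩ := sqrt_alg v hAv hBv hlv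
  set u : Fin 3 → k := fun j => (![1, 0, 0] : Fin 3 → k) j + 4 * (D * π * h.co j lam) with hu
  have hut : m3 (i a) (i b) t t = fun j => i (u j) := by
    rw [ht]
    have h4 : i 4 = 4 := map_ofNat i 4
    funext j
    have e5 : i ((![1, 0, 0] : Fin 3 → k) j) = (![1, 0, 0] : Fin 3 → v.adicCompletion k) j := by
      fin_cases j
      · exact map_one i
      · exact map_zero i
      · exact map_zero i
    rw [hu, hl]
    change _ = i ((![1, 0, 0] : Fin 3 → k) j + 4 * (D * π * h.co j lam))
    rw [map_add, map_mul, h4, e5]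
  set s' : Fin 3 → k := fun j => h.co j s with hs'
  have hevs : ev θ s' = s := (h.eq_co s).symm
  have hevu : ev θ u = ev θ d / s ^ 2 := by
    have e1 : ev θ (fun j => h.co j lam) = lam := (h.eq_co lam).symm
    have e2 : ev θ u = 1 + algebraMap k L (4 * (D * π)) * ev θ (fun j => h.co j lam) := by
      simp only [ev, hu, Matrix.cons_val_zero, Matrix.cons_val_one, Matrix.cons_val_two,
        Matrix.head_cons, Matrix.tail_cons, Matrix.cons_val, map_add, map_mul, map_one, map_zero]
      ring
    rw [e2, e1, hlam, mul_div_cancel₀ _ h4L]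
    ring
  refine ⟨m3 (i a) (i b) (fun j => i (s' j)) t, ?_⟩
  rw [Ah_m3, hut]
  have e3 : m3 (i a) (i b) (fun j => i (s' j)) (fun j => i (s' j)) =
      fun j => i (m3 a b s' s' j) := by
    funext j
    exact Te_m3_map i a b s' s' j
  rw [e3]
  have e4 : m3 a b (m3 a b s' s') u = d := by
    apply Ah_inj h
    rw [← Te_ev_mul h, ← Te_ev_mul h, hevs, hevu]
    field_simp
  funext j
  rw [Te_m3_map i a b (m3 a b s' s') u j, e4]

theorem alg_sq {a b : k} {θ : L} (h : Cub k L a b θ) (v : HeightOneSpectrum (𝓞 k))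
    {d : Fin 3 → k} (hd : ev θ d ≠ 0) {z : Fin 3 → v.adicCompletion k}
    (hz : m3 (algebraMap k (v.adicCompletion k) a) (algebraMap k (v.adicCompletion k) b) z z =
      fun j => algebraMap k (v.adicCompletion k) (d j)) : sc (ev θ d) ∈ Sqv k L v := by
  rw [mem_Sqv]
  intro w hw
  subst hw
  rw [mem_Sq hd]
  set ι : (dn k w).adicCompletion k →+* w.adicCompletion L := (H36CY.over_dn w).map with hι
  have hιm : ∀ x : k, ι (algebraMap k ((dn k w).adicCompletion k) x) =
      algebraMap L (w.adicCompletion L) (algebraMap k L x) := fun x =>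
    Pool.Agent.H10.Over.map_algebraMap (H36CY.over_dn w) x
  set T : w.adicCompletion L := algebraMap L (w.adicCompletion L) θ with hT
  have hroot : T ^ 3 + ι (algebraMap k ((dn k w).adicCompletion k) a) * T +
      ι (algebraMap k ((dn k w).adicCompletion k) b) = 0 := by
    rw [hιm, hιm, hT, ← map_pow, ← map_mul, ← map_add, ← map_add, h.root, map_zero]
  have h0 := congrArg ι (congrFun hz 0)
  have h1 := congrArg ι (congrFun hz 1)
  have h2 := congrArg ι (congrFun hz 2)
  rw [hιm] at h0 h1 h2
  simp only [m3, Matrix.cons_val_zero, Matrix.cons_val_one, Matrix.cons_val_two,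
    Matrix.head_cons, Matrix.tail_cons, Matrix.cons_val, map_add, map_sub, map_mul] at h0 h1 h2
  refine ⟨ι (z 0) + ι (z 1) * T + ι (z 2) * T ^ 2, ?_⟩
  have e : algebraMap L (w.adicCompletion L) (ev θ d) =
      algebraMap L (w.adicCompletion L) (algebraMap k L (d 0)) +
      algebraMap L (w.adicCompletion L) (algebraMap k L (d 1)) * T +
      algebraMap L (w.adicCompletion L) (algebraMap k L (d 2)) * T ^ 2 := by
    simp only [ev, map_add, map_mul, map_pow, hT]
  rw [e, ← h0, ← h1, ← h2]
  linear_combination (- (2 * ι (z 1) * ι (z 2) + ι (z 2) * ι (z 2) * T)) * hroot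

end H30ZO
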