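import Pool.Agent.H30.ZO.Ac
import Pool.Agent.H30.ZO.Ad
import Pool.Agent.H30.ZO.Ai

/-!
ROW Aj (project MP_78d38b_ZO, about 130 lines): the number of local classes of square norm. Use only the STATEMENTS of Ac, Ad, Ai.

PROOF. `S := Sqv k L v`, `H := HH k L`, `ι : SC k → SC L` the homomorphism `scm (algebraMap k L)`.
(1) `S.index ≠ 0` and `S.index ≤ ∏_{w above v} 4 qq w = 4 ^ nb k L v * qq v ^ 3`: `SC L / S` injects into the product of the `SC L / Sq w`, `w` above `v` (`AddSubgroup.index_iInf_le`, `AddSubgroup.index_iInf_ne_zero`-like lemmas, after writing `S` as an infimum over the finite type of the `w` above `v`; `mem_Sqv`, index_Sq, prod_qq, `Finset.prod_mul_distrib`; `nb` is the number of elements of `(fin_above v).toFinset`,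
`Set.ncard_eq_toFinset_card`).
(2) The map `(c, e) ↦ c + ι e` from `H × SC k` to `SC L / S` has kernel `(S ⊓ H) × Sq v` (contained in): let `c ∈ H`, `c + ι e ∈ S`. The norm: `N (ι e) = 3 e = e` (`N (x) = x^3` for `x ∈ k`, `finrank = 3` (`Cub.finrank`), `Algebra.norm_algebraMap`; `2 e = 0` in `SC k`: `H38T1.SC.two_smul`), `N c = 0`, so `e = N (c + ι e) ∈ Sq v` (norm_Sqv). A square of the completion of `k` at `v` is
a square at all `w` above `v` (`over_dn`, `Over.map_algebraMap` as in Ah): `ι e ∈ S`, so `c ∈ S`. Hence an injection `H / (S ⊓ H) × SC k / Sq v → SC L / S`, so `(S ⊓ H).relIndex H * (4 * qq v) ≤ S.index ≤ 4 ^ nb * qq v ^ 3`, and `(S ⊓ H).relIndex H ≠ 0` (finite). Cancel `qq v > 0` (`Nv v > 0`).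
To get the injection: choose for each coset of `S ⊓ H` in `H` and each coset of `Sq v` a representative, map the pair to the class of `c + ι e`; injectivity is (2) applied to differences.
-/

set_option autoImplicit false
set_option linter.unusedSectionVars false
open scoped Classical

open WithZero NumberField IsDedekindDomain H38RT
open H38T1 (SC sc scu rep eo la si Pri OddP tp unif)
open H76PP

namespace H30ZO

variable {k L : Type} [Field k] [NumberField k] [Field L] [NumberField L] [Algebra k L]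

private theorem Aj_ab {G G' : Type*} [AddCommGroup G] [AddCommGroup G'] (ι : G' →+ G)
    (N : G →+ G') (S : AddSubgroup G) (Q : AddSubgroup G') (h1 : ∀ e, N (ι e) = e)
    (h2 : ∀ c ∈ S, N c ∈ Q) (h3 : ∀ e ∈ Q, ι e ∈ S) :
    S.index = (S ⊓ N.ker).relIndex N.ker * Q.index := by
  have hf : Function.Surjective (N.ker.subtype.coprod ι) := by
    intro g
    refine ⟨(⟨g - ι (N g), ?_⟩, N g), ?_⟩
    · rw [AddMonoidHom.mem_ker, map_sub, h1, sub_self]
    · rw [AddMonoidHom.coprod_apply, AddSubgroup.coe_subtype]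
      exact sub_add_cancel _ _
  have hc : S.comap (N.ker.subtype.coprod ι) = (S.addSubgroupOf N.ker).prod Q := by
    ext ⟨c, e⟩
    rw [AddSubgroup.mem_comap, AddMonoidHom.coprod_apply, AddSubgroup.coe_subtype,
      AddSubgroup.mem_prod, AddSubgroup.mem_addSubgroupOf]
    have hN : N ((c : G) + ι e) = e := by
      rw [map_add, h1, AddMonoidHom.mem_ker.1 c.2, zero_add]
    constructor
    · intro h
      have he : e ∈ Q := by
        have := h2 _ h
        rwa [hN] at this
      refine ⟨?_, he⟩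
      have := S.sub_mem h (h3 e he)
      rwa [add_sub_cancel_right] at this
    · rintro ⟨hc, he⟩
      exact S.add_mem hc (h3 e he)
  rw [AddSubgroup.inf_relIndex_right, ← AddSubgroup.index_comap_of_surjective S hf, hc,
    AddSubgroup.index_prod]
  rfl

private theorem Aj_qq (v : HeightOneSpectrum (𝓞 k)) : 0 < qq v := by
  unfold qq Nv
  refine pow_pos (Nat.pos_of_ne_zero ?_) _
  intro h
  exact v.ne_bot (Ideal.absNorm_eq_zero_iff.1 h)

private theorem Aj_idx {a b : k} {θ : L} (h : Cub k L a b θ) (v : HeightOneSpectrum (𝓞 k)) :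
    (Sqv k L v).index ≠ 0 ∧ (Sqv k L v).index ≤ 4 ^ nb k L v * qq v ^ 3 := by
  have hfin : {w : HeightOneSpectrum (𝓞 L) | dn k w = v}.Finite := fin_above v
  letI : Fintype {w : HeightOneSpectrum (𝓞 L) // dn k w = v} := hfin.fintype
  have hS : Sqv k L v = ⨅ w : {w : HeightOneSpectrum (𝓞 L) // dn k w = v}, Sq w.1 := by
    unfold Sqv
    rw [iInf_subtype]
  have h0 : ∀ w : {w : HeightOneSpectrum (𝓞 L) // dn k w = v}, (Sq w.1).index ≠ 0 := by
    intro w
    rw [index_Sq]
    have := Aj_qq w.1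
    omega
  have hp : ∏ w : {w : HeightOneSpectrum (𝓞 L) // dn k w = v}, (Sq w.1).index =
      4 ^ nb k L v * qq v ^ 3 := by
    have h1 : ∏ w : {w : HeightOneSpectrum (𝓞 L) // dn k w = v}, (Sq w.1).index =
        ∏ w ∈ hfin.toFinset, (Sq w).index := by
      rw [Finset.prod_subtype hfin.toFinset (p := fun w => dn k w = v)]
      intro w
      rw [Set.Finite.mem_toFinset]
      rfl
    rw [h1, Finset.prod_congr rfl (fun w _ => index_Sq w), Finset.prod_mul_distrib,
      Finset.prod_const]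
    have h2 := prod_qq h v
    have h3 : hfin.toFinset.card = nb k L v := by
      unfold nb
      rw [Set.ncard_eq_toFinset_card _ hfin]
    rw [h3]
    congr 1
  rw [hS]
  refine ⟨AddSubgroup.index_iInf_ne_zero h0, ?_⟩
  rw [← hp]
  exact AddSubgroup.index_iInf_le _

private theorem Aj_N {a b : k} {θ : L} (h : Cub k L a b θ) (e : SC k) :
    scm (Algebra.norm k : L →* k) (scm (algebraMap k L : k →* L) e) = e := by
  obtain ⟨x, hx, rfl⟩ := H38T1.sc_surj e
  have hx' : (algebraMap k L) x ≠ 0 := (map_ne_zero (algebraMap k L)).2 hx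
  rw [scm_sc _ hx]
  have h1 : ((algebraMap k L : k →* L) x : L) = algebraMap k L x := rfl
  rw [h1, scm_sc _ hx']
  have h2 : ((Algebra.norm k : L →* k) (algebraMap k L x) : k) = x * (x * x) := by
    rw [Algebra.norm_algebraMap, h.finrank]
    ring
  rw [h2, H38T1.sc_mul hx (mul_ne_zero hx hx), (H38T1.sc_eq_zero (mul_ne_zero hx hx)).2 ⟨x, rfl⟩,
    add_zero]

private theorem Aj_up (v : HeightOneSpectrum (𝓞 k)) {e : SC k} (he : e ∈ Sq v) :
    scm (algebraMap k L : k →* L) e ∈ Sqv k L v := by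
  obtain ⟨x, hx, rfl⟩ := H38T1.sc_surj e
  have hx' : (algebraMap k L) x ≠ 0 := (map_ne_zero (algebraMap k L)).2 hx
  rw [mem_Sqv]
  rintro w rfl
  rw [scm_sc _ hx]
  have h1 : ((algebraMap k L : k →* L) x : L) = algebraMap k L x := rfl
  rw [h1, mem_Sq hx']
  rw [mem_Sq hx] at he
  obtain ⟨y, hy⟩ := he
  refine ⟨(H36CY.over_dn (K := k) w).map y, ?_⟩
  rw [← Pool.Agent.H10.Over.map_algebraMap (H36CY.over_dn (K := k) w) x, hy, map_mul]

theorem idx_HH {a b : k} {θ : L} (h : Cub k L a b θ) (v : HeightOneSpectrum (𝓞 k))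
    (ha : v.valuation k a ≤ 1) (hb : v.valuation k b ≤ 1) :
    (Sqv k L v ⊓ HH k L).relIndex (HH k L) ≠ 0 ∧
      4 * (Sqv k L v ⊓ HH k L).relIndex (HH k L) ≤ 4 ^ nb k L v * qq v ^ 2 := by
  have hi := Aj_idx h v
  have hab := Aj_ab (scm (algebraMap k L : k →* L)) (scm (Algebra.norm k : L →* k)) (Sqv k L v)
    (Sq v) (Aj_N h) (fun c hc => norm_Sqv h v ha hb hc) (fun e he => Aj_up v he)
  rw [index_Sq] at hab
  change (Sqv k L v).index = (Sqv k L v ⊓ HH k L).relIndex (HH k L) * (4 * qq v) at hab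
  have hq := Aj_qq v
  refine ⟨?_, ?_⟩
  · intro h0
    rw [h0, zero_mul] at hab
    exact hi.1 hab
  · have h2 := hi.2
    rw [hab] at h2
    refine Nat.le_of_mul_le_mul_right (a := 4 * (Sqv k L v ⊓ HH k L).relIndex (HH k L)) ?_ hq
    calc 4 * (Sqv k L v ⊓ HH k L).relIndex (HH k L) * qq v
        = (Sqv k L v ⊓ HH k L).relIndex (HH k L) * (4 * qq v) := by ring
      _ ≤ 4 ^ nb k L v * qq v ^ 3 := h2
      _ = 4 ^ nb k L v * qq v ^ 2 * qq v := by ring

end H30ZO
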