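import Pool.Agent.H30.ZO.Rb
import Pool.Agent.H30.ZO.Ct
import Pool.Agent.H30.ZO.Dt
import Pool.Agent.H36.MT.Cl

/-!
Almost all pairs which satisfy the local conditions have a good twist in a finite set (project
MP_78d38b_ZO, no row; assembly).
-/

set_option autoImplicit false
set_option linter.unusedSectionVars false
open scoped Classical

open WithZero NumberField IsDedekindDomain H38RT H76PP H36MT H36CY

namespace H30ZO

/-- The local conditions at all places. -/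
def LocAll (K F : Type) [Field K] [NumberField K] [Field F] [Algebra K F] (p : 𝓞 K × 𝓞 K) : Prop :=
  (∀ (v : HeightOneSpectrum (𝓞 K)) (N : IntermediateField K F) [NumberField N], IsGalois K N →
    DescAt K N v (p.1 : K) (p.2 : K)) ∧ RealN K F (p.1 : K) (p.2 : K)

/-- The required property from the relaxed Selmer group. -/
theorem pf_of_rel {K F : Type} [Field K] [NumberField K] [Field F] [Algebra K F] (h : AdmF K F)
    {S T : Finset (HeightOneSpectrum (𝓞 K))}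
    (hS2 : ∀ v : HeightOneSpectrum (𝓞 K), (2 : 𝓞 K) ∈ v.asIdeal → v ∈ S)
    (hram : ∀ (N : IntermediateField K F) [NumberField N] (V : HeightOneSpectrum (𝓞 N)),
      H73P2.Ram K V → dn K V ∈ S)
    (hT : ∀ v ∈ T, ∃ ι : F →+* v.adicCompletion K, ∀ x : K,
      ι (algebraMap K F x) = algebraMap K (v.adicCompletion K) x) {A B : 𝓞 K}
    (hrel : RelG K (S ∪ T) A B)
    (hdesc : ∀ v ∈ S, ∀ (N : IntermediateField K F) [NumberField N], IsGalois K N →
      DescAt K N v (A : K) (B : K)) (hreal : RealN K F (A : K) (B : K)) : PF K F (A, B) := by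
  have _ := h.gal
  intro M _
  obtain ⟨N, _, hNg, hMN, -⟩ := H30CY.exists_big M (∅ : Finset ℕ) (fun _ => ⊥)
    fun v hv => absurd hv (Finset.notMem_empty v)
  let _ : Algebra M N := (IntermediateField.inclusion hMN).toRingHom.toAlgebra
  have _ : IsScalarTower K M N := IsScalarTower.of_algebraMap_eq fun _ => rfl
  obtain ⟨r, hr⟩ := h.deg N hNg
  have hd : 4 * (A : K) ^ 3 + 27 * (B : K) ^ 2 ≠ 0 := by
    rw [← dsc_coe]
    intro h0
    apply hrel.ne
    apply RingOfIntegers.coe_injective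
    rw [map_zero]
    exact h0
  have _ : FiniteDimensional K N := Module.Finite.of_restrictScalars_finite ℚ K N
  have hnr := H73P2.noroot (K := K) (N := N) (k := M) hr hrel.irr
  obtain ⟨L, _, _, _, θ, hL⟩ := H24PD.exists_cub (K := M) hnr
  have hdes := H24PD.descent hL (H73ZO.selS_mid (K := K) (N := N) ordSub hr (Sg := S) (S := T)
    (fun v hv => hS2 v (two_mem_iff.1 hv)) hd ?_ ?_ ?_ ?_ (fun v hv => hdesc v hv N hNg) ?_ M L θ hL)
  · exact ⟨hdes.1, tors_of_noroot hnr, hdes.2⟩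
  · intro v hv1 hv2
    exact hrel.nice v fun h => (Finset.mem_union.1 h).elim hv1 hv2
  · intro v hv
    obtain ⟨ι, hι⟩ := hT v hv
    exact ⟨ι.comp N.val.toRingHom, fun x => hι x⟩
  · intro s
    rcases hreal s with h1 | h1
    · exact Or.inl h1
    · exact Or.inr (h1 N)
  · intro V hVS _ hV
    exact absurd (hram N V hV) hVS
  · intro L _ _ _ θ hL
    exact H73ZO.relST_of (hrel.rel L θ hL)

/-- Almost all pairs which satisfy the local conditions have a good twist in a finite set. -/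
theorem almost_all {K F : Type} [Field K] [NumberField K] [Field F] [Algebra K F] (h : AdmF K F)
    {m : Ideal (𝓞 K)} (hm : m ≠ ⊥) {ε : ℝ} (hε : 0 < ε) :
    ∃ (DD : Finset (𝓞 K)) (X₀ : ℝ),
      (∀ D ∈ DD, D ≠ 0 ∧ D - 1 ∈ m ∧ ∀ s : K →+* ℝ, 0 < s (D : K)) ∧
      ∀ X : ℝ, X₀ ≤ X →
        ({p : 𝓞 K × 𝓞 K | p ∈ Bx K X ∧ LocAll K F p ∧
          ¬ ∃ D ∈ DD, 4 * (D ^ 2 * p.1) ^ 3 + 27 * (D ^ 3 * p.2) ^ 2 ≠ 0 ∧
            PF K F (D ^ 2 * p.1, D ^ 3 * p.2)}.ncard : ℝ) ≤ ε * ((Bx K X).ncard : ℝ) := by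
  have _ := h.gal
  obtain ⟨c, X₁, hc, hlow⟩ := class_lower (K := K) (m := ⊤) top_ne_bot
  obtain ⟨S, e, Z₁, Z₂, m', X₀, hS6, hS₀, hZ₁Z, hZ₂Z, hm'0, hm't, hm'm, hm'S, hZ₁, hZ₂, hZr, hcount⟩ :=
    main_count K hm (ε := ε * c) (by positivity) h.spl_inf h.ram.toFinset
  have hS2 : ∀ v : HeightOneSpectrum (𝓞 K), (2 : 𝓞 K) ∈ v.asIdeal → v ∈ S := by
    intro v hv
    apply hS6
    rw [show (6 : 𝓞 K) = 3 * 2 by norm_num]
    exact v.asIdeal.mul_mem_left _ hv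
  have hD : ∀ (q : HeightOneSpectrum (𝓞 K)) (J : Finset (HeightOneSpectrum (𝓞 K))), ∃ D : 𝓞 K,
      q ∈ Z₁ → J ⊆ Z₂ → D - 1 ∈ m' ∧ TwS S q J (D : K) := by
    intro q J
    by_cases h : q ∈ Z₁ ∧ J ⊆ Z₂
    · obtain ⟨D, hD⟩ := exists_twistS hm'0 hm't hm'S (hZ₁ q h.1).2.2
        (fun p hp => hZr q h.1 p (h.2 hp))
      exact ⟨D, fun _ _ => hD⟩
    · exact ⟨0, fun h1 h2 => absurd ⟨h1, h2⟩ h⟩
  choose D hD using hD
  have hD0 : ∀ q ∈ Z₁, ∀ J ⊆ Z₂, D q J ≠ 0 := by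
    intro q hq J hJ h0
    apply (hD q J hq hJ).2.ne
    rw [h0]
    exact map_zero (algebraMap (𝓞 K) K)
  refine ⟨Z₁.biUnion fun q => Z₂.powerset.image (D q), max X₀ X₁, ?_, ?_⟩
  · intro d hd
    rw [Finset.mem_biUnion] at hd
    obtain ⟨q, hq, hd⟩ := hd
    rw [Finset.mem_image] at hd
    obtain ⟨J, hJ, rfl⟩ := hd
    have hJ' := Finset.mem_powerset.1 hJ
    obtain ⟨h1, h2⟩ := hD q J hq hJ'
    exact ⟨hD0 q hq J hJ', hm'm h1, h2.pos⟩
  · intro X hX
    have h4 := hcount X ((le_max_left _ _).trans hX)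
    have h5 := hlow X ((le_max_right _ _).trans hX) 0 0
    have h6 : {p : 𝓞 K × 𝓞 K | p ∈ Bx K X ∧ p.1 - 0 ∈ (⊤ : Ideal (𝓞 K)) ∧
        p.2 - 0 ∈ (⊤ : Ideal (𝓞 K))} = Bx K X := by
      ext p
      simp
    rw [h6] at h5
    have h7 : {p : 𝓞 K × 𝓞 K | p ∈ Bx K X ∧ LocAll K F p ∧
          ¬ ∃ d ∈ Z₁.biUnion fun q => Z₂.powerset.image (D q),
            4 * (d ^ 2 * p.1) ^ 3 + 27 * (d ^ 3 * p.2) ^ 2 ≠ 0 ∧
            PF K F (d ^ 2 * p.1, d ^ 3 * p.2)} ⊆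
        {p : 𝓞 K × 𝓞 K | p ∈ Bx K X ∧ ¬ ∃ q ∈ Z₁, ∃ T ⊆ Z₂, FamS S e q T p.1 p.2 ∧
          ¬ BadS S T p.1 p.2} := by
      rintro p ⟨hp, hloc, hno⟩
      refine ⟨hp, ?_⟩
      rintro ⟨q, hq, T, hT, hF, hB⟩
      apply hno
      obtain ⟨J, hJ, hgood⟩ := good_S (q₀ := q) hS6
        (fun v hv => ⟨fun h => (hZ₁ q hq).2.1 (by rw [← h]; exact hT hv), hZ₂ v (hT hv)⟩) hF hB
      have hJ2 : J ⊆ Z₂ := hJ.trans hT
      obtain ⟨hD1, hD2⟩ := hD q J hq hJ2
      have hrel := hgood (D q J) hD2 (S ∪ insert q T) Finset.subset_union_left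
        ((Finset.subset_insert _ _).trans Finset.subset_union_right)
        (Finset.mem_union_right _ (Finset.mem_insert_self _ _))
      have e1 : ((D q J ^ 2 * p.1 : 𝓞 K) : K) = (D q J : K) ^ 2 * (p.1 : K) := by push_cast; rfl
      have e2 : ((D q J ^ 3 * p.2 : 𝓞 K) : K) = (D q J : K) ^ 3 * (p.2 : K) := by push_cast; rfl
      refine ⟨D q J, ?_, hrel.ne, ?_⟩
      · rw [Finset.mem_biUnion]
        exact ⟨q, hq, Finset.mem_image.2 ⟨J, Finset.mem_powerset.2 hJ2, rfl⟩⟩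
      · refine pf_of_rel h hS2 ?_ ?_ hrel ?_ ?_
        · intro N _ V hV
          exact hS₀ (h.ram.mem_toFinset.2 ⟨N, inferInstance, V, rfl, hV⟩)
        · intro v hv
          rcases Finset.mem_insert.1 hv with h1 | h1
          · rw [h1]
            exact hZ₁Z q hq
          · exact hZ₂Z v (hT h1)
        · intro v hv N _ hN
          obtain ⟨x, hx, hx1⟩ := hD2.loc v hv
          obtain ⟨r, hr⟩ := sq_S hx hx1
          rw [e1, e2]
          exact descAt_twist hD2.ne hr (hloc.1 v N hN)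
        · intro s
          rcases hloc.2 s with h1 | h1
          · left
            have h2 := hD2.pos s
            have e3 : 4 * ((D q J ^ 2 * p.1 : 𝓞 K) : K) ^ 3 + 27 * ((D q J ^ 3 * p.2 : 𝓞 K) : K) ^ 2 =
                (D q J : K) ^ 6 * (4 * (p.1 : K) ^ 3 + 27 * (p.2 : K) ^ 2) := by
              rw [e1, e2]
              ring
            rw [e3, map_mul, map_pow]
            exact mul_pos (pow_pos h2 6) h1
          · exact Or.inr h1
    have h8 := Set.ncard_le_ncard h7 ((H36PP.Bx_finite K X).subset fun p hp => hp.1)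
    have h9 : ({p : 𝓞 K × 𝓞 K | p ∈ Bx K X ∧ LocAll K F p ∧
        ¬ ∃ d ∈ Z₁.biUnion fun q => Z₂.powerset.image (D q),
          4 * (d ^ 2 * p.1) ^ 3 + 27 * (d ^ 3 * p.2) ^ 2 ≠ 0 ∧
          PF K F (d ^ 2 * p.1, d ^ 3 * p.2)}.ncard : ℝ) ≤ _ := Nat.cast_le.2 h8
    calc _ ≤ _ := h9
      _ ≤ ε * c * X ^ (5 * Module.finrank ℚ K) := h4
      _ = ε * (c * X ^ (5 * Module.finrank ℚ K)) := by ring
      _ ≤ _ := mul_le_mul_of_nonneg_left h5 hε.le

/-- The local conditions are necessary. -/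
theorem loc_of_good {K F : Type} [Field K] [NumberField K] [Field F] [Algebra K F] [IsGalois K F]
    {p : 𝓞 K × 𝓞 K} (hD : 4 * p.1 ^ 3 + 27 * p.2 ^ 2 ≠ 0) (hP : PF K F p) : LocAll K F p :=
  ⟨fun v N _ _ => zo_loc hD hP N v, zo_real hD hP⟩

end H30ZO
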