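import Pool.Agent.H30.ZO.Df2

/-!
ROW Ba (project MP_78d38b_ZO, about 220 lines): the sum of two points with different first coordinates near the origin.

PROOF. For a point `(x, y)` with `1 < V x`: `V y ^ 2 = V x ^ 3` (dominant term), so `V x = exp (2 j)`, `V y = exp (3 j)` with `j ≥ m`. Put `z = x / y`, `w = 1 / y` (`y ≠ 0`): `V z = exp (-j)`, `V w = exp (-3 j)` and `w = z^3 + A z w^2 + B w^3`.
Let `zᵢ, wᵢ` belong to the two points. `z₁ ≠ z₂`: otherwise `(w₁ - w₂)(1 - A z (w₁ + w₂) - B (w₁^2 + w₁ w₂ + w₂^2)) = 0`, the second factor has valuation one, so `w₁ = w₂` and `x₁ = x₂`. `λ := (w₁ - w₂) / (z₁ - z₂)`, `ν := w₁ - λ z₁ = w₂ - λ z₂`. From the two equations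
`λ (1 - A z₂ (w₁ + w₂) - B (w₁^2 + w₁ w₂ + w₂^2)) = z₁^2 + z₁ z₂ + z₂^2 + A w₁^2`, so `V λ ≤ exp (-2 m)`, `V ν ≤ exp (-3 m)`. `ν ≠ 0` (otherwise `λ x₁ = 1 = λ x₂`). `c := 1 + A λ^2 + B λ^3` (valuation one), `z₃ := -z₁ - z₂ - (2 A λ ν + 3 B λ^2 ν) / c`, `w₃ := λ z₃ + ν`.
`z₁, z₂, z₃` are the three roots of `c z^3 + (2 A λ ν + 3 B λ^2 ν) z^2 + (A ν^2 + 3 B λ ν^2 - λ) z + (B ν^3 - ν)` (the line `w = λ z + ν` substituted in the equation; the first two are roots and different, so the polynomial is `c (z - z₁)(z - z₂)(z - z₃)`): `w₃ = z₃^3 + A z₃ w₃^2 + B w₃^3`, `V z₃ ≤ exp (-m)`, `V w₃ ≤ exp (-3 m)`, and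
`w₃ ≠ 0` (otherwise `z₃ = 0` and `ν = 0`), so `V w₃ = V z₃ ^ 3`. The slope is `ℓ = (y₁ - y₂) / (x₁ - x₂) = - λ / ν`, and `x₃ := ℓ^2 - x₁ - x₂ = z₃ / w₃`, `ℓ (x₃ - x₁) + y₁ = 1 / w₃` (identities: `xᵢ = zᵢ / wᵢ`, `yᵢ = 1 / wᵢ`, `wᵢ = λ zᵢ + ν`; from Vieta's relations
`z₁ + z₂ + z₃ = -(2 A λ ν + 3 B λ^2 ν) / c`, `z₁ z₂ + z₁ z₃ + z₂ z₃ = (A ν^2 + 3 B λ ν^2 - λ) / c`, `z₁ z₂ z₃ = -(B ν^3 - ν) / c`; field_simp and linear_combination; or: `z₃ / w₃` is a third root of `(ℓ x + μ)^2 = x^3 + A x + B`, `μ = 1 / ν`, compare coefficients of the two factorisations of the cubic in `x` after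
the substitution `x = z / (λ z + ν)`). The sum is `(x₃, -(ℓ (x₃ - x₁) + y₁)) = (z₃ / w₃, - 1 / w₃)` (`Affine.Point.add_some`, `Affine.slope_of_X_ne`, `Affine.addX`, `Affine.addY`, `Affine.negAddY`, `Affine.negY`; see `Lb_add` in Pool/Agent/H73/P2/Lb.lean), its parameter is `-z₃`, and `-z₃ - z₁ - z₂ = (2 A λ ν + 3 B λ^2 ν) / c` has valuation at most `exp (-5 m)`;
`V (z₃ / w₃) = V z₃ ^ (-2) ≥ exp (2 m)` (`z₃ ≠ 0` as `w₃ ≠ 0`).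
-/

set_option autoImplicit false
set_option linter.unusedSectionVars false
open scoped Classical

open WithZero WeierstrassCurve

namespace H30ZO

section BaAux

variable {F : Type} [Field F] {V : Valuation F (WithZero (Multiplicative ℤ))}

theorem Ba_mul {s t : F} {p q : ℤ} (hs : V s ≤ exp p) (ht : V t ≤ exp q) :
    V (s * t) ≤ exp (p + q) := by
  rw [map_mul, exp_add]
  exact mul_le_mul' hs ht

theorem Ba_add {s t : F} {p : ℤ} (hs : V s ≤ exp p) (ht : V t ≤ exp p) :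
    V (s + t) ≤ exp p := (V.map_add s t).trans (max_le hs ht)

theorem Ba_sub {s t : F} {p : ℤ} (hs : V s ≤ exp p) (ht : V t ≤ exp p) :
    V (s - t) ≤ exp p := (V.map_sub s t).trans (max_le hs ht)

theorem Ba_mono {s : F} {p q : ℤ} (hs : V s ≤ exp p) (hpq : p ≤ q) : V s ≤ exp q :=
  hs.trans (exp_le_exp.2 hpq)

theorem Ba_nat (n : ℕ) : V (n : F) ≤ exp (0 : ℤ) := by
  rw [exp_zero]
  induction n with
  | zero => rw [Nat.cast_zero, map_zero]; exact zero_le_one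
  | succ n ih =>
    rw [Nat.cast_succ]
    refine (V.map_add _ _).trans (max_le ih ?_)
    rw [map_one]

theorem Ba_one_add {u : F} (hu : V u ≤ exp (-1 : ℤ)) : V (1 + u) = 1 := by
  apply V.map_one_add_of_lt
  refine lt_of_le_of_lt hu ?_
  rw [← exp_zero, exp_lt_exp]
  norm_num

theorem Ba_one_sub {u : F} (hu : V u ≤ exp (-1 : ℤ)) : V (1 - u) = 1 := by
  apply V.map_one_sub_of_lt
  refine lt_of_le_of_lt hu ?_
  rw [← exp_zero, exp_lt_exp]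
  norm_num

theorem Ba_ne {c : F} (hc : V c = 1) : c ≠ 0 := by
  rintro rfl
  rw [map_zero] at hc
  exact zero_ne_one hc

/-- the parameters of a point near the origin -/
theorem Ba_pt {A B : F} (hA : V A ≤ 1) (hB : V B ≤ 1) {m : ℕ} (hm : 1 ≤ m) {x y : F}
    (e : y ^ 2 = x ^ 3 + A * x + B) (hV : exp (2 * (m : ℤ)) ≤ V x) :
    y ≠ 0 ∧ V (x / y) ≤ exp (-(m : ℤ)) ∧ V (1 / y) ≤ exp (-(3 * (m : ℤ))) ∧
      1 / y = (x / y) ^ 3 + A * (x / y) * (1 / y) ^ 2 + B * (1 / y) ^ 3 := by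
  have hx0 : V x ≠ 0 := by
    intro h
    rw [h] at hV
    exact absurd hV (not_le.2 exp_pos)
  obtain ⟨α, hα⟩ : ∃ α : ℤ, V x = exp α := ⟨_, (exp_log hx0).symm⟩
  have hmα : 2 * (m : ℤ) ≤ α := by
    rw [hα, exp_le_exp] at hV
    exact hV
  have h3 : V (x ^ 3) = exp (3 * α) := by
    rw [map_pow, hα, ← exp_nsmul, nsmul_eq_mul]
    push_cast
    rfl
  have hAx : V (A * x + B) ≤ exp α := by
    refine (V.map_add _ _).trans (max_le ?_ ?_)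
    · rw [map_mul, hα]
      exact mul_le_of_le_one_left' hA
    · refine hB.trans ?_
      rw [← exp_zero, exp_le_exp]
      omega
  have hlt : V (A * x + B) < V (x ^ 3) := by
    rw [h3]
    refine lt_of_le_of_lt hAx ?_
    rw [exp_lt_exp]
    omega
  have hy2 : V (y ^ 2) = exp (3 * α) := by
    rw [e, add_assoc, V.map_add_eq_of_lt_left hlt, h3]
  have hy0 : y ≠ 0 := by
    rintro rfl
    rw [zero_pow two_ne_zero, map_zero] at hy2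
    exact exp_ne_zero hy2.symm
  have hVy0 : V y ≠ 0 := (V.ne_zero_iff).2 hy0
  obtain ⟨β, hβ⟩ : ∃ β : ℤ, V y = exp β := ⟨_, (exp_log hVy0).symm⟩
  have hab : 2 * β = 3 * α := by
    rw [map_pow, hβ, ← exp_nsmul, exp_inj] at hy2
    simpa using hy2
  refine ⟨hy0, ?_, ?_, ?_⟩
  · rw [map_div₀, hα, hβ, ← exp_sub, exp_le_exp]
    omega
  · rw [map_div₀, map_one, hβ, ← exp_zero, ← exp_sub, exp_le_exp]
    omega
  · field_simp
    linear_combination e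

theorem Ba_line {A B : F} {z₁ z₂ z₃ w₁ w₂ l n c : F} (hz : z₁ ≠ z₂) (hc : c ≠ 0)
    (hc' : c = 1 + A * l ^ 2 + B * l ^ 3) (h₁ : w₁ = l * z₁ + n) (h₂ : w₂ = l * z₂ + n)
    (e₁ : w₁ = z₁ ^ 3 + A * z₁ * w₁ ^ 2 + B * w₁ ^ 3)
    (e₂ : w₂ = z₂ ^ 3 + A * z₂ * w₂ ^ 2 + B * w₂ ^ 3)
    (h₃ : c * (z₁ + z₂ + z₃) = -(2 * A * l * n + 3 * B * l ^ 2 * n)) :
    c * (z₁ * z₂ + z₁ * z₃ + z₂ * z₃) = A * n ^ 2 + 3 * B * l * n ^ 2 - l ∧
      c * (z₁ * z₂ * z₃) = -(B * n ^ 3 - n) := by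
  have g₁ : c * z₁ ^ 3 - c * (z₁ + z₂ + z₃) * z₁ ^ 2 + (A * n ^ 2 + 3 * B * l * n ^ 2 - l) * z₁ +
      (B * n ^ 3 - n) = 0 := by
    rw [h₃, hc']
    rw [h₁] at e₁
    linear_combination -e₁
  have g₂ : c * z₂ ^ 3 - c * (z₁ + z₂ + z₃) * z₂ ^ 2 + (A * n ^ 2 + 3 * B * l * n ^ 2 - l) * z₂ +
      (B * n ^ 3 - n) = 0 := by
    rw [h₃, hc']
    rw [h₂] at e₂
    linear_combination -e₂
  have hq : c * (z₁ * z₂ + z₁ * z₃ + z₂ * z₃) = A * n ^ 2 + 3 * B * l * n ^ 2 - l := by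
    apply mul_left_cancel₀ (sub_ne_zero.2 hz)
    linear_combination g₂ - g₁
  refine ⟨hq, ?_⟩
  rw [← hq] at g₁
  linear_combination g₁

end BaAux

theorem zt_add_ne {F : Type} [Field F] {V : Valuation F (WithZero (Multiplicative ℤ))} {A B : F}
    (hA : V A ≤ 1) (hB : V B ≤ 1) {m : ℕ} (hm : 1 ≤ m) {x₁ y₁ x₂ y₂ : F}
    (h₁ : (⟨0, 0, 0, A, B⟩ : WeierstrassCurve F).toAffine.Nonsingular x₁ y₁)
    (h₂ : (⟨0, 0, 0, A, B⟩ : WeierstrassCurve F).toAffine.Nonsingular x₂ y₂) (hx : x₁ ≠ x₂)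
    (hV₁ : exp (2 * (m : ℤ)) ≤ V x₁) (hV₂ : exp (2 * (m : ℤ)) ≤ V x₂) :
    Lv V m (Affine.Point.some x₁ y₁ h₁ + Affine.Point.some x₂ y₂ h₂ : Pc A B) ∧
      V (zt (Affine.Point.some x₁ y₁ h₁ + Affine.Point.some x₂ y₂ h₂ : Pc A B) -
        x₁ / y₁ - x₂ / y₂) ≤ exp (-(5 * (m : ℤ))) := by
  have e₁ := (h₁.1 : _)
  have q₁ : y₁ ^ 2 = x₁ ^ 3 + A * x₁ + B := by
    have h := (Affine.equation_iff _ _).1 h₁.1
    linear_combination h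
  have q₂ : y₂ ^ 2 = x₂ ^ 3 + A * x₂ + B := by
    have h := (Affine.equation_iff _ _).1 h₂.1
    linear_combination h
  clear e₁
  obtain ⟨hy₁, hz₁, hw₁, e₁⟩ := Ba_pt hA hB hm q₁ hV₁
  obtain ⟨hy₂, hz₂, hw₂, e₂⟩ := Ba_pt hA hB hm q₂ hV₂
  obtain ⟨z₁, rz₁⟩ : ∃ z₁, z₁ = x₁ / y₁ := ⟨_, rfl⟩
  obtain ⟨z₂, rz₂⟩ : ∃ z₂, z₂ = x₂ / y₂ := ⟨_, rfl⟩
  obtain ⟨w₁, rw₁⟩ : ∃ w₁, w₁ = 1 / y₁ := ⟨_, rfl⟩
  obtain ⟨w₂, rw₂⟩ : ∃ w₂, w₂ = 1 / y₂ := ⟨_, rfl⟩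
  rw [← rz₁] at hz₁ e₁ ⊢
  rw [← rz₂] at hz₂ e₂ ⊢
  rw [← rw₁] at hw₁ e₁
  rw [← rw₂] at hw₂ e₂
  have hm' : (1 : ℤ) ≤ m := by exact_mod_cast hm
  have hA' : V A ≤ exp (0 : ℤ) := by rw [exp_zero]; exact hA
  have hB' : V B ≤ exp (0 : ℤ) := by rw [exp_zero]; exact hB
  have n2 : V (2 : F) ≤ exp (0 : ℤ) := by exact_mod_cast Ba_nat (V := V) 2
  have n3 : V (3 : F) ≤ exp (0 : ℤ) := by exact_mod_cast Ba_nat (V := V) 3
  have hx1w : z₁ = x₁ * w₁ := by rw [rz₁, rw₁]; ring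
  have hx2w : z₂ = x₂ * w₂ := by rw [rz₂, rw₂]; ring
  have hw₁0 : w₁ ≠ 0 := by rw [rw₁]; exact one_div_ne_zero hy₁
  have hw₂0 : w₂ ≠ 0 := by rw [rw₂]; exact one_div_ne_zero hy₂
  have hu : V (A * z₂ * (w₁ + w₂) + B * (w₁ ^ 2 + w₁ * w₂ + w₂ ^ 2)) ≤ exp (-1 : ℤ) := by
    apply Ba_add
    · refine Ba_mono (Ba_mul (Ba_mul hA' hz₂) (Ba_add hw₁ hw₂)) ?_
      omega
    · refine Ba_mono (Ba_mul hB' (Ba_add (p := -(6 * (m : ℤ))) (Ba_add ?_ ?_) ?_)) ?_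
      · rw [sq]; exact Ba_mono (Ba_mul hw₁ hw₁) (by omega)
      · exact Ba_mono (Ba_mul hw₁ hw₂) (by omega)
      · rw [sq]; exact Ba_mono (Ba_mul hw₂ hw₂) (by omega)
      · omega
  have hV1u := Ba_one_sub hu
  have h1u := Ba_ne hV1u
  have hdiff : (w₁ - w₂) * (1 - (A * z₂ * (w₁ + w₂) + B * (w₁ ^ 2 + w₁ * w₂ + w₂ ^ 2))) =
      (z₁ - z₂) * (z₁ ^ 2 + z₁ * z₂ + z₂ ^ 2 + A * w₁ ^ 2) := by
    linear_combination e₁ - e₂
  have hz : z₁ ≠ z₂ := by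
    intro h
    rw [h, sub_self, zero_mul] at hdiff
    have hw : w₁ = w₂ := sub_eq_zero.1 ((mul_eq_zero.1 hdiff).resolve_right h1u)
    apply hx
    apply mul_right_cancel₀ hw₁0
    rw [← hx1w, h, hx2w, hw]
  have hzs : z₁ - z₂ ≠ 0 := sub_ne_zero.2 hz
  obtain ⟨l, hl⟩ : ∃ l, l = (w₁ - w₂) / (z₁ - z₂) := ⟨_, rfl⟩
  have hl' : l * (z₁ - z₂) = w₁ - w₂ := by rw [hl, div_mul_cancel₀ _ hzs]
  have hlu : l * (1 - (A * z₂ * (w₁ + w₂) + B * (w₁ ^ 2 + w₁ * w₂ + w₂ ^ 2))) =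
      z₁ ^ 2 + z₁ * z₂ + z₂ ^ 2 + A * w₁ ^ 2 := by
    apply mul_left_cancel₀ hzs
    rw [← hdiff, ← hl']
    ring
  have hVl : V l ≤ exp (-(2 * (m : ℤ))) := by
    have h := congrArg V hlu
    rw [map_mul, hV1u, mul_one] at h
    rw [h]
    apply Ba_add
    · apply Ba_add
      · apply Ba_add
        · rw [sq]; exact Ba_mono (Ba_mul hz₁ hz₁) (by omega)
        · exact Ba_mono (Ba_mul hz₁ hz₂) (by omega)
      · rw [sq]; exact Ba_mono (Ba_mul hz₂ hz₂) (by omega)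
    · rw [sq]; exact Ba_mono (Ba_mul hA' (Ba_mul hw₁ hw₁)) (by omega)
  obtain ⟨n, hn⟩ : ∃ n, n = w₁ - l * z₁ := ⟨_, rfl⟩
  have k₁ : w₁ = l * z₁ + n := by rw [hn]; ring
  have k₂ : w₂ = l * z₂ + n := by rw [hn]; linear_combination hl'
  have hVn : V n ≤ exp (-(3 * (m : ℤ))) := by
    rw [hn]
    exact Ba_sub hw₁ (Ba_mono (Ba_mul hVl hz₁) (by omega))
  have hn0 : n ≠ 0 := by
    intro h
    rw [h, add_zero, hx1w] at k₁
    rw [h, add_zero, hx2w] at k₂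
    have k₁' : 1 = l * x₁ := by
      apply mul_right_cancel₀ hw₁0
      linear_combination k₁
    have k₂' : 1 = l * x₂ := by
      apply mul_right_cancel₀ hw₂0
      linear_combination k₂
    have hl0 : l ≠ 0 := by
      rintro rfl
      rw [zero_mul] at k₁'
      exact one_ne_zero k₁'
    exact hx (mul_left_cancel₀ hl0 (k₁'.symm.trans k₂'))
  have hVll : V (A * l ^ 2 + B * l ^ 3) ≤ exp (-1 : ℤ) := by
    apply Ba_add
    · rw [sq]; exact Ba_mono (Ba_mul hA' (Ba_mul hVl hVl)) (by omega)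
    · rw [pow_succ, sq]; exact Ba_mono (Ba_mul hB' (Ba_mul (Ba_mul hVl hVl) hVl)) (by omega)
  obtain ⟨c, hc'⟩ : ∃ c, c = 1 + A * l ^ 2 + B * l ^ 3 := ⟨_, rfl⟩
  have hVc : V c = 1 := by
    rw [hc', add_assoc]
    exact Ba_one_add hVll
  have hc := Ba_ne hVc
  obtain ⟨p, hp⟩ : ∃ p, p = 2 * A * l * n + 3 * B * l ^ 2 * n := ⟨_, rfl⟩
  have hVp : V p ≤ exp (-(5 * (m : ℤ))) := by
    rw [hp]
    apply Ba_add
    · exact Ba_mono (Ba_mul (Ba_mul (Ba_mul n2 hA') hVl) hVn) (by omega)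
    · rw [sq]
      exact Ba_mono (Ba_mul (Ba_mul (Ba_mul n3 hB') (Ba_mul hVl hVl)) hVn) (by omega)
  have hVpc : V (p / c) ≤ exp (-(5 * (m : ℤ))) := by
    rw [map_div₀, hVc, div_one]
    exact hVp
  obtain ⟨z₃, hz₃⟩ : ∃ z₃, z₃ = -z₁ - z₂ - p / c := ⟨_, rfl⟩
  have hVz₃ : V z₃ ≤ exp (-(m : ℤ)) := by
    rw [hz₃]
    refine Ba_sub (Ba_sub ?_ hz₂) (Ba_mono hVpc (by omega))
    rw [Valuation.map_neg]
    exact hz₁
  obtain ⟨w₃, k₃⟩ : ∃ w₃, w₃ = l * z₃ + n := ⟨_, rfl⟩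
  have hVw₃ : V w₃ ≤ exp (-(3 * (m : ℤ))) := by
    rw [k₃]
    exact Ba_add (Ba_mono (Ba_mul hVl hVz₃) (by omega)) hVn
  have hs : c * (z₁ + z₂ + z₃) = -(2 * A * l * n + 3 * B * l ^ 2 * n) := by
    rw [← hp, hz₃]
    field_simp
    ring
  obtain ⟨v2, v3⟩ := Ba_line hz hc hc' k₁ k₂ e₁ e₂ hs
  have e₃ : w₃ = z₃ ^ 3 + A * z₃ * w₃ ^ 2 + B * w₃ ^ 3 := by
    rw [k₃]
    linear_combination z₃ ^ 3 * hc' - z₃ ^ 2 * hs + z₃ * v2 - v3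
  have hw₃0 : w₃ ≠ 0 := by
    intro h
    have h1 : z₃ ^ 3 = 0 := by
      rw [h] at e₃
      linear_combination -e₃
    have h2 : z₃ = 0 := pow_eq_zero_iff (three_ne_zero) |>.1 h1
    rw [h, h2, mul_zero, zero_add] at k₃
    exact hn0 k₃.symm
  have hu₃ : V (A * z₃ * w₃ + B * w₃ ^ 2) ≤ exp (-1 : ℤ) := by
    apply Ba_add
    · exact Ba_mono (Ba_mul (Ba_mul hA' hVz₃) hVw₃) (by omega)
    · rw [sq]; exact Ba_mono (Ba_mul hB' (Ba_mul hVw₃ hVw₃)) (by omega)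
  have hVw3 : V w₃ = V z₃ ^ 3 := by
    have h : w₃ * (1 - (A * z₃ * w₃ + B * w₃ ^ 2)) = z₃ ^ 3 := by linear_combination e₃
    have h' := congrArg V h
    rw [map_mul, Ba_one_sub hu₃, mul_one, map_pow] at h'
    exact h'
  have hz₃0 : z₃ ≠ 0 := by
    intro h
    rw [h, map_zero, zero_pow three_ne_zero, Valuation.zero_iff] at hVw3
    exact hw₃0 hVw3
  have hsl : (⟨0, 0, 0, A, B⟩ : WeierstrassCurve F).toAffine.slope x₁ x₂ y₁ y₂ =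
      (y₁ - y₂) / (x₁ - x₂) := Affine.slope_of_X_ne hx
  have hxs : x₁ - x₂ ≠ 0 := sub_ne_zero.2 hx
  have r₁ : l * x₁ + n * y₁ = 1 := by
    have h1 : w₁ * y₁ = 1 := by rw [rw₁]; field_simp
    have h2 : z₁ * y₁ = x₁ := by rw [rz₁]; field_simp
    linear_combination h1 - y₁ * k₁ - l * h2
  have r₂ : l * x₂ + n * y₂ = 1 := by
    have h1 : w₂ * y₂ = 1 := by rw [rw₂]; field_simp
    have h2 : z₂ * y₂ = x₂ := by rw [rz₂]; field_simp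
    linear_combination h1 - y₂ * k₂ - l * h2
  have hell : (y₁ - y₂) / (x₁ - x₂) = -(l / n) := by
    field_simp
    linear_combination r₁ - r₂
  have hprod : c * (w₁ * w₂ * w₃) = n ^ 3 := by
    rw [k₁, k₂, k₃]
    linear_combination l ^ 3 * v3 + l ^ 2 * n * v2 + l * n ^ 2 * hs + n ^ 3 * hc'
  have hsum : c * (z₁ * (w₂ * w₃) + z₂ * (w₁ * w₃) + z₃ * (w₁ * w₂)) = l ^ 2 * n := by
    rw [k₁, k₂, k₃]
    linear_combination 3 * l ^ 2 * v3 + 2 * l * n * v2 + n ^ 2 * hs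
  have hX : ((y₁ - y₂) / (x₁ - x₂)) ^ 2 - x₁ - x₂ = z₃ / w₃ := by
    have hx₁' : x₁ = z₁ / w₁ := by rw [hx1w]; field_simp
    have hx₂' : x₂ = z₂ / w₂ := by rw [hx2w]; field_simp
    have hl2 : (-(l / n)) ^ 2 = z₁ / w₁ + z₂ / w₂ + z₃ / w₃ := by
      have h1 : l ^ 2 * n * (w₁ * w₂ * w₃) = n ^ 3 *
          (z₁ * (w₂ * w₃) + z₂ * (w₁ * w₃) + z₃ * (w₁ * w₂)) := by
        apply mul_left_cancel₀ hc
        linear_combination (l ^ 2 * n) * hprod - n ^ 3 * hsum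
      have h2 : l ^ 2 * (w₁ * w₂ * w₃) = n ^ 2 *
          (z₁ * (w₂ * w₃) + z₂ * (w₁ * w₃) + z₃ * (w₁ * w₂)) := by
        apply mul_left_cancel₀ hn0
        linear_combination h1
      field_simp
      linear_combination h2
    rw [hell, hl2, ← hx₁', ← hx₂']
    ring
  have r₃ : l * (z₃ / w₃) + n * (1 / w₃) = 1 := by
    field_simp
    exact k₃.symm
  have hY : (y₁ - y₂) / (x₁ - x₂) * (z₃ / w₃ - x₁) + y₁ = 1 / w₃ := by
    rw [hell]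
    have h1 : n * (-(l / n) * (z₃ / w₃ - x₁) + y₁) = n * (1 / w₃) := by
      have h2 : n * (-(l / n) * (z₃ / w₃ - x₁) + y₁) = -(l * (z₃ / w₃ - x₁)) + n * y₁ := by
        field_simp
      rw [h2]
      linear_combination r₁ - r₃
    exact mul_left_cancel₀ hn0 h1
  have haX : (⟨0, 0, 0, A, B⟩ : WeierstrassCurve F).toAffine.addX x₁ x₂
      ((⟨0, 0, 0, A, B⟩ : WeierstrassCurve F).toAffine.slope x₁ x₂ y₁ y₂) = z₃ / w₃ := by
    rw [hsl, ← hX]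
    simp only [Affine.addX]
    ring
  have haY : (⟨0, 0, 0, A, B⟩ : WeierstrassCurve F).toAffine.addY x₁ x₂ y₁
      ((⟨0, 0, 0, A, B⟩ : WeierstrassCurve F).toAffine.slope x₁ x₂ y₁ y₂) = -(1 / w₃) := by
    rw [Affine.addY, Affine.negAddY, haX, hsl, ← hY]
    simp [Affine.negY]
  have hadd := Affine.Point.add_some (h₁ := h₁) (h₂ := h₂) (fun hxy => hx hxy.1)
  rw [hadd]
  constructor
  · refine Or.inr ⟨_, _, _, rfl, ?_⟩
    rw [haX, map_div₀, hVw3]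
    have h0 : V z₃ ≠ 0 := (V.ne_zero_iff).2 hz₃0
    obtain ⟨α, hα⟩ : ∃ α : ℤ, V z₃ = exp α := ⟨_, (exp_log h0).symm⟩
    rw [hα, exp_le_exp] at hVz₃
    rw [hα, ← exp_nsmul, ← exp_sub, exp_le_exp]
    simp only [nsmul_eq_mul]
    push_cast
    omega
  · rw [zt_some, haX, haY]
    have h1 : z₃ / w₃ / -(1 / w₃) - z₁ - z₂ = p / c := by
      have h2 : z₃ / w₃ / -(1 / w₃) = -z₃ := by field_simp
      rw [h2, hz₃]
      ring
    rw [h1]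
    exact hVpc

end H30ZO
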