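import Pool.Agent.H30.ZO.Df2

/-!
ROW Bb (project MP_78d38b_ZO, about 180 lines): the double of a point near the origin.

PROOF. As in row Ba (see there for the notation; do not use it): `V x = exp (2 j)`, `V y = exp (3 j)`, `j ≥ m`, `z = x / y`, `w = 1 / y`, `w = z^3 + A z w^2 + B w^3`. `λ := (3 z^2 + A w^2) / (1 - 2 A z w - 3 B w^2)` (the denominator has valuation one), `V λ ≤ exp (-2 m)`, `ν := w - λ z`, `V ν ≤ exp (-3 m)`.
`ν ≠ 0`: `ν = 0` gives `w (1 - 2 A z w - 3 B w^2) = z (3 z^2 + A w^2)`, i.e. `w = 3 (z^3 + A z w^2 + B w^3) = 3 w`, `2 w = 0`. `c := 1 + A λ^2 + B λ^3` (valuation one), `z₃ := -2 z - (2 A λ ν + 3 B λ^2 ν) / c`, `w₃ := λ z₃ + ν`. The polynomial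
`c T^3 + (2 A λ ν + 3 B λ^2 ν) T^2 + (A ν^2 + 3 B λ ν^2 - λ) T + (B ν^3 - ν)` has the double root `z` (value and derivative vanish at `z`: the derivative is `3 z^2 + A w^2 + 2 A z w λ + 3 B w^2 λ - λ = 0` because `w = λ z + ν`), so it is `c (T - z)^2 (T - z₃)`. So `w₃ = z₃^3 + A z₃ w₃^2 + B w₃^3`, `V z₃ ≤ exp (-m)`, `V w₃ ≤ exp (-3 m)`,
`w₃ ≠ 0` (otherwise `z₃ = 0`, `ν = 0`), `V w₃ = V z₃ ^ 3`. The slope of the tangent is `ℓ = (3 x^2 + A) / (2 y) = - λ / ν` (identity), `ℓ^2 - 2 x = z₃ / w₃`, `ℓ (z₃ / w₃ - x) + y = 1 / w₃` (Vieta: `2 z + z₃ = ...`, `z^2 + 2 z z₃ = ...`, `z^2 z₃ = ...`). The double is `(z₃ / w₃, - 1 / w₃)` (`Affine.Point.add_self_of_Y_ne`,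
`Affine.slope_of_Y_ne`; see `Lb_dbl` in Pool/Agent/H73/P2/Lb.lean; `y ≠ -y`), its parameter is `- z₃` and `- z₃ - 2 z = (2 A λ ν + 3 B λ^2 ν) / c`.
-/

set_option autoImplicit false
set_option linter.unusedSectionVars false
open scoped Classical

open WithZero WeierstrassCurve

namespace H30ZO

/-- The algebra of the tangent construction near the origin. -/
lemma Bb_alg {F : Type} [Field F] {A B z w l n c z₃ w₃ : F}
    (hw : w = z ^ 3 + A * z * w ^ 2 + B * w ^ 3)
    (hl : l * (1 - 2 * A * z * w - 3 * B * w ^ 2) = 3 * z ^ 2 + A * w ^ 2)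
    (hn : n = w - l * z) (hc : c = 1 + A * l ^ 2 + B * l ^ 3)
    (hz₃ : c * z₃ = -2 * z * c - (2 * A * l * n + 3 * B * l ^ 2 * n))
    (hw₃ : w₃ = l * z₃ + n) :
    c * w₃ = c * (z₃ ^ 3 + A * z₃ * w₃ ^ 2 + B * w₃ ^ 3) ∧ c * w ^ 2 * w₃ = n ^ 3 ∧
      c * (2 * z * w * w₃ + z₃ * w ^ 2) = l ^ 2 * n ∧
      n * (1 - 2 * A * z * w - 3 * B * w ^ 2) = -2 * w := by
  have hwn : w = l * z + n := by rw [hn]; ring
  have e1 : 2 * A * l * n + 3 * B * l ^ 2 * n = -c * (2 * z + z₃) := by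
    linear_combination hz₃
  have d0 : 3 * c * z ^ 2 + 2 * (2 * A * l * n + 3 * B * l ^ 2 * n) * z +
      (A * n ^ 2 + 3 * B * l * n ^ 2 - l) = 0 := by
    rw [hc]
    subst hn
    linear_combination -hl
  have f0 : c * z ^ 3 + (2 * A * l * n + 3 * B * l ^ 2 * n) * z ^ 2 +
      (A * n ^ 2 + 3 * B * l * n ^ 2 - l) * z + (B * n ^ 3 - n) = 0 := by
    rw [hc]
    subst hn
    linear_combination -hw
  have e2 : A * n ^ 2 + 3 * B * l * n ^ 2 - l = c * (z ^ 2 + 2 * z * z₃) := by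
    linear_combination d0 - 2 * z * e1
  have e3 : B * n ^ 3 - n = -c * z ^ 2 * z₃ := by
    linear_combination f0 - z ^ 2 * e1 - z * e2
  refine ⟨?_, ?_, ?_, ?_⟩
  · have h1 : c * z₃ ^ 3 + (2 * A * l * n + 3 * B * l ^ 2 * n) * z₃ ^ 2 +
        (A * n ^ 2 + 3 * B * l * n ^ 2 - l) * z₃ + (B * n ^ 3 - n) = 0 := by
      rw [e1, e2, e3]; ring
    have h2 : w₃ = z₃ ^ 3 + A * z₃ * w₃ ^ 2 + B * w₃ ^ 3 := by
      rw [hw₃]
      rw [hc] at h1
      linear_combination -h1
    exact congrArg (fun t => c * t) h2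
  · rw [hw₃, hwn]
    have : c * (l * z + n) ^ 2 * (l * z₃ + n) =
        l ^ 3 * (c * z ^ 2 * z₃) + l ^ 2 * n * (c * (z ^ 2 + 2 * z * z₃)) +
          l * n ^ 2 * (c * (2 * z + z₃)) + c * n ^ 3 := by ring
    rw [this]
    have a1 : c * (2 * z + z₃) = -(2 * A * l * n + 3 * B * l ^ 2 * n) := by
      linear_combination e1
    have a3 : c * z ^ 2 * z₃ = n - B * n ^ 3 := by linear_combination e3
    rw [a1, a3, ← e2, hc]
    ring
  · rw [hw₃, hwn]
    have : c * (2 * z * (l * z + n) * (l * z₃ + n) + z₃ * (l * z + n) ^ 2) =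
        3 * l ^ 2 * (c * z ^ 2 * z₃) + 2 * l * n * (c * (z ^ 2 + 2 * z * z₃)) +
          n ^ 2 * (c * (2 * z + z₃)) := by ring
    rw [this]
    have a1 : c * (2 * z + z₃) = -(2 * A * l * n + 3 * B * l ^ 2 * n) := by
      linear_combination e1
    have a3 : c * z ^ 2 * z₃ = n - B * n ^ 3 := by linear_combination e3
    rw [a1, a3, ← e2]
    ring
  · rw [hn]
    linear_combination -z * hl + 3 * hw

/-- The valuation of a point near the origin. -/
lemma Bb_val {F : Type} [Field F] {V : Valuation F (WithZero (Multiplicative ℤ))} {A B : F}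
    (hA : V A ≤ 1) (hB : V B ≤ 1) {m : ℕ} (hm : 1 ≤ m) {x y : F}
    (he : y ^ 2 = x ^ 3 + A * x + B) (hV : exp (2 * (m : ℤ)) ≤ V x) :
    x ≠ 0 ∧ y ≠ 0 ∧ V (x / y) ≤ exp (-(m : ℤ)) ∧ V (1 / y) ≤ exp (-(3 * (m : ℤ))) := by
  have h1 : (1 : WithZero (Multiplicative ℤ)) < V x := by
    refine lt_of_lt_of_le ?_ hV
    rw [← exp_zero, exp_lt_exp]
    omega
  have hVx : V x ≠ 0 := (zero_lt_one.trans h1).ne'
  have hx : x ≠ 0 := (Valuation.ne_zero_iff _).1 hVx
  have h2 : V (A * x + B) < V (x ^ 3) := by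
    have h3 : V (A * x + B) ≤ V x := by
      refine (Valuation.map_add _ _ _).trans (max_le ?_ (hB.trans h1.le))
      rw [map_mul]
      exact mul_le_of_le_one_left' hA
    refine h3.trans_lt ?_
    rw [map_pow]
    calc V x = V x ^ 1 := (pow_one _).symm
      _ < V x ^ 3 := pow_lt_pow_right₀ h1 (by norm_num)
  have hy2 : V y ^ 2 = V x ^ 3 := by
    rw [← map_pow, he, add_assoc, Valuation.map_add_eq_of_lt_left _ h2, map_pow]
  have hVy : V y ≠ 0 := by
    intro h0
    rw [h0, zero_pow (by norm_num)] at hy2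
    exact pow_ne_zero 3 hVx hy2.symm
  have hy : y ≠ 0 := (Valuation.ne_zero_iff _).1 hVy
  have hz2 : V (x / y) ^ 2 * V x = 1 := by
    rw [map_div₀, div_pow, hy2]
    field_simp
  have hz : V (x / y) ≤ exp (-(m : ℤ)) := by
    by_contra h
    push Not at h
    have h3 : exp (-(m : ℤ)) ^ 2 * exp (2 * (m : ℤ)) < V (x / y) ^ 2 * V x := by
      refine lt_of_lt_of_le (mul_lt_mul_of_pos_right
        (pow_lt_pow_left₀ h zero_le (by norm_num)) (exp_pos)) ?_
      exact mul_le_mul' le_rfl hV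
    rw [hz2, ← exp_nsmul, ← exp_add] at h3
    have : (2 • -(m : ℤ) + 2 * (m : ℤ)) = 0 := by simp
    rw [this, exp_zero] at h3
    exact lt_irrefl _ h3
  refine ⟨hx, hy, hz, ?_⟩
  have h4 : V (1 / y) = V (x / y) ^ 3 := by
    rw [map_div₀, map_div₀, map_one, div_pow, ← hy2]
    field_simp
  rw [h4]
  calc V (x / y) ^ 3 ≤ exp (-(m : ℤ)) ^ 3 := pow_le_pow_left₀ zero_le hz 3
    _ = exp (-(3 * (m : ℤ))) := by
      rw [← exp_nsmul]
      congr 1
      simp

theorem zt_dbl {F : Type} [Field F] (h2 : (2 : F) ≠ 0)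
    {V : Valuation F (WithZero (Multiplicative ℤ))} {A B : F}
    (hA : V A ≤ 1) (hB : V B ≤ 1) {m : ℕ} (hm : 1 ≤ m) {x y : F}
    (h : (⟨0, 0, 0, A, B⟩ : WeierstrassCurve F).toAffine.Nonsingular x y)
    (hV : exp (2 * (m : ℤ)) ≤ V x) :
    Lv V m (Affine.Point.some x y h + Affine.Point.some x y h : Pc A B) ∧
      V (zt (Affine.Point.some x y h + Affine.Point.some x y h : Pc A B) - 2 * (x / y)) ≤
        exp (-(5 * (m : ℤ))) := by
  have he : y ^ 2 = x ^ 3 + A * x + B := by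
    have h1 := (Affine.equation_iff _ _).1 h.1
    linear_combination h1
  obtain ⟨hx, hy, hz, hw⟩ := Bb_val hA hB hm he hV
  -- small valuations
  have hE : ∀ k : ℤ, 0 < k → (exp (-k) : WithZero (Multiplicative ℤ)) < 1 := by
    intro k hk
    rw [← exp_zero, exp_lt_exp]
    omega
  have hnat : ∀ k : ℕ, V (k : F) ≤ 1 := by
    intro k
    induction k with
    | zero => simp
    | succ k ih =>
      push_cast
      exact (Valuation.map_add _ _ _).trans (max_le ih (by simp))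
  have hV2 : V (2 : F) ≤ 1 := by simpa using hnat 2
  have hV3 : V (3 : F) ≤ 1 := by simpa using hnat 3
  set z : F := x / y with hzd
  set w : F := 1 / y with hwd
  have hw0 : w ≠ 0 := one_div_ne_zero hy
  have hweq : w = z ^ 3 + A * z * w ^ 2 + B * w ^ 3 := by
    rw [hzd, hwd]
    field_simp
    linear_combination he
  have hz1 : V z < 1 := hz.trans_lt (hE _ (by omega))
  have hw1 : V w < 1 := hw.trans_lt (hE _ (by omega))
  have hD : V (1 - (2 * A * z * w + 3 * B * w ^ 2)) = 1 := by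
    apply Valuation.map_one_sub_of_lt
    refine (Valuation.map_add _ _ _).trans_lt (max_lt ?_ ?_)
    · have h3 : V (2 * A * z * w) ≤ V w := by
        simp only [map_mul]
        refine mul_le_of_le_one_left' ?_
        exact mul_le_one' (mul_le_one' hV2 hA) hz1.le
      exact h3.trans_lt hw1
    · have h3 : V (3 * B * w ^ 2) ≤ V w := by
        have : (3 * B * w ^ 2) = (3 * B * w) * w := by ring
        rw [this]
        simp only [map_mul]
        refine mul_le_of_le_one_left' ?_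
        exact mul_le_one' (mul_le_one' hV3 hB) hw1.le
      exact h3.trans_lt hw1
  have hD' : V (1 - 2 * A * z * w - 3 * B * w ^ 2) = 1 := by
    rw [← hD]; congr 1; ring
  have hD0 : (1 - 2 * A * z * w - 3 * B * w ^ 2) ≠ 0 := by
    intro h0
    rw [h0, map_zero] at hD'
    exact zero_ne_one hD'
  set D : F := 1 - 2 * A * z * w - 3 * B * w ^ 2 with hDd
  obtain ⟨l, hld⟩ : ∃ l : F, l = (3 * z ^ 2 + A * w ^ 2) / D := ⟨_, rfl⟩
  have hl : l * D = 3 * z ^ 2 + A * w ^ 2 := by rw [hld]; field_simp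
  obtain ⟨n, hn⟩ : ∃ n : F, n = w - l * z := ⟨_, rfl⟩
  obtain ⟨c, hc⟩ : ∃ c : F, c = 1 + A * l ^ 2 + B * l ^ 3 := ⟨_, rfl⟩
  -- powers of exp
  have hp2 : (exp (-(m : ℤ)) : WithZero (Multiplicative ℤ)) ^ 2 = exp (-(2 * (m : ℤ))) := by
    rw [← exp_nsmul]; congr 1; simp
  have hVl : V l ≤ exp (-(2 * (m : ℤ))) := by
    have h3 : V l = V (3 * z ^ 2 + A * w ^ 2) := by
      rw [hld, map_div₀, hD', div_one]
    rw [h3]
    refine (Valuation.map_add _ _ _).trans (max_le ?_ ?_)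
    · rw [map_mul, map_pow, ← hp2]
      exact (mul_le_of_le_one_left' hV3).trans (pow_le_pow_left₀ zero_le hz 2)
    · rw [map_mul, map_pow, ← hp2]
      refine (mul_le_of_le_one_left' hA).trans (pow_le_pow_left₀ zero_le (hw.trans ?_) 2)
      rw [exp_le_exp]; omega
  have hl1 : V l < 1 := hVl.trans_lt (hE _ (by omega))
  have hVn : V n ≤ exp (-(3 * (m : ℤ))) := by
    rw [hn]
    refine (Valuation.map_sub _ _ _).trans (max_le hw ?_)
    rw [map_mul]
    calc V l * V z ≤ exp (-(2 * (m : ℤ))) * exp (-(m : ℤ)) := mul_le_mul' hVl hz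
      _ = exp (-(3 * (m : ℤ))) := by rw [← exp_add]; congr 1; ring
  have hc1 : V c = 1 := by
    rw [hc, add_assoc]
    apply Valuation.map_one_add_of_lt
    refine (Valuation.map_add _ _ _).trans_lt (max_lt ?_ ?_)
    · have h3 : V (A * l ^ 2) ≤ V l := by
        have : A * l ^ 2 = (A * l) * l := by ring
        rw [this]
        simp only [map_mul]
        exact mul_le_of_le_one_left' (mul_le_one' hA hl1.le)
      exact h3.trans_lt hl1
    · have h3 : V (B * l ^ 3) ≤ V l := by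
        have : B * l ^ 3 = (B * l * l) * l := by ring
        rw [this]
        simp only [map_mul]
        exact mul_le_of_le_one_left' (mul_le_one' (mul_le_one' hB hl1.le) hl1.le)
      exact h3.trans_lt hl1
  have hc0 : c ≠ 0 := by
    intro h0
    rw [h0, map_zero] at hc1
    exact zero_ne_one hc1
  obtain ⟨e, he'⟩ : ∃ e : F, e = (2 * A * l * n + 3 * B * l ^ 2 * n) / c := ⟨_, rfl⟩
  have hVe : V e ≤ exp (-(5 * (m : ℤ))) := by
    rw [he', map_div₀, hc1, div_one]
    have h3 : (2 * A * l * n + 3 * B * l ^ 2 * n) = (2 * A + 3 * B * l) * (l * n) := by ring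
    rw [h3, map_mul]
    have h4 : V (2 * A + 3 * B * l) ≤ 1 := by
      refine (Valuation.map_add _ _ _).trans (max_le ?_ ?_)
      · rw [map_mul]; exact mul_le_one' hV2 hA
      · simp only [map_mul]; exact mul_le_one' (mul_le_one' hV3 hB) hl1.le
    refine (mul_le_of_le_one_left' h4).trans ?_
    rw [map_mul]
    calc V l * V n ≤ exp (-(2 * (m : ℤ))) * exp (-(3 * (m : ℤ))) := mul_le_mul' hVl hVn
      _ = exp (-(5 * (m : ℤ))) := by rw [← exp_add]; congr 1; ring
  obtain ⟨z₃, hz₃⟩ : ∃ z₃ : F, z₃ = -2 * z - e := ⟨_, rfl⟩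
  obtain ⟨w₃, hw₃⟩ : ∃ w₃ : F, w₃ = l * z₃ + n := ⟨_, rfl⟩
  obtain ⟨q1, q2, q3, q4⟩ := Bb_alg (z₃ := z₃) hweq hl hn hc
    (by rw [hz₃, he']; field_simp) hw₃
  have hw₃eq : w₃ = z₃ ^ 3 + A * z₃ * w₃ ^ 2 + B * w₃ ^ 3 := mul_left_cancel₀ hc0 q1
  have hn0 : n ≠ 0 := by
    intro h0
    rw [h0, zero_mul] at q4
    exact mul_ne_zero h2 hw0 (by linear_combination q4)
  have hw₃0 : w₃ ≠ 0 := by
    intro h0
    rw [h0, mul_zero] at q2
    exact pow_ne_zero 3 hn0 q2.symm
  have hVz₃ : V z₃ ≤ exp (-(m : ℤ)) := by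
    rw [hz₃]
    refine (Valuation.map_sub _ _ _).trans (max_le ?_ (hVe.trans ?_))
    · rw [map_mul, Valuation.map_neg]
      exact (mul_le_of_le_one_left' hV2).trans hz
    · rw [exp_le_exp]; omega
  have hz₃1 : V z₃ < 1 := hVz₃.trans_lt (hE _ (by omega))
  have hw₃1 : V w₃ < 1 := by
    rw [hw₃]
    refine (Valuation.map_add _ _ _).trans_lt (max_lt ?_ (hVn.trans_lt (hE _ (by omega))))
    rw [map_mul]
    exact (mul_le_of_le_one_left' hl1.le).trans_lt hz₃1
  have hz₃0 : z₃ ≠ 0 := by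
    intro h0
    have h3 : w₃ * (1 - B * w₃ ^ 2) = 0 := by
      rw [h0] at hw₃eq
      linear_combination hw₃eq
    rcases mul_eq_zero.1 h3 with h4 | h4
    · exact hw₃0 h4
    · have h5 : V (1 - B * w₃ ^ 2) = 1 := by
        apply Valuation.map_one_sub_of_lt
        have : B * w₃ ^ 2 = (B * w₃) * w₃ := by ring
        rw [this]
        simp only [map_mul]
        exact (mul_le_of_le_one_left' (mul_le_one' hB hw₃1.le)).trans_lt hw₃1
      rw [h4, map_zero] at h5
      exact zero_ne_one h5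
  have hVw₃ : V w₃ = V z₃ ^ 3 := by
    have h3 : w₃ * (1 - (A * z₃ * w₃ + B * w₃ ^ 2)) = z₃ ^ 3 := by
      linear_combination hw₃eq
    have h5 : V (1 - (A * z₃ * w₃ + B * w₃ ^ 2)) = 1 := by
      apply Valuation.map_one_sub_of_lt
      refine (Valuation.map_add _ _ _).trans_lt (max_lt ?_ ?_)
      · simp only [map_mul]
        exact (mul_le_of_le_one_left' (mul_le_one' hA hz₃1.le)).trans_lt hw₃1
      · have : B * w₃ ^ 2 = (B * w₃) * w₃ := by ring
        rw [this]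
        simp only [map_mul]
        exact (mul_le_of_le_one_left' (mul_le_one' hB hw₃1.le)).trans_lt hw₃1
    rw [← map_pow, ← h3, map_mul, h5, mul_one]
  -- the double
  have hny' : (⟨0, 0, 0, A, B⟩ : WeierstrassCurve F).toAffine.negY x y = -y := by
    simp [Affine.negY]
  have hny : y ≠ (⟨0, 0, 0, A, B⟩ : WeierstrassCurve F).toAffine.negY x y := by
    rw [hny']
    intro h3
    apply mul_ne_zero h2 hy
    linear_combination h3
  have hadd := Affine.Point.add_self_of_Y_ne (h₁ := h) hny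
  have hsl : (⟨0, 0, 0, A, B⟩ : WeierstrassCurve F).toAffine.slope x x y y = -(l / n) := by
    rw [Affine.slope_of_Y_ne rfl hny, hny']
    have hxz : x = z / w := by rw [hzd, hwd]; field_simp
    have hyw : y = 1 / w := by rw [hwd]; field_simp
    have h2y : y - -y = 2 * y := by ring
    have h2w : 2 * w = -(n * D) := by linear_combination q4
    calc (3 * x ^ 2 + 2 * 0 * x + A - 0 * y) / (y - -y) = (3 * z ^ 2 + A * w ^ 2) / (2 * w) := by
          rw [h2y, hxz, hyw]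
          field_simp
          ring
      _ = l * D / -(n * D) := by rw [← hl, h2w]
      _ = -(l / n) := by field_simp
  rw [hadd]
  have hX : (⟨0, 0, 0, A, B⟩ : WeierstrassCurve F).toAffine.addX x x
      ((⟨0, 0, 0, A, B⟩ : WeierstrassCurve F).toAffine.slope x x y y) = z₃ / w₃ := by
    rw [hsl]
    simp only [Affine.addX]
    have hxz : x = z / w := by rw [hzd, hwd]; field_simp
    rw [hxz]
    have hlv : l ^ 2 / n ^ 2 = (2 * z * w * w₃ + z₃ * w ^ 2) / (w ^ 2 * w₃) := by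
      rw [div_eq_div_iff (pow_ne_zero 2 hn0) (mul_ne_zero (pow_ne_zero 2 hw0) hw₃0)]
      apply mul_left_cancel₀ hc0
      apply mul_left_cancel₀ hn0
      linear_combination (l ^ 2 * n) * q2 - n ^ 3 * q3
    have : (-(l / n)) ^ 2 + 0 * -(l / n) - 0 - z / w - z / w = l ^ 2 / n ^ 2 - 2 * (z / w) := by
      rw [neg_sq, div_pow]; ring
    rw [this, hlv]
    field_simp
    ring
  have hY : (⟨0, 0, 0, A, B⟩ : WeierstrassCurve F).toAffine.addY x x y
      ((⟨0, 0, 0, A, B⟩ : WeierstrassCurve F).toAffine.slope x x y y) = -(1 / w₃) := by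
    simp only [Affine.addY, Affine.negAddY, Affine.negY, hX]
    rw [hsl]
    have hxz : x = z / w := by rw [hzd, hwd]; field_simp
    have hyw : y = 1 / w := by rw [hwd]; field_simp
    have hwn : w = l * z + n := by rw [hn]; ring
    have key : -(l / n) * (z₃ / w₃ - z / w) + 1 / w = 1 / w₃ := by
      have : -(l / n) * (z₃ / w₃ - z / w) + 1 / w - 1 / w₃ =
          (-l * z₃ * w + l * z * w₃ + n * w₃ - n * w) / (n * w * w₃) := by
        field_simp
        ring
      have h0 : -l * z₃ * w + l * z * w₃ + n * w₃ - n * w = 0 := by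
        linear_combination w * hw₃ - w₃ * hwn
      rw [h0, zero_div] at this
      exact sub_eq_zero.1 this
    rw [hxz, hyw, key]
    ring
  constructor
  · right
    refine ⟨_, _, _, rfl, ?_⟩
    rw [hX, map_div₀, hVw₃]
    have hVz0 : V z₃ ≠ 0 := (Valuation.ne_zero_iff _).2 hz₃0
    rw [le_div_iff₀ (pow_pos (zero_lt_iff.2 hVz0) 3)]
    calc exp (2 * (m : ℤ)) * V z₃ ^ 3 = (exp (2 * (m : ℤ)) * V z₃ ^ 2) * V z₃ := by
          rw [mul_assoc, ← pow_succ]
      _ ≤ (exp (2 * (m : ℤ)) * exp (-(m : ℤ)) ^ 2) * V z₃ :=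
        mul_le_mul' (mul_le_mul' le_rfl (pow_le_pow_left₀ zero_le hVz₃ 2)) le_rfl
      _ = V z₃ := by
        rw [hp2, ← exp_add, add_neg_cancel, exp_zero, one_mul]
  · rw [zt_some, hX, hY]
    have : z₃ / w₃ / -(1 / w₃) - 2 * z = e := by
      rw [hz₃]
      field_simp
      ring
    rw [this]
    exact hVe

end H30ZO
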