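import Pool.Agent.H30.ZO.Ba
import Pool.Agent.H30.ZO.Bb

/-!
ROW Bc (project MP_78d38b_ZO, about 110 lines): the subgroup of the points of level at least `m`. Use only the STATEMENTS of Ba, Bb.

PROOF. The carrier is `{P | Lv V m P}`. Sums: one of the points is zero: trivial. Both nonzero, `x₁ ≠ x₂`: zt_add_ne. `x₁ = x₂`: the points are equal (zt_dbl) or opposite (the sum is zero and `zt (-P) = - zt P`), because `y₁^2 = y₂^2` (`Lb_add` in Pool/Agent/H73/P2/Lb.lean shows how to get this). Negatives: `-(x, y) = (x, -y)` (`Affine.Point.neg_some`, `Lb_negY`).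
The estimate of `zt (P + Q) - zt P - zt Q`: in the trivial cases the difference is zero. `2 • P = 0`, `P = (x, y)`: `P = -P`, so `2 y = 0`, `y = 0`, but `V y ^ 2 = V x ^ 3 > 0` (dominant term, `V x > 1`), a contradiction.
-/

set_option autoImplicit false
set_option linter.unusedSectionVars false
open scoped Classical

open WithZero WeierstrassCurve

namespace H30ZO

private theorem Bc_negY {F : Type} [Field F] (A B x y : F) :
    (⟨0, 0, 0, A, B⟩ : WeierstrassCurve F).toAffine.negY x y = -y := by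
  simp [Affine.negY]

private theorem Bc_eqn {F : Type} [Field F] {A B x y : F}
    (h : (⟨0, 0, 0, A, B⟩ : WeierstrassCurve F).toAffine.Nonsingular x y) :
    y ^ 2 = x ^ 3 + A * x + B := by
  have h1 := (Affine.equation_iff _ _).1 h.1
  linear_combination h1

private theorem Bc_ztneg {F : Type} [Field F] {A B : F} (P : Pc A B) : zt (-P) = -zt P := by
  rcases P with _ | ⟨x, y, h⟩
  · show zt (-(0 : Pc A B)) = -zt (0 : Pc A B)
    rw [neg_zero, zt_zero, neg_zero]
  · rw [Affine.Point.neg_some, zt_some, zt_some, Bc_negY, div_neg]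

private theorem Bc_lvneg {F : Type} [Field F] {V : Valuation F (WithZero (Multiplicative ℤ))}
    {A B : F} {m : ℕ} {P : Pc A B} (hP : Lv V m P) : Lv V m (-P) := by
  rcases hP with rfl | ⟨x, y, h, rfl, hV⟩
  · exact Or.inl neg_zero
  · exact Or.inr ⟨x, _, _, Affine.Point.neg_some h, hV⟩

private theorem Bc_add {F : Type} [Field F] (h2 : (2 : F) ≠ 0)
    {V : Valuation F (WithZero (Multiplicative ℤ))} {A B : F}
    (hA : V A ≤ 1) (hB : V B ≤ 1) {m : ℕ} (hm : 1 ≤ m) {P Q : Pc A B} (hP : Lv V m P)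
    (hQ : Lv V m Q) :
    Lv V m (P + Q) ∧ V (zt (P + Q) - zt P - zt Q) ≤ exp (-(5 * (m : ℤ))) := by
  rcases hP with rfl | ⟨x₁, y₁, h₁, rfl, hV₁⟩
  · rw [zero_add, zt_zero, sub_zero, sub_self, map_zero]
    exact ⟨hQ, zero_le⟩
  rcases hQ with rfl | ⟨x₂, y₂, h₂, rfl, hV₂⟩
  · rw [add_zero, zt_zero, sub_zero, sub_self, map_zero]
    exact ⟨Or.inr ⟨x₁, y₁, h₁, rfl, hV₁⟩, zero_le⟩
  by_cases hx : x₁ = x₂
  · subst hx
    have h3 : (y₁ - y₂) * (y₁ + y₂) = 0 := by linear_combination Bc_eqn h₁ - Bc_eqn h₂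
    rcases mul_eq_zero.1 h3 with h4 | h4
    · have h5 : y₁ = y₂ := sub_eq_zero.1 h4
      subst h5
      obtain ⟨h6, h7⟩ := zt_dbl h2 hA hB hm h₁ hV₁
      refine ⟨h6, ?_⟩
      rw [zt_some, sub_sub, ← two_mul]
      exact h7
    · have h5 : (Affine.Point.some x₁ y₁ h₁ : Pc A B) = -(Affine.Point.some x₁ y₂ h₂ : Pc A B) := by
        rw [Affine.Point.neg_some, Affine.Point.some.injEq]
        refine ⟨rfl, ?_⟩
        rw [Bc_negY]
        linear_combination h4
      rw [h5, neg_add_cancel, zt_zero, Bc_ztneg, zero_sub, neg_neg, sub_self, map_zero]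
      exact ⟨Or.inl rfl, zero_le⟩
  · exact zt_add_ne hA hB hm h₁ h₂ hx hV₁ hV₂

theorem exists_EE {F : Type} [Field F] (h2 : (2 : F) ≠ 0)
    {V : Valuation F (WithZero (Multiplicative ℤ))} {A B : F}
    (hA : V A ≤ 1) (hB : V B ≤ 1) {m : ℕ} (hm : 1 ≤ m) :
    ∃ H : AddSubgroup (Pc A B), (∀ P, P ∈ H ↔ Lv V m P) ∧
      (∀ P ∈ H, ∀ Q ∈ H, V (zt (P + Q) - zt P - zt Q) ≤ exp (-(5 * (m : ℤ)))) ∧
      (∀ P : Pc A B, zt (-P) = -zt P) ∧ ∀ P ∈ H, (2 : ℤ) • P = 0 → P = 0 := by
  refine ⟨{ carrier := {P | Lv V m P}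
            zero_mem' := Or.inl rfl
            add_mem' := fun {P Q} hP hQ => (Bc_add h2 hA hB hm hP hQ).1
            neg_mem' := fun {P} hP => Bc_lvneg hP }, fun P => Iff.rfl, ?_, Bc_ztneg, ?_⟩
  · intro P hP Q hQ
    exact (Bc_add h2 hA hB hm hP hQ).2
  · intro P hP h0
    rcases hP with rfl | ⟨x, y, h, rfl, hV⟩
    · rfl
    exfalso
    rw [two_zsmul, add_eq_zero_iff_eq_neg, Affine.Point.neg_some, Affine.Point.some.injEq,
      Bc_negY] at h0
    have hy : y = 0 := by
      have h3 : 2 * y = 0 := by linear_combination h0.2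
      exact (mul_eq_zero.1 h3).resolve_left h2
    have h4 := Bc_eqn h
    rw [hy] at h4
    have h5 : x ^ 3 = -(A * x + B) := by linear_combination -h4
    have hx1 : 1 < V x := by
      refine lt_of_lt_of_le ?_ hV
      rw [← exp_zero, exp_lt_exp]
      omega
    have h6 : V (x ^ 3) ≤ V x := by
      rw [h5, Valuation.map_neg]
      refine Valuation.map_add_le _ ?_ (hB.trans hx1.le)
      rw [map_mul]
      exact mul_le_of_le_one_left' hA
    have h7 : V x < V (x ^ 3) := by
      have hx0 : 0 < V x := zero_lt_one.trans hx1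
      rw [map_pow, pow_succ, pow_two]
      calc V x = 1 * V x := (one_mul _).symm
        _ < V x * V x * V x := by
          refine (mul_lt_mul_iff_left₀ hx0).2 ?_
          exact one_lt_mul'' hx1 hx1
    exact absurd h6 (not_le.2 h7)

end H30ZO
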