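import Pool.Agent.H30.ZO.Bc
import Pool.Agent.H30.ZO.Bd

/-!
ROW Be (project MP_78d38b_ZO, about 130 lines): the index of the doubles in the points of level at least `m`. Use only the STATEMENTS of Bc, Bd.

PROOF. `V := Valued.v` on `F := v.adicCompletion k`, `e := e2 v`, `V 2 = exp (-e)` (`e2_spec`, `H36CY.val_coe` in Pool/Agent/H36/CY/Ld.lean or `HeightOneSpectrum.valuedAdicCompletion_eq_valuation'`). `K₀ := {P ∈ H | V (zt P) ≤ exp (-(m + e))}` is a subgroup of `H` (`5 m ≥ m + e`). It contains the doubles of the elements `P` of `H`: `V (zt (P + P) - 2 zt P) ≤ exp (-5 m)`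
and `V (2 zt P) ≤ exp (-(m + e))` (`V (zt P) ≤ exp (-m)` for `P ∈ H`: `V y ^ 2 = V x ^ 3`, `V (x / y) ^ 2 = (V x)⁻¹`). So if `(H.map two).relIndex H` is not zero then `K₀.relIndex H` divides it (`AddSubgroup.relIndex_dvd_of_le_left`) and it suffices that `K₀.relIndex H ≥ qq v` or is zero; if it is zero then also the other index is zero. Let `R ⊂ 𝓞 k` be a system of representatives of `𝓞 k ⧸ v.asIdeal ^ e` (`Nv v ^ e = qq v` elements:
`Ideal.absNorm`, `Submodule.cardQuot_pow_of_prime` or `map_pow`), `π ∈ k` a uniformizer. For `c ∈ R` take `P_c ∈ H` with `zt P_c = π^m c` (exists_zt). For `c ≠ c'`: `V (zt (P_c - P_c') - π^m (c - c')) ≤ exp (-5 m) ≤ exp (-(m + e))` and `V (π^m (c - c')) > exp (-(m + e))` (`c - c' ∉ v.asIdeal ^ e`: `intValuation_le_pow_iff_mem`), so `P_c - P_c' ∉ K₀`.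
So there are at least `qq v` cosets of `K₀` in `H`: `K₀.relIndex H = Nat.card (H ⧸ K₀.addSubgroupOf H)` is zero (infinite) or at least `qq v` (injection `R → H / K₀`).
-/

/-!
ROW Be (project MP_78d38b_ZO, about 130 lines): the index of the doubles in the points of level at least `m`. Use only the STATEMENTS of Bc, Bd.

PROOF. `V := Valued.v` on `F := v.adicCompletion k`, `e := e2 v`, `V 2 = exp (-e)` (`e2_spec`, `H36CY.val_coe` in Pool/Agent/H36/CY/Ld.lean or `HeightOneSpectrum.valuedAdicCompletion_eq_valuation'`). `K₀ := {P ∈ H | V (zt P) ≤ exp (-(m + e))}` is a subgroup of `H` (`5 m ≥ m + e`). It contains the doubles of the elements `P` of `H`: `V (zt (P + P) - 2 zt P) ≤ exp (-5 m)`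
and `V (2 zt P) ≤ exp (-(m + e))` (`V (zt P) ≤ exp (-m)` for `P ∈ H`: `V y ^ 2 = V x ^ 3`, `V (x / y) ^ 2 = (V x)⁻¹`). So if `(H.map two).relIndex H` is not zero then `K₀.relIndex H` divides it (`AddSubgroup.relIndex_dvd_of_le_left`) and it suffices that `K₀.relIndex H ≥ qq v` or is zero; if it is zero then also the other index is zero. Let `R ⊂ 𝓞 k` be a system of representatives of `𝓞 k ⧸ v.asIdeal ^ e` (`Nv v ^ e = qq v` elements:
`Ideal.absNorm`, `Submodule.cardQuot_pow_of_prime` or `map_pow`), `π ∈ k` a uniformizer. For `c ∈ R` take `P_c ∈ H` with `zt P_c = π^m c` (exists_zt). For `c ≠ c'`: `V (zt (P_c - P_c') - π^m (c - c')) ≤ exp (-5 m) ≤ exp (-(m + e))` and `V (π^m (c - c')) > exp (-(m + e))` (`c - c' ∉ v.asIdeal ^ e`: `intValuation_le_pow_iff_mem`), so `P_c - P_c' ∉ K₀`.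
So there are at least `qq v` cosets of `K₀` in `H`: `K₀.relIndex H = Nat.card (H ⧸ K₀.addSubgroupOf H)` is zero (infinite) or at least `qq v` (injection `R → H / K₀`).
-/

set_option autoImplicit false
set_option linter.unusedSectionVars false
open scoped Classical

open WithZero WeierstrassCurve NumberField IsDedekindDomain

namespace H30ZO

private theorem ZOBe_val_coe {k : Type} [Field k] [NumberField k] (u : HeightOneSpectrum (𝓞 k)) (x : k) :
    Valued.v (algebraMap k (u.adicCompletion k) x) = u.valuation k x :=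
  HeightOneSpectrum.valuedAdicCompletion_eq_valuation' u x

private theorem ZOBe_zt_le {F : Type} [Field F] {V : Valuation F (WithZero (Multiplicative ℤ))}
    {A B : F} (hA : V A ≤ 1) (hB : V B ≤ 1) {m : ℕ} (hm : 1 ≤ m) {P : Pc A B}
    (hP : Lv V m P) : V (zt P) ≤ exp (-(m : ℤ)) := by
  rcases hP with rfl | ⟨x, y, h, rfl, hx⟩
  · rw [zt_zero, map_zero]
    exact zero_le
  rw [zt_some]
  have e1 : y ^ 2 = x ^ 3 + A * x + B := H73P2.Lb_eqn h
  have hx1 : 1 < V x := by
    refine lt_of_lt_of_le ?_ hx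
    rw [← exp_zero, exp_lt_exp]
    omega
  have hx0 : V x ≠ 0 := (lt_trans zero_lt_one hx1).ne'
  have h3 : V x < V x ^ 3 := by
    have h4 : V x ^ 1 < V x ^ 3 := pow_lt_pow_right₀ hx1 (by norm_num)
    rwa [pow_one] at h4
  have h5 : V (A * x + B) ≤ V x := by
    refine V.map_add_le ?_ (le_trans hB hx1.le)
    rw [map_mul]
    calc V A * V x ≤ 1 * V x := mul_le_mul_left hA _
      _ = V x := one_mul _
  have h6 : V y ^ 2 = V x ^ 3 := by
    rw [← map_pow, e1, add_assoc, Valuation.map_add_eq_of_lt_left, map_pow]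
    rw [map_pow]
    exact lt_of_le_of_lt h5 h3
  have h7 : V (x / y) ^ 2 ≤ exp (-(m : ℤ)) ^ 2 := by
    rw [map_div₀, div_pow, h6]
    have h8 : V x ^ 2 / V x ^ 3 = (V x)⁻¹ := by
      field_simp
    rw [h8, ← exp_nsmul]
    have h9 : (2 : ℕ) • (-(m : ℤ)) = -(2 * (m : ℤ)) := by
      rw [smul_neg, nsmul_eq_mul]
      push_cast
      rfl
    rw [h9, exp_neg]
    exact inv_anti₀ (by exact exp_pos) hx
  exact (pow_le_pow_iff_left₀ zero_le zero_le two_ne_zero).1 h7

theorem EE_index {k : Type} [Field k] [NumberField k] (v : HeightOneSpectrum (𝓞 k))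
    {A B : v.adicCompletion k} (hA : Valued.v A ≤ 1) (hB : Valued.v B ≤ 1) {m : ℕ} (hm : 1 ≤ m)
    (he : e2 v ≤ 4 * m) {H : AddSubgroup (Pc A B)} (h1 : ∀ P, P ∈ H ↔ Lv Valued.v m P)
    (h2 : ∀ P ∈ H, ∀ Q ∈ H, Valued.v (zt (P + Q) - zt P - zt Q) ≤ exp (-(5 * (m : ℤ))))
    (h3 : ∀ P : Pc A B, zt (-P) = -zt P) :
    (H.map (zsmulAddGroupHom (α := Pc A B) (2 : ℤ))).relIndex H = 0 ∨
      qq v ≤ (H.map (zsmulAddGroupHom (α := Pc A B) (2 : ℤ))).relIndex H := by
  by_cases h0 : (H.map (zsmulAddGroupHom (α := Pc A B) (2 : ℤ))).relIndex H = 0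
  · exact Or.inl h0
  refine Or.inr ?_
  have hme : (exp (-(5 * (m : ℤ))) : WithZero (Multiplicative ℤ)) ≤
      exp (-((m : ℤ) + (e2 v : ℤ))) := by
    rw [exp_le_exp]
    omega
  let K₀ : AddSubgroup (Pc A B) :=
    { carrier := {P | P ∈ H ∧ Valued.v (zt P) ≤ exp (-((m : ℤ) + (e2 v : ℤ)))}
      zero_mem' := by
        refine ⟨H.zero_mem, ?_⟩
        rw [zt_zero, map_zero]
        exact zero_le
      add_mem' := by
        rintro P Q ⟨hP, hP1⟩ ⟨hQ, hQ1⟩
        refine ⟨H.add_mem hP hQ, ?_⟩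
        have e1 : zt (P + Q) = (zt (P + Q) - zt P - zt Q) + (zt P + zt Q) := by ring
        rw [e1]
        exact Valuation.map_add_le _ (le_trans (h2 P hP Q hQ) hme) (Valuation.map_add_le _ hP1 hQ1)
      neg_mem' := by
        rintro P ⟨hP, hP1⟩
        refine ⟨H.neg_mem hP, ?_⟩
        rw [h3, Valuation.map_neg]
        exact hP1 }
  have hmemK : ∀ P, P ∈ K₀ ↔ P ∈ H ∧ Valued.v (zt P) ≤ exp (-((m : ℤ) + (e2 v : ℤ))) :=
    fun P => Iff.rfl
  have hle : H.map (zsmulAddGroupHom (α := Pc A B) (2 : ℤ)) ≤ K₀ := by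
    rintro _ ⟨P, hP, rfl⟩
    have e0 : (zsmulAddGroupHom (α := Pc A B) (2 : ℤ)) P = P + P := two_zsmul P
    rw [e0, hmemK]
    refine ⟨H.add_mem hP hP, ?_⟩
    have e1 : zt (P + P) = (zt (P + P) - zt P - zt P) + 2 * zt P := by ring
    rw [e1]
    refine Valuation.map_add_le _ (le_trans (h2 P hP P hP) hme) ?_
    rw [map_mul]
    have e2' : (Valued.v (2 : v.adicCompletion k)) = exp (-(e2 v : ℤ)) := by
      have e3 : (2 : v.adicCompletion k) = algebraMap k (v.adicCompletion k) 2 := by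
        rw [map_ofNat]
      rw [e3, ZOBe_val_coe, e2_spec]
    rw [e2', neg_add, exp_add, mul_comm]
    exact mul_le_mul_left (ZOBe_zt_le hA hB hm ((h1 P).1 hP)) _
  have hdvd := AddSubgroup.relIndex_dvd_of_le_left H hle
  have hK0 : K₀.relIndex H ≠ 0 := by
    intro h4
    rw [h4] at hdvd
    exact h0 (zero_dvd_iff.1 hdvd)
  refine le_trans ?_ (Nat.le_of_dvd (Nat.pos_of_ne_zero h0) hdvd)
  obtain ⟨π, hπ⟩ := v.valuation_exists_uniformizer k
  have hex : ∀ c : 𝓞 k, ∃ P : Pc A B, P ∈ H ∧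
      zt P = algebraMap k (v.adicCompletion k) (π ^ m * (algebraMap (𝓞 k) k c)) := by
    intro c
    have ht : Valued.v (algebraMap k (v.adicCompletion k) (π ^ m * (algebraMap (𝓞 k) k c))) ≤
        exp (-(m : ℤ)) := by
      rw [ZOBe_val_coe, map_mul, map_pow, hπ, ← exp_nsmul]
      have e4 : (m : ℕ) • (-1 : ℤ) = -(m : ℤ) := by
        rw [smul_neg, nsmul_eq_mul, mul_one]
      rw [e4]
      calc _ ≤ exp (-(m : ℤ)) * 1 := mul_le_mul_right (v.valuation_le_one c) _
        _ = _ := mul_one _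
    obtain ⟨P, hP, hz⟩ := exists_zt v hA hB hm ht
    exact ⟨P, (h1 P).2 hP, hz⟩
  choose p hpH hpz using hex
  have hcard : qq v = Nat.card (𝓞 k ⧸ v.asIdeal ^ (e2 v)) := by
    rw [qq, H76PP.Nv, ← map_pow, Ideal.absNorm_apply]
    rfl
  have hfin : Finite (H ⧸ K₀.addSubgroupOf H) := Nat.finite_of_card_ne_zero hK0
  have hgoal : Nat.card (𝓞 k ⧸ v.asIdeal ^ (e2 v)) ≤ Nat.card (H ⧸ K₀.addSubgroupOf H) := by
    refine Nat.card_le_card_of_injective
      (fun c : 𝓞 k ⧸ v.asIdeal ^ (e2 v) =>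
        (QuotientAddGroup.mk (⟨p c.out, hpH c.out⟩ : H) : H ⧸ K₀.addSubgroupOf H)) ?_
    intro c c' hcc
    have h5 := QuotientAddGroup.eq.1 hcc
    rw [AddSubgroup.mem_addSubgroupOf] at h5
    have h6 : -(p c.out) + p c'.out ∈ K₀ := h5
    rw [hmemK] at h6
    have h7 := h2 _ (H.neg_mem (hpH c.out)) _ (hpH c'.out)
    rw [h3] at h7
    have h8 : Valued.v (zt (p c'.out) - zt (p c.out)) ≤ exp (-((m : ℤ) + (e2 v : ℤ))) := by
      have e1 : zt (p c'.out) - zt (p c.out) = zt (-(p c.out) + p c'.out) +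
          -(zt (-(p c.out) + p c'.out) - -zt (p c.out) - zt (p c'.out)) := by ring
      rw [e1]
      refine Valuation.map_add_le _ h6.2 ?_
      rw [Valuation.map_neg]
      exact le_trans h7 hme
    rw [hpz, hpz, ← map_sub, ZOBe_val_coe, ← mul_sub, map_mul, map_pow, hπ, ← exp_nsmul] at h8
    have e4 : (m : ℕ) • (-1 : ℤ) = -(m : ℤ) := by
      rw [smul_neg, nsmul_eq_mul, mul_one]
    rw [e4, neg_add, exp_add] at h8
    have h9 : v.valuation k ((algebraMap (𝓞 k) k c'.out) - (algebraMap (𝓞 k) k c.out)) ≤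
        exp (-(e2 v : ℤ)) :=
      le_of_mul_le_mul_left h8 exp_pos
    rw [← map_sub, HeightOneSpectrum.valuation_of_algebraMap,
      HeightOneSpectrum.intValuation_le_pow_iff_mem] at h9
    have h10 : (Ideal.Quotient.mk (v.asIdeal ^ (e2 v))) c'.out =
        (Ideal.Quotient.mk (v.asIdeal ^ (e2 v))) c.out := Ideal.Quotient.eq.2 h9
    have h11 : ∀ d : 𝓞 k ⧸ v.asIdeal ^ (e2 v),
        (Ideal.Quotient.mk (v.asIdeal ^ (e2 v))) d.out = d := fun d => Quotient.out_eq' d
    rw [h11, h11] at h10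
    exact h10.symm
  rw [hcard]
  exact hgoal

end H30ZO
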