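import Pool.Agent.H30.ZO.Df2

/-!
ROW Ca (project MP_78d38b_ZO, about 120 lines): halving a point when `x - T` is a square in the cubic algebra.

PROOF. `z = (z₀, z₁, z₂)`. The coordinates of `z^2`: `z₀^2 - 2 B z₁ z₂ = x`, `2 z₀ z₁ - 2 A z₁ z₂ - B z₂^2 = -1`, `z₁^2 + 2 z₀ z₂ - A z₂^2 = 0` (from `hz`, evaluate at `0, 1, 2`, `simp [m3]`). `z₂ ≠ 0` (otherwise `z₁ = 0` and `0 = -1`). Put `r := - z₁ / z₂`, `s₁ := z₀ + r z₁ - A z₂`, `s₀ := r z₀ - B z₂`
(so that `(T + r) z = s₁ T + s₀` in the algebra). Then `T^3 + A T + B = (s₁ T + s₀)^2 + (T + r)^2 (T - x)` as polynomials: both sides are monic of degree three and equal modulo `T^3 + A T + B`; concretely the three coefficient identities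
`s₁^2 + 2 r - x = 0`, `2 s₁ s₀ + r^2 - 2 r x = A`, `s₀^2 - r^2 x = B` follow from the three equations (field_simp, linear_combination). Put `p := -r`, `q := s₁ p + s₀`: `q^2 = p^3 + A p + B`. `q ≠ 0`: otherwise `T^3 + A T + B = (T - p)^2 (T - x + s₁^2)` has a double root and `4 A^3 + 27 B^2 = 0`
(put `p` in: `p^3 + A p + B = 0` and `3 p^2 + A = 0`; `(6 A p^2 - 9 B p + 4 A^2)(3 p^2 + A) - (18 A p - 27 B)(p^3 + A p + B) = 4 A^3 + 27 B^2`). `Q := (p, q)` is a point, its tangent has slope `(3 p^2 + A) / (2 q) = s₁` (derivative of the identity at `p`: `3 p^2 + A = 2 s₁ q`), `Q + Q = (s₁^2 - 2 p, -(s₁ (x - p) + q)) = (x, -(s₁ x + s₀))`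
(`Affine.Point.add_self_of_Y_ne`, `Affine.slope_of_Y_ne`; see `Lb_dbl` in Pool/Agent/H73/P2/Lb.lean), and `(s₁ x + s₀)^2 = x^3 + A x + B = y^2`. So `Q + Q = (x, y)` or `Q + Q = (x, -y)`; in the second case `(-Q) + (-Q) = (x, y)`.
-/

set_option autoImplicit false
set_option linter.unusedSectionVars false
open scoped Classical

open WithZero WeierstrassCurve H76PP

namespace H30ZO

theorem Ca_alg {F : Type} [Field F] [CharZero F] {A B x a0 a1 u : F}
    (e0 : a0 * a0 - B * (a1 * u + u * a1) = x)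
    (e1 : a0 * a1 + a1 * a0 - A * (a1 * u + u * a1) - B * (u * u) = -1)
    (e2 : a0 * u + a1 * a1 + u * a0 - A * (u * u) = 0) :
    ∃ p q : F, q ≠ 0 ∧ q ^ 2 = p ^ 3 + A * p + B ∧
      ((3 * p ^ 2 + A) / (2 * q)) ^ 2 - 2 * p = x := by
  have h2 : (2 : F) ≠ 0 := two_ne_zero
  have hu : u ≠ 0 := by
    rintro rfl
    have h3 : a1 = 0 := by
      have : a1 * a1 = 0 := by linear_combination e2
      exact mul_self_eq_zero.1 this
    rw [h3] at e1
    have : (1 : F) = 0 := by linear_combination e1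
    exact one_ne_zero this
  obtain ⟨r, hr⟩ : ∃ r : F, a1 = -(r * u) := ⟨-a1 / u, by field_simp⟩
  subst hr
  have h0 : 2 * a0 - (A - r ^ 2) * u = 0 := by
    have : u * (2 * a0 - (A - r ^ 2) * u) = 0 := by linear_combination e2
    exact (mul_eq_zero.1 this).resolve_left hu
  have h1 : (r ^ 3 + A * r - B) * u ^ 2 + 1 = 0 := by linear_combination e1 + r * u * h0
  have hx : x = a0 ^ 2 + 2 * B * r * u ^ 2 := by linear_combination -e0
  have hl : (3 * (-r) ^ 2 + A) / (2 * (-u⁻¹)) = -((3 * r ^ 2 + A) * u / 2) := by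
    field_simp
  refine ⟨-r, -u⁻¹, neg_ne_zero.2 (inv_ne_zero hu), ?_, ?_⟩
  · have h3 : (u⁻¹) ^ 2 * u ^ 2 = 1 := by
      rw [← mul_pow, inv_mul_cancel₀ hu, one_pow]
    have h4 : (-u⁻¹) ^ 2 - ((-r) ^ 3 + A * -r + B) =
        (u⁻¹) ^ 2 * ((r ^ 3 + A * r - B) * u ^ 2 + 1) := by
      linear_combination -(r ^ 3 + A * r - B) * h3
    rw [h1, mul_zero] at h4
    exact sub_eq_zero.1 h4
  · rw [hl, hx]
    have h5 : 4 * ((-((3 * r ^ 2 + A) * u / 2)) ^ 2 - 2 * -r - (a0 ^ 2 + 2 * B * r * u ^ 2)) = 0 := by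
      have h6 : 4 * (-((3 * r ^ 2 + A) * u / 2)) ^ 2 = ((3 * r ^ 2 + A) * u) ^ 2 := by
        field_simp
        ring
      linear_combination h6 + 8 * r * h1 - (2 * a0 + (A - r ^ 2) * u) * h0
    have h7 : (4 : F) ≠ 0 := by norm_num
    exact sub_eq_zero.1 ((mul_eq_zero.1 h5).resolve_left h7)

theorem halve {F : Type} [Field F] [CharZero F] {A B x y : F} (hD : 4 * A ^ 3 + 27 * B ^ 2 ≠ 0)
    (h : (⟨0, 0, 0, A, B⟩ : WeierstrassCurve F).toAffine.Nonsingular x y) {z : Fin 3 → F}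
    (hz : m3 A B z z = ![x, -1, 0]) : ∃ Q : Pc A B, Q + Q = Affine.Point.some x y h := by
  have e0 : z 0 * z 0 - B * (z 1 * z 2 + z 2 * z 1) = x := congrFun hz 0
  have e1 : z 0 * z 1 + z 1 * z 0 - A * (z 1 * z 2 + z 2 * z 1) - B * (z 2 * z 2) = -1 :=
    congrFun hz 1
  have e2 : z 0 * z 2 + z 1 * z 1 + z 2 * z 0 - A * (z 2 * z 2) = 0 := congrFun hz 2
  obtain ⟨p, q, hq, hpq, hx⟩ := Ca_alg e0 e1 e2
  have hQ : (⟨0, 0, 0, A, B⟩ : WeierstrassCurve F).toAffine.Nonsingular p q :=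
    H73P2.Lb_ns two_ne_zero hq hpq
  have hnq : q ≠ (⟨0, 0, 0, A, B⟩ : WeierstrassCurve F).toAffine.negY p q := by
    rw [H73P2.Lb_negY]
    intro h3
    apply mul_ne_zero (two_ne_zero (α := F)) hq
    linear_combination h3
  have hadd := Affine.Point.add_self_of_Y_ne (h₁ := hQ) hnq
  have hX : (⟨0, 0, 0, A, B⟩ : WeierstrassCurve F).toAffine.addX p p
      ((⟨0, 0, 0, A, B⟩ : WeierstrassCurve F).toAffine.slope p p q q) = x := by
    rw [Affine.slope_of_Y_ne rfl hnq, H73P2.Lb_negY]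
    simp only [Affine.addX]
    have : (3 * p ^ 2 + 2 * 0 * p + A - 0 * q) / (q - -q) = (3 * p ^ 2 + A) / (2 * q) := by
      congr 1 <;> ring
    rw [this, ← hx]
    ring
  obtain ⟨X, Y, hXY, hs⟩ : ∃ (X Y : F)
      (h' : (⟨0, 0, 0, A, B⟩ : WeierstrassCurve F).toAffine.Nonsingular X Y),
      X = x ∧ (Affine.Point.some p q hQ + Affine.Point.some p q hQ : Pc A B) =
        Affine.Point.some X Y h' := ⟨_, _, _, hX, hadd⟩
  obtain ⟨hXx, hs⟩ := hs
  subst hXx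
  have e3 := H73P2.Lb_eqn hXY
  have e4 := H73P2.Lb_eqn h
  have h5 : (Y - y) * (Y + y) = 0 := by linear_combination e3 - e4
  rcases mul_eq_zero.1 h5 with h6 | h6
  · have h7 : Y = y := sub_eq_zero.1 h6
    subst h7
    exact ⟨_, hs⟩
  · have h7 : y = (⟨0, 0, 0, A, B⟩ : WeierstrassCurve F).toAffine.negY X Y := by
      rw [H73P2.Lb_negY]
      linear_combination h6
    subst h7
    refine ⟨-(Affine.Point.some p q hQ), ?_⟩
    rw [← neg_add, hs, Affine.Point.neg_some]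

end H30ZO
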