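import Pool.Agent.H30.ZO.Df

/-!
ROW Ce (project MP_78d38b_ZO, about 150 lines): a place of degree one gives a root in the completion.

PROOF. `F := v.adicCompletion k`. `θ` is a root of the monic polynomial `T^3 + a T + b`, integral at `v`, so `w.valuation θ ≤ 1` (compare the proof of even_nice, Pool/Agent/H73/P2/Ev.lean, `Ev_big`). For every `n` there is `t_n ∈ k`, `v.valuation t_n ≤ 1`, with `w.valuation (t_n - θ) ≤ exp (-n)`: first `θ` is congruent to an element of `𝓞 L` modulo high powers of `w`
(`θ = y / c` with `y, c ∈ 𝓞 L`, `c ∉ w.asIdeal`; invert `c` modulo `w.asIdeal ^ n`), and the map `𝓞 k / v^n → 𝓞 L / w^n` is injective (`he`: `v^n = w^n ∩ 𝓞 k`, by `intValuation`/`valuation ≤ exp (-n)`) between finite sets with `Nv v ^ n = Nv w ^ n` elements (`hf`; `Ideal.absNorm`, `map_pow`; `Ideal.absNorm` is `Submodule.cardQuot`), so it is surjective.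
For `n ≤ m`: `v.valuation (t_n - t_m) = w.valuation (t_n - t_m) ≤ exp (-n)`, so the images of `t_n` form a Cauchy sequence in the complete field `F`; let `r` be its limit, `Valued.v (t_n - r) ≤ exp (-n)`. `f(t_n) = f(t_n) - f(θ) = (t_n - θ)(integral at w)`, so `v.valuation (f(t_n)) = w.valuation (f(t_n)) ≤ exp (-n)` and `f(r) = 0` by continuity
(`f(r) - f(t_n) = (r - t_n)(integral)`). Let `t ∈ k`. `t ≠ r` in `F` because `f(t) ≠ 0` in `k` (otherwise `θ` and `1` would be dependent: `(θ - t)(...) = 0`; `Cub.li`, or `N (t - θ) = f(t)` (`Cub.norm_sub`) and `t - θ ≠ 0` by `Cub.li`). For `n` with `exp (-n) < Valued.v (t - r)` and `exp (-n) < w.valuation (t - θ)`: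
`Valued.v (t - r) = Valued.v (t - t_n) = v.valuation (t - t_n) = w.valuation (t - t_n) = w.valuation (t - θ)`.
-/

set_option autoImplicit false
set_option linter.unusedSectionVars false
open scoped Classical

open WithZero NumberField IsDedekindDomain H38RT
open H38T1 (SC sc scu rep eo la si Pri OddP tp unif)
open H76PP

namespace H30ZO

section CeAux

open Filter Topology

private lemma ce_lim {F : Type*} [Field F] [Valued F (WithZero (Multiplicative ℤ))]
    [CompleteSpace F] (π : F) (hπ : Valued.v π = exp (-1 : ℤ)) (t : ℕ → F)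
    (ht : ∀ n m, n ≤ m → Valued.v (t m - t n) ≤ exp (-(n : ℤ))) :
    ∃ r : F, Tendsto t atTop (𝓝 r) ∧ ∀ n, Valued.v (t n - r) ≤ exp (-(n : ℤ)) := by
  have hcau : CauchySeq t := by
    rw [CauchySeq, Valued.cauchy_iff]
    refine ⟨inferInstance, fun γ => ?_⟩
    obtain ⟨N, hN⟩ := exists_exp_neg_natCast_lt
      (x := MonoidWithZeroHom.ValueGroup₀.embedding γ.1) (by simp)
    refine ⟨t '' Set.Ici N, Filter.image_mem_map (Filter.Ici_mem_atTop N), ?_⟩
    rintro _ ⟨m, hm, rfl⟩ _ ⟨n, hn, rfl⟩
    rw [Valuation.restrict_lt_iff_lt_embedding]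
    refine lt_of_le_of_lt ?_ hN
    have e : t n - t m = (t n - t N) - (t m - t N) := by ring
    rw [e]
    exact (Valuation.map_sub _ _ _).trans (max_le (ht N n hn) (ht N m hm))
  obtain ⟨r, hr⟩ := cauchySeq_tendsto_of_complete hcau
  refine ⟨r, hr, fun n => ?_⟩
  have hπ0 : π ≠ 0 := by
    rintro rfl
    rw [map_zero] at hπ
    exact exp_ne_zero hπ.symm
  have hc : Valued.v (π ^ n) = exp (-(n : ℤ)) := by
    rw [map_pow, hπ, ← exp_nsmul]
    congr 1
    simp
  have h6 : Tendsto (fun m => (t m - r) / π ^ n) atTop (𝓝 0) := by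
    have := (hr.sub_const r).div_const (π ^ n)
    rwa [sub_self, zero_div] at this
  have h7 := h6.eventually (show {x : F | Valued.v x < 1} ∈ 𝓝 (0 : F) by
    rw [Valued.mem_nhds_zero]
    exact ⟨1, fun x hx => by simpa using hx⟩)
  obtain ⟨m, hm1, hm2⟩ := (h7.and (eventually_ge_atTop n)).exists
  have hm3 : Valued.v (t m - r) ≤ exp (-(n : ℤ)) := by
    have e : t m - r = (t m - r) / π ^ n * π ^ n := by
      rw [div_mul_cancel₀ _ (pow_ne_zero n hπ0)]
    rw [e, map_mul, hc]
    have h8 : Valued.v ((t m - r) / π ^ n) ≤ 1 := le_of_lt hm1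
    exact mul_le_of_le_one_left' h8
  have e : t n - r = (t m - r) - (t m - t n) := by ring
  rw [e]
  exact (Valuation.map_sub _ _ _).trans (max_le hm3 (ht n m hm2))

end CeAux

variable {k L : Type} [Field k] [NumberField k] [Field L] [NumberField L] [Algebra k L]

theorem root_w {a b : k} {θ : L} (h : Cub k L a b θ) (v : HeightOneSpectrum (𝓞 k))
    (ha : v.valuation k a ≤ 1) (hb : v.valuation k b ≤ 1) (w : HeightOneSpectrum (𝓞 L))
    (he : ∀ x : k, w.valuation L (algebraMap k L x) = v.valuation k x) (hf : Nv w = Nv v) :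
    ∃ r : v.adicCompletion k, r ^ 3 + algebraMap k (v.adicCompletion k) a * r +
        algebraMap k (v.adicCompletion k) b = 0 ∧
      ∀ t : k, w.valuation L (algebraMap k L t - θ) =
        Valued.v (algebraMap k (v.adicCompletion k) t - r) := by
  -- `θ` is integral at `w`
  have hwa : w.valuation L (algebraMap k L a) ≤ 1 := by rw [he]; exact ha
  have hwb : w.valuation L (algebraMap k L b) ≤ 1 := by rw [he]; exact hb
  have hwt : w.valuation L θ ≤ 1 := by
    by_contra hcon
    rw [not_le] at hcon
    have h0 : 0 < w.valuation L θ := lt_trans zero_lt_one hcon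
    have e1 : θ ^ 3 = -(algebraMap k L a * θ + algebraMap k L b) := by linear_combination h.root
    have e2 : w.valuation L θ ^ 3 ≤ w.valuation L θ := by
      rw [← map_pow, e1, Valuation.map_neg]
      refine (w.valuation L).map_add_le ?_ (hwb.trans hcon.le)
      rw [map_mul]
      exact mul_le_of_le_one_left' hwa
    have e3 : w.valuation L θ < w.valuation L θ ^ 3 := by
      calc w.valuation L θ = w.valuation L θ ^ 1 := (pow_one _).symm
        _ < w.valuation L θ ^ 3 := pow_lt_pow_right₀ hcon (by norm_num)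
    exact absurd e2 (not_le.2 e3)
  -- the residue fields are equal
  have hmem : ∀ x : 𝓞 k, x ∈ v.asIdeal ↔ algebraMap (𝓞 k) (𝓞 L) x ∈ w.asIdeal := by
    intro x
    rw [← v.valuation_lt_one_iff_mem (K := k), ← w.valuation_lt_one_iff_mem (K := L)]
    change v.valuation k (x : k) < 1 ↔ w.valuation L (algebraMap k L (x : k)) < 1
    rw [he]
  have hres : ∀ y : 𝓞 L, ∃ x : 𝓞 k, algebraMap (𝓞 k) (𝓞 L) x - y ∈ w.asIdeal := by
    have hle : v.asIdeal ≤ Ideal.comap (algebraMap (𝓞 k) (𝓞 L)) w.asIdeal := fun x hx =>
      (hmem x).1 hx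
    have hge : Ideal.comap (algebraMap (𝓞 k) (𝓞 L)) w.asIdeal ≤ v.asIdeal := fun x hx =>
      (hmem x).2 hx
    have hinj : Function.Injective (Ideal.quotientMap w.asIdeal (algebraMap (𝓞 k) (𝓞 L)) hle) :=
      Ideal.quotientMap_injective' hge
    have hfin : Finite (𝓞 L ⧸ w.asIdeal) := Ideal.finiteQuotientOfFreeOfNeBot w.asIdeal w.ne_bot
    have hcard : Nat.card (𝓞 L ⧸ w.asIdeal) ≤ Nat.card (𝓞 k ⧸ v.asIdeal) := by
      have h1 : Ideal.absNorm w.asIdeal = Ideal.absNorm v.asIdeal := hf
      rw [Ideal.absNorm_apply, Ideal.absNorm_apply, Submodule.cardQuot_apply,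
        Submodule.cardQuot_apply] at h1
      exact h1.le
    have hbij := hinj.bijective_of_nat_card_le hcard
    intro y
    obtain ⟨q, hq⟩ := hbij.2 (Ideal.Quotient.mk w.asIdeal y)
    obtain ⟨x, rfl⟩ := Ideal.Quotient.mk_surjective q
    refine ⟨x, ?_⟩
    rw [Ideal.quotientMap_mk] at hq
    exact Ideal.Quotient.eq.1 hq
  have happ : ∀ z : L, w.valuation L z ≤ 1 → ∃ x : 𝓞 k,
      w.valuation L (algebraMap k L (x : k) - z) ≤ exp (-1 : ℤ) := by
    intro z hz
    obtain ⟨y, hy⟩ := w.exists_valuation_sub_lt_of_integer hz 1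
    obtain ⟨x, hx⟩ := hres y
    refine ⟨x, ?_⟩
    have h1 := (w.valuation_lt_one_iff_mem (K := L) _).2 hx
    have e : algebraMap k L (x : k) - z =
        algebraMap (𝓞 L) L (algebraMap (𝓞 k) (𝓞 L) x - y) + (algebraMap (𝓞 L) L y - z) := by
      rw [map_sub]
      have e2 : algebraMap (𝓞 L) L (algebraMap (𝓞 k) (𝓞 L) x) = algebraMap k L (x : k) := rfl
      rw [e2]
      ring
    have h2 : w.valuation L (algebraMap k L (x : k) - z) < 1 := by
      rw [e]
      refine (Valuation.map_add _ _ _).trans_lt (max_lt h1 ?_)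
      simpa using hy
    by_cases h0 : w.valuation L (algebraMap k L (x : k) - z) = 0
    · rw [h0]; exact zero_le
    · rw [← exp_log h0, exp_le_exp]
      have h3 := (log_lt_log h0 one_ne_zero).2 h2
      rw [log_one] at h3
      omega
  obtain ⟨π, hπ⟩ := v.valuation_exists_uniformizer k
  have hπ0 : π ≠ 0 := by
    rintro rfl
    rw [map_zero] at hπ
    exact exp_ne_zero hπ.symm
  have hpn : ∀ n : ℕ, w.valuation L (algebraMap k L (π ^ n)) = exp (-(n : ℤ)) := by
    intro n
    rw [he, map_pow, hπ, ← exp_nsmul]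
    congr 1
    simp
  have hpn' : ∀ n : ℕ, v.valuation k (π ^ n) = exp (-(n : ℤ)) := by
    intro n
    rw [← he, hpn]
  -- the approximations
  have hex : ∀ n : ℕ, ∃ t : k, v.valuation k t ≤ 1 ∧
      w.valuation L (algebraMap k L t - θ) ≤ exp (-(n : ℤ)) := by
    intro n
    induction n with
    | zero =>
      refine ⟨0, by rw [map_zero]; exact zero_le, ?_⟩
      rw [map_zero, zero_sub, Valuation.map_neg]
      simpa using hwt
    | succ n ih =>
      obtain ⟨t, h1, h2⟩ := ih
      have hp0 : algebraMap k L (π ^ n) ≠ 0 := (map_ne_zero _).2 (pow_ne_zero n hπ0)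
      have h3 : w.valuation L ((algebraMap k L t - θ) / algebraMap k L (π ^ n)) ≤ 1 := by
        rw [map_div₀, hpn]
        exact div_le_one_of_le₀ h2 zero_le
      obtain ⟨x, hx⟩ := happ _ h3
      refine ⟨t - π ^ n * x, ?_, ?_⟩
      · refine (Valuation.map_sub _ _ _).trans (max_le h1 ?_)
        rw [map_mul, hpn']
        refine mul_le_one' ?_ (v.valuation_le_one x)
        rw [← exp_zero, exp_le_exp]
        omega
      · have e : algebraMap k L (t - π ^ n * x) - θ = -(algebraMap k L (π ^ n) *
            (algebraMap k L (x : k) - (algebraMap k L t - θ) / algebraMap k L (π ^ n))) := by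
          rw [mul_sub, mul_div_cancel₀ _ hp0, map_sub, map_mul]
          ring
        rw [e, Valuation.map_neg, map_mul, hpn]
        calc exp (-(n : ℤ)) * _ ≤ exp (-(n : ℤ)) * exp (-1 : ℤ) := mul_le_mul_right hx _
          _ = exp (-((n + 1 : ℕ) : ℤ)) := by
            rw [← exp_add]
            congr 1
            push_cast
            ring
  choose t ht1 ht2 using hex
  have hcoe : ∀ x : k, Valued.v (algebraMap k (v.adicCompletion k) x) = v.valuation k x :=
    fun x => v.valuedAdicCompletion_eq_valuation' x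
  obtain ⟨r, hr, hr2⟩ := ce_lim (algebraMap k (v.adicCompletion k) π) (by rw [hcoe, hπ])
    (fun n => algebraMap k (v.adicCompletion k) (t n)) (by
      intro n m hnm
      rw [← map_sub, hcoe, ← he, map_sub]
      have e : algebraMap k L (t m) - algebraMap k L (t n) =
        (algebraMap k L (t m) - θ) - (algebraMap k L (t n) - θ) := by ring
      rw [e]
      refine (Valuation.map_sub _ _ _).trans (max_le ((ht2 m).trans ?_) (ht2 n))
      rw [exp_le_exp]
      omega)
  have hr1 : Valued.v r ≤ 1 := by
    have e : r = algebraMap k (v.adicCompletion k) (t 0) -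
      (algebraMap k (v.adicCompletion k) (t 0) - r) := by ring
    rw [e]
    refine (Valuation.map_sub _ _ _).trans (max_le ?_ ?_)
    · rw [hcoe]; exact ht1 0
    · simpa using hr2 0
  refine ⟨r, ?_, ?_⟩
  · -- the valuation of `f r` is smaller than everything
    by_contra hcon
    have hv0 : Valued.v (r ^ 3 + algebraMap k (v.adicCompletion k) a * r +
        algebraMap k (v.adicCompletion k) b) ≠ 0 := (Valuation.ne_zero_iff _).2 hcon
    obtain ⟨N, hN⟩ := exists_exp_neg_natCast_lt hv0
    -- `f(t_N)`
    have h1 : v.valuation k (t N ^ 3 + a * t N + b) ≤ exp (-(N : ℤ)) := by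
      rw [← he]
      have e : algebraMap k L (t N ^ 3 + a * t N + b) = (algebraMap k L (t N) - θ) *
          (algebraMap k L (t N) ^ 2 + algebraMap k L (t N) * θ + θ ^ 2 + algebraMap k L a) := by
        simp only [map_add, map_mul, map_pow]
        linear_combination h.root
      have hwN : w.valuation L (algebraMap k L (t N)) ≤ 1 := by rw [he]; exact ht1 N
      rw [e, map_mul]
      refine (mul_le_of_le_one_right' ?_).trans (ht2 N)
      refine (w.valuation L).map_add_le ((w.valuation L).map_add_le
        ((w.valuation L).map_add_le ?_ ?_) ?_) hwa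
      · rw [map_pow]; exact pow_le_one₀ zero_le hwN
      · rw [map_mul]; exact mul_le_one' hwN hwt
      · rw [map_pow]; exact pow_le_one₀ zero_le hwt
    have e : r ^ 3 + algebraMap k (v.adicCompletion k) a * r +
        algebraMap k (v.adicCompletion k) b =
        algebraMap k (v.adicCompletion k) (t N ^ 3 + a * t N + b) -
        (algebraMap k (v.adicCompletion k) (t N) - r) *
          (algebraMap k (v.adicCompletion k) (t N) ^ 2 +
            algebraMap k (v.adicCompletion k) (t N) * r + r ^ 2 +
            algebraMap k (v.adicCompletion k) a) := by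
      simp only [map_add, map_mul, map_pow]
      ring
    have h2 : Valued.v (r ^ 3 + algebraMap k (v.adicCompletion k) a * r +
        algebraMap k (v.adicCompletion k) b) ≤ exp (-(N : ℤ)) := by
      rw [e]
      refine (Valuation.map_sub _ _ _).trans (max_le (by rw [hcoe]; exact h1) ?_)
      rw [map_mul]
      refine (mul_le_of_le_one_right' ?_).trans (hr2 N)
      have hN1 : Valued.v (algebraMap k (v.adicCompletion k) (t N)) ≤ 1 := by
        rw [hcoe]; exact ht1 N
      have ha1 : Valued.v (algebraMap k (v.adicCompletion k) a) ≤ 1 := by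
        rw [hcoe]; exact ha
      refine Valuation.map_add_le _ (Valuation.map_add_le _
        (Valuation.map_add_le _ ?_ ?_) ?_) ha1
      · rw [map_pow]; exact pow_le_one₀ zero_le hN1
      · rw [map_mul]; exact mul_le_one' hN1 hr1
      · rw [map_pow]; exact pow_le_one₀ zero_le hr1
    exact absurd h2 (not_le.2 hN)
  · intro s
    have hs : algebraMap k L s - θ ≠ 0 := by
      intro h0
      have h1 := h.li s (-1) 0 (by
        rw [map_neg, map_one, map_zero]
        linear_combination h0)
      exact absurd h1.2.1 (by norm_num)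
    have hws : w.valuation L (algebraMap k L s - θ) ≠ 0 := (Valuation.ne_zero_iff _).2 hs
    obtain ⟨N, hN⟩ := exists_exp_neg_natCast_lt hws
    have h1 : w.valuation L (algebraMap k L s - algebraMap k L (t N)) =
        w.valuation L (algebraMap k L s - θ) := by
      refine Valuation.map_eq_of_sub_lt _ ?_
      have e : algebraMap k L s - algebraMap k L (t N) - (algebraMap k L s - θ) =
        -(algebraMap k L (t N) - θ) := by ring
      rw [e, Valuation.map_neg]
      exact (ht2 N).trans_lt hN
    have h2 : Valued.v (algebraMap k (v.adicCompletion k) s -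
        algebraMap k (v.adicCompletion k) (t N)) = w.valuation L (algebraMap k L s - θ) := by
      rw [← map_sub, hcoe, ← he, map_sub, h1]
    rw [← h2]
    symm
    refine Valuation.map_eq_of_sub_lt _ ?_
    have e : algebraMap k (v.adicCompletion k) s - r - (algebraMap k (v.adicCompletion k) s -
        algebraMap k (v.adicCompletion k) (t N)) = algebraMap k (v.adicCompletion k) (t N) - r := by
      ring
    rw [e, h2]
    exact (hr2 N).trans_lt hN

end H30ZO
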