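import Pool.Agent.H30.ZO.Df
import Pool.Agent.H30.ZO.Ea
import Pool.Agent.H24.PD.Ip

/-!
ROW Eb (project MP_78d38b_ZO, about 170 lines): squares in the real cubic algebra. Use only the STATEMENT of Ea.

PROOF. real_cases. THREE REAL ROOTS `r₁ < r₂ < r₃`: `d(rᵢ) := d 0 + d 1 rᵢ + d 2 rᵢ^2 > 0`. Let `z` be the polynomial of degree at most two with `z(rᵢ) = √(d(rᵢ))` (Lagrange interpolation; existence of coefficients: `H24PD.E3_ex` in Pool/Agent/H24/PD/Ip.lean). Then `m3 A B z z - d` vanishes at the three different roots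
(evaluation at a root of `x^3 + A x + B` is multiplicative for `m3`: `H24PD.E3_m3`), so it is zero (`H24PD.E3_inj`).
ONE REAL ROOT `r`, and `x^2 + p x + q` with `p^2 < 4 q`: let `ρ := (-p + i √(4 q - p^2)) / 2 : ℂ`, a root, not real. Let `ζ : ℂ` with `ζ^2 = d(ρ)` (`Complex` square roots: `IsAlgClosed.exists_pow_nat_eq` or `Complex.cpow`). There are real `z 0, z 1, z 2` with `z(r) = √(d(r))` and `z(ρ) = ζ`: write `z = α (x^2 + p x + q) + β (x - r) + γ`-like: the real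
linear map `(z 0, z 1, z 2) ↦ (z(r), z(ρ)) ∈ ℝ × ℂ` is injective (a real polynomial of degree at most two vanishing at `r`, `ρ`, hence at the conjugate of `ρ`, is zero) so surjective (both dimensions three); or explicitly: choose `β, γ` with `β ρ + γ = ζ` (`β = Im ζ / Im ρ`, `γ = Re ζ - β Re ρ`) and add `α (x^2 + p x + q)` with
`α = (√(d(r)) - β r - γ) / (r^2 + p r + q)`, the denominator is positive. Then `m3 A B z z - d` vanishes at `r` and at `ρ` and is zero.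
-/

set_option autoImplicit false
set_option linter.unusedSectionVars false
open scoped Classical

open H76PP

namespace H30ZO

private theorem eb_cast {A B : ℝ} {z : Fin 3 → ℝ} {u : Fin 3 → ℂ} (hu : ∀ j, u j = (z j : ℂ))
    (j : Fin 3) : m3 (A : ℂ) (B : ℂ) u u j = ((m3 A B z z j : ℝ) : ℂ) := by
  have h0 : m3 (A : ℂ) (B : ℂ) u u 0 = u 0 * u 0 - B * (u 1 * u 2 + u 2 * u 1) := rfl
  have h1 : m3 (A : ℂ) (B : ℂ) u u 1
      = u 0 * u 1 + u 1 * u 0 - A * (u 1 * u 2 + u 2 * u 1) - B * (u 2 * u 2) := rfl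
  have h2 : m3 (A : ℂ) (B : ℂ) u u 2
      = u 0 * u 2 + u 1 * u 1 + u 2 * u 0 - A * (u 2 * u 2) := rfl
  have k0 : m3 A B z z 0 = z 0 * z 0 - B * (z 1 * z 2 + z 2 * z 1) := rfl
  have k1 : m3 A B z z 1
      = z 0 * z 1 + z 1 * z 0 - A * (z 1 * z 2 + z 2 * z 1) - B * (z 2 * z 2) := rfl
  have k2 : m3 A B z z 2 = z 0 * z 2 + z 1 * z 1 + z 2 * z 0 - A * (z 2 * z 2) := rfl
  fin_cases j
  · show m3 (A : ℂ) (B : ℂ) u u 0 = ((m3 A B z z 0 : ℝ) : ℂ)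
    rw [h0, k0, hu 0, hu 1, hu 2]
    push_cast
    ring
  · show m3 (A : ℂ) (B : ℂ) u u 1 = ((m3 A B z z 1 : ℝ) : ℂ)
    rw [h1, k1, hu 0, hu 1, hu 2]
    push_cast
    ring
  · show m3 (A : ℂ) (B : ℂ) u u 2 = ((m3 A B z z 2 : ℝ) : ℂ)
    rw [h2, k2, hu 0, hu 1, hu 2]
    push_cast
    ring

private theorem eb_conj (e : ℂ) (u : Fin 3 → ℂ) :
    H24PD.E3 ((starRingEnd ℂ) e) (fun j => (starRingEnd ℂ) (u j))
      = (starRingEnd ℂ) (H24PD.E3 e u) := by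
  unfold H24PD.E3
  simp only [map_add, map_mul, map_pow]

private theorem eb_three {A B : ℝ} {d : Fin 3 → ℝ} {r₁ r₂ r₃ : ℝ} (h12 : r₁ < r₂) (h23 : r₂ < r₃)
    (hr : ∀ x : ℝ, x ^ 3 + A * x + B = (x - r₁) * (x - r₂) * (x - r₃))
    (hd : ∀ r : ℝ, r ^ 3 + A * r + B = 0 → 0 < d 0 + d 1 * r + d 2 * r ^ 2) :
    ∃ z : Fin 3 → ℝ, m3 A B z z = d := by
  have g1 : r₁ ^ 3 + A * r₁ + B = 0 := by rw [hr]; ring
  have g2 : r₂ ^ 3 + A * r₂ + B = 0 := by rw [hr]; ring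
  have g3 : r₃ ^ 3 + A * r₃ + B = 0 := by rw [hr]; ring
  have ge : ∀ i : Fin 3, (![r₁, r₂, r₃] i) ^ 3 + A * (![r₁, r₂, r₃] i) + B = 0 := by
    intro i
    fin_cases i
    · exact g1
    · exact g2
    · exact g3
  have e01 : (![r₁, r₂, r₃] : Fin 3 → ℝ) 0 ≠ (![r₁, r₂, r₃] : Fin 3 → ℝ) 1 := by
    show r₁ ≠ r₂
    exact h12.ne
  have e02 : (![r₁, r₂, r₃] : Fin 3 → ℝ) 0 ≠ (![r₁, r₂, r₃] : Fin 3 → ℝ) 2 := by
    show r₁ ≠ r₃
    exact (h12.trans h23).ne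
  have e12 : (![r₁, r₂, r₃] : Fin 3 → ℝ) 1 ≠ (![r₁, r₂, r₃] : Fin 3 → ℝ) 2 := by
    show r₂ ≠ r₃
    exact h23.ne
  obtain ⟨z, hz⟩ := H24PD.E3_ex e01 e02 e12
    (fun i => Real.sqrt (H24PD.E3 (![r₁, r₂, r₃] i) d))
  refine ⟨z, H24PD.E3_inj e01 e02 e12 fun i => ?_⟩
  rw [H24PD.E3_m3 (ge i), hz i]
  refine Real.mul_self_sqrt ?_
  have h := hd _ (ge i)
  unfold H24PD.E3
  linarith

private theorem eb_one {A B : ℝ} {d : Fin 3 → ℝ} {r p q : ℝ}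
    (hr : ∀ x : ℝ, x ^ 3 + A * x + B = (x - r) * (x ^ 2 + p * x + q)) (hpq : p ^ 2 < 4 * q)
    (hd : ∀ r : ℝ, r ^ 3 + A * r + B = 0 → 0 < d 0 + d 1 * r + d 2 * r ^ 2) :
    ∃ z : Fin 3 → ℝ, m3 A B z z = d := by
  have g1 : r ^ 3 + A * r + B = 0 := by rw [hr]; ring
  have a0 := hr 0
  have a1 := hr 1
  have a2 := hr (-1)
  have a3 := hr 2
  have hp : p = r := by nlinarith
  have hA : A = q - r * p := by nlinarith
  have hB : B = - (r * q) := by nlinarith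
  obtain ⟨s, hs, hs2⟩ : ∃ s : ℝ, 0 < s ∧ s ^ 2 = 4 * q - p ^ 2 :=
    ⟨Real.sqrt (4 * q - p ^ 2), Real.sqrt_pos.2 (by linarith), Real.sq_sqrt (by linarith)⟩
  obtain ⟨ρ, hρ⟩ : ∃ ρ : ℂ, ρ = ⟨-p / 2, s / 2⟩ := ⟨_, rfl⟩
  have hρ0 : ρ ^ 2 + p * ρ + q = 0 := by
    rw [hρ]
    apply Complex.ext
    · simp only [pow_two, Complex.add_re, Complex.mul_re, Complex.ofReal_re, Complex.ofReal_im,
        Complex.zero_re]
      nlinarith
    · simp only [pow_two, Complex.add_im, Complex.mul_im, Complex.ofReal_re, Complex.ofReal_im,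
        Complex.zero_im]
      nlinarith
  have hρr : ρ ^ 3 + (A : ℂ) * ρ + (B : ℂ) = 0 := by
    rw [hA, hB, hp]
    rw [hp] at hρ0
    push_cast
    linear_combination (ρ - r) * hρ0
  have hcr : ((starRingEnd ℂ) ρ) ^ 3 + (A : ℂ) * ((starRingEnd ℂ) ρ) + (B : ℂ) = 0 := by
    have h := congrArg (starRingEnd ℂ) hρr
    simp only [map_add, map_mul, map_pow, Complex.conj_ofReal, map_zero] at h
    exact h
  have hrr : ((r : ℝ) : ℂ) ^ 3 + (A : ℂ) * ((r : ℝ) : ℂ) + (B : ℂ) = 0 := by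
    exact_mod_cast congrArg (fun t : ℝ => (t : ℂ)) g1
  have him : ρ.im ≠ 0 := by
    rw [hρ]
    show s / 2 ≠ 0
    exact (by positivity : (0:ℝ) < s / 2).ne'
  obtain ⟨ζ, hζ⟩ : ∃ ζ : ℂ, ζ ^ 2 = H24PD.E3 ρ (fun j => (d j : ℂ)) :=
    IsAlgClosed.exists_pow_nat_eq _ (by norm_num)
  have hdr := hd r g1
  have ge : ∀ i : Fin 3, ((![((r : ℝ) : ℂ), ρ, (starRingEnd ℂ) ρ] : Fin 3 → ℂ) i) ^ 3
      + (A : ℂ) * ((![((r : ℝ) : ℂ), ρ, (starRingEnd ℂ) ρ] : Fin 3 → ℂ) i) + (B : ℂ) = 0 := by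
    intro i
    fin_cases i
    · exact hrr
    · exact hρr
    · exact hcr
  have e01 : (![((r : ℝ) : ℂ), ρ, (starRingEnd ℂ) ρ] : Fin 3 → ℂ) 0
      ≠ (![((r : ℝ) : ℂ), ρ, (starRingEnd ℂ) ρ] : Fin 3 → ℂ) 1 := by
    show ((r : ℝ) : ℂ) ≠ ρ
    intro h
    apply him
    rw [← h]
    exact Complex.ofReal_im r
  have e02 : (![((r : ℝ) : ℂ), ρ, (starRingEnd ℂ) ρ] : Fin 3 → ℂ) 0
      ≠ (![((r : ℝ) : ℂ), ρ, (starRingEnd ℂ) ρ] : Fin 3 → ℂ) 2 := by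
    show ((r : ℝ) : ℂ) ≠ (starRingEnd ℂ) ρ
    intro h
    have h2 := congrArg Complex.im h
    rw [Complex.ofReal_im, Complex.conj_im] at h2
    exact him (by linarith)
  have e12 : (![((r : ℝ) : ℂ), ρ, (starRingEnd ℂ) ρ] : Fin 3 → ℂ) 1
      ≠ (![((r : ℝ) : ℂ), ρ, (starRingEnd ℂ) ρ] : Fin 3 → ℂ) 2 := by
    show ρ ≠ (starRingEnd ℂ) ρ
    intro h
    have h2 := congrArg Complex.im h
    rw [Complex.conj_im] at h2
    exact him (by linarith)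
  obtain ⟨u, hu⟩ := H24PD.E3_ex e01 e02 e12
    ![((Real.sqrt (d 0 + d 1 * r + d 2 * r ^ 2) : ℝ) : ℂ), ζ, (starRingEnd ℂ) ζ]
  have u0 : H24PD.E3 ((r : ℝ) : ℂ) u = ((Real.sqrt (d 0 + d 1 * r + d 2 * r ^ 2) : ℝ) : ℂ) := hu 0
  have u1 : H24PD.E3 ρ u = ζ := hu 1
  have u2 : H24PD.E3 ((starRingEnd ℂ) ρ) u = (starRingEnd ℂ) ζ := hu 2
  have hcu : (fun j => (starRingEnd ℂ) (u j)) = u := by
    refine H24PD.E3_inj e01 e02 e12 fun i => ?_
    fin_cases i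
    · show H24PD.E3 ((r : ℝ) : ℂ) (fun j => (starRingEnd ℂ) (u j)) = H24PD.E3 ((r : ℝ) : ℂ) u
      have h := eb_conj ((r : ℝ) : ℂ) u
      rw [Complex.conj_ofReal, u0, Complex.conj_ofReal] at h
      rw [h, u0]
    · show H24PD.E3 ρ (fun j => (starRingEnd ℂ) (u j)) = H24PD.E3 ρ u
      have h := eb_conj ((starRingEnd ℂ) ρ) u
      rw [Complex.conj_conj, u2, Complex.conj_conj] at h
      rw [h, u1]
    · show H24PD.E3 ((starRingEnd ℂ) ρ) (fun j => (starRingEnd ℂ) (u j))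
        = H24PD.E3 ((starRingEnd ℂ) ρ) u
      rw [eb_conj ρ u, u1, u2]
  have hur : ∀ j, u j = (((u j).re : ℝ) : ℂ) := by
    intro j
    have h : (starRingEnd ℂ) (u j) = u j := congrFun hcu j
    exact ((Complex.conj_eq_iff_re).1 h).symm
  have hm : m3 (A : ℂ) (B : ℂ) u u = fun j => (d j : ℂ) := by
    refine H24PD.E3_inj e01 e02 e12 fun i => ?_
    rw [H24PD.E3_m3 (ge i)]
    fin_cases i
    · show H24PD.E3 ((r : ℝ) : ℂ) u * H24PD.E3 ((r : ℝ) : ℂ) u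
        = H24PD.E3 ((r : ℝ) : ℂ) (fun j => (d j : ℂ))
      rw [u0]
      have h := Real.mul_self_sqrt hdr.le
      unfold H24PD.E3
      rw [← Complex.ofReal_mul, h]
      push_cast
      ring
    · show H24PD.E3 ρ u * H24PD.E3 ρ u = H24PD.E3 ρ (fun j => (d j : ℂ))
      rw [u1, ← hζ]
      ring
    · show H24PD.E3 ((starRingEnd ℂ) ρ) u * H24PD.E3 ((starRingEnd ℂ) ρ) u
        = H24PD.E3 ((starRingEnd ℂ) ρ) (fun j => (d j : ℂ))
      have h := eb_conj ρ (fun j => (d j : ℂ))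
      simp only [Complex.conj_ofReal] at h
      rw [u2, h, ← hζ, map_pow]
      ring
  refine ⟨fun j => (u j).re, ?_⟩
  funext j
  have h := congrFun hm j
  rw [eb_cast hur j] at h
  exact_mod_cast h

theorem sq_real {A B : ℝ} (hD : 4 * A ^ 3 + 27 * B ^ 2 ≠ 0) {d : Fin 3 → ℝ}
    (hd : ∀ r : ℝ, r ^ 3 + A * r + B = 0 → 0 < d 0 + d 1 * r + d 2 * r ^ 2) :
    ∃ z : Fin 3 → ℝ, m3 A B z z = d := by
  rcases real_cases hD with ⟨r, p, q, hr, hpq⟩ | ⟨r₁, r₂, r₃, h12, h23, hr⟩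
  · exact eb_one hr hpq hd
  · exact eb_three h12 h23 hr hd

end H30ZO
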