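import Pool.Agent.H30.ZO.Gs
import Pool.Agent.H30.CY.Inf
import Pool.Agent.H36.LG.Fn

/-!
Assembly for the project MP_78d38b_ZO: a finite or infinite Galois extension `F / K` given in advance
(modification of `Pool/Agent/H30/CY/Inf.lean`; no row, proved).
-/

set_option autoImplicit false
set_option linter.unusedSectionVars false
open scoped Classical

open WithZero NumberField IsDedekindDomain H38RT H76PP H36MT
open H38T1 (SC sc scu rep eo la si Pri OddP tp unif)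
open H30CY (exists_two_in fin_any exists_big two_fin)

namespace H30ZO

/-- The set of the pairs which satisfy the required property over `F`. -/
def PF (K F : Type) [Field K] [NumberField K] [Field F] [Algebra K F] (p : 𝓞 K × 𝓞 K) : Prop :=
  ∀ (M : IntermediateField K F) [NumberField M], Tv M (algebraMap K M p.1) (algebraMap K M p.2)

/-- The theorem for a finite or infinite extension `F / K` with infinitely many completely split primes,
given the local data at the primes of `S`. -/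
theorem main_inf (K F : Type) [Field K] [NumberField K] [Field F] [Algebra K F] [IsGalois K F]
    (hdeg : ∀ (N : IntermediateField K F) [NumberField N], IsGalois K N →
      ∃ r : ℕ, Module.finrank K N = 2 ^ r)
    (hram : {v : HeightOneSpectrum (𝓞 K) | ∃ (N : IntermediateField K F) (_ : NumberField N)
      (V : HeightOneSpectrum (𝓞 N)), dn K V = v ∧ H73P2.Ram K V}.Finite)
    (hspl : {v : HeightOneSpectrum (𝓞 K) | ∃ ι : F →+* v.adicCompletion K, ∀ x : K,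
      ι (algebraMap K F x) = algebraMap K (v.adicCompletion K) x}.Infinite)
    {S : Finset (HeightOneSpectrum (𝓞 K))}
    (hSv : ∀ v : HeightOneSpectrum (𝓞 K), (2 : 𝓞 K) ∈ v.asIdeal → v ∈ S)
    (e : HeightOneSpectrum (𝓞 K) → ℕ) (A₀ B₀ : HeightOneSpectrum (𝓞 K) → 𝓞 K)
    (hcl : ∀ v ∈ S, dsc (A₀ v) (B₀ v) ∉ v.asIdeal ^ e v)
    (hloc : ∀ v ∈ S, ∀ A B : 𝓞 K, A - A₀ v ∈ v.asIdeal ^ e v → B - B₀ v ∈ v.asIdeal ^ e v →
        ∀ (N : IntermediateField K F) [NumberField N], IsGalois K N →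
          H36CY.DescAt K N v (A : K) (B : K)) :
    ∃ (c X₀ : ℝ), 0 < c ∧ ∀ X : ℝ, X₀ ≤ X → ∃ G : Finset (𝓞 K × 𝓞 K),
      (∀ p ∈ G, p ∈ Bx K X ∧ 4 * p.1 ^ 3 + 27 * p.2 ^ 2 ≠ 0 ∧
        (∀ v ∈ S, p.1 - A₀ v ∈ v.asIdeal ^ e v ∧ p.2 - B₀ v ∈ v.asIdeal ^ e v) ∧
        Finite (⟨0, 0, 0, algebraMap K F p.1, algebraMap K F p.2⟩ :
          WeierstrassCurve F).toAffine.Point ∧ PF K F p) ∧
      (∀ p ∈ G, ∀ q ∈ G, p.1 ^ 3 * q.2 ^ 2 = q.1 ^ 3 * p.2 ^ 2 → p = q) ∧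
      c * ((Bx K X).ncard : ℝ) ≤ (G.card : ℝ) := by
  obtain ⟨R, hR⟩ : ∃ R : Finset (HeightOneSpectrum (𝓞 K)), ∀ v, v ∈ R ↔
      ((∃ (N : IntermediateField K F) (_ : NumberField N)
      (V : HeightOneSpectrum (𝓞 N)), dn K V = v ∧ H73P2.Ram K V) ∧ v ∉ S) := by
    refine ⟨hram.toFinset.filter fun v => v ∉ S, fun v => ?_⟩
    rw [Finset.mem_filter, Set.Finite.mem_toFinset]
    rfl
  obtain ⟨T, c, X₀, hT, hc, h⟩ := main_gen K hSv (fun v hv => ((hR v).1 hv).2) hspl e A₀ B₀ hcl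
  refine ⟨c, X₀, hc, fun X hX => ?_⟩
  obtain ⟨G, hG, hj, hcard⟩ := h X hX
  refine ⟨G, fun p hp => ?_, hj, hcard⟩
  obtain ⟨hB, hne, hpc, hall⟩ := hG p hp
  have hM : PF K F p := by
    intro M _
    obtain ⟨N, _, hNg, hMN, -⟩ := exists_big M (∅ : Finset ℕ) (fun _ => ⊥)
      fun v hv => absurd hv (Finset.notMem_empty v)
    let _ : Algebra M N := (IntermediateField.inclusion hMN).toRingHom.toAlgebra
    have _ : IsScalarTower K M N := IsScalarTower.of_algebraMap_eq fun _ => rfl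
    refine hall N ⟨hNg, hdeg N hNg, ?_, ?_, ?_⟩ M
    · intro V h2 hV
      exact (hR _).2 ⟨⟨N, inferInstance, V, rfl, hV⟩, h2⟩
    · intro v hv
      obtain ⟨ι, hι⟩ := hT v hv
      exact ⟨ι.comp N.val.toRingHom, fun x => hι x⟩
    · intro v hv
      obtain ⟨h1, h2⟩ := hpc v hv
      exact hloc v hv p.1 p.2 h1 h2 N hNg
  refine ⟨hB, hne, hpc, ?_, hM⟩
  obtain ⟨l, l', v, v', ⟨ι, hι⟩, ⟨ι', hι'⟩, hl, hl', hll, hv, hv', hg, hg'⟩ := exists_two_in hspl hne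
  exact fin_any (fun M _ => (hM M).1) (H73P2.tors_emb hl hl' hll hv hv' hg hg' ι hι ι' hι')

/-- Congruences modulo powers of primes give a congruence modulo an ideal. -/
theorem mem_of_pow {K : Type} [Field K] [NumberField K] {m : Ideal (𝓞 K)} (hm : m ≠ ⊥) :
    ∃ n : ℕ, ∀ (S : Finset (HeightOneSpectrum (𝓞 K))),
      (∀ v : HeightOneSpectrum (𝓞 K), m ≤ v.asIdeal → v ∈ S) → ∀ (e : HeightOneSpectrum (𝓞 K) → ℕ),
      (∀ v ∈ S, n ≤ e v) → ∀ x : 𝓞 K, (∀ v ∈ S, x ∈ v.asIdeal ^ e v) → x ∈ m := by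
  have hm' : m ≠ 0 := hm
  have hfin : {v : HeightOneSpectrum (𝓞 K) | m ≤ v.asIdeal}.Finite :=
    (Ideal.finite_factors hm).subset fun v hv => Ideal.dvd_iff_le.2 hv
  obtain ⟨c, hc⟩ : ∃ c : HeightOneSpectrum (𝓞 K) → ℕ, c = fun v =>
    (Associates.mk v.asIdeal).count (Associates.mk m).factors := ⟨_, rfl⟩
  have hcv : ∀ v, v.maxPowDividing m = v.asIdeal ^ c v := by
    intro v
    rw [hc]
    rfl
  refine ⟨∑ v ∈ hfin.toFinset, c v, fun S hS e he x hx => ?_⟩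
  rw [← Ideal.iInf_maxPowDividing_eq hm', Submodule.mem_iInf]
  intro v
  rw [hcv]
  by_cases h0 : c v = 0
  · rw [h0, pow_zero, Ideal.one_eq_top]
    exact trivial
  · have h1 : m ≤ v.asIdeal := by
      rw [← Ideal.dvd_iff_le, ← Associates.count_ne_zero_iff_dvd hm' v.irreducible]
      rw [hc] at h0
      exact h0
    have h2 : c v ≤ ∑ v ∈ hfin.toFinset, c v :=
      Finset.single_le_sum (fun _ _ => Nat.zero_le _) (hfin.mem_toFinset.2 h1)
    exact Ideal.pow_le_pow_right (h2.trans (he v (hS v h1))) (hx v (hS v h1))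

/-- The zero-one law in a residue class. -/
theorem zero_one (K F : Type) [Field K] [NumberField K] [Field F] [Algebra K F] [IsGalois K F]
    (hdeg : ∀ (N : IntermediateField K F) [NumberField N], IsGalois K N →
      ∃ r : ℕ, Module.finrank K N = 2 ^ r)
    (hram : {v : HeightOneSpectrum (𝓞 K) | ∃ (N : IntermediateField K F) (_ : NumberField N)
      (V : HeightOneSpectrum (𝓞 N)), dn K V = v ∧ H73P2.Ram K V}.Finite)
    (hspl : {v : HeightOneSpectrum (𝓞 K) | ∃ ι : F →+* v.adicCompletion K, ∀ x : K,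
      ι (algebraMap K F x) = algebraMap K (v.adicCompletion K) x}.Infinite)
    {m : Ideal (𝓞 K)} (hm : m ≠ ⊥) {A₀ B₀ : 𝓞 K} (hD : dsc A₀ B₀ ≠ 0)
    (hdesc : ∀ (v : HeightOneSpectrum (𝓞 K)) (N : IntermediateField K F) [NumberField N],
      IsGalois K N → H36CY.DescAt K N v (A₀ : K) (B₀ : K)) :
    ∃ (c X₀ : ℝ), 0 < c ∧ ∀ X : ℝ, X₀ ≤ X → ∃ G : Finset (𝓞 K × 𝓞 K),
      (∀ p ∈ G, p ∈ Bx K X ∧ 4 * p.1 ^ 3 + 27 * p.2 ^ 2 ≠ 0 ∧
        (p.1 - A₀ ∈ m ∧ p.2 - B₀ ∈ m) ∧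
        Finite (⟨0, 0, 0, algebraMap K F p.1, algebraMap K F p.2⟩ :
          WeierstrassCurve F).toAffine.Point ∧ PF K F p) ∧
      (∀ p ∈ G, ∀ q ∈ G, p.1 ^ 3 * q.2 ^ 2 = q.1 ^ 3 * p.2 ^ 2 → p = q) ∧
      c * ((Bx K X).ncard : ℝ) ≤ (G.card : ℝ) := by
  obtain ⟨n, hn⟩ := mem_of_pow hm
  choose e he1 he2 using fun v : HeightOneSpectrum (𝓞 K) => H36LG.descAt_open v hD
  obtain ⟨S₂, hS₂⟩ := two_fin K
  have hfm : {v : HeightOneSpectrum (𝓞 K) | m ≤ v.asIdeal}.Finite :=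
    (Ideal.finite_factors hm).subset fun v hv => Ideal.dvd_iff_le.2 hv
  obtain ⟨S, hS⟩ : ∃ S : Finset (HeightOneSpectrum (𝓞 K)), S = S₂ ∪ hfm.toFinset := ⟨_, rfl⟩
  have hS1 : ∀ v : HeightOneSpectrum (𝓞 K), (2 : 𝓞 K) ∈ v.asIdeal → v ∈ S := by
    intro v hv
    rw [hS]
    exact Finset.mem_union_left _ ((hS₂ v).2 hv)
  have hS3 : ∀ v : HeightOneSpectrum (𝓞 K), m ≤ v.asIdeal → v ∈ S := by
    intro v hv
    rw [hS]
    exact Finset.mem_union_right _ (hfm.mem_toFinset.2 hv)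
  have hle : ∀ v : HeightOneSpectrum (𝓞 K), v.asIdeal ^ (e v + n) ≤ v.asIdeal ^ e v := fun v =>
    Ideal.pow_le_pow_right (Nat.le_add_right _ _)
  obtain ⟨c, X₀, hc, h⟩ := main_inf K F hdeg hram hspl hS1 (fun v => e v + n) (fun _ => A₀)
    (fun _ => B₀) (fun v _ h => he1 v (hle v h))
    (fun v _ A B hA hB N _ hN => he2 v A B (hle v hA) (hle v hB) N (hdesc v N hN))
  refine ⟨c, X₀, hc, fun X hX => ?_⟩
  obtain ⟨G, hG, hj, hcard⟩ := h X hX
  refine ⟨G, fun p hp => ?_, hj, hcard⟩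
  obtain ⟨h1, h2, h3, h4, h5⟩ := hG p hp
  refine ⟨h1, h2, ⟨?_, ?_⟩, h4, h5⟩
  · exact hn S hS3 (fun v => e v + n) (fun v _ => Nat.le_add_left _ _) _ fun v hv => (h3 v hv).1
  · exact hn S hS3 (fun v => e v + n) (fun v _ => Nat.le_add_left _ _) _ fun v hv => (h3 v hv).2

end H30ZO
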