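import Pool.Agent.H24.PD.Lr
import Pool.Agent.H24.PD.Sd

/-!
ROW Ja (project MP_78d38b_ZO, about 220 lines): the cocycle of a class of square norm.

PROOF. `Ω := AlgebraicClosure K`, `δ := ev θ d`. For every embedding `φ : L →ₐ[K] Ω` choose `r φ` with `r φ ^ 2 = φ δ` (`IsAlgClosed.exists_pow_nat_eq`), `r φ ≠ 0`. `emb3` (Pool/Agent/H24/PD/Em.lean): exactly three embeddings `φ₁, φ₂, φ₃`, with different `φᵢ θ`. `(r φ₁ r φ₂ r φ₃)^2 = φ₁ δ φ₂ δ φ₃ δ = N δ = n^2` (`Algebra.norm_eq_prod_embeddings`, `fin3`),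
so `r φ₁ r φ₂ r φ₃ = ± n` is in `K`, fixed by all `σ`. For `σ` and `ψ = mv σ φ`: `σ (r φ) ^ 2 = σ (φ δ) = ψ δ = r ψ ^ 2`, so `σ (r φ) = c σ ψ * r ψ` with a sign `c σ ψ : ℤˣ` (define it by cases; `ψ` runs over all embeddings, `φ = mv σ⁻¹ ψ`, `mv_mul` in Pool/Agent/H10/Func2.lean). `c σ φ₁ c σ φ₂ c σ φ₃ = 1` (apply `σ` to the product, `mv σ` permutes the three embeddings:
`H24PD.prod_mv'` in Pool/Agent/H24/PD/Sd.lean; the product is not zero). `c (σ τ) (mv σ φ) = c σ (mv σ φ) * c τ φ`.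
`V := ⟨0,0,0,a,b⟩`, `E := V.baseChange Ω`, `IsCub E (φ₁ θ) (φ₂ θ) (φ₃ θ)` (`isCub_of`, as in the proof of `lo`, Pool/Agent/H24/PD/Lo.lean). `wp_ex` (Pool/Agent/H24/PD/Wp.lean): `f σ` with `f σ + f σ = 0` and `wp (φᵢ θ) (f σ) = c σ φᵢ`. So `σ (r φ) = wp (mv σ φ θ) (f σ) * r (mv σ φ)`.
COCYCLE (`isCocycle_iff`): `f (σ τ) = f σ + act σ (f τ)` by `wp_ext`: both sides are killed by two, and for `e = ψ θ`, `ψ = mv σ φ`: `wp e (f σ + act σ (f τ)) = wp e (f σ) * wp e (act σ (f τ))` (`wp_add`), `wp (σ (φ θ)) (act σ (f τ)) = wp (φ θ) (f τ) = c τ φ` (`wp_pm`). LOCALLY CONSTANT (`Pool.Agent.H10.lc_iff` in Pool/Agent/H10/Pm.lean): `f σ` only depends on `σ` restricted to the finite extension of `K`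
generated by the `φᵢ θ` and `r φᵢ` (if `σ, σ'` agree on them then `mv σ = mv σ'` (`emb_ext`) and `c σ = c σ'`, so `f σ = f σ'` by `wp_ext`). The proofs in Pool/Agent/H24/PD/Sc.lean and Sd.lean go in the opposite direction and use the same lemmas.
-/

set_option autoImplicit false
open scoped Classical

open WeierstrassCurve NumberField IsDedekindDomain Pool.Agent.H10 H76PP H24PD

namespace H30ZO

private theorem Ja_prod {K L : Type} [Field K] [Field L] [Algebra K L]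
    [Fintype (L →ₐ[K] AlgebraicClosure K)]
    {φ₁ φ₂ φ₃ : L →ₐ[K] AlgebraicClosure K} (h12 : φ₁ ≠ φ₂) (h13 : φ₁ ≠ φ₃) (h23 : φ₂ ≠ φ₃)
    (hall : ∀ φ, φ = φ₁ ∨ φ = φ₂ ∨ φ = φ₃) (F : (L →ₐ[K] AlgebraicClosure K) → ℤˣ) :
    ∏ φ, F φ = F φ₁ * F φ₂ * F φ₃ := by
  have huniv : (Finset.univ : Finset (L →ₐ[K] AlgebraicClosure K)) = {φ₁, φ₂, φ₃} := by
    ext φ
    simp only [Finset.mem_univ, Finset.mem_insert, Finset.mem_singleton, true_iff]
    exact hall φ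
  rw [huniv, Finset.prod_insert, Finset.prod_insert, Finset.prod_singleton, mul_assoc]
  · simp only [Finset.mem_singleton]
    exact h23
  · simp only [Finset.mem_insert, Finset.mem_singleton, not_or]
    exact ⟨h12, h13⟩

private theorem Ja_can {Ω : Type} [Field Ω] [CharZero Ω] {u v : ℤˣ} {x : Ω} (hx : x ≠ 0)
    (h : ((u : ℤ) : Ω) * x = ((v : ℤ) : Ω) * x) : u = v := by
  have h1 := mul_right_cancel₀ hx h
  have h2 : ((u : ℤˣ) : ℤ) = ((v : ℤˣ) : ℤ) := by exact_mod_cast h1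
  exact Units.ext h2


theorem exists_coc {K L : Type} [Field K] [NumberField K] [Field L] [NumberField L] [Algebra K L]
    {a b : K} {θ : L} (hL : Cub K L a b θ) {d : Fin 3 → K} (hd : ev θ d ≠ 0)
    (hn : IsSquare (Algebra.norm K (ev θ d))) :
    ∃ (f : Coch K (⟨0, 0, 0, a, b⟩ : WeierstrassCurve K))
      (r : (L →ₐ[K] AlgebraicClosure K) → AlgebraicClosure K),
      IsCocycle K _ f ∧ (∀ σ, f σ + f σ = 0) ∧ (∀ φ, r φ ≠ 0) ∧
      (∀ σ φ, σ (r φ) = ((wp (mv σ φ θ) (f σ) : ℤ) : AlgebraicClosure K) * r (mv σ φ)) ∧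
      ∀ φ, r φ ^ 2 = φ (ev θ d) := by
  obtain ⟨hfd, hfr⟩ := fin3 hL
  have hfd' : FiniteDimensional K L := hfd
  obtain ⟨φ₁, φ₂, φ₃, h12, h13, h23, hall⟩ := emb3 (Ω := AlgebraicClosure K) hL
  have hE : IsCub ((⟨0, 0, 0, a, b⟩ : WeierstrassCurve K).baseChange (AlgebraicClosure K))
      (φ₁ θ) (φ₂ θ) (φ₃ θ) :=
    isCub_of (a := algebraMap K (AlgebraicClosure K) a)
      (b := algebraMap K (AlgebraicClosure K) b)
      (map_zero (algebraMap K (AlgebraicClosure K))) (map_zero (algebraMap K (AlgebraicClosure K)))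
      (map_zero (algebraMap K (AlgebraicClosure K))) rfl rfl two_ne_zero
      (emb_root hL φ₁) (emb_root hL φ₂) (emb_root hL φ₃) (fun h => h12 (emb_ext hL h))
      (fun h => h13 (emb_ext hL h)) (fun h => h23 (emb_ext hL h))
  have hth : ∀ φ : L →ₐ[K] AlgebraicClosure K, φ θ = φ₁ θ ∨ φ θ = φ₂ θ ∨ φ θ = φ₃ θ := by
    intro φ
    rcases hall φ with h | h | h
    · exact Or.inl (by rw [h])
    · exact Or.inr (Or.inl (by rw [h]))
    · exact Or.inr (Or.inr (by rw [h]))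
  have hex : ∀ φ : L →ₐ[K] AlgebraicClosure K, ∃ x : AlgebraicClosure K,
      x ^ 2 = φ (ev θ d) := fun φ => IsAlgClosed.exists_pow_nat_eq _ two_pos
  choose r hr2 using hex
  have hr0 : ∀ φ, r φ ≠ 0 := by
    intro φ h
    have h1 := hr2 φ
    rw [h, zero_pow two_ne_zero] at h1
    exact hd (φ.toRingHom.injective (h1.symm.trans (map_zero φ).symm))
  have hfix : ∀ σ : AlgebraicClosure K ≃ₐ[K] AlgebraicClosure K,
      σ (∏ φ, r φ) = ∏ φ, r φ := by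
    intro σ
    obtain ⟨n, hn⟩ := hn
    have h1 : (∏ φ, r φ) ^ 2 = (algebraMap K (AlgebraicClosure K) n) ^ 2 := by
      rw [← Finset.prod_pow, pow_two (algebraMap K (AlgebraicClosure K) n), ← map_mul, ← hn,
        Algebra.norm_eq_prod_embeddings K (AlgebraicClosure K)]
      exact Finset.prod_congr rfl (fun φ _ => hr2 φ)
    rcases sq_eq_sq_iff_eq_or_eq_neg.1 h1 with h | h
    · rw [h, AlgEquiv.commutes]
    · rw [h, map_neg, AlgEquiv.commutes]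
  have hsg : ∀ (σ : AlgebraicClosure K ≃ₐ[K] AlgebraicClosure K)
      (φ : L →ₐ[K] AlgebraicClosure K), ∃ e : ℤˣ,
        σ (r φ) = ((e : ℤ) : AlgebraicClosure K) * r (mv σ φ) := by
    intro σ φ
    have h2 : (σ (r φ)) ^ 2 = (r (mv σ φ)) ^ 2 := by
      rw [← map_pow, hr2, hr2, mv_apply]
    rcases sq_eq_sq_iff_eq_or_eq_neg.1 h2 with h | h
    · exact ⟨1, by rw [h]; simp⟩
    · exact ⟨-1, by rw [h]; simp⟩
  choose e he using hsg
  have hmm : ∀ (σ : AlgebraicClosure K ≃ₐ[K] AlgebraicClosure K)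
      (φ : L →ₐ[K] AlgebraicClosure K), mv σ⁻¹ (mv σ φ) = φ := by
    intro σ φ
    rw [← mv_mul, inv_mul_cancel, mv_one]
  have hmm' : ∀ (σ : AlgebraicClosure K ≃ₐ[K] AlgebraicClosure K)
      (φ : L →ₐ[K] AlgebraicClosure K), mv σ (mv σ⁻¹ φ) = φ := by
    intro σ φ
    rw [← mv_mul, mul_inv_cancel, mv_one]
  have hpr0 : (∏ φ, r φ) ≠ 0 := Finset.prod_ne_zero_iff.2 (fun φ _ => hr0 φ)
  have hep : ∀ σ, ∏ φ, e σ φ = 1 := by
    intro σ
    have h1 := hfix σ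
    rw [map_prod] at h1
    simp_rw [he] at h1
    rw [Finset.prod_mul_distrib, prod_mv' σ (fun φ => r φ), units_cast_prod] at h1
    refine Ja_can hpr0 ?_
    rw [h1, Units.val_one, Int.cast_one, one_mul]
  have hcp : ∀ σ, e σ (mv σ⁻¹ φ₁) * e σ (mv σ⁻¹ φ₂) * e σ (mv σ⁻¹ φ₃) = 1 := by
    intro σ
    rw [← Ja_prod h12 h13 h23 hall (fun ψ => e σ (mv σ⁻¹ ψ)),
      prod_mv' σ⁻¹ (fun φ => e σ φ)]
    exact hep σ
  choose f hf2 hw1 hw2 hw3 using fun σ => wp_ex hE (hcp σ)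
  have hw : ∀ (σ : AlgebraicClosure K ≃ₐ[K] AlgebraicClosure K)
      (ψ : L →ₐ[K] AlgebraicClosure K), wp (ψ θ) (f σ) = e σ (mv σ⁻¹ ψ) := by
    intro σ ψ
    rcases hall ψ with h | h | h
    · rw [h, hw1]
    · rw [h, hw2]
    · rw [h, hw3]
  have hact2 : ∀ (σ : AlgebraicClosure K ≃ₐ[K] AlgebraicClosure K)
      {P : ((⟨0, 0, 0, a, b⟩ : WeierstrassCurve K).baseChange
        (AlgebraicClosure K)).toAffine.Point}, P + P = 0 →
      act (inv_bc K _) σ P + act (inv_bc K _) σ P = 0 := by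
    intro σ P hP
    rw [← map_add, hP, map_zero]
  have hact : ∀ (σ : AlgebraicClosure K ≃ₐ[K] AlgebraicClosure K)
      (φ : L →ₐ[K] AlgebraicClosure K)
      (P : ((⟨0, 0, 0, a, b⟩ : WeierstrassCurve K).baseChange
        (AlgebraicClosure K)).toAffine.Point),
      wp (mv σ φ θ) (act (inv_bc K _) σ P) = wp (φ θ) P := fun σ φ P =>
    wp_pm (σ : AlgebraicClosure K →+* AlgebraicClosure K) (inv_bc K _ σ) (φ θ) P
  have hmul : ∀ (σ τ : AlgebraicClosure K ≃ₐ[K] AlgebraicClosure K)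
      (φ : L →ₐ[K] AlgebraicClosure K), e (σ * τ) φ = e τ φ * e σ (mv τ φ) := by
    intro σ τ φ
    refine Ja_can (hr0 (mv (σ * τ) φ)) ?_
    rw [← he, AlgEquiv.mul_apply, he, map_mul, map_intCast, he, mv_mul, Units.val_mul,
      Int.cast_mul, mul_assoc]
  refine ⟨f, r, (isCocycle_iff f).2 ⟨?_, ?_⟩, hf2, hr0, ?_, hr2⟩
  · have : Algebra.IsIntegral K (AlgebraicClosure K) := inferInstance
    rw [lc_iff]
    intro σ₀
    refine ⟨Finset.univ.image (fun φ : L →ₐ[K] AlgebraicClosure K => φ θ) ∪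
      Finset.univ.image (fun φ : L →ₐ[K] AlgebraicClosure K => r φ), fun σ hσ => ?_⟩
    have h1 : ∀ φ : L →ₐ[K] AlgebraicClosure K, mv σ φ = mv σ₀ φ := by
      intro φ
      refine emb_ext hL ?_
      rw [mv_apply, mv_apply]
      exact hσ _ (Finset.mem_union_left _ (Finset.mem_image_of_mem _ (Finset.mem_univ φ)))
    have h2 : ∀ φ : L →ₐ[K] AlgebraicClosure K, e σ φ = e σ₀ φ := by
      intro φ
      have h3 : σ (r φ) = σ₀ (r φ) :=
        hσ _ (Finset.mem_union_right _ (Finset.mem_image_of_mem _ (Finset.mem_univ φ)))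
      rw [he, he, h1] at h3
      exact Ja_can (hr0 _) h3
    have h4 : ∀ ψ : L →ₐ[K] AlgebraicClosure K, mv σ⁻¹ ψ = mv σ₀⁻¹ ψ := by
      intro ψ
      have h5 := h1 (mv σ⁻¹ ψ)
      rw [hmm'] at h5
      have h6 := congrArg (mv σ₀⁻¹) h5
      rw [hmm] at h6
      exact h6.symm
    have key : ∀ ψ : L →ₐ[K] AlgebraicClosure K, wp (ψ θ) (f σ) = wp (ψ θ) (f σ₀) := by
      intro ψ
      rw [hw, hw, h2, h4]
    exact wp_ext hE (hf2 σ) (hf2 σ₀) (key φ₁) (key φ₂) (key φ₃)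
  · intro σ τ
    have h2t : (f σ + act (inv_bc K _) σ (f τ)) + (f σ + act (inv_bc K _) σ (f τ)) = 0 := by
      rw [add_add_add_comm, hf2, hact2 σ (hf2 τ), add_zero]
    have key : ∀ ψ : L →ₐ[K] AlgebraicClosure K, wp (ψ θ) (f (σ * τ)) =
        wp (ψ θ) (f σ + act (inv_bc K _) σ (f τ)) := by
      intro ψ
      have h3 := hact σ (mv σ⁻¹ ψ) (f τ)
      rw [hmm'] at h3
      rw [wp_add hE (hth ψ) (hf2 σ) (hact2 σ (hf2 τ)), h3, hw, hw, hw, hmul, mul_inv_rev,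
        mv_mul, hmm', mul_comm]
    exact wp_ext hE (hf2 _) h2t (key φ₁) (key φ₂) (key φ₃)
  · intro σ φ
    rw [hw, hmm]
    exact he σ φ

end H30ZO
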