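import Pool.Agent.H73.ZO.Rc

/-!
The relative theorem for extensions which are contained in a Galois extension of two-power degree
(project MP_78d38b_ZO, no row; modification of `Pool/Agent/H73/ZO/{Qc,Rc}.lean`).
-/

set_option autoImplicit false
set_option linter.unusedSectionVars false
open scoped Classical

open WithZero NumberField IsDedekindDomain H38RT
open H38T1 (SC sc scu rep eo la si Pri OddP tp unif)
open H76PP H73P2 H36CY H73CY H73ZO

namespace H30ZO

/-- The local condition at the real places: the real places of the fields between `K` and `N` at which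
`4 a^3 + 27 b^2` is not positive extend to the quadratic extensions. -/
def RealAt (K N : Type) [Field K] [NumberField K] [Field N] [NumberField N] [Algebra K N]
    (a b : K) : Prop :=
  ∀ (k k' : Type) [Field k] [NumberField k] [Field k'] [NumberField k'] [Algebra K k] [Algebra K k']
    [Algebra k k'] [IsScalarTower K k k'] [Algebra k N] [Algebra k' N] [IsScalarTower K k N]
    [IsScalarTower K k' N] [IsScalarTower k k' N], Module.finrank k k' = 2 → ∀ s : k →+* ℝ,
    0 < s (algebraMap K k (4 * a ^ 3 + 27 * b ^ 2)) ∨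
      ∃ s' : k' →+* ℝ, ∀ x : k, s' (algebraMap k k' x) = s x

section Down

variable {K k L k' L' N : Type} [Field K] [NumberField K] [Field k] [NumberField k] [Field L]
  [NumberField L] [Field k'] [NumberField k'] [Field L'] [NumberField L'] [Field N] [NumberField N]
  [Algebra K k] [Algebra K k'] [Algebra k k'] [Algebra k L] [Algebra L L'] [Algebra k' L']
  [Algebra k L'] [IsScalarTower K k k'] [IsScalarTower k L L'] [IsScalarTower k k' L']
  [Algebra K N] [Algebra k N] [Algebra k' N] [IsScalarTower K k N] [IsScalarTower K k' N]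
  [IsScalarTower k k' N]

theorem relN_down {Sg : Finset (HeightOneSpectrum (𝓞 K))} {a b : K}
    (h2 : ∀ v : HeightOneSpectrum (𝓞 K), v.valuation K 2 < 1 → v ∈ Sg)
    (hreal : ∀ s : k →+* ℝ, 0 < s (algebraMap K k (4 * a ^ 3 + 27 * b ^ 2)) ∨
      ∃ s' : k' →+* ℝ, ∀ x : k, s' (algebraMap k k' x) = s x)
    (hram : ∀ V : HeightOneSpectrum (𝓞 N), dn K V ∉ Sg → Ram K V → NoRootAt (dn K V) a b)
    (hdesc : ∀ v ∈ Sg, DescAt K N v a b)
    (hNR : ∀ u : HeightOneSpectrum (𝓞 k), NoRootAt (dn K u) a b →
      NoRootAt u (algebraMap K k a) (algebraMap K k b))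
    {θ : L} {θ' : L'} (Q : QS k L k' L' (algebraMap K k a) (algebraMap K k b) θ θ')
    (f2 : Module.finrank L L' = 2) {e : Fin 3 → k} (hne : ev θ e ≠ 0)
    (hsq : IsSquare (Algebra.norm k (ev θ e)))
    (hev : ∀ w' : HeightOneSpectrum (𝓞 L'), dn K (dn k' w') ∉ Sg →
      eo w' (sc (algebraMap L L' (ev θ e))) = 0)
    (hsg : ∀ u : HeightOneSpectrum (𝓞 k'), dn K u ∈ Sg →
      LC (algebraMap k' (u.adicCompletion k')) (algebraMap K k' a) (algebraMap K k' b)
        (fun i => algebraMap k k' (e i)))
    (hre : ∀ s : k' →+* ℝ, LC s (algebraMap K k' a) (algebraMap K k' b)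
      (fun i => algebraMap k k' (e i))) : RelS K k L Sg ∅ a b θ e := by
  have hab : ∀ x : K, algebraMap K k' x = algebraMap k k' (algebraMap K k x) :=
    IsScalarTower.algebraMap_apply K k k'
  refine ⟨hne, hsq, ?_, ?_, ?_, ?_⟩
  · intro w hwg _
    obtain ⟨V, hV⟩ := exists_above (L := N) (dn k w)
    have hKV : dn K V = dn K (dn k w) := by
      rw [← hV]
      exact (dn_dn V).symm
    have hw2 : w.valuation L 2 = 1 := val2_up (K := k) (val2_up (K := K) (odd_of h2 hwg))
    by_cases hr : Ram K V
    · have h1 := hram V (by rw [hKV]; exact hwg) hr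
      rw [hKV] at h1
      exact even_unique Q.cub w (hNR _ h1) hne hsq
    · obtain ⟨h1, -⟩ := unram_mid (k := k) hr
      obtain ⟨D, ρ, hρ, hρk, hD⟩ := exists_gen (k' := k') Q.two h1
      rw [hV] at hD
      refine even_unram Q f2 w hw2 hρ hρk hD hne fun w' hw' => hev w' ?_
      rw [← dn_sq (k := k) (L := L), hw']
      exact hwg
  · intro v hv
    exact absurd hv (Finset.notMem_empty v)
  · intro u hu
    refine hdesc (dn K u) hu k k' Q.two e ?_ ?_ (fun u' hu' => hsg u' (by rw [hu']; exact hu)) u rfl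
    · rw [← Te_norm Q.cub e, Ne, Algebra.norm_eq_zero_iff]
      exact hne
    · rw [← Te_norm Q.cub e]
      exact hsq
  · intro s
    rcases hreal s with h | h
    · refine LC_real s ?_ ?_
      · simpa only [map_add, map_mul, map_pow, map_ofNat] using h
      · have h1 := Te_norm Q.cub e
        rw [← h1]
        obtain ⟨c, hc⟩ := hsq
        have h2 : Algebra.norm k (ev θ e) ≠ 0 := by
          rw [Ne, Algebra.norm_eq_zero_iff]
          exact hne
        rw [hc] at h2 ⊢
        rw [map_mul]
        have h3 : s c ≠ 0 := (map_ne_zero s).2 (left_ne_zero_of_mul h2)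
        exact mul_self_pos.2 h3
    · obtain ⟨s', hs'⟩ := h
      have h1 := hre s'
      unfold LC at h1 ⊢
      simp only [hab, hs'] at h1
      exact h1

end Down

section Step

variable {K k k' N : Type} [Field K] [NumberField K] [Field k] [NumberField k] [Field k']
  [NumberField k'] [Field N] [NumberField N] [Algebra K k] [Algebra K k'] [Algebra k k']
  [IsScalarTower K k k'] [Algebra K N] [Algebra k N] [Algebra k' N] [IsScalarTower K k N]
  [IsScalarTower K k' N] [IsScalarTower k k' N]

theorem quad_stepN (two : Module.finrank k k' = 2) {Sg : Finset (HeightOneSpectrum (𝓞 K))}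
    {a b : K}
    (h2 : ∀ v : HeightOneSpectrum (𝓞 K), v.valuation K 2 < 1 → v ∈ Sg)
    (hd : 4 * a ^ 3 + 27 * b ^ 2 ≠ 0)
    (hreal : ∀ s : k →+* ℝ, 0 < s (algebraMap K k (4 * a ^ 3 + 27 * b ^ 2)) ∨
      ∃ s' : k' →+* ℝ, ∀ x : k, s' (algebraMap k k' x) = s x)
    (hram : ∀ V : HeightOneSpectrum (𝓞 N), dn K V ∉ Sg → Ram K V → NoRootAt (dn K V) a b)
    (hdesc : ∀ v ∈ Sg, DescAt K N v a b)
    (hNR : ∀ u : HeightOneSpectrum (𝓞 k), NoRootAt (dn K u) a b →
      NoRootAt u (algebraMap K k a) (algebraMap K k b))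
    (hT : ∀ (L : Type) [Field L] [NumberField L] [Algebra k L] (θ : L),
      Cub k L (algebraMap K k a) (algebraMap K k b) θ → RelST K k L Sg ∅ a b θ)
    (L' : Type) [Field L'] [NumberField L'] [Algebra k' L'] (θ' : L')
    (h' : Cub k' L' (algebraMap K k' a) (algebraMap K k' b) θ') : RelST K k' L' Sg ∅ a b θ' := by
  intro d hR
  have hab : ∀ x : K, algebraMap K k' x = algebraMap k k' (algebraMap K k x) :=
    IsScalarTower.algebraMap_apply K k k'
  let _ : Algebra k L' := ((algebraMap k' L').comp (algebraMap k k')).toAlgebra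
  have _ : IsScalarTower k k' L' := IsScalarTower.of_algebraMap_eq fun _ => rfl
  have h'' : Cub k' L' (algebraMap k k' (algebraMap K k a)) (algebraMap k k' (algebraMap K k b)) θ' := by
    rw [← hab, ← hab]
    exact h'
  obtain ⟨L, _, _, _, _, _, θ, hc, hθ⟩ := exists_sub h''
  have Q : QS k L k' L' (algebraMap K k a) (algebraMap K k b) θ θ' := ⟨two, hc, h'', hθ⟩
  have f2 := Q.fin2
  obtain ⟨τ, σ, hσ, hτ⟩ := Q.sigma f2
  set x : L' := ev θ' d with hx
  have hx0 : x ≠ 0 := hR.ne
  -- the coordinates of an element of `L`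
  have hco : ∀ y : L, ev θ (fun i => hc.co i y) = y := fun y => (hc.eq_co y).symm
  have hn0 : Algebra.norm L x ≠ 0 := by
    rw [Ne, Algebra.norm_eq_zero_iff]
    exact hx0
  -- first descent
  have hsq1 : IsSquare (Algebra.norm L x) := by
    set e : Fin 3 → k := fun i => hc.co i (Algebra.norm L x) with he
    have he1 : ev θ e = Algebra.norm L x := hco _
    have he2 := hτ d e he1
    rw [← he1]
    refine hT L θ hc e (relN_down h2 hreal hram hdesc hNR Q f2 ?_ ?_ ?_ ?_ ?_)
    · rw [he1]
      exact hn0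
    · rw [he1]
      exact Q.norm_sq f2 hR.sq
    · intro w' hwg
      rw [he1, hσ, H38T1.sc_mul hx0 ((map_ne_zero σ).2 hx0), H38T1.eo_add,
        hR.even w' hwg (Finset.notMem_empty _), zero_add]
      obtain ⟨W', h1, h3⟩ := eo_conj σ w'
      rw [h3 x hx0]
      refine hR.even _ ?_ (Finset.notMem_empty _)
      rw [← dn_sq (K := K) (k := k) (k' := k') (L := L) W', h1,
        dn_sq (K := K) (k := k) (k' := k') (L := L) w']
      exact hwg
    · intro u hu
      rw [he2, ← hab, ← hab]
      refine lct_mul hd u (hR.sg u hu) ?_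
      rw [hab, hab]
      refine sg_conj τ (fun u hu => ?_) u hu
      rw [← hab, ← hab]
      exact hR.sg u hu
    · intro s
      rw [he2, ← hab, ← hab]
      refine lcr_mul hd s (hR.real s) ?_
      have h1 := hR.real (s.comp (τ : k' →+* k'))
      unfold LC at h1 ⊢
      simp only [RingHom.comp_apply, RingHom.coe_coe, hab, τ.commutes] at h1 ⊢
      exact h1
  -- second descent
  obtain ⟨t, z, ht, hz, hxt, hNt⟩ := Q.core f2 hx0 hR.sq hsq1
  have hsq2 : IsSquare t := by
    set e : Fin 3 → k := fun i => hc.co i t with he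
    have he1 : ev θ e = t := hco _
    -- the coordinates of the inverse of `z`
    set u : Fin 3 → k' := fun i => h''.co i z⁻¹ with hu
    have hu1 : ev θ' u = z⁻¹ := (h''.eq_co z⁻¹).symm
    have he2 : (fun i => algebraMap k k' (e i)) = m3 (algebraMap k k' (algebraMap K k a))
        (algebraMap k k' (algebraMap K k b)) d (m3 (algebraMap k k' (algebraMap K k a))
        (algebraMap k k' (algebraMap K k b)) u u) := by
      have h1 : ev θ' (fun i => algebraMap k k' (e i)) = ev θ' (m3 (algebraMap k k' (algebraMap K k a))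
        (algebraMap k k' (algebraMap K k b)) d (m3 (algebraMap k k' (algebraMap K k a))
        (algebraMap k k' (algebraMap K k b)) u u)) := by
        rw [← Q.coord, he1, ← Te_ev_mul h'', ← Te_ev_mul h'', hu1, ← hx, hxt]
        field_simp
      funext i
      have h2 := h''.co_mk (fun i => algebraMap k k' (e i)) i
      have h3 := h''.co_mk (m3 (algebraMap k k' (algebraMap K k a))
        (algebraMap k k' (algebraMap K k b)) d (m3 (algebraMap k k' (algebraMap K k a))
        (algebraMap k k' (algebraMap K k b)) u u)) i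
      unfold ev at h1
      rw [← h2, ← h3, h1]
    rw [← he1]
    refine hT L θ hc e (relN_down h2 hreal hram hdesc hNR Q f2 ?_ ?_ ?_ ?_ ?_)
    · rw [he1]
      exact ht
    · rw [he1]
      exact hNt
    · intro w' hwg
      rw [he1]
      have h1 := hR.even w' hwg (Finset.notMem_empty _)
      have htL : algebraMap L L' t ≠ 0 := (map_ne_zero _).2 ht
      rw [← hx, hxt, H38T1.sc_mul htL (pow_ne_zero 2 hz)] at h1
      have h2 : sc (z ^ 2) = (0 : SC L') := (H38T1.sc_eq_zero (pow_ne_zero 2 hz)).2 ⟨z, pow_two z⟩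
      rwa [h2, add_zero] at h1
    · intro w hw
      have h1 := LC_sq (algebraMap k' (w.adicCompletion k')) u (hR.sg w hw)
      rw [hab, hab] at h1 ⊢
      rw [he2]
      exact h1
    · intro s
      have h1 := LC_sq s u (hR.real s)
      rw [hab, hab] at h1 ⊢
      rw [he2]
      exact h1
  rw [hxt]
  obtain ⟨c, rfl⟩ := hsq2
  exact ⟨algebraMap L L' c * z, by rw [map_mul]; ring⟩

end Step

theorem chainN {K N : Type} [Field K] [NumberField K] [Field N] [NumberField N] [Algebra K N]
    {Nt : Type} [Field Nt] [NumberField Nt] [Algebra K Nt] [Algebra N Nt] [IsScalarTower K N Nt]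
    [IsGalois K Nt] {r : ℕ} (hr : Module.finrank K Nt = 2 ^ r) {Sg : Finset (HeightOneSpectrum (𝓞 K))}
    {a b : K}
    (h2S : ∀ v : HeightOneSpectrum (𝓞 K), v.valuation K 2 < 1 → v ∈ Sg)
    (hd : 4 * a ^ 3 + 27 * b ^ 2 ≠ 0)
    (hreal : RealAt K N a b)
    (hram : ∀ V : HeightOneSpectrum (𝓞 N), dn K V ∉ Sg → Ram K V → NoRootAt (dn K V) a b)
    (hdesc : ∀ v ∈ Sg, DescAt K N v a b)
    (hT : ∀ (L : Type) [Field L] [NumberField L] [Algebra K L] (θ : L), Cub K L a b θ →
      RelST K K L Sg ∅ a b θ) (n : ℕ) :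
    ∀ (k : Type) [Field k] [NumberField k] [Algebra K k] [Algebra k N] [IsScalarTower K k N],
      Module.finrank K k = n →
      (∀ u : HeightOneSpectrum (𝓞 k), NoRootAt (dn K u) a b →
        NoRootAt u (algebraMap K k a) (algebraMap K k b)) ∧
      ∀ (L : Type) [Field L] [NumberField L] [Algebra k L] (θ : L),
        Cub k L (algebraMap K k a) (algebraMap K k b) θ → RelST K k L Sg ∅ a b θ := by
  have _ : FiniteDimensional K Nt := Module.Finite.of_restrictScalars_finite ℚ K Nt
  induction n using Nat.strong_induction_on with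
  | _ n ih =>
    intro k _ _ _ _ _ hn
    by_cases h1 : Module.finrank K k = 1
    · exact ⟨fun u hu => nr_base h1 u hu, fun L _ _ _ θ h => relS_base h1 hT L θ h⟩
    · let _ : Algebra k Nt := ((algebraMap N Nt).comp (algebraMap k N)).toAlgebra
      have _ : IsScalarTower K k Nt := IsScalarTower.of_algebraMap_eq fun x => by
        rw [IsScalarTower.algebraMap_apply K N Nt, IsScalarTower.algebraMap_apply K k N]
        rfl
      obtain ⟨k₀, hk₀⟩ := exists_half (K := K) (N := Nt) (k' := k) hr h1
      have _ : FiniteDimensional K k := Module.Finite.of_restrictScalars_finite ℚ K k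
      have _ : NumberField k₀ := NumberField.of_module_finite K k₀
      have _ : IsScalarTower k₀ k N := inferInstance
      have _ : IsScalarTower K k₀ N := IsScalarTower.of_algebraMap_eq fun x => by
        rw [IsScalarTower.algebraMap_apply K k N, IsScalarTower.algebraMap_apply K k₀ k]
        rfl
      have hmul := Module.finrank_mul_finrank K k₀ k
      rw [hk₀] at hmul
      have hpos : 0 < Module.finrank K k₀ := Module.finrank_pos
      obtain ⟨ih1, ih2⟩ := ih (Module.finrank K k₀) (by omega) k₀ rfl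
      have hab : ∀ x : K, algebraMap K k x = algebraMap k₀ k (algebraMap K k₀ x) :=
        IsScalarTower.algebraMap_apply K k₀ k
      refine ⟨fun u hu => ?_, fun L _ _ _ θ h =>
        quad_stepN (N := N) hk₀ h2S hd (hreal k₀ k hk₀) hram hdesc ih1 ih2 L θ h⟩
      have h2 : dn K (dn k₀ u) = dn K u := dn_dn u
      rw [hab, hab]
      refine NoRootAt.up hk₀ u (ih1 _ ?_)
      rw [h2]
      exact hu

section

variable {K N : Type} [Field K] [NumberField K] [Field N] [NumberField N] [Algebra K N]
  {Nt : Type} [Field Nt] [NumberField Nt] [Algebra K Nt] [Algebra N Nt] [IsScalarTower K N Nt]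
  [IsGalois K Nt]

/-- The Selmer group over a field between `K` and `N`. -/
theorem selN_mid (hos : OrdSub) {r : ℕ} (hr : Module.finrank K Nt = 2 ^ r)
    {Sg : Finset (HeightOneSpectrum (𝓞 K))} {a b : K}
    (h2S : ∀ v : HeightOneSpectrum (𝓞 K), v.valuation K 2 < 1 → v ∈ Sg)
    (hd : 4 * a ^ 3 + 27 * b ^ 2 ≠ 0)
    (hnice : ∀ v : HeightOneSpectrum (𝓞 K), v ∉ Sg → NiceAt v a b)
    (hreal : RealAt K N a b)
    (hram : ∀ V : HeightOneSpectrum (𝓞 N), dn K V ∉ Sg → Ram K V → NoRootAt (dn K V) a b)
    (hdesc : ∀ v ∈ Sg, DescAt K N v a b)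
    (hT : ∀ (L : Type) [Field L] [NumberField L] [Algebra K L] (θ : L), Cub K L a b θ →
      RelST K K L Sg ∅ a b θ)
    (k : Type) [Field k] [NumberField k] [Algebra K k] [Algebra k N] [IsScalarTower K k N]
    (L : Type) [Field L] [NumberField L] [Algebra k L] (θ : L)
    (h : Cub k L (algebraMap K k a) (algebraMap K k b) θ) :
    SelTriv k L (algebraMap K k a) (algebraMap K k b) θ := by
  obtain ⟨hNR, hRT⟩ := chainN hr h2S hd hreal hram hdesc hT _ k rfl
  intro d hd0 hsq hfin hre
  refine hRT L θ h d ⟨hd0, hsq, ?_, ?_, fun u _ => hfin u, hre⟩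
  · intro w hwg _
    obtain ⟨V, hV⟩ := exists_above (L := N) (dn k w)
    have hKV : dn K V = dn K (dn k w) := by
      rw [← hV]
      exact (dn_dn V).symm
    by_cases hr' : Ram K V
    · have h1 := hram V (by rw [hKV]; exact hwg) hr'
      rw [hKV] at h1
      exact even_unique h w (hNR _ h1) hd0 hsq
    · obtain ⟨-, h1⟩ := unram_mid (k := k) hr'
      rw [hV, hKV] at h1
      exact even_nice hos h w (NiceAt.up h1 (hnice _ hwg)) hd0 (hfin _)
  · intro v hv
    exact absurd hv (Finset.notMem_empty v)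

end

end H30ZO
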