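import Pool.Agent.H30.ZO.Uw
import Pool.Agent.H30.ZO.Ni
import Pool.Agent.H73.ZO.Gd

/-!
For every number field `K` and every `ε > 0` there is a finite set of quadratic twists such that all but
a proportion `ε` of the elliptic curves over `K` have a twist `E` in this set with the following
property.  For all fields `F`, finite or infinite over `K`, which are contained in a Galois extension of
`K` whose finite layers have two-power degree, the groups `E(M)` are finite of odd order and the groups
`Ш(E / M)` have trivial two-primary part for all number fields `M` between `K` and `F` if and only if `E`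
satisfies local conditions over `F`.  In every residue class a positive proportion of the curves has this
property.
-/

set_option autoImplicit false
open scoped Classical

namespace Pool.Agent.Results.MP_78d38b_nt.UniformHassePrinciple

open NumberField WeierstrassCurve IsDedekindDomain Pool.Agent.H10

/-- The pairs `(A, B)` of algebraic integers of `K` of height at most `X`: the absolute values of all
complex conjugates of `A` are at most `X²` and those of `B` are at most `X³`. -/
def Box (K : Type) [Field K] [NumberField K] (X : ℝ) : Set (𝓞 K × 𝓞 K) :=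
  {p | ∀ s : K →+* ℂ, ‖s (p.1 : K)‖ ≤ X ^ 2 ∧ ‖s (p.2 : K)‖ ≤ X ^ 3}

variable {K : Type} [Field K] [NumberField K]

/-- The curve `E : y² = x³ + A x + B` over the extension `M` of `K`, where `p = (A, B)`. -/
def curve (p : 𝓞 K × 𝓞 K) (M : Type) [Field M] [Algebra K M] : WeierstrassCurve M :=
  ⟨0, 0, 0, algebraMap K M p.1, algebraMap K M p.2⟩

/-- The group `E(M)` is finite of odd order and the Tate-Shafarevich group of `E` over `M` has no
nontrivial element of two-power order. -/
def Triv (p : 𝓞 K × 𝓞 K) (M : Type) [Field M] [NumberField M] [Algebra K M] : Prop :=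
  Finite (curve p M).toAffine.Point ∧ Odd (Nat.card (curve p M).toAffine.Point) ∧
    Sha2Trivial M (curve p M)

/-- The cocycle `f` of the Galois group of `k` in `W` becomes a coboundary over the extension `L`
of `k`. -/
def TrivialOver (k L : Type) [Field k] [NumberField k] [Field L] [Algebra k L]
    (W : WeierstrassCurve k) (f : (AlgebraicClosure k ≃ₐ[k] AlgebraicClosure k) →
      (W.baseChange (AlgebraicClosure k)).toAffine.Point) : Prop :=
  ∀ ι : AlgebraicClosure k →ₐ[k] AlgebraicClosure L,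
    ∃ P : (W.baseChange (AlgebraicClosure L)).toAffine.Point,
    ∀ τ : AlgebraicClosure L ≃ₐ[L] AlgebraicClosure L,
    ∀ σ : AlgebraicClosure k ≃ₐ[k] AlgebraicClosure k,
      (τ.toAlgHom.restrictScalars k).comp ι = ι.comp σ.toAlgHom →
      (WeierstrassCurve.Affine.Point.map ι :
        (W.baseChange (AlgebraicClosure k)).toAffine.Point →+
          (W.baseChange (AlgebraicClosure L)).toAffine.Point) (f σ) =
        (WeierstrassCurve.Affine.Point.map (τ.toAlgHom.restrictScalars k) :
          (W.baseChange (AlgebraicClosure L)).toAffine.Point →+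
            (W.baseChange (AlgebraicClosure L)).toAffine.Point) P - P

/-- The completion of `k'` at `w` as an extension of the subfield `k` of `k'`. -/
noncomputable abbrev compl (k k' : Type) [Field k] [Field k'] [NumberField k'] [Algebra k k']
    (w : HeightOneSpectrum (𝓞 k')) : Algebra k (w.adicCompletion k') :=
  ((algebraMap k' (w.adicCompletion k')).comp (algebraMap k k')).toAlgebra

/-- The local condition at the prime `v` of `K`: for all number fields `k ≤ k'` between `K` and `F`
with `[k' : k] = 2`, every class of `H¹(k, E)` killed by two which is trivial over the completions of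
`k'` at all the places above `v` is trivial over the completions of `k` at all the places above `v`. -/
def Loc (F : Type) [Field F] [Algebra K F] (v : HeightOneSpectrum (𝓞 K)) (p : 𝓞 K × 𝓞 K) : Prop :=
  ∀ (k k' : Type) [Field k] [NumberField k] [Field k'] [NumberField k'] [Algebra K k] [Algebra K k']
    [Algebra k k'] [IsScalarTower K k k'] [Algebra k' F] [IsScalarTower K k' F],
    Module.finrank k k' = 2 → ∀ f : (AlgebraicClosure k ≃ₐ[k] AlgebraicClosure k) →
      ((curve p k).baseChange (AlgebraicClosure k)).toAffine.Point,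
    IsCocycle k (curve p k) f → IsCobound k (curve p k) (fun σ => 2 • f σ) →
    (∀ w : HeightOneSpectrum (𝓞 k'), w.asIdeal.under (𝓞 K) = v.asIdeal →
      @TrivialOver k (w.adicCompletion k') _ _ _ (compl k k' w) (curve p k) f) →
    ∀ u : HeightOneSpectrum (𝓞 k), u.asIdeal.under (𝓞 K) = v.asIdeal →
      TrivialOver k (u.adicCompletion k) (curve p k) f

/-- The local condition at the real places: for all number fields `k ≤ k'` between `K` and `F` with
`[k' : k] = 2`, the real places of `k` at which `4 A³ + 27 B²` is not positive extend to real places of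
`k'`. -/
def LocReal (F : Type) [Field F] [Algebra K F] (p : 𝓞 K × 𝓞 K) : Prop :=
  ∀ (k k' : Type) [Field k] [NumberField k] [Field k'] [NumberField k'] [Algebra K k] [Algebra K k']
    [Algebra k k'] [IsScalarTower K k k'] [Algebra k' F] [IsScalarTower K k' F],
    Module.finrank k k' = 2 → ∀ s : k →+* ℝ,
      s (algebraMap K k (4 * (p.1 : K) ^ 3 + 27 * (p.2 : K) ^ 2)) ≤ 0 →
      ∃ s' : k' →+* ℝ, ∀ x : k, s' (algebraMap k k' x) = s x

variable (K) in
/-- The primes of `K` which are ramified in some number field between `K` and `L`. -/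
def Ramified (L : Type) [Field L] [Algebra K L] : Set (HeightOneSpectrum (𝓞 K)) :=
  {v | ∃ (N : IntermediateField K L) (_ : NumberField N) (V : HeightOneSpectrum (𝓞 N)),
    V.asIdeal.under (𝓞 K) = v.asIdeal ∧ v.asIdeal.map (algebraMap (𝓞 K) (𝓞 N)) ≤ V.asIdeal ^ 2}

variable (K) in
/-- The primes of `K` which split completely in the Galois extension `L`. -/
def Split (L : Type) [Field L] [Algebra K L] : Set (HeightOneSpectrum (𝓞 K)) :=
  {v | ∃ i : L →+* v.adicCompletion K, ∀ x : K,
    i (algebraMap K L x) = algebraMap K (v.adicCompletion K) x}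

/-- The automorphism `g` of `N / K` lies in the decomposition group of the prime `W` of `N`: it
preserves the valuation at `W`. -/
def InDec {N : Type} [Field N] [NumberField N] [Algebra K N] (W : HeightOneSpectrum (𝓞 N))
    (g : N ≃ₐ[K] N) : Prop :=
  ∀ x : N, W.valuation N (g x) = W.valuation N x

/-- The decomposition groups of the primes above `v` in the finite Galois extensions `N / K` inside `L`
have order at most two. -/
def DecTwo (L : Type) [Field L] [Algebra K L] (v : HeightOneSpectrum (𝓞 K)) : Prop :=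
  ∀ (N : IntermediateField K L) [NumberField N], IsGalois K N →
    ∀ W : HeightOneSpectrum (𝓞 N), W.asIdeal.under (𝓞 K) = v.asIdeal →
      ∃ t : N ≃ₐ[K] N, ∀ g : N ≃ₐ[K] N, InDec W g → g = 1 ∨ g = t

/-- The prime `v` is exempt: it splits completely in `L`; or it does not divide `2` and `x³ + A x + B`
has no root modulo `v`; or it is unramified in `L` and (it does not divide `2` and `E` has good reduction,
or it is not in `S` and not in `Q`, or it is in `Q` and its decomposition groups in `L` have order at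
most two). -/
def Exempt (L : Type) [Field L] [Algebra K L] (S Q : Finset (HeightOneSpectrum (𝓞 K)))
    (p : 𝓞 K × 𝓞 K) (v : HeightOneSpectrum (𝓞 K)) : Prop :=
  v ∈ Split K L ∨ ((2 : 𝓞 K) ∉ v.asIdeal ∧ ∀ t : 𝓞 K, t ^ 3 + p.1 * t + p.2 ∉ v.asIdeal) ∨
    (v ∉ Ramified K L ∧ (((2 : 𝓞 K) ∉ v.asIdeal ∧ 4 * p.1 ^ 3 + 27 * p.2 ^ 2 ∉ v.asIdeal) ∨
      (v ∉ S ∧ v ∉ Q) ∨ (v ∈ Q ∧ DecTwo L v)))

/-- `E` is an elliptic curve, `Triv` holds over `K`, and the local-global principle holds: for all
Galois extensions `L / K`, finite or infinite, such that the finite Galois extensions `N / K` inside `L`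
have two-power degree, and for all fields `F` between `K` and `L`, it is equivalent that `Triv` holds over
all number fields between `K` and `F`, that `E` satisfies the local conditions over `F` at all places, and
that it satisfies them at the real places and at the primes which are not exempt. -/
structure Hasse (S Q : Finset (HeightOneSpectrum (𝓞 K))) (p : 𝓞 K × 𝓞 K) : Prop where
  ell : 4 * p.1 ^ 3 + 27 * p.2 ^ 2 ≠ 0
  base : Triv p K
  lgp : ∀ (F L : Type) [Field F] [Field L] [Algebra K F] [Algebra K L] [Algebra F L]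
    [IsScalarTower K F L], IsGalois K L →
    (∀ (N : IntermediateField K L) [NumberField N], IsGalois K N →
      ∃ r : ℕ, Module.finrank K N = 2 ^ r) →
    List.TFAE [∀ (M : IntermediateField K F) [NumberField M], Triv p M,
      LocReal F p ∧ ∀ v : HeightOneSpectrum (𝓞 K), Loc F v p,
      LocReal F p ∧ ∀ v : HeightOneSpectrum (𝓞 K), ¬ Exempt L S Q p v → Loc F v p]

/-- Finite abelian groups of odd order. -/
private theorem odd_iff {G : Type} [AddCommGroup G] [Finite G] :
    Odd (Nat.card G) ↔ ∀ P : G, P + P = 0 → P = 0 := by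
  constructor
  · intro h P hP
    have h1 : addOrderOf P ∣ 2 := addOrderOf_dvd_of_nsmul_eq_zero (by rw [two_nsmul, hP])
    rcases (Nat.dvd_prime Nat.prime_two).1 h1 with h2 | h2
    · exact AddMonoid.addOrderOf_eq_one_iff.1 h2
    · exfalso
      have h3 := addOrderOf_dvd_natCard P
      rw [h2] at h3
      exact (Nat.not_even_iff_odd.2 h) (even_iff_two_dvd.2 h3)
  · intro h
    rw [← Nat.not_even_iff_odd, even_iff_two_dvd]
    intro h2
    obtain ⟨P, hP⟩ := exists_prime_addOrderOf_dvd_card' 2 h2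
    have h3 : P + P = 0 := by
      rw [← two_nsmul, ← hP]
      exact addOrderOf_nsmul_eq_zero P
    rw [h P h3, addOrderOf_zero] at hP
    norm_num at hP

private theorem triv_iff {p : 𝓞 K × 𝓞 K} {M : Type} [Field M] [NumberField M] [Algebra K M] :
    Triv p M ↔ H30ZO.Tv M (algebraMap K M p.1) (algebraMap K M p.2) := by
  constructor
  · rintro ⟨h1, h2, h3⟩
    exact ⟨h1, (@odd_iff _ _ h1).1 h2, h3⟩
  · rintro ⟨h1, h2, h3⟩
    exact ⟨h1, (@odd_iff _ _ h1).2 h2, h3⟩

omit [NumberField K] in
private theorem under_iff {L : Type} [Field L] [NumberField L] [Algebra K L]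
    {v : HeightOneSpectrum (𝓞 K)} {w : HeightOneSpectrum (𝓞 L)} :
    w.asIdeal.under (𝓞 K) = v.asIdeal ↔ H76PP.dn K w = v :=
  ⟨fun h => HeightOneSpectrum.ext h, fun h => by rw [← h]; rfl⟩

private theorem loc_iff {F : Type} [Field F] [Algebra K F] {v : HeightOneSpectrum (𝓞 K)}
    {p : 𝓞 K × 𝓞 K} : Loc F v p ↔ H36ZO.LocC K F v (p.1 : K) (p.2 : K) := by
  unfold Loc H36ZO.LocC
  simp only [under_iff]
  exact Iff.rfl

private theorem real_iff {F : Type} [Field F] [Algebra K F] {p : 𝓞 K × 𝓞 K} :
    LocReal F p ↔ H30ZO.RealF K F (p.1 : K) (p.2 : K) := by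
  unfold LocReal H30ZO.RealF
  constructor
  · intro h k k' _ _ _ _ _ _ _ _ _ _ two s
    rcases lt_or_ge 0 (s (algebraMap K k (4 * (p.1 : K) ^ 3 + 27 * (p.2 : K) ^ 2))) with h1 | h1
    · exact Or.inl h1
    · exact Or.inr (h k k' two s h1)
  · intro h k k' _ _ _ _ _ _ _ _ _ _ two s hs
    exact (h k k' two s).resolve_left (not_lt.2 hs)

private theorem ram_iff {F : Type} [Field F] [Algebra K F] {v : HeightOneSpectrum (𝓞 K)} :
    v ∈ Ramified K F ↔ H30ZO.RamF K F v := by
  refine exists_congr fun N => exists_congr fun hN => exists_congr fun V => ?_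
  rw [under_iff]
  constructor
  · rintro ⟨h1, h2⟩
    refine ⟨h1, ?_⟩
    rw [← h1] at h2
    exact h2
  · rintro ⟨h1, h2⟩
    refine ⟨h1, ?_⟩
    rw [← h1]
    exact h2

private theorem hasse_of {S Q : Finset (HeightOneSpectrum (𝓞 K))} {p : 𝓞 K × 𝓞 K}
    (h : H30ZO.HasU K S Q p) : Hasse S Q p := by
  refine ⟨h.ne, triv_iff.2 h.base, fun F L _ _ _ _ _ _ hgal hdeg => ?_⟩
  have hnr : ∀ (k : Type) [Field k] [NumberField k] [Algebra K k] (_ : k →ₐ[K] F) (t : k),
      t ^ 3 + algebraMap K k (p.1 : K) * t + algebraMap K k (p.2 : K) ≠ 0 :=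
    fun k _ _ _ f t => H30ZO.noroot_in hgal hdeg h.irr k ((IsScalarTower.toAlgHom K F L).comp f) t
  tfae_have 1 → 2 := by
    intro h1
    have h2 : H30ZO.PF K F p := fun M _ => triv_iff.1 (h1 M)
    exact ⟨real_iff.2 (H30ZO.zo_realF h.ne h2), fun v => loc_iff.2
      (H30ZO.locC_of_descN hnr fun M _ => H30ZO.zo_loc h.ne h2 M v)⟩
  tfae_have 2 → 3 := fun h1 => ⟨h1.1, fun v _ => h1.2 v⟩
  tfae_have 3 → 1 := by
    rintro ⟨h1, h2⟩ M _
    refine triv_iff.2 (h.main F L hgal hdeg ?_ (real_iff.1 h1) M)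
    intro v hv hs hr hQ
    by_cases hex : Exempt L S Q p v
    · intro M' _
      rcases hex with h3 | ⟨h3, h4⟩ | ⟨h3, ⟨h4, h5⟩ | ⟨h4, h5⟩ | ⟨h4, h5⟩⟩
      · exact absurd h3 hs
      · exact H30ZO.descAt_noroot_in hgal hdeg (F := F) h3 h.ne h.irr h4 M'
      · exact H30ZO.descAt_good_in hgal hdeg (F := F) (fun h6 => h3 (ram_iff.2 h6)) h4 h.irr h5 M'
      · exfalso
        rcases hv with h6 | h6 | h6
        · exact h4 h6
        · exact h5 h6
        · exact h3 (ram_iff.2 (H30ZO.ramF_up h6 hgal))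
      · exact absurd ⟨h4, fun h6 => h3 (ram_iff.2 h6), fun N _ hN W hW =>
          h5 N hN W (under_iff.2 hW)⟩ hQ
    · exact H30ZO.descN_of_locC hnr (loc_iff.1 (h2 v hex))
  tfae_finish

/-- Let `K` be a number field, `m` a nonzero ideal of its ring of integers and `Z` an infinite set of
primes of `K`.
(A) For every `ε > 0` there are finite sets `S` and `Q ⊆ Z` of primes and a finite set `T` of totally
positive algebraic integers `D ≡ 1 mod m`, squares in the completions at the primes of `S`, such that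
for all large `X` all but at most `ε * #(Box K X)` of the curves `y² = x³ + A x + B`,
`(A, B) ∈ Box K X`, have a quadratic twist `y² = x³ + D² A x + D³ B`, `D ∈ T`, which satisfies `Hasse`
for `S` and `Q`.
(B) There are finite sets `S` and `Q ⊆ Z` of primes and `c > 0` such that for all large `X` and every
residue class modulo `m` at least `c * #(Box K X)` of the curves in `Box K X` and in this residue class,
with pairwise different `j`-invariants, satisfy `Hasse` for `S` and `Q`. -/
theorem result (K : Type) [Field K] [NumberField K] (m : Ideal (𝓞 K)) (hm : m ≠ ⊥)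
    (Z : Set (HeightOneSpectrum (𝓞 K))) (hZ : Z.Infinite) :
    (∀ ε : ℝ, 0 < ε → ∃ (S Q : Finset (HeightOneSpectrum (𝓞 K))) (T : Finset (𝓞 K)) (X₀ : ℝ),
      (∀ v ∈ Q, v ∈ Z) ∧
      (∀ D ∈ T, D ≠ 0 ∧ D - 1 ∈ m ∧ (∀ s : K →+* ℝ, 0 < s (D : K)) ∧
        ∀ v ∈ S, IsSquare (algebraMap K (v.adicCompletion K) (D : K))) ∧
      ∀ X : ℝ, X₀ ≤ X → (Box K X).Finite ∧
        ({p : 𝓞 K × 𝓞 K | p ∈ Box K X ∧
          ¬ ∃ D ∈ T, Hasse S Q (D ^ 2 * p.1, D ^ 3 * p.2)}.ncard : ℝ) ≤
          ε * ((Box K X).ncard : ℝ)) ∧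
    ∃ (S Q : Finset (HeightOneSpectrum (𝓞 K))) (c X₀ : ℝ), (∀ v ∈ Q, v ∈ Z) ∧ 0 < c ∧
      ∀ (a b : 𝓞 K) (X : ℝ), X₀ ≤ X → ∃ G : Finset (𝓞 K × 𝓞 K),
        c * ((Box K X).ncard : ℝ) ≤ (G.card : ℝ) ∧
        (∀ p ∈ G, p ∈ Box K X ∧ p.1 - a ∈ m ∧ p.2 - b ∈ m ∧ Hasse S Q p) ∧
        ∀ p ∈ G, ∀ q ∈ G, p ≠ q → p.1 ^ 3 * q.2 ^ 2 ≠ q.1 ^ 3 * p.2 ^ 2 := by
  have hbox : ∀ X : ℝ, Box K X = H76PP.Bx K X := by
    intro X
    ext p
    exact ⟨fun h => ⟨fun s => (h s).1, fun s => (h s).2⟩, fun h s => ⟨h.1 s, h.2 s⟩⟩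
  constructor
  · intro ε hε
    obtain ⟨S, Q, T, X₀, h0, h1, h2⟩ := H30ZO.main_AW K hm hε hZ
    refine ⟨S, Q, T, X₀, h0, fun D hD => ?_, fun X hX => ?_⟩
    · obtain ⟨g1, g2, g3, g4⟩ := h1 D hD
      refine ⟨g2, g1, g3, fun v hv => ?_⟩
      obtain ⟨r, hr⟩ := g4 v hv
      exact ⟨r, by rw [hr, sq]⟩
    · rw [hbox X]
      refine ⟨H76PP.Bx_fin K X, le_trans ?_ (h2 X hX)⟩
      refine Nat.cast_le.2 (Set.ncard_le_ncard ?_ ((H76PP.Bx_fin K X).subset fun p hp => hp.1))
      rintro p ⟨hp, hno⟩
      refine ⟨hp, fun hex => hno ?_⟩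
      obtain ⟨D, hD, hg⟩ := hex
      exact ⟨D, hD, hasse_of hg⟩
  · obtain ⟨S, Q, c, X₀, h0, hc, h⟩ := H30ZO.main_BW K hm hZ
    refine ⟨S, Q, c, X₀, h0, hc, fun a b X hX => ?_⟩
    obtain ⟨G, h1, h2, h3⟩ := h a b X hX
    rw [hbox X]
    refine ⟨G, h3, fun p hp => ?_, fun p hp q hq hne h4 => hne (h2 p hp q hq h4)⟩
    obtain ⟨g1, g2, g3, g4⟩ := h1 p hp
    exact ⟨g1, g2, g3, hasse_of g4⟩

end Pool.Agent.Results.MP_78d38b_nt.UniformHassePrinciple
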